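import Pool.Agent.Work.MP_a98e4e_ag.Fu.L.Tab
import Pool.Agent.Work.MP_a98e4e_ag.Fu.U.Base

section

/-!
# LICCI, codimension 4: the `gl_8`-description of the table of `e_8` (definitions)

`F = A ^ 8`.  `e_8 = F ⊕ Λ² F^* ⊕ Λ³ F ⊕ gl(F) ⊕ Λ³ F^* ⊕ Λ² F ⊕ F^*`, `z`-degrees `3, 2, 1, 0, -1, -2, -3`.
* `p3 Y : F` and `om Y : Λ² F^*` are the components of degree `3` and `2` of `Y`, `V3 v` and `W2 w` the
  inclusions; `M1 μ` is the inclusion of `Λ³ F^*` in degree `-1`, `th Y` the component;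
* `tri x y z` is `x ∧ y ∧ z` in degree `1`; `Eg i j` is the matrix unit (`j ↦ i`) in degree `0`;
* `Th Y Z = ι_v ω' + ι_v' ω` for `Y = v + ω + ⋯`, `Z = v' + ω' + ⋯`.
-/

namespace Pool.Agent.Licci

open scoped BigOperators

/-- `F` -/
abbrev Vec (A : Type*) := Fin 8 → A

/-- `k`-th index as an element of `Fin 248` -/
def ix (k : ℕ) : Fin 248 := Fin.ofNat 248 k

/-- index of `w_ij` (`z`-degree `2`) -/
def i2 (i j : Fin 8) : Fin 248 :=
  ix (fnd (0x44444444 + 0x11111111 - 16 ^ (i : ℕ) - 16 ^ (j : ℕ)))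

/-- index of `E_ijk` (`z`-degree `1`) -/
def i1 (i j k : Fin 8) : Fin 248 :=
  ix (fnd (0x44444444 + 16 ^ (i : ℕ) + 16 ^ (j : ℕ) + 16 ^ (k : ℕ)))

/-- index of the matrix unit `(i, j)`, `i ≠ j` -/
def i0 (i j : Fin 8) : Fin 248 := ix (fnd (0x44444444 + 16 ^ (i : ℕ) - 16 ^ (j : ℕ)))

/-- index in degree `-1` -/
def im1 (i j k : Fin 8) : Fin 248 :=
  ix (fnd (0x44444444 - 16 ^ (i : ℕ) - 16 ^ (j : ℕ) - 16 ^ (k : ℕ)))

/-- index in degree `-2` -/
def im2 (i j : Fin 8) : Fin 248 :=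
  ix (fnd (0x44444444 - 0x11111111 + 16 ^ (i : ℕ) + 16 ^ (j : ℕ)))

/-- sign of `i < j` -/
def ep2 (i j : Fin 8) : ℤ := Int.sign ((j : ℤ) - i)

/-- sign of the permutation sorting `i, j, k` (zero if two are equal) -/
def ep3 (i j k : Fin 8) : ℤ := Int.sign (((j : ℤ) - i) * ((k : ℤ) - i) * ((k : ℤ) - j))

/-- `(-1) ^ (i + j + k)` -/
def sg3 (i j k : Fin 8) : ℤ := (-1) ^ ((i : ℕ) + j + k)

section

variable {A : Type*} [CommRing A]

/-- component of degree `3` -/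
def p3 (Y : E8 A) : Vec A := fun i => Y (ix i)

/-- coefficients of the component of degree `2` -/
def w2 (Y : E8 A) (i j : Fin 8) : A := (ep2 i j : A) * Y (i2 i j)

/-- component of degree `2` as a bilinear form -/
def om (Y : E8 A) (x y : Vec A) : A := ∑ i, ∑ j, w2 Y i j * (x i * y j)

/-- coefficients of the component of degree `-1` -/
def t1 (Y : E8 A) (i j k : Fin 8) : A := ((sg3 i j k * ep3 i j k : ℤ) : A) * Y (im1 i j k)

/-- component of degree `-1` as a trilinear form -/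
def th (Y : E8 A) (x y z : Vec A) : A := ∑ i, ∑ j, ∑ k, t1 Y i j k * (x i * y j * z k)

/-- inclusion of `F` in degree `3` -/
def V3 (v : Vec A) : E8 A := fun m => if h : (m : ℕ) < 8 then v ⟨m, h⟩ else 0

/-- inclusion of `Λ² F^*` in degree `2` (only the coefficients with `i < j` are used) -/
def W2 (w : Fin 8 → Fin 8 → A) : E8 A := ∑ i, ∑ j, if i < j then w i j • eb (i2 i j) else 0

/-- inclusion of `Λ³ F^*` in degree `-1` (only the coefficients with `i < j < k` are used) -/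
def M1 (μ : Fin 8 → Fin 8 → Fin 8 → A) : E8 A :=
  ∑ i, ∑ j, ∑ k, if i < j ∧ j < k then (((sg3 i j k : ℤ) : A) * μ i j k) • eb (im1 i j k) else 0

/-- `e_i ∧ e_j ∧ e_k` in degree `1` -/
def T (i j k : Fin 8) : E8 A := ((-(sg3 i j k * ep3 i j k) : ℤ) : A) • eb (i1 i j k)

/-- `x ∧ y ∧ z` in degree `1` -/
def tri (x y z : Vec A) : E8 A := ∑ i, ∑ j, ∑ k, (x i * y j * z k) • T i j k

/-- matrix unit `e_j ↦ e_i`, for `i ≠ j` -/
def Eg (i j : Fin 8) : E8 A :=
  (((-1) ^ ((i : ℕ) + j + if j < i then 1 else 0) : ℤ) : A) • eb (i0 i j)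

/-- `Θ(Y, Z) = ι_v ω' + ι_v' ω` -/
def Th (Y Z : E8 A) (u : Vec A) : A := om Z (p3 Y) u + om Y (p3 Z) u

/-- `z`-degree -/
def zdg (m : Fin 248) : ℤ := zdN m

/-- weight `b_q` -/
def wtg (q : Fin 8) (m : Fin 248) : ℤ := wtN m q

/-- `x`-degree: `z`-degree minus `b_0` -/
def xdg (m : Fin 248) : ℤ := zdN m - wtN m 0

/-- the form `B_0` on `x`-degree `2`: `-1` on the pairs `(v_q, w_0q)` = indices `(q, q + 7)` -/
def B0 (g h : E8 A) : A := - ∑ q : Fin 7, (g (ix (q + 1)) * h (ix (q + 8)) + g (ix (q + 8)) * h (ix (q + 1)))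

/-- `Y` is supported in degrees `≤ k` -/
def Le (d : Fin 248 → ℤ) (k : ℤ) (Y : E8 A) : Prop := ∀ m, k < d m → Y m = 0

/-- Euler element of the `z`-grading -/
def Hz : E8 A := fun m =>
  if 240 ≤ (m : ℕ) then ((([3, 6, 9, 12, 15, 10, 5, 8] : List ℤ).getD ((m : ℕ) - 240) 0 : ℤ) : A) else 0

/-- an automorphism -/
structure IsAut (k : E8 A →ₗ[A] E8 A) : Prop where
  bij : Function.Bijective k
  map_br : ∀ x y, k (br x y) = br (k x) (k y)

end

section exp

variable {A : Type*} [CommRing A] [Algebra ℚ A]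

/-- the exponential of `ad x`, for `(ad x) ^ 7 = 0` -/
noncomputable def ex (x : E8 A) : E8 A →ₗ[A] E8 A :=
  ∑ n ∈ Finset.range 7, algebraMap ℚ A ((n.factorial : ℚ)⁻¹) • (brL x) ^ n

end exp

end Pool.Agent.Licci

end

section

/-!
# LICCI, codimension 4: further definitions for the modules L5 - L12
-/

namespace Pool.Agent.Licci

open scoped BigOperators
open U (Sup)

section

variable {A : Type*} [CommRing A]

/-- `f ∧ θ` -/
def wedge12 (f : Vec A) (θ : Fin 8 → Fin 8 → A) (i j k : Fin 8) : A :=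
  f i * θ j k - f j * θ i k + f k * θ i j

/-- `f ∧ η` -/
def wedge11 (f η : Vec A) (i j : Fin 8) : A := f i * η j - f j * η i

/-- index of the negative of the `i`-th root, `1 ≤ i ≤ 14` -/
def ngN (i : ℕ) : ℕ := if i < 8 then 232 + i else 196 + i

/-- pairing of `x`-degree `-2` (of `y`) with `x`-degree `2` (of `g`) -/
def kp (y g : E8 A) : A := ∑ q : Fin 14, y (ix (ngN (q + 1))) * g (ix (q + 1))

/-- `e_-α ↦ e_α*` -/
def shp (y : E8 A) : E8 A :=
  ∑ q : Fin 7, (y (ix (232 + (q + 1))) • eb (ix (q + 8)) + y (ix (204 + q)) • eb (ix (q + 1)))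

/-- `f` is the linear form of `k` -/
def FormOf (k : E8 A →ₗ[A] E8 A) (f : Vec A →ₗ[A] A) : Prop :=
  ∀ g h : E8 A, Sup xdg 2 g → Sup xdg 2 h → ∀ u, Th (k g) (k h) u = B0 g h * f u

/-- the first order term of the form of `exp (t E) k`, computed on a pair with `B0 = -1` -/
def nuOf (k : E8 A →ₗ[A] E8 A) (x y z u : Vec A) : A :=
  -(Th (br (tri x y z) (k (eb (ix 1)))) (k (eb (ix 8))) u +
    Th (k (eb (ix 1))) (br (tri x y z) (k (eb (ix 8)))) u)

/-- the torus element `u ^ b_q` -/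
def tor (q : Fin 8) (u : Aˣ) : E8 A →ₗ[A] E8 A where
  toFun Y := fun m => ((u ^ (wtg q m) : Aˣ) : A) * Y m
  map_add' Y Z := by funext m; simp [mul_add]
  map_smul' c Y := by funext m; simp; ring

end

/-- a linear form and a `4`-form with `f ∧ ν = 0`, in coordinates -/
structure Dat (R : Type*) [CommRing R] where
  f : Vec R
  nu : Fin 8 → Fin 8 → Fin 8 → Fin 8 → R
  nu0 : ∀ i k l, nu i i k l = 0
  nu1 : ∀ i j k l, nu i j k l = - nu j i k l
  nu2 : ∀ i j k l, nu i j k l = - nu i k j l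
  nu3 : ∀ i j k l, nu i j k l = - nu i j l k
  cyc : ∀ a b c d e, f a * nu b c d e - f b * nu a c d e + f c * nu a b d e - f d * nu a b c e +
    f e * nu a b c d = 0

/-- `(v, w) ∈ P'` : `f (v) = 0`, `f ∧ w = ι_v ν` -/
structure Dat.IsP {R : Type*} [CommRing R] (D : Dat R) (v : Vec R) (w : Fin 8 → Fin 8 → R) :
    Prop where
  w0 : ∀ i, w i i = 0
  w1 : ∀ i j, w i j = - w j i
  fv : ∑ m, D.f m * v m = 0
  fw : ∀ a b c, D.f a * w b c - D.f b * w a c + D.f c * w a b = ∑ m, v m * D.nu m a b c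

/-- `μ_i = ι_(e_i) ν / f_i` -/
noncomputable def Dat.mu {R : Type*} [CommRing R] {T : Type*} [CommRing T] [Algebra R T] (D : Dat R)
    (i : Fin 8) (a b c : Fin 8) : T :=
  Ring.inverse (algebraMap R T (D.f i)) * algebraMap R T (D.nu i a b c)

/-- `v + (w + ι_v μ_i)` -/
noncomputable def Dat.sv {R : Type*} [CommRing R] (D : Dat R) (T : Type*) [CommRing T] [Algebra R T]
    (i : Fin 8) (v : Vec R) (w : Fin 8 → Fin 8 → R) : E8 T :=
  V3 (fun a => algebraMap R T (v a)) +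
    W2 (fun a b => algebraMap R T (w a b) + ∑ m, algebraMap R T (v m) * D.mu (T := T) i m a b)

/-- a state: 14 vectors over `R` which are the image of the standard `x`-degree `2` under an
automorphism over `K` -/
structure RState (R : Type*) [CommRing R] (K : Type*) [Field K] [Algebra R K]
    (M : Matrix (Fin 14) (Fin 14) R) where
  γ : Fin 14 → E8 R
  k : E8 K →ₗ[K] E8 K
  aut : IsAut k
  g : Fin 14 → E8 K
  sup : ∀ l, Sup xdg 2 (g l)
  kg : ∀ l, k (g l) = algebraMap R K ∘ γ l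
  gram : ∀ l m, B0 (g l) (g m) = algebraMap R K (M l m)
  f : Vec R →ₗ[R] R
  th : ∀ l m u, Th (γ l) (γ m) u = M l m * f u
  f0 : f ≠ 0

end Pool.Agent.Licci

end
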