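import Pool.Agent.Work.MP_a98e4e_ag.Fu.L.Tab
import Pool.Agent.Work.MP_a98e4e_ag.L.Chunk

section

/-! Kernel checks for the Jacobi identity: definitions, weights, antisymmetry. -/

set_option linter.unusedSectionVars false

namespace Pool.Agent.Licci

open scoped BigOperators

/-- `ad g` is a derivation on `j, k`; skipped when no basis vector has the weight of `g + j + k` -/
def ck (g j k : ℕ) : Bool :=
  let s := Nat.add (cd g) (Nat.add (cd j) (cd k))
  bif Nat.blt (fnd (Nat.sub s off)) 240 then dv g j k
  else bif Nat.beq s 1717986918 then dv g j k else true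

/-- `ad g` is a derivation on all pairs `j > k` -/
def chk (g : ℕ) : Bool :=
  (List.range 248).all (fun j => (List.range j).all (fun k => ck g j k))

/-- indices of the simple roots and of the lowest root -/
def gens : List ℕ := [92, 100, 108, 116, 124, 132, 140, 91, 232]

/-- antisymmetry on a pair of roots, skipped when the bracket vanishes by definition -/
def sk (i j : ℕ) : Bool :=
  let s := Nat.add (cd i) (cd j)
  bif Nat.blt (fnd s) 240 then zr (sp i j ++ sp j i)
  else bif Nat.beq s 1145324612 then zr (sp i j ++ sp j i) else true

set_option maxRecDepth 100000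

theorem skew_chk : (List.range 240).all (fun i => (List.range (i + 1)).all
    (fun j => sk i j)) = true :=
  all_range_of7 _ (by decide +kernel) (by decide +kernel) (by decide +kernel) (by decide +kernel) (by decide +kernel) (by decide +kernel) (by decide +kernel)

theorem fnd_chk : (List.range 240).all (fun i => Nat.beq (fnd (Nat.add (cd i) off)) i) = true := by
  decide +kernel

theorem cartan_chk : (List.range 8).all (fun i => Nat.beq (cd (240 + i)) off) = true := by
  decide +kernel

theorem all_range {p : ℕ → Bool} {n : ℕ} (h : (List.range n).all p = true) {i : ℕ} (hi : i < n) :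
    p i = true := by
  rw [List.all_eq_true] at h
  exact h i (List.mem_range.2 hi)

theorem fnd_cd {i : ℕ} (hi : i < 240) : fnd (cd i + off) = i := by
  have := all_range fnd_chk hi
  simpa using this

theorem cd_cartan {i : ℕ} (h1 : 240 ≤ i) (h2 : i < 248) : cd i = off := by
  have := all_range cartan_chk (i := i - 240) (by omega)
  have e : 240 + (i - 240) = i := by omega
  simpa [e] using this

theorem fnd_spec {s : ℕ} (h : fnd s < 240) : cd (fnd s) + off = s := by
  unfold fnd at h ⊢
  simp only at h ⊢
  generalize Nat.mod (Nat.shiftRight HT (Nat.mul 8 (Nat.mod s 763))) 256 = k at h ⊢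
  cases h1 : Nat.blt k 240 with
  | false => rw [h1, cond_false] at h; omega
  | true =>
    rw [h1, cond_true] at h
    cases h2 : Nat.beq (Nat.add (cd k) off) s with
    | false => rw [h2, cond_false] at h; omega
    | true =>
      rw [cond_true, cond_true]
      simpa using h2

theorem off2 : (1145324612 : ℕ) = off + off := rfl

theorem off3 : (1717986918 : ℕ) = off + off + off := rfl

/-- brackets respect weights and the index range -/
theorem sp_mem {i j : ℕ} (hi : i < 248) (hj : j < 248) {p : ℕ × ℤ} (hp : p ∈ sp i j) :
    p.1 < 248 ∧ cd i + cd j = cd p.1 + off := by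
  unfold sp at hp
  rcases lt_or_ge i 240 with h1 | h1
  · have b1 : Nat.blt i 240 = true := by simpa [Nat.blt_eq] using h1
    rcases lt_or_ge j 240 with h2 | h2
    · have b2 : Nat.blt j 240 = true := by simpa [Nat.blt_eq] using h2
      simp only [b1, b2, cond_true] at hp
      cases h3 : Nat.blt (fnd (Nat.add (cd i) (cd j))) 240 with
      | true =>
        have h4 : fnd (cd i + cd j) < 240 := by simpa [Nat.blt_eq] using h3
        have h5 := fnd_spec h4
        rw [h3] at hp
        simp only [cond_true] at hp
        cases h6 : sgB i j with
        | true =>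
          rw [h6] at hp
          simp only [cond_true, List.mem_singleton] at hp
          rw [hp]
          exact ⟨lt_trans h4 (by norm_num), h5.symm⟩
        | false =>
          rw [h6] at hp
          simp only [cond_false, List.mem_singleton] at hp
          rw [hp]
          exact ⟨lt_trans h4 (by norm_num), h5.symm⟩
      | false =>
        rw [h3] at hp
        simp only [cond_false] at hp
        cases h6 : Nat.beq (Nat.add (cd i) (cd j)) 1145324612 with
        | true =>
          have h7 : cd i + cd j = off + off := by
            rw [← off2]
            simpa using h6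
          rw [h6] at hp
          simp only [cond_true, List.mem_cons, List.not_mem_nil, or_false] at hp
          rw [h7]
          rcases hp with rfl | rfl | rfl | rfl | rfl | rfl | rfl | rfl <;>
            exact ⟨by norm_num, by rw [cd_cartan (by norm_num) (by norm_num)]⟩
        | false =>
          rw [h6] at hp
          simp at hp
    · have b2 : Nat.blt j 240 = false := by
        rw [Bool.eq_false_iff]
        intro h
        rw [Nat.blt_eq] at h
        omega
      simp only [b1, b2, cond_true, cond_false, List.mem_singleton] at hp
      rw [hp]
      exact ⟨hi, by rw [cd_cartan h2 hj]⟩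
  · have b1 : Nat.blt i 240 = false := by
      rw [Bool.eq_false_iff]
      intro h
      rw [Nat.blt_eq] at h
      omega
    rcases lt_or_ge j 240 with h2 | h2
    · have b2 : Nat.blt j 240 = true := by simpa [Nat.blt_eq] using h2
      simp only [b1, b2, cond_true, cond_false, List.mem_singleton] at hp
      rw [hp]
      exact ⟨hj, by rw [cd_cartan h1 hi, add_comm]⟩
    · have b2 : Nat.blt j 240 = false := by
        rw [Bool.eq_false_iff]
        intro h
        rw [Nat.blt_eq] at h
        omega
      simp [b1, b2] at hp

theorem sp_rng {i j : ℕ} (hi : i < 248) (hj : j < 248) {p : ℕ × ℤ} (hp : p ∈ sp i j) :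
    p.1 < 248 := (sp_mem hi hj hp).1

theorem scN_wt {i j l : ℕ} (hi : i < 248) (hj : j < 248) (h : scN i j l ≠ 0) :
    cd i + cd j = cd l + off := by
  by_contra hc
  exact h (cf_eq_zero_of_notMem _ _ (fun p hp hl => hc (hl ▸ (sp_mem hi hj hp).2)))

end Pool.Agent.Licci

end

section

/-! Kernel checks for the Jacobi identity: the check `chk g` cut into twelve ranges of `j`
(keeps the memory of one kernel evaluation small). -/

namespace Pool.Agent.Licci

/-- `chk g` restricted to `a ≤ j < a + n` -/
def chkR (g a n : ℕ) : Bool :=
  (List.range' a n).all (fun j => (List.range j).all (fun k => ck g j k))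

theorem chk_of (g : ℕ)
    (h0 : chkR g 0 71 = true)
    (h1 : chkR g 71 30 = true)
    (h2 : chkR g 101 23 = true)
    (h3 : chkR g 124 19 = true)
    (h4 : chkR g 143 17 = true)
    (h5 : chkR g 160 15 = true)
    (h6 : chkR g 175 14 = true)
    (h7 : chkR g 189 13 = true)
    (h8 : chkR g 202 12 = true)
    (h9 : chkR g 214 12 = true)
    (h10 : chkR g 226 11 = true)
    (h11 : chkR g 237 11 = true) :
    chk g = true := by
  unfold chk
  rw [List.all_eq_true]
  intro j hj
  rw [List.mem_range] at hj
  have key : ∀ a n, chkR g a n = true → a ≤ j → j < a + n →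
      (List.range j).all (fun k => ck g j k) = true := by
    intro a n h h1 h2
    unfold chkR at h
    rw [List.all_eq_true] at h
    exact h j (by rw [List.mem_range'_1]; exact ⟨h1, h2⟩)
  by_cases t0 : j < 71
  · exact key _ _ h0 (by omega) (by omega)
  by_cases t1 : j < 101
  · exact key _ _ h1 (by omega) (by omega)
  by_cases t2 : j < 124
  · exact key _ _ h2 (by omega) (by omega)
  by_cases t3 : j < 143
  · exact key _ _ h3 (by omega) (by omega)
  by_cases t4 : j < 160
  · exact key _ _ h4 (by omega) (by omega)
  by_cases t5 : j < 175
  · exact key _ _ h5 (by omega) (by omega)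
  by_cases t6 : j < 189
  · exact key _ _ h6 (by omega) (by omega)
  by_cases t7 : j < 202
  · exact key _ _ h7 (by omega) (by omega)
  by_cases t8 : j < 214
  · exact key _ _ h8 (by omega) (by omega)
  by_cases t9 : j < 226
  · exact key _ _ h9 (by omega) (by omega)
  by_cases t10 : j < 237
  · exact key _ _ h10 (by omega) (by omega)
  by_cases t11 : j < 248
  · exact key _ _ h11 (by omega) (by omega)
  omega

end Pool.Agent.Licci

end
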