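import Pool.Agent.Work.MP_a98e4e_ag.Fu.L.Form
import Pool.Agent.Work.MP_a98e4e_ag.Fu.L.ChkDef

/-!
# LICCI, codimension 4: degrees, weights and nilpotency for the table of `e_8`
-/

set_option linter.unusedSectionVars false

namespace Pool.Agent.Licci

open scoped BigOperators
open U (Sup)

/-! ### digits -/

/-- sum of the digits -/
def gsN (i : ℕ) : ℕ :=
  dg i 0 + dg i 1 + dg i 2 + dg i 3 + dg i 4 + dg i 5 + dg i 6 + dg i 7

/-- the check of the digits of one basis vector -/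
def gchk (i : ℕ) : Bool :=
  let s := gsN i
  (List.range 8).all (fun q => Nat.ble (dg i q) 4) && (Nat.beq (Nat.mod (Nat.add s 2) 3) 0 &&
    (Nat.ble 7 s && (Nat.ble s 25 && (Nat.ble (Nat.add (Nat.mul 3 (dg i 0)) 4) s &&
      (Nat.ble s (Nat.add (Nat.mul 3 (dg i 0)) 16) && Nat.blt (cd i) 4294967296)))))

set_option maxRecDepth 100000 in
theorem gchk_all : (List.range 248).all gchk = true := by decide +kernel

theorem g_spec {i : ℕ} (hi : i < 248) : (∀ q < 8, dg i q ≤ 4) ∧ (gsN i + 2) % 3 = 0 ∧ 7 ≤ gsN i ∧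
    gsN i ≤ 25 ∧ 3 * dg i 0 + 4 ≤ gsN i ∧ gsN i ≤ 3 * dg i 0 + 16 ∧ cd i < 4294967296 := by
  have h := all_range gchk_all hi
  simp only [gchk, Bool.and_eq_true, Nat.ble_eq, Nat.beq_eq, Nat.blt_eq] at h
  obtain ⟨h1, h2, h3, h4, h5, h6, h7⟩ := h
  refine ⟨fun q hq => ?_, h2, h3, h4, h5, h6, h7⟩
  have := all_range h1 hq
  simpa [Nat.ble_eq] using this

theorem dg_eq (i q : ℕ) : dg i q = cd i / 2 ^ (4 * q) % 16 := by
  unfold dg
  rw [← Nat.shiftRight_eq_div_pow]
  rfl

theorem cd_digits {i : ℕ} (h : cd i < 4294967296) : cd i = dg i 0 + dg i 1 * 16 + dg i 2 * 256 +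
    dg i 3 * 4096 + dg i 4 * 65536 + dg i 5 * 1048576 + dg i 6 * 16777216 +
    dg i 7 * 268435456 := by
  simp only [dg_eq]
  norm_num
  omega

theorem dg_add {i j k : ℕ} (hi : i < 248) (hj : j < 248) (hk : k < 248)
    (h : cd i + cd j = cd k + off) (q : ℕ) (hq : q < 8) : dg i q + dg j q = dg k q + 2 := by
  obtain ⟨a1, -, -, -, -, -, a2⟩ := g_spec hi
  obtain ⟨b1, -, -, -, -, -, b2⟩ := g_spec hj
  obtain ⟨c1, -, -, -, -, -, c2⟩ := g_spec hk
  have a3 := cd_digits a2
  have b3 := cd_digits b2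
  have c3 := cd_digits c2
  have h' : cd i + cd j = cd k + 572662306 := h
  rw [a3, b3, c3] at h'
  have a0 := a1 0 (by norm_num)
  have a11 := a1 1 (by norm_num)
  have a12 := a1 2 (by norm_num)
  have a13 := a1 3 (by norm_num)
  have a14 := a1 4 (by norm_num)
  have a15 := a1 5 (by norm_num)
  have a16 := a1 6 (by norm_num)
  have a17 := a1 7 (by norm_num)
  have b0 := b1 0 (by norm_num)
  have b11 := b1 1 (by norm_num)
  have b12 := b1 2 (by norm_num)
  have b13 := b1 3 (by norm_num)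
  have b14 := b1 4 (by norm_num)
  have b15 := b1 5 (by norm_num)
  have b16 := b1 6 (by norm_num)
  have b17 := b1 7 (by norm_num)
  have c0 := c1 0 (by norm_num)
  have c11 := c1 1 (by norm_num)
  have c12 := c1 2 (by norm_num)
  have c13 := c1 3 (by norm_num)
  have c14 := c1 4 (by norm_num)
  have c15 := c1 5 (by norm_num)
  have c16 := c1 6 (by norm_num)
  have c17 := c1 7 (by norm_num)
  clear a1 b1 c1 a2 b2 c2 a3 b3 c3 h
  have e : dg i 0 + dg j 0 = dg k 0 + 2 ∧ dg i 1 + dg j 1 = dg k 1 + 2 ∧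
      dg i 2 + dg j 2 = dg k 2 + 2 ∧ dg i 3 + dg j 3 = dg k 3 + 2 ∧
      dg i 4 + dg j 4 = dg k 4 + 2 ∧ dg i 5 + dg j 5 = dg k 5 + 2 ∧
      dg i 6 + dg j 6 = dg k 6 + 2 ∧ dg i 7 + dg j 7 = dg k 7 + 2 := by
    refine ⟨?_, ?_, ?_, ?_, ?_, ?_, ?_, ?_⟩ <;> omega
  obtain ⟨e0, e1, e2, e3, e4, e5, e6, e7⟩ := e
  interval_cases q <;> assumption

theorem zdN_eq (i : ℕ) : zdN i = ((gsN i : ℤ) - 16) / 3 := rfl

theorem zdN_three {i : ℕ} (hi : i < 248) : 3 * zdN i = (gsN i : ℤ) - 16 := by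
  obtain ⟨-, h, -⟩ := g_spec hi
  rw [zdN_eq]
  omega

theorem gsN_add {i j k : ℕ} (hi : i < 248) (hj : j < 248) (hk : k < 248)
    (h : cd i + cd j = cd k + off) : gsN i + gsN j = gsN k + 16 := by
  have e := dg_add hi hj hk h
  have e0 := e 0 (by norm_num)
  have e1 := e 1 (by norm_num)
  have e2 := e 2 (by norm_num)
  have e3 := e 3 (by norm_num)
  have e4 := e 4 (by norm_num)
  have e5 := e 5 (by norm_num)
  have e6 := e 6 (by norm_num)
  have e7 := e 7 (by norm_num)
  unfold gsN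
  omega

/-! ### bounds -/

theorem zdg_ge (m : Fin 248) : -3 ≤ zdg m := by
  obtain ⟨-, -, h, -⟩ := g_spec m.2
  have := zdN_three m.2
  unfold zdg
  omega

theorem zdg_le (m : Fin 248) : zdg m ≤ 3 := by
  obtain ⟨-, -, -, h, -⟩ := g_spec m.2
  have := zdN_three m.2
  unfold zdg
  omega

theorem wtg_ge (q : Fin 8) (m : Fin 248) : -2 ≤ wtg q m := by
  unfold wtg wtN
  omega

theorem wtg_le (q : Fin 8) (m : Fin 248) : wtg q m ≤ 2 := by
  obtain ⟨h, -⟩ := g_spec m.2
  have := h q q.2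
  unfold wtg wtN
  omega

theorem xdg_ge (m : Fin 248) : -2 ≤ xdg m := by
  obtain ⟨-, -, -, -, h1, h2, -⟩ := g_spec m.2
  have := zdN_three m.2
  unfold xdg wtN
  omega

theorem xdg_le (m : Fin 248) : xdg m ≤ 2 := by
  obtain ⟨-, -, -, -, h1, h2, -⟩ := g_spec m.2
  have := zdN_three m.2
  unfold xdg wtN
  omega

theorem sum_wtg (m : Fin 248) : ∑ q : Fin 8, wtg q m = 3 * zdg m := by
  have h := zdN_three m.2
  unfold gsN at h
  unfold zdg
  rw [h, Fin.sum_univ_eight]
  unfold wtg wtN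
  simp only [Fin.isValue, Fin.val_zero, Fin.val_one, Fin.val_two]
  have e3 : ((3 : Fin 8) : ℕ) = 3 := rfl
  have e4 : ((4 : Fin 8) : ℕ) = 4 := rfl
  have e5 : ((5 : Fin 8) : ℕ) = 5 := rfl
  have e6 : ((6 : Fin 8) : ℕ) = 6 := rfl
  have e7 : ((7 : Fin 8) : ℕ) = 7 := rfl
  rw [e3, e4, e5, e6, e7]
  push_cast
  ring

/-! ### the bracket respects degrees -/

theorem sc_cd {i j k : Fin 248} (h : sc i j k ≠ 0) : cd i + cd j = cd k + off :=
  scN_wt i.2 j.2 h

theorem sc_zdg {i j k : Fin 248} (h : sc i j k ≠ 0) : zdg i + zdg j = zdg k := by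
  have h1 := gsN_add i.2 j.2 k.2 (sc_cd h)
  have a := zdN_three i.2
  have b := zdN_three j.2
  have c := zdN_three k.2
  unfold zdg
  omega

theorem sc_wtg (q : Fin 8) {i j k : Fin 248} (h : sc i j k ≠ 0) : wtg q i + wtg q j = wtg q k := by
  have h1 := dg_add i.2 j.2 k.2 (sc_cd h) q q.2
  unfold wtg wtN
  omega

theorem xdg_eq (m : Fin 248) : xdg m = zdg m - wtg 0 m := rfl

theorem sc_xdg {i j k : Fin 248} (h : sc i j k ≠ 0) : xdg i + xdg j = xdg k := by
  have h1 := sc_zdg h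
  have h2 := sc_wtg 0 h
  rw [xdg_eq, xdg_eq, xdg_eq]
  omega

section

variable {A : Type*} [CommRing A]

/-- for any additive degree function (`zdg`, `wtg q`, `xdg`, sums of them) -/
theorem Sup.br {d : Fin 248 → ℤ} (hd : ∀ i j k, sc i j k ≠ 0 → d i + d j = d k) {a b : ℤ}
    {x y : E8 A} (hx : Sup d a x) (hy : Sup d b y) : Sup d (a + b) (Licci.br x y) := by
  intro m hm
  rw [br_apply]
  refine Finset.sum_eq_zero fun i _ => Finset.sum_eq_zero fun j _ => ?_
  by_cases h : sc i j m = 0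
  · rw [h, Int.cast_zero, zero_mul]
  · have h1 := hd i j m h
    by_cases hi : d i = a
    · have hj : d j ≠ b := by
        intro hj
        exact hm (by rw [← h1, hi, hj])
      rw [hy j hj, mul_zero, mul_zero]
    · rw [hx i hi, zero_mul, mul_zero]

theorem Le.br {d : Fin 248 → ℤ} (hd : ∀ i j k, sc i j k ≠ 0 → d i + d j = d k) {a b : ℤ}
    {x y : E8 A} (hx : Le d a x) (hy : Le d b y) : Le d (a + b) (Licci.br x y) := by
  intro m hm
  rw [br_apply]
  refine Finset.sum_eq_zero fun i _ => Finset.sum_eq_zero fun j _ => ?_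
  by_cases h : sc i j m = 0
  · rw [h, Int.cast_zero, zero_mul]
  · have h1 := hd i j m h
    by_cases hi : d i ≤ a
    · rw [hy j (by omega), mul_zero, mul_zero]
    · rw [hx i (by omega), zero_mul, mul_zero]

/-- if `x` has degrees `≤ a`, `y` degrees `≤ b`, the component of degree `a + b` of `[x, y]` only
depends on the top components -/
theorem br_top {d : Fin 248 → ℤ} (hd : ∀ i j k, sc i j k ≠ 0 → d i + d j = d k) {a b : ℤ}
    {x y x' y' : E8 A} (hx : Le d a x) (hy : Le d b y) (hx' : Le d a x') (hy' : Le d b y')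
    (hxx : ∀ m, d m = a → x m = x' m) (hyy : ∀ m, d m = b → y m = y' m) (m : Fin 248)
    (hm : d m = a + b) : Licci.br x y m = Licci.br x' y' m := by
  rw [br_apply, br_apply]
  refine Finset.sum_congr rfl fun i _ => Finset.sum_congr rfl fun j _ => ?_
  by_cases h : sc i j m = 0
  · rw [h, Int.cast_zero, zero_mul, zero_mul]
  · have h1 := hd i j m h
    rcases lt_trichotomy (d i) a with hi | hi | hi
    · rw [hy j (by omega), hy' j (by omega), mul_zero, mul_zero, mul_zero, mul_zero]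
    · rw [hxx i hi, hyy j (by omega)]
    · rw [hx i hi, hx' i hi, zero_mul, zero_mul]

/-! ### the Euler element -/

theorem gr_sp_left {i j : ℕ} (h1 : 240 ≤ i) (h2 : j < 240) : sp i j = [(j, prN j (i - 240))] := by
  have b1 : Nat.blt i 240 = false := by
    rw [Bool.eq_false_iff]
    intro h'
    rw [Nat.blt_eq] at h'
    omega
  have b2 : Nat.blt j 240 = true := by simpa [Nat.blt_eq] using h2
  unfold sp
  rw [b1, b2, cond_false, cond_true]

theorem gr_sp_nil {i j : ℕ} (h1 : 240 ≤ i) (h2 : 240 ≤ j) : sp i j = [] := by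
  have b1 : Nat.blt i 240 = false := by
    rw [Bool.eq_false_iff]
    intro h'
    rw [Nat.blt_eq] at h'
    omega
  have b2 : Nat.blt j 240 = false := by
    rw [Bool.eq_false_iff]
    intro h'
    rw [Nat.blt_eq] at h'
    omega
  unfold sp
  rw [b1, b2, cond_false, cond_false]

theorem gr_sc {i j k : Fin 248} (h : 240 ≤ (i : ℕ)) :
    sc i j k = if (j : ℕ) < 240 ∧ j = k then prN k ((i : ℕ) - 240) else 0 := by
  unfold sc scN
  by_cases hj : (j : ℕ) < 240
  · rw [gr_sp_left h hj, cf_cons, cf_nil, add_zero]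
    by_cases hk : j = k
    · rw [hk] at hj ⊢
      rw [if_pos rfl, if_pos ⟨hj, rfl⟩]
    · rw [if_neg (fun h' => hk (Fin.ext h')), if_neg (fun h' => hk h'.2)]
  · rw [gr_sp_nil h (by omega), cf_nil, if_neg (fun h' => hj h'.1)]

theorem pr_sum {i : ℕ} (hi : i < 248) : 3 * prN i 0 + 6 * prN i 1 + 9 * prN i 2 + 12 * prN i 3 +
    15 * prN i 4 + 10 * prN i 5 + 5 * prN i 6 + 8 * prN i 7 = zdN i := by
  have h := zdN_three hi
  unfold gsN at h
  have e7 : prN i 7 = wtN i 5 + wtN i 6 + wtN i 7 - zdN i := rfl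
  have e0 : prN i 0 = wtN i 0 - wtN i 1 := rfl
  have e1 : prN i 1 = wtN i 1 - wtN i 2 := rfl
  have e2 : prN i 2 = wtN i 2 - wtN i 3 := rfl
  have e3 : prN i 3 = wtN i 3 - wtN i 4 := rfl
  have e4 : prN i 4 = wtN i 4 - wtN i 5 := rfl
  have e5 : prN i 5 = wtN i 5 - wtN i 6 := rfl
  have e6 : prN i 6 = wtN i 6 - wtN i 7 := rfl
  rw [e0, e1, e2, e3, e4, e5, e6, e7]
  unfold wtN
  push_cast at h
  omega

theorem pr_sum_zdg (m : Fin 248) : 3 * prN m 0 + 6 * prN m 1 + 9 * prN m 2 + 12 * prN m 3 +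
    15 * prN m 4 + 10 * prN m 5 + 5 * prN m 6 + 8 * prN m 7 = zdg m := pr_sum m.2

theorem zdN_cartan {m : ℕ} (h1 : 240 ≤ m) (h2 : m < 248) : zdN m = 0 := by
  have h : ∀ q, dg m q = Nat.mod (Nat.shiftRight off (Nat.mul 4 q)) 16 := fun q => by
    unfold dg
    rw [cd_cartan h1 h2]
  rw [zdN_eq, gsN]
  rw [h, h, h, h, h, h, h, h]
  decide

theorem br_Hz (Y : E8 A) (m : Fin 248) : Licci.br Hz Y m = (zdg m : A) * Y m := by
  rw [br_apply]
  have h1 : ∀ i : Fin 248, ∑ j, (sc i j m : A) * (Hz i * Y j) =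
      if 240 ≤ (i : ℕ) ∧ (m : ℕ) < 240 then
        ((([3, 6, 9, 12, 15, 10, 5, 8] : List ℤ).getD ((i : ℕ) - 240) 0 *
          prN m ((i : ℕ) - 240) : ℤ) : A) * Y m else 0 := by
    intro i
    by_cases hi : 240 ≤ (i : ℕ)
    · have h2 : (Hz i : A) =
        ((([3, 6, 9, 12, 15, 10, 5, 8] : List ℤ).getD ((i : ℕ) - 240) 0 : ℤ) : A) := by
        unfold Hz
        rw [if_pos hi]
      rw [Finset.sum_eq_single m]
      · rw [gr_sc hi, h2]
        by_cases hm : (m : ℕ) < 240
        · rw [if_pos ⟨hm, rfl⟩, if_pos ⟨hi, hm⟩]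
          push_cast
          ring
        · rw [if_neg (fun h => hm h.1), if_neg (fun h => hm h.2), Int.cast_zero, zero_mul]
      · intro j _ hj
        rw [gr_sc hi, if_neg (fun h => hj h.2), Int.cast_zero, zero_mul]
      · intro h
        exact absurd (Finset.mem_univ m) h
    · rw [if_neg (fun h => hi h.1)]
      refine Finset.sum_eq_zero fun j _ => ?_
      have h2 : (Hz i : A) = 0 := by
        unfold Hz
        rw [if_neg hi]
      rw [h2, zero_mul, mul_zero]
  rw [Finset.sum_congr rfl fun i _ => h1 i]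
  by_cases hm : (m : ℕ) < 240
  · have h3 : ∀ i : Fin 248, (if 240 ≤ (i : ℕ) ∧ (m : ℕ) < 240 then
        ((([3, 6, 9, 12, 15, 10, 5, 8] : List ℤ).getD ((i : ℕ) - 240) 0 *
          prN m ((i : ℕ) - 240) : ℤ) : A) * Y m else 0) =
        (fun n : ℕ => if 240 ≤ n then
        ((([3, 6, 9, 12, 15, 10, 5, 8] : List ℤ).getD (n - 240) 0 *
          prN m (n - 240) : ℤ) : A) * Y m else 0) i := fun i => by
      simp only [hm, and_true]
    rw [Finset.sum_congr rfl fun i _ => h3 i, Fin.sum_univ_eq_sum_range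
      (fun n : ℕ => if 240 ≤ n then
        ((([3, 6, 9, 12, 15, 10, 5, 8] : List ℤ).getD (n - 240) 0 *
          prN m (n - 240) : ℤ) : A) * Y m else 0) 248]
    have e8 := Finset.sum_range_add (fun n : ℕ => if 240 ≤ n then
        ((([3, 6, 9, 12, 15, 10, 5, 8] : List ℤ).getD (n - 240) 0 *
          prN m (n - 240) : ℤ) : A) * Y m else 0) 240 8
    refine e8.trans ?_
    rw [Finset.sum_eq_zero, zero_add]
    · rw [← pr_sum_zdg m]
      simp only [Finset.sum_range_succ, Finset.sum_range_zero, zero_add, Nat.le_add_right, if_true,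
        Nat.add_sub_cancel_left]
      simp only [List.getD_cons_zero, List.getD_cons_succ]
      push_cast
      ring
    · intro n hn
      rw [Finset.mem_range] at hn
      rw [if_neg (by omega)]
  · have h4 : zdg m = 0 := zdN_cartan (by omega) m.2
    rw [h4, Int.cast_zero, zero_mul]
    refine Finset.sum_eq_zero fun i _ => ?_
    rw [if_neg (fun h => hm h.2)]

/-! ### nilpotency -/

theorem br_pow_le {d : Fin 248 → ℤ} (hd : ∀ i j k, sc i j k ≠ 0 → d i + d j = d k)
    {x : E8 A} (hx : Le d (-1) x) {b : ℤ} {Y : E8 A} (hY : Le d b Y) (n : ℕ) :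
    Le d (b - n) (((brL x) ^ n) Y) := by
  induction n with
  | zero => simpa using hY
  | succ n ih =>
    rw [pow_succ']
    have h := Le.br hd hx ih
    have e : (-1 : ℤ) + (b - n) = b - ((n + 1 : ℕ) : ℤ) := by
      push_cast
      ring
    rw [e] at h
    exact h

theorem nil_of_le {d : Fin 248 → ℤ} (hd : ∀ i j k, sc i j k ≠ 0 → d i + d j = d k)
    (h1 : ∀ m, -3 ≤ d m) (h2 : ∀ m, d m ≤ 3) {x : E8 A} (hx : Le d (-1) x) :
    (brL x) ^ 7 = 0 := by
  refine LinearMap.ext fun Y => ?_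
  have hY : Le d 3 Y := fun m hm => absurd (h2 m) (by omega)
  funext m
  have h := br_pow_le hd hx hY 7 m (by
    have := h1 m
    push_cast
    omega)
  rw [h]
  rfl

/-- `ad x` is nilpotent for `x` of negative degrees, or of positive degrees -/
theorem ad_nil_neg {x : E8 A} (hx : Le zdg (-1) x) : (brL x) ^ 7 = 0 :=
  nil_of_le (fun _ _ _ h => sc_zdg h) zdg_ge zdg_le hx

theorem ad_nil_pos {x : E8 A} (hx : ∀ m, zdg m < 1 → x m = 0) : (brL x) ^ 7 = 0 := by
  have hx' : Le (fun m => - zdg m) (-1) x := fun m hm => hx m (by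
    have hm' : -1 < - zdg m := hm
    omega)
  refine nil_of_le (d := fun m => - zdg m) (fun i j k h => ?_) (fun m => ?_) (fun m => ?_) hx'
  · have := sc_zdg h
    omega
  · have := zdg_le m
    omega
  · have := zdg_ge m
    omega

/-- `x` of degree `1` (or `-1`) for some weight `b_q` -/
theorem ad_nil_wt (q : Fin 8) {x : E8 A} (hx : ∀ m, wtg q m < 1 → x m = 0) :
    (brL x) ^ 7 = 0 := by
  have hx' : Le (fun m => - wtg q m) (-1) x := fun m hm => hx m (by
    have hm' : -1 < - wtg q m := hm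
    omega)
  refine nil_of_le (d := fun m => - wtg q m) (fun i j k h => ?_) (fun m => ?_) (fun m => ?_) hx'
  · have := sc_wtg q h
    omega
  · have := wtg_le q m
    omega
  · have := wtg_ge q m
    omega

theorem ad_nil_wt' (q : Fin 8) {x : E8 A} (hx : ∀ m, -1 < wtg q m → x m = 0) :
    (brL x) ^ 7 = 0 := by
  refine nil_of_le (d := wtg q) (fun i j k h => sc_wtg q h) (fun m => ?_) (fun m => ?_) hx
  · have := wtg_ge q m
    omega
  · have := wtg_le q m
    omega

end

end Pool.Agent.Licci
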