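import Pool.Agent.Work.MP_a98e4e_ag.Fu.L.Chk1
import Pool.Agent.Work.MP_a98e4e_ag.Fu.L.Chk2
import Pool.Agent.Work.MP_a98e4e_ag.Fu.L.Chk3
import Pool.Agent.Work.MP_a98e4e_ag.Fu.L.Form

section

/-! Antisymmetry and the Jacobi identity of `e_8` over a commutative ring. -/

set_option linter.unusedSectionVars false

namespace Pool.Agent.Licci

open scoped BigOperators

theorem blt_true {i n : ℕ} (h : i < n) : Nat.blt i n = true := by simpa [Nat.blt_eq] using h

theorem blt_false {i n : ℕ} (h : n ≤ i) : Nat.blt i n = false := by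
  rw [Bool.eq_false_iff]
  intro h'
  rw [Nat.blt_eq] at h'
  omega

theorem sp_cartan_right {i j : ℕ} (h1 : i < 240) (h2 : 240 ≤ j) :
    sp i j = [(i, -prN i (j - 240))] := by
  unfold sp
  rw [blt_true h1, blt_false h2, cond_true, cond_false]

theorem sp_cartan_left {i j : ℕ} (h1 : 240 ≤ i) (h2 : j < 240) :
    sp i j = [(j, prN j (i - 240))] := by
  unfold sp
  rw [blt_false h1, blt_true h2, cond_false, cond_true]

theorem sp_cartan {i j : ℕ} (h1 : 240 ≤ i) (h2 : 240 ≤ j) : sp i j = [] := by
  unfold sp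
  rw [blt_false h1, blt_false h2, cond_false, cond_false]

set_option maxRecDepth 100000 in
theorem skew_zr {i j : ℕ} (hj : j ≤ i) (k : ℕ) : scN i j k = - scN j i k := by
  rcases lt_or_ge i 240 with h1 | h1
  · have h2 : j < 240 := lt_of_le_of_lt hj h1
    have h := all_range (all_range skew_chk h1) (Nat.lt_succ_of_le hj)
    have key : zr (sp i j ++ sp j i) = true → scN i j k = - scN j i k := by
      intro h
      have h := zr_spec h k
      rw [cf_append] at h
      simp only [scN]
      linarith
    unfold sk at h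
    simp only at h
    cases h3 : Nat.blt (fnd (Nat.add (cd i) (cd j))) 240 with
    | true => rw [h3, cond_true] at h; exact key h
    | false =>
      rw [h3, cond_false] at h
      cases h4 : Nat.beq (Nat.add (cd i) (cd j)) 1145324612 with
      | true => rw [h4, cond_true] at h; exact key h
      | false =>
        have e : Nat.add (cd j) (cd i) = Nat.add (cd i) (cd j) := Nat.add_comm _ _
        have a1 : sp i j = [] := by
          unfold sp
          rw [blt_true h1, blt_true h2, cond_true, cond_true]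
          simp only
          rw [h3, h4, cond_false, cond_false]
        have a2 : sp j i = [] := by
          unfold sp
          rw [blt_true h1, blt_true h2, cond_true, cond_true]
          simp only
          rw [e, h3, h4, cond_false, cond_false]
        simp only [scN, a1, a2, cf_nil, neg_zero]
  · rcases lt_or_ge j 240 with h2 | h2
    · simp only [scN, sp_cartan_left h1 h2, sp_cartan_right h2 h1, cf_cons, cf_nil, add_zero]
      split_ifs <;> ring
    · simp only [scN, sp_cartan h1 h2, sp_cartan h2 h1, cf_nil, neg_zero]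

theorem scN_skew {i j : ℕ} (_ : i < 248) (_ : j < 248) (k : ℕ) : scN i j k = - scN j i k := by
  rcases le_total j i with h | h
  · exact skew_zr h k
  · rw [skew_zr h k, neg_neg]

theorem sum_cf (L : List (ℕ × ℤ)) (hL : ∀ p ∈ L, p.1 < 248) (g : ℕ → ℤ) :
    ∑ m : Fin 248, cf L m * g m = (L.map (fun p => p.2 * g p.1)).sum := by
  induction L with
  | nil => simp [cf_nil]
  | cons p L ih =>
    have h1 : p.1 < 248 := hL p List.mem_cons_self
    rw [List.map_cons, List.sum_cons, ← ih (fun q hq => hL q (List.mem_cons_of_mem _ hq))]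
    simp only [cf_cons, add_mul, Finset.sum_add_distrib, ite_mul, zero_mul]
    congr 1
    rw [Finset.sum_eq_single (⟨p.1, h1⟩ : Fin 248)]
    · simp
    · intro b _ hb
      rw [if_neg]
      intro h
      exact hb (Fin.ext h.symm)
    · intro h
      exact absurd (Finset.mem_univ _) h

theorem cf_map_smul (L : List (ℕ × ℤ)) (c : ℤ) (k : ℕ) :
    cf (L.map (fun q => (q.1, c * q.2))) k = c * cf L k := by
  induction L with
  | nil => simp [cf_nil]
  | cons p L ih =>
    rw [List.map_cons, cf_cons, cf_cons, ih]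
    split_ifs <;> ring

theorem cf_lm (g : ℕ) (L : List (ℕ × ℤ)) (k : ℕ) :
    cf (lm g L) k = (L.map (fun p => p.2 * scN g p.1 k)).sum := by
  induction L with
  | nil => simp [cf_nil, lm]
  | cons p L ih =>
    have : lm g (p :: L) = (sp g p.1).map (fun q => (q.1, p.2 * q.2)) ++ lm g L := by
      simp [lm]
    rw [this, cf_append, ih, cf_map_smul, List.map_cons, List.sum_cons]
    rfl

theorem cf_rm (g : ℕ) (L : List (ℕ × ℤ)) (k : ℕ) :
    cf (rm L g) k = (L.map (fun p => p.2 * scN p.1 g k)).sum := by
  induction L with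
  | nil => simp [cf_nil, rm]
  | cons p L ih =>
    have : rm (p :: L) g = (sp p.1 g).map (fun q => (q.1, p.2 * q.2)) ++ rm L g := by
      simp [rm]
    rw [this, cf_append, ih, cf_map_smul, List.map_cons, List.sum_cons]
    rfl

/-- Jacobi for structure constants, from `dv` -/
theorem sum_of_dv {g j k : Fin 248} (h : dv g j k = true) (l : Fin 248) :
    ∑ m : Fin 248, scN j k m * scN g m l =
      (∑ m : Fin 248, scN g j m * scN m k l) + ∑ m : Fin 248, scN g k m * scN j m l := by
  have h0 := zr_spec h l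
  rw [cf_append, cf_append, cf_ng, cf_ng, cf_lm, cf_rm, cf_lm] at h0
  have e1 := sum_cf (sp j k) (fun p hp => sp_rng j.2 k.2 hp) (fun m => scN g m l)
  have e2 := sum_cf (sp g j) (fun p hp => sp_rng g.2 j.2 hp) (fun m => scN m k l)
  have e3 := sum_cf (sp g k) (fun p hp => sp_rng g.2 k.2 hp) (fun m => scN j m l)
  simp only [scN] at *
  rw [e1, e2, e3]
  linarith

theorem sum_zero_of_wt {a b : Fin 248 → ℤ} {s : ℕ} {l : Fin 248} {c d : Fin 248 → ℕ}
    (ha : ∀ m, a m ≠ 0 → c m = cd m + off) (hb : ∀ m, b m ≠ 0 → cd m + d m = cd l + off)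
    (hs : ∀ m, c m + d m = s) (h : s ≠ cd l + off + off) : ∑ m : Fin 248, a m * b m = 0 := by
  refine Finset.sum_eq_zero fun m _ => ?_
  by_contra hne
  have h1 := ha m (left_ne_zero_of_mul hne)
  have h2 := hb m (right_ne_zero_of_mul hne)
  have h3 := hs m
  omega

/-- Jacobi for structure constants, from `ck` -/
theorem sum_of_ck {g j k : Fin 248} (h : ck g j k = true) (l : Fin 248) :
    ∑ m : Fin 248, scN j k m * scN g m l =
      (∑ m : Fin 248, scN g j m * scN m k l) + ∑ m : Fin 248, scN g k m * scN j m l := by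
  unfold ck at h
  simp only at h
  cases h3 : Nat.blt (fnd (Nat.sub (Nat.add (cd g) (Nat.add (cd j) (cd k))) off)) 240 with
  | true => rw [h3, cond_true] at h; exact sum_of_dv h l
  | false =>
    rw [h3, cond_false] at h
    cases h4 : Nat.beq (Nat.add (cd g) (Nat.add (cd j) (cd k))) 1717986918 with
    | true => rw [h4, cond_true] at h; exact sum_of_dv h l
    | false =>
      have hne : cd g + (cd j + cd k) ≠ cd l + off + off := by
        intro he
        rcases lt_or_ge (l : ℕ) 240 with h5 | h5
        · have e : Nat.sub (Nat.add (cd g) (Nat.add (cd j) (cd k))) off = cd l + off := by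
            change cd g + (cd j + cd k) - off = _
            omega
          rw [e, fnd_cd h5, blt_true h5] at h3
          exact absurd h3 (by simp)
        · have e : Nat.beq (Nat.add (cd g) (Nat.add (cd j) (cd k))) 1717986918 = true := by
            rw [off3]
            change Nat.beq (cd g + (cd j + cd k)) _ = true
            rw [he, cd_cartan h5 l.2]
            simp
          rw [e] at h4
          exact absurd h4 (by simp)
      rw [sum_zero_of_wt (s := cd g + (cd j + cd k)) (c := fun _ => cd j + cd k)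
          (d := fun _ => cd g) (l := l) (fun m hm => scN_wt j.2 k.2 hm)
          (fun m hm => by rw [add_comm]; exact scN_wt g.2 m.2 hm) (fun m => by ring) hne,
        sum_zero_of_wt (s := cd g + (cd j + cd k)) (c := fun _ => cd g + cd j)
          (d := fun _ => cd k) (l := l) (fun m hm => scN_wt g.2 j.2 hm)
          (fun m hm => scN_wt m.2 k.2 hm) (fun m => by ring) hne,
        sum_zero_of_wt (s := cd g + (cd j + cd k)) (c := fun _ => cd g + cd k)
          (d := fun _ => cd j) (l := l) (fun m hm => scN_wt g.2 k.2 hm)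
          (fun m hm => by rw [add_comm]; exact scN_wt j.2 m.2 hm) (fun m => by ring) hne,
        add_zero]

theorem chk_spec {g : ℕ} (h : chk g = true) {j k : ℕ} (hj : j < 248) (hk : k < j) :
    ck g j k = true :=
  all_range (all_range h hj) hk

variable {A : Type*} [CommRing A]

theorem sc_skew (i j k : Fin 248) : sc i j k = - sc j i k := scN_skew i.2 j.2 k

theorem scN_self {i : ℕ} (hi : i < 248) (k : ℕ) : scN i i k = 0 := by
  have := scN_skew hi hi k
  omega

theorem sc_self (i k : Fin 248) : sc i i k = 0 := scN_self i.2 k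

theorem br_skew (x y : E8 A) : br x y = - br y x := by
  ext k
  simp only [br_apply, Pi.neg_apply]
  rw [Finset.sum_comm, ← Finset.sum_neg_distrib]
  refine Finset.sum_congr rfl fun i _ => ?_
  rw [← Finset.sum_neg_distrib]
  refine Finset.sum_congr rfl fun j _ => ?_
  rw [sc_skew, Int.cast_neg]
  ring

theorem br_eb_self (i : Fin 248) : br (eb i : E8 A) (eb i) = 0 := by
  ext k
  rw [br_eb_eb, sc_self, Int.cast_zero, Pi.zero_apply]

/-- the set of elements acting as derivations -/
def Der (x : E8 A) : Prop := ∀ y z : E8 A, br x (br y z) = br (br x y) z + br y (br x z)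

theorem Der.add {x y : E8 A} (hx : Der x) (hy : Der y) : Der (x + y) := by
  intro a b
  rw [br_add_left, br_add_left, br_add_left, br_add_left, br_add_right, hx, hy]
  abel

theorem Der.smul (c : A) {x : E8 A} (hx : Der x) : Der (c • x) := by
  intro a b
  rw [br_smul_left, br_smul_left, br_smul_left, br_smul_left, br_smul_right, hx, smul_add]

theorem Der.zero : Der (0 : E8 A) := by
  intro a b
  simp

theorem Der.sum {ι : Type*} (s : Finset ι) {x : ι → E8 A} (h : ∀ i ∈ s, Der (x i)) :
    Der (∑ i ∈ s, x i) := by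
  classical
  induction s using Finset.induction_on with
  | empty => simpa using Der.zero
  | insert a s ha ih =>
    rw [Finset.sum_insert ha]
    exact (h a (Finset.mem_insert_self a s)).add
      (ih fun i hi => h i (Finset.mem_insert_of_mem hi))

theorem Der.br {x y : E8 A} (hx : Der x) (hy : Der y) : Der (br x y) := by
  intro a b
  have e : ∀ c : E8 A, Licci.br (Licci.br x y) c =
      Licci.br x (Licci.br y c) - Licci.br y (Licci.br x c) := by
    intro c
    rw [hx y c]
    abel
  rw [e, e, e, hy a b, hx a b]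
  rw [br_add_right, br_add_right, hx (Licci.br y a) b, hx a (Licci.br y b),
    hy (Licci.br x a) b, hy a (Licci.br x b), br_sub_left, br_sub_right]
  abel

/-- trilinear reduction to basis vectors -/
theorem Der_of_basis {x : E8 A} (h : ∀ j k : Fin 248,
    br x (br (eb j) (eb k)) = br (br x (eb j)) (eb k) + br (eb j) (br x (eb k))) : Der x := by
  intro y z
  conv_lhs => rw [E8.eq_sum y, E8.eq_sum z]
  conv_rhs => rw [E8.eq_sum y, E8.eq_sum z]
  simp only [br_sum_left, br_sum_right, br_smul_left, br_smul_right, h, smul_add,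
    Finset.sum_add_distrib]

theorem br_eb_br (g j k l : Fin 248) :
    (br (eb g : E8 A) (br (eb j) (eb k))) l =
      ((∑ m : Fin 248, scN j k m * scN g m l : ℤ) : A) := by
  have : br (eb j : E8 A) (eb k) = ∑ m, (sc j k m : A) • (eb m : E8 A) := by
    conv_lhs => rw [E8.eq_sum (br (eb j : E8 A) (eb k))]
    simp only [br_eb_eb]
  rw [this, br_sum_right, Finset.sum_apply]
  simp only [br_smul_right, Pi.smul_apply, br_eb_eb, smul_eq_mul]
  push_cast
  rfl

theorem br_br_eb (g j k l : Fin 248) :
    (br (br (eb g : E8 A) (eb j)) (eb k)) l =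
      ((∑ m : Fin 248, scN g j m * scN m k l : ℤ) : A) := by
  have : br (eb g : E8 A) (eb j) = ∑ m, (sc g j m : A) • (eb m : E8 A) := by
    conv_lhs => rw [E8.eq_sum (br (eb g : E8 A) (eb j))]
    simp only [br_eb_eb]
  rw [this, br_sum_left, Finset.sum_apply]
  simp only [br_smul_left, Pi.smul_apply, br_eb_eb, smul_eq_mul]
  push_cast
  rfl

theorem der_gen {g : Fin 248} (hg : chk g = true) : Der (eb g : E8 A) := by
  have key : ∀ j k : Fin 248, (k : ℕ) < j → br (eb g : E8 A) (br (eb j) (eb k)) =
      br (br (eb g) (eb j)) (eb k) + br (eb j) (br (eb g) (eb k)) := by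
    intro j k hjk
    ext l
    have e : ∀ m : Fin 248, scN g k m * scN j m l = - (scN g k m * scN m j l) := fun m => by
      rw [scN_skew m.2 j.2 l, mul_neg, neg_neg]
    have e1 : (∑ m : Fin 248, scN j k m * scN g m l) =
        (∑ m : Fin 248, scN g j m * scN m k l) + - ∑ m : Fin 248, scN g k m * scN m j l := by
      rw [sum_of_ck (chk_spec hg j.2 hjk) l, ← Finset.sum_neg_distrib]
      exact congrArg _ (Finset.sum_congr rfl fun m _ => e m)
    rw [Pi.add_apply, br_eb_br, br_br_eb, br_skew (eb j) (br (eb g) (eb k)), Pi.neg_apply,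
      br_br_eb, ← Int.cast_neg, ← Int.cast_add, e1]
  apply Der_of_basis
  intro j k
  rcases lt_trichotomy (k : ℕ) (j : ℕ) with h | h | h
  · exact key j k h
  · have : k = j := Fin.ext h
    subst this
    rw [br_eb_self, br_zero_right, br_skew (br (eb g) (eb k)) (eb k)]
    simp
  · have := key k j h
    rw [br_skew (eb j) (eb k), br_neg_right, this]
    rw [br_skew (br (eb g) (eb j)) (eb k), br_skew (eb j) (br (eb g) (eb k))]
    abel

end Pool.Agent.Licci

end

section

/-! The Jacobi identity of `e_8`. -/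

set_option linter.unusedSectionVars false

namespace Pool.Agent.Licci

open scoped BigOperators

/-- height -/
def htN (i : ℕ) : ℤ :=
  7 * wtN i 0 + 6 * wtN i 1 + 5 * wtN i 2 + 4 * wtN i 3 + 3 * wtN i 4 + 2 * wtN i 5 + wtN i 6
    - 2 * zdN i

/-- number of steps needed to reach a root from the generators -/
def dpN (i : ℕ) : ℕ := if 0 < htN i then (htN i).toNat else (htN i + 30).toNat

/-- (generator, smaller root) -/
def parT : List (ℕ × ℕ) := [(92, 1), (100, 2), (108, 3), (116, 4), (124, 5), (132, 6), (140, 7), (91, 33), (91, 72), (100, 8), (108, 9), (116, 10), (124, 11), (132, 12), (140, 13), (92, 9), (92, 10), (92, 11), (92, 12), (92, 13), (92, 14), (100, 16), (100, 17), (100, 18), (100, 19), (100, 20), (108, 22), (108, 23), (108, 24), (108, 25), (116, 27), (116, 28), (116, 29), (124, 31), (124, 32), (132, 34), (108, 37), (100, 42), (100, 43), (100, 44), (100, 45), (100, 46), (92, 57), (92, 58), (92, 59), (92, 60), (92, 61), (92, 62), (92, 63), (92, 64), (92, 65), (92, 66), (92, 67), (92, 68), (92, 69),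 (92, 70), (92, 71), (116, 58), (108, 62), (108, 63), (108, 64), (108, 65), (100, 72), (100, 73), (100, 74), (100, 75), (100, 76), (100, 77), (100, 78), (100, 79), (100, 80), (100, 81), (124, 73), (116, 76), (116, 77), (116, 78), (108, 82), (108, 83), (108, 84), (108, 85), (108, 86), (108, 87), (132, 83), (124, 85), (124, 86), (116, 88), (116, 89), (116, 90), (140, 89), (132, 90), (124, 91), (0, 0), (0, 0), (92, 100), (92, 101), (92, 102), (92, 103), (92, 104), (92, 105), (100, 106), (0, 0), (100, 108), (100, 109), (100, 110), (100, 111), (100, 112), (108, 113), (92, 106), (0, 0), (108, 116), (108, 117), (108, 118), (108, 119), (116, 120), (92, 113), (100, 114), (0, 0), (116, 124), (116, 125), (116, 126), (124, 127), (92, 120), (100, 121), (108, 122), (0, 0), (124, 132), (124, 133), (132, 134), (92, 127), (100, 128), (108, 129), (116, 130), (0, 0), (132, 140), (140, 141), (92, 134), (100, 135), (108, 136), (116, 137), (124, 138), (0, 0), (91, 166), (92, 141), (100, 142), (108, 143), (116, 144), (124, 145), (132,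 146), (91, 222), (108, 148), (116, 149), (124, 150), (132, 151), (140, 152), (100, 149), (100, 150), (100, 151), (100, 152), (100, 153), (108, 155), (108, 156), (108, 157), (108, 158), (116, 160), (116, 161), (116, 162), (124, 164), (124, 165), (132, 167), (92, 154), (92, 155), (92, 156), (92, 157), (92, 158), (92, 159), (92, 160), (92, 161), (92, 162), (92, 163), (92, 164), (92, 165), (92, 166), (92, 167), (92, 168), (100, 174), (100, 175), (100, 176), (100, 177), (100, 178), (100, 179), (100, 180), (100, 181), (100, 182), (100, 183), (108, 188), (108, 189), (108, 190), (108, 191), (108, 192), (108, 193), (116, 197), (116, 198), (116, 199), (124, 202), (100, 205), (92, 211), (92, 212), (92, 213), (92, 214), (92, 215), (92, 216), (108, 212), (100, 217), (100, 218), (100, 219), (100, 220), (100, 221), (116, 218), (108, 222), (108, 223), (108, 224), (108, 225), (124, 223), (116, 226), (116, 227), (116, 228), (132, 227), (124, 229), (124, 230), (140, 230), (132, 231), (91, 237), (0, 0), (92, 232), (100, 233),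 (108, 234), (116, 235), (124, 236), (132, 237), (140, 238)]

/-- check of the table -/
def gck (k : ℕ) : Bool :=
  gens.contains k ||
    (let p := parT.getD k (0, 0)
     gens.contains p.1 && (Nat.blt p.2 240 && (Nat.blt (dpN p.2) (dpN k) &&
      (sp p.1 p.2 == [(k, 1)] || sp p.1 p.2 == [(k, -1)]))))

set_option maxRecDepth 100000 in
theorem gck_all : (List.range 240).all gck = true := by decide +kernel

variable {A : Type*} [CommRing A]

/-- basis vectors with natural number index -/
def ebN (n : ℕ) : E8 A := fun k => if (k : ℕ) = n then 1 else 0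

theorem ebN_eq (i : Fin 248) : (ebN i : E8 A) = eb i := by
  ext k
  simp only [ebN, eb_apply, Fin.ext_iff]

theorem br_eb_list (i j : Fin 248) : br (eb i : E8 A) (eb j) =
    ((sp i j).map (fun p => (p.2 : A) • (ebN p.1 : E8 A))).sum := by
  ext k
  rw [br_eb_eb, sc, scN]
  generalize sp i j = L
  induction L with
  | nil => simp [cf_nil]
  | cons p L ih =>
    rw [List.map_cons, List.sum_cons, Pi.add_apply, ← ih, cf_cons]
    simp only [ebN, Pi.smul_apply, smul_eq_mul]
    by_cases h : p.1 = (k : ℕ)
    · rw [if_pos h, if_pos h.symm, mul_one, Int.cast_add]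
    · rw [if_neg h, if_neg (fun h' => h h'.symm), mul_zero, zero_add, zero_add]

theorem Der.neg {x : E8 A} (h : Der x) : Der (-x) := by
  have := Der.smul (-1 : A) h
  rwa [neg_one_smul] at this

theorem Der.sub {x y : E8 A} (hx : Der x) (hy : Der y) : Der (x - y) := by
  rw [sub_eq_add_neg]
  exact hx.add hy.neg

theorem der_gens {g : ℕ} (hg : g ∈ gens) : Der (ebN g : E8 A) := by
  simp only [gens, List.mem_cons, List.not_mem_nil, or_false] at hg
  rcases hg with rfl | rfl | rfl | rfl | rfl | rfl | rfl | rfl | rfl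
  · exact (ebN_eq (92 : Fin 248) : (ebN 92 : E8 A) = _) ▸ der_gen chk_92
  · exact (ebN_eq (100 : Fin 248) : (ebN 100 : E8 A) = _) ▸ der_gen chk_100
  · exact (ebN_eq (108 : Fin 248) : (ebN 108 : E8 A) = _) ▸ der_gen chk_108
  · exact (ebN_eq (116 : Fin 248) : (ebN 116 : E8 A) = _) ▸ der_gen chk_116
  · exact (ebN_eq (124 : Fin 248) : (ebN 124 : E8 A) = _) ▸ der_gen chk_124
  · exact (ebN_eq (132 : Fin 248) : (ebN 132 : E8 A) = _) ▸ der_gen chk_132
  · exact (ebN_eq (140 : Fin 248) : (ebN 140 : E8 A) = _) ▸ der_gen chk_140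
  · exact (ebN_eq (91 : Fin 248) : (ebN 91 : E8 A) = _) ▸ der_gen chk_91
  · exact (ebN_eq (232 : Fin 248) : (ebN 232 : E8 A) = _) ▸ der_gen chk_232

theorem der_root : ∀ n k : ℕ, k < 240 → dpN k ≤ n → Der (ebN k : E8 A) := by
  intro n
  induction n with
  | zero =>
    intro k hk hn
    have h := all_range gck_all hk
    rw [gck, Bool.or_eq_true] at h
    rcases h with h | h
    · exact der_gens (by simpa using h)
    · simp only [Bool.and_eq_true, Nat.blt_eq] at h
      omega
  | succ n ih =>
    intro k hk hn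
    have h := all_range gck_all hk
    rw [gck, Bool.or_eq_true] at h
    rcases h with h | h
    · exact der_gens (by simpa using h)
    · simp only [Bool.and_eq_true, Nat.blt_eq, Bool.or_eq_true, beq_iff_eq] at h
      obtain ⟨h1, h2, h3, h4⟩ := h
      set p := parT.getD k (0, 0) with hp
      have hg : Der (ebN p.1 : E8 A) := der_gens (by simpa using h1)
      have hq : Der (ebN p.2 : E8 A) := ih p.2 h2 (by omega)
      have hp1 : p.1 < 248 := by
        have : p.1 ∈ gens := by simpa using h1
        simp only [gens, List.mem_cons, List.not_mem_nil, or_false] at this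
        omega
      have hb := hg.br hq
      have e1 := ebN_eq (A := A) (⟨p.1, hp1⟩ : Fin 248)
      have e2 := ebN_eq (A := A) (⟨p.2, by omega⟩ : Fin 248)
      simp only at e1 e2
      rw [e1, e2, br_eb_list] at hb
      simp only at hb
      rcases h4 with h4 | h4
      · rw [h4] at hb
        simp only [List.map_cons, List.map_nil, List.sum_cons, List.sum_nil, add_zero] at hb
        simpa using hb
      · rw [h4] at hb
        simp only [List.map_cons, List.map_nil, List.sum_cons, List.sum_nil, add_zero] at hb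
        simpa using hb.neg

theorem der_rt {k : ℕ} (hk : k < 240) : Der (ebN k : E8 A) := der_root _ k hk le_rfl

/-- the pairs of opposite simple roots -/
def opp : List (ℕ × ℕ) :=
  [(92, 99), (100, 107), (108, 115), (116, 123), (124, 131), (132, 139), (140, 147), (91, 203)]

theorem opp_chk : (List.range 8).all (fun q =>
    let p := opp.getD q (0, 0)
    Nat.blt p.1 240 && (Nat.blt p.2 240 && ((List.range 248).all (fun k =>
      Nat.beq (cf (sp p.1 p.2) k).natAbs (if k = 240 + q then 1 else 0) &&
        decide (cf (sp p.1 p.2) (240 + q) = -1))))) = true := by decide +kernel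

theorem der_cartan (q : ℕ) (hq : q < 8) : Der (ebN (240 + q) : E8 A) := by
  have h := all_range opp_chk hq
  simp only [Bool.and_eq_true, Nat.blt_eq] at h
  obtain ⟨h1, h2, h3⟩ := h
  set p := opp.getD q (0, 0) with hp
  have hd := ((der_rt (A := A) h1).br (der_rt h2)).neg
  have e1 := ebN_eq (A := A) (⟨p.1, by omega⟩ : Fin 248)
  have e2 := ebN_eq (A := A) (⟨p.2, by omega⟩ : Fin 248)
  simp only at e1 e2
  rw [e1, e2] at hd
  convert hd using 1
  ext k
  rw [Pi.neg_apply, br_eb_eb, ← Int.cast_neg]
  have h4 := all_range h3 k.2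
  simp only [Bool.and_eq_true, decide_eq_true_eq] at h4
  obtain ⟨h5, h6⟩ := h4
  have h7 : (cf (sp p.1 p.2) k).natAbs = if (k : ℕ) = 240 + q then 1 else 0 := by simpa using h5
  simp only [ebN, sc, scN]
  by_cases hk : (k : ℕ) = 240 + q
  · rw [if_pos hk, hk, h6]
    simp
  · rw [if_neg hk]
    rw [if_neg hk, Int.natAbs_eq_zero] at h7
    rw [h7]
    simp

theorem der_eb (i : Fin 248) : Der (eb i : E8 A) := by
  rw [← ebN_eq]
  rcases lt_or_ge (i : ℕ) 240 with h | h
  · exact der_rt h
  · have e : (i : ℕ) = 240 + ((i : ℕ) - 240) := by omega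
    rw [e]
    exact der_cartan _ (by omega)

/-- the Jacobi identity -/
theorem jacobi (x y z : E8 A) : br x (br y z) = br (br x y) z + br y (br x z) := by
  have h : Der x := by
    rw [E8.eq_sum x]
    exact Der.sum _ fun i _ => (der_eb i).smul _
  exact h y z

end Pool.Agent.Licci

end

section

/-!
# Module L2: exponentials of nilpotent inner derivations of `e_8`
-/

set_option linter.unusedSectionVars false

namespace Pool.Agent.Licci

open scoped BigOperators TensorProduct

section bilin

open IsNilpotent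

/-- the exponential of a nilpotent derivation of a bilinear map is an automorphism -/
theorem exp_bilin {R M : Type*} [CommRing R] [AddCommGroup M] [Module R M] [Module ℚ M]
    (B : M →ₗ[R] M →ₗ[R] M) (D : Module.End R M) (hD : ∀ x y, D (B x y) = B (D x) y + B x (D y))
    (h_nil : IsNilpotent D) (x y : M) : exp D (B x y) = B (exp D x) (exp D y) := by
  let DL : Module.End R (M ⊗[R] M) := D.lTensor M
  let DR : Module.End R (M ⊗[R] M) := D.rTensor M
  have h_nilL : IsNilpotent DL := h_nil.map <| Module.End.lTensorAlgHom R M M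
  have h_nilR : IsNilpotent DR := h_nil.map <| Module.End.rTensorAlgHom R M M
  have h_comm : Commute DL DR := by ext; simp [DL, DR]
  set m : M ⊗[R] M →ₗ[R] M := TensorProduct.lift B with hm
  have h₁ : exp D (B x y) = m (exp (DL + DR) (x ⊗ₜ[R] y)) := by
    suffices exp D ∘ₗ m = m ∘ₗ exp (DL + DR) by
      have := LinearMap.congr_fun this (x ⊗ₜ[R] y)
      simpa [hm] using this
    apply Module.End.commute_exp_left_of_commute (h_comm.isNilpotent_add h_nilL h_nilR) h_nil
    refine TensorProduct.ext' fun a b => ?_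
    simp only [hm, DL, DR, LinearMap.comp_apply, TensorProduct.lift.tmul, LinearMap.add_apply,
      LinearMap.lTensor_tmul, LinearMap.rTensor_tmul, map_add]
    rw [hD, add_comm]
  have h₂ : exp DL = (exp D).lTensor M := (h_nil.map_exp (Module.End.lTensorAlgHom R M M)).symm
  have h₃ : exp DR = (exp D).rTensor M := (h_nil.map_exp (Module.End.rTensorAlgHom R M M)).symm
  rw [h₁, exp_add_of_commute h_comm h_nilL h_nilR, h₂, h₃]
  simp [hm]

end bilin

section gen

variable {A : Type*} [CommRing A]

/-- base change -/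
theorem br_map {A' : Type*} [CommRing A'] (φ : A →+* A') (x y : E8 A) :
    φ ∘ br x y = br (φ ∘ x) (φ ∘ y) := by
  funext k
  simp only [Function.comp_apply, br_apply, map_sum, map_mul, map_intCast]

/-- coefficients in a subalgebra -/
theorem br_mem {R : Type*} [CommRing R] [Algebra R A] (S : Subalgebra R A) {x y : E8 A}
    (hx : ∀ m, x m ∈ S) (hy : ∀ m, y m ∈ S) (m : Fin 248) : br x y m ∈ S := by
  rw [br_apply]
  refine S.sum_mem fun i _ => S.sum_mem fun j _ => ?_
  exact S.mul_mem (intCast_mem S _) (S.mul_mem (hx i) (hy j))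

theorem brL_commute {x y : E8 A} (h : br x y = 0) : Commute (brL x) (brL y) := by
  refine LinearMap.ext fun z => ?_
  change br x (br y z) = br y (br x z)
  rw [jacobi, h, br_zero_left, zero_add]

theorem brL_smul_pow {x : E8 A} (hx : (brL x) ^ 7 = 0) (s : A) : (brL (s • x)) ^ 7 = 0 := by
  rw [map_smul, smul_pow, hx, smul_zero]

theorem brL_neg_pow {x : E8 A} (hx : (brL x) ^ 7 = 0) : (brL (-x)) ^ 7 = 0 := by
  have := brL_smul_pow hx (-1)
  rwa [neg_one_smul] at this

end gen

section

variable {A : Type*} [CommRing A] [Algebra ℚ A]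

theorem ex_apply (x Y : E8 A) : ex x Y =
    ∑ n ∈ Finset.range 7, algebraMap ℚ A ((n.factorial : ℚ)⁻¹) • ((brL x) ^ n) Y := by
  rw [ex, LinearMap.sum_apply]
  rfl

/-- the exponential is Mathlib's -/
theorem ex_eq_exp {x : E8 A} (hx : (brL x) ^ 7 = 0) : ex x = IsNilpotent.exp (brL x) := by
  rw [IsNilpotent.exp_eq_sum hx, ex]
  refine Finset.sum_congr rfl fun n _ => ?_
  rw [algebraMap_smul]

theorem ex_zero : ex (0 : E8 A) = LinearMap.id := by
  have h : (brL (0 : E8 A)) ^ 7 = 0 := by rw [map_zero, zero_pow (by norm_num)]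
  rw [ex_eq_exp h, map_zero, IsNilpotent.exp_zero]
  rfl

/-- `(ad x)^7 = 0 ⇒ exp (ad x)` is an automorphism -/
theorem ex_br {x : E8 A} (hx : (brL x) ^ 7 = 0) (Y Z : E8 A) :
    ex x (br Y Z) = br (ex x Y) (ex x Z) := by
  rw [ex_eq_exp hx]
  exact exp_bilin (brL (A := A)) (brL x) (fun a b => jacobi x a b) ⟨7, hx⟩ Y Z

theorem ex_neg_ex {x : E8 A} (hx : (brL x) ^ 7 = 0) (Y : E8 A) : ex (-x) (ex x Y) = Y := by
  rw [ex_eq_exp hx, ex_eq_exp (brL_neg_pow hx), map_neg]
  have := IsNilpotent.exp_neg_mul_exp_self (a := brL x) ⟨7, hx⟩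
  exact LinearMap.congr_fun this Y

theorem ex_ex_neg {x : E8 A} (hx : (brL x) ^ 7 = 0) (Y : E8 A) : ex x (ex (-x) Y) = Y := by
  rw [ex_eq_exp hx, ex_eq_exp (brL_neg_pow hx), map_neg]
  have := IsNilpotent.exp_mul_exp_neg_self (a := brL x) ⟨7, hx⟩
  exact LinearMap.congr_fun this Y

theorem ex_isAut {x : E8 A} (hx : (brL x) ^ 7 = 0) : IsAut (ex x) where
  bij := ⟨fun Y Z h => by
    have := congrArg (ex (-x)) h
    rwa [ex_neg_ex hx, ex_neg_ex hx] at this, fun Y => ⟨ex (-x) Y, ex_ex_neg hx Y⟩⟩
  map_br := ex_br hx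

theorem ex_add {x y : E8 A} (hx : (brL x) ^ 7 = 0) (hy : (brL y) ^ 7 = 0)
    (hxy' : (brL (x + y)) ^ 7 = 0) (h : br x y = 0) (Y : E8 A) :
    ex (x + y) Y = ex x (ex y Y) := by
  rw [ex_eq_exp hx, ex_eq_exp hy, ex_eq_exp hxy', map_add,
    IsNilpotent.exp_add_of_commute (brL_commute h) ⟨7, hx⟩ ⟨7, hy⟩]
  rfl

theorem br_self (x : E8 A) : br x x = 0 := by
  have h := br_skew x x
  have h2 : (2 : A) • br x x = 0 := by
    rw [two_smul]
    nth_rewrite 1 [h]
    exact neg_add_cancel _
  have h3 : (algebraMap ℚ A 2⁻¹ : A) • ((2 : A) • br x x) = 0 := by rw [h2, smul_zero]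
  rwa [smul_smul, ← map_ofNat (algebraMap ℚ A) 2, ← map_mul,
    inv_mul_cancel₀ (by norm_num : (2 : ℚ) ≠ 0), map_one, one_smul] at h3

theorem ex_smul_smul {x : E8 A} (hx : (brL x) ^ 7 = 0) (s t : A) (Y : E8 A) :
    ex ((s + t) • x) Y = ex (s • x) (ex (t • x) Y) := by
  rw [add_smul]
  refine ex_add (brL_smul_pow hx s) (brL_smul_pow hx t) ?_ ?_ Y
  · rw [← add_smul]; exact brL_smul_pow hx _
  · rw [br_smul_left, br_smul_right, br_self, smul_zero, smul_zero]

theorem pow_map {A' : Type*} [CommRing A'] (φ : A →+* A') (x Y : E8 A) (n : ℕ) :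
    φ ∘ ((brL x) ^ n) Y = ((brL (φ ∘ x : E8 A')) ^ n) (φ ∘ Y) := by
  induction n with
  | zero => simp
  | succ n ih =>
    rw [pow_succ', pow_succ', Module.End.mul_apply, Module.End.mul_apply, brL_apply, brL_apply,
      br_map, ih]

theorem ex_map {A' : Type*} [CommRing A'] [Algebra ℚ A'] (φ : A →+* A') (x Y : E8 A) :
    φ ∘ ex x Y = ex (φ ∘ x) (φ ∘ Y) := by
  rw [ex_apply, ex_apply]
  funext k
  rw [Function.comp_apply, Finset.sum_apply, Finset.sum_apply, map_sum]
  refine Finset.sum_congr rfl fun n _ => ?_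
  rw [Pi.smul_apply, Pi.smul_apply, smul_eq_mul, smul_eq_mul, map_mul, φ.map_rat_algebraMap,
    ← pow_map]
  rfl

theorem pow_mem' {R : Type*} [CommRing R] [Algebra R A] (S : Subalgebra R A) {x Y : E8 A}
    (hx : ∀ m, x m ∈ S) (hY : ∀ m, Y m ∈ S) (n : ℕ) (m : Fin 248) : ((brL x) ^ n) Y m ∈ S := by
  induction n generalizing m with
  | zero => simpa using hY m
  | succ n ih =>
    rw [pow_succ', Module.End.mul_apply, brL_apply]
    exact br_mem S hx ih m

theorem ex_mem {R : Type*} [CommRing R] [Algebra ℚ R] [Algebra R A] (S : Subalgebra R A)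
    {x Y : E8 A} (hx : ∀ m, x m ∈ S) (hY : ∀ m, Y m ∈ S) (m : Fin 248) : ex x Y m ∈ S := by
  rw [ex_apply, Finset.sum_apply]
  refine S.sum_mem fun n _ => ?_
  rw [Pi.smul_apply, smul_eq_mul]
  refine S.mul_mem ?_ (pow_mem' S hx hY n m)
  rw [← (algebraMap R A).map_rat_algebraMap]
  exact S.algebraMap_mem _

end

end Pool.Agent.Licci

end

section

/-!
# LICCI, codimension 6: the invariant form of `e_8`, extremal elements (definitions)

* `kf` is the invariant symmetric form with `(e_a, e_(-a)) = -1` and `(h_q, h_r)` the Cartan matrix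
  (recall `[e_a, e_(-a)] = - h_a` in the table), so trace `(ad x)(ad y)` is `60 kf x y`;
* `Cone p`: `(ad p)^2 y = - 2 (p, y) p` for all `y`;
* `Pair p w`: two extremal elements with `(p, w) = 1`; then `h = [p, w]` has `[h, p] = 2 p`,
  `[h, w] = - 2 w`, `(h, h) = 2`, and `ad h` has the eigenvalues `2, 1, 0, -1, -2` on
  `A p, 56, e_7 + A h, 56, A w`;
* `wq q` is minus the root vector opposite to the root vector `ix q` of `z`-degree `3`, so
  `Pair (eb (ix q)) (wq q)` and more generally `Pair p (c • wq q)` if `p` is extremal and `c` is the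
  inverse of the `q`-th coordinate of `p`.
-/

set_option linter.unusedSectionVars false

namespace Pool.Agent.Licci

open scoped BigOperators

/-- the form on basis vectors -/
def kcN (i j : ℕ) : ℤ :=
  bif Nat.blt i 240 then
    bif Nat.blt j 240 then
      (bif Nat.beq (Nat.add (cd i) (cd j)) 1145324612 then -1 else 0) else 0
  else bif Nat.blt j 240 then 0 else prN (gens.getD (i - 240) 0) (j - 240)

/-- the form on basis vectors -/
def kc (i j : Fin 248) : ℤ := kcN i j

variable {A : Type*} [CommRing A]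

/-- the invariant form of `e_8` -/
def kf (x y : E8 A) : A := ∑ i, ∑ j, (kc i j : A) * (x i * y j)

/-- extremal elements -/
def Cone (p : E8 A) : Prop := ∀ y : E8 A, br p (br p y) = (-(2 * kf p y)) • p

/-- two extremal elements with pairing `1` -/
structure Pair (p w : E8 A) : Prop where
  cp : Cone p
  cw : Cone w
  one : kf p w = 1

/-- minus the root vector opposite to `ix q` -/
def wq (q : Fin 8) : E8 A := - eb (ix (232 + q))

/-- the stabilizer of the line of `p` (all `w` with `[w, p]` and `p` proportional) -/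
def F0 (p : E8 A) : Set (E8 A) := {w | ∀ i j, br w p i * p j = br w p j * p i}

/-- the orthogonal complement of `F0 p` -/
def F1 (p : E8 A) : Set (E8 A) := {x | ∀ w ∈ F0 p, kf x w = 0}

end Pool.Agent.Licci

end

section

/-!
# LICCI, codimension 6: kernel checks for the chart `p = e_q`, `q < 8` (definitions)

`g1 q`: the basis vectors of weight `b_q = 1`.  `tch q`: the trace of `(ad a)(ad b)` on their span is
`12 (a, b) + 8 (a, h) (b, h)` for basis vectors `a`, `b` of opposite weights with `b_q = 0`.
-/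

set_option linter.unusedSectionVars false

namespace Pool.Agent.Licci

/-- the basis vectors with `b_q = 1` -/
def g1 (q : ℕ) : List ℕ := match q with
| 0 =>
  [1, 2, 3, 4, 5, 6, 7, 15, 16, 17, 18, 19, 20, 21, 22, 23, 24, 25, 26, 27, 28, 29, 30, 31, 32,
   33, 34, 35, 36, 37, 38, 39, 40, 41, 42, 43, 44, 45, 46, 47, 48, 49, 50, 51, 52, 53, 54, 55,
   56, 92, 93, 94, 95, 96, 97, 98]
| 1 =>
  [0, 2, 3, 4, 5, 6, 7, 9, 10, 11, 12, 13, 14, 21, 22, 23, 24, 25, 26, 27, 28, 29, 30, 31, 32,
   33, 34, 35, 36, 37, 38, 39, 40, 41, 57, 58, 59, 60, 61, 62, 63, 64, 65, 66, 67, 68, 69, 70,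
   71, 99, 100, 101, 102, 103, 104, 105]
| 2 =>
  [0, 1, 3, 4, 5, 6, 7, 8, 10, 11, 12, 13, 14, 16, 17, 18, 19, 20, 26, 27, 28, 29, 30, 31, 32,
   33, 34, 35, 36, 42, 43, 44, 45, 46, 57, 58, 59, 60, 61, 72, 73, 74, 75, 76, 77, 78, 79, 80,
   81, 106, 107, 108, 109, 110, 111, 112]
| 3 =>
  [0, 1, 2, 4, 5, 6, 7, 8, 9, 11, 12, 13, 14, 15, 17, 18, 19, 20, 22, 23, 24, 25, 30, 31, 32,
   33, 34, 35, 37, 42, 47, 48, 49, 50, 57, 62, 63, 64, 65, 72, 73, 74, 75, 82, 83, 84, 85, 86,
   87, 113, 114, 115, 116, 117, 118, 119]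
| 4 =>
  [0, 1, 2, 3, 5, 6, 7, 8, 9, 10, 12, 13, 14, 15, 16, 18, 19, 20, 21, 23, 24, 25, 27, 28, 29,
   33, 34, 35, 38, 43, 47, 51, 52, 53, 58, 62, 66, 67, 68, 72, 76, 77, 78, 82, 83, 84, 88, 89,
   90, 120, 121, 122, 123, 124, 125, 126]
| 5 =>
  [0, 1, 2, 3, 4, 6, 7, 8, 9, 10, 11, 13, 14, 15, 16, 17, 19, 20, 21, 22, 24, 25, 26, 28, 29,
   31, 32, 35, 39, 44, 48, 51, 54, 55, 59, 63, 66, 69, 70, 73, 76, 79, 80, 82, 85, 86, 88, 89,
   91, 127, 128, 129, 130, 131, 132, 133]
| 6 =>
  [0, 1, 2, 3, 4, 5, 7, 8, 9, 10, 11, 12, 14, 15, 16, 17, 18, 20, 21, 22, 23, 25, 26, 27, 29,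
   30, 32, 34, 40, 45, 49, 52, 54, 56, 60, 64, 67, 69, 71, 74, 77, 79, 81, 83, 85, 87, 88, 90,
   91, 134, 135, 136, 137, 138, 139, 140]
| _ =>
  [0, 1, 2, 3, 4, 5, 6, 8, 9, 10, 11, 12, 13, 15, 16, 17, 18, 19, 21, 22, 23, 24, 26, 27, 28,
   30, 31, 33, 41, 46, 50, 53, 55, 56, 61, 65, 68, 70, 71, 75, 78, 80, 81, 84, 86, 87, 89, 90,
   91, 141, 142, 143, 144, 145, 146, 147]

/-- `∑_(k ∈ L) [m, [n, e_k]]_k` -/
def tLN (L : List ℕ) (m n : ℕ) : ℤ := L.foldr (fun k s => cf (lm m (sp n k)) k + s) 0

/-- `(e_m, h)` for `h = [e_q, - e_(-q)]` -/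
def hcN (q m : ℕ) : ℤ := - (sp q (232 + q)).foldr (fun p s => p.2 * kcN m p.1 + s) 0

/-- the trace formula for a pair of basis vectors -/
def tc (L : List ℕ) (q m n : ℕ) : Bool :=
  isz (tLN L m n - (12 * kcN m n + 8 * (hcN q m * hcN q n)))

/-- index of the opposite root -/
def opN (m : ℕ) : ℕ := fnd (Nat.sub 1717986918 (cd m))

/-- the trace formula for all pairs of opposite weights -/
def tch (q : ℕ) : Bool :=
  (List.range 240).all (fun m => bif Nat.beq (dg m q) 2 then tc (g1 q) q m (opN m) else true)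
    && (List.range 8).all (fun m => (List.range 8).all (fun n => tc (g1 q) q (240 + m) (240 + n)))

/-- the part of `tch` on the roots -/
def tchA (q : ℕ) : Bool :=
  (List.range 240).all (fun m => bif Nat.beq (dg m q) 2 then tc (g1 q) q m (opN m) else true)

/-- the part of `tch` on the Cartan part -/
def tchB (q : ℕ) : Bool :=
  (List.range 8).all (fun m => (List.range 8).all (fun n => tc (g1 q) q (240 + m) (240 + n)))

theorem tch_of {q : ℕ} (h1 : tchA q = true) (h2 : tchB q = true) : tch q = true := by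
  unfold tchA at h1
  unfold tchB at h2
  unfold tch
  rw [h1, h2]
  rfl

/-- `(ad e_g)^2 e_j = - 2 (e_g, e_j) e_g`, where `o` is the opposite of `g` -/
def cck (g o j : ℕ) : Bool :=
  bif Nat.beq j o then zr (lm g (sp g j) ++ [(g, 2 * kcN g j)])
  else (lm g (sp g j)).isEmpty && isz (kcN g j)

/-- `ad h` on the root vectors -/
def hck (q j : ℕ) : Bool :=
  isz ((sp q (232 + q)).foldr (fun p s => p.2 * prN j (p.1 - 240) + s) 0 + wtN j q)

/-- comparison of a list with the reverse of a filtered range -/
def gcmp (p : ℕ → Bool) : ℕ → List ℕ → Bool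
  | 0, L => match L with
    | [] => true
    | _ => false
  | (n + 1), L => match L with
    | [] => bif p n then false else gcmp p n []
    | (a :: L') => bif p n then (bif Nat.beq a n then gcmp p n L' else false) else gcmp p n (a :: L')

end Pool.Agent.Licci

end
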