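import Pool.Agent.Work.MP_a98e4e_ag.Fu.L.Form
import Pool.Agent.Work.MP_a98e4e_ag.Fu.L.ChkDef

section

/-!
# LICCI, codimension 4: brackets with `x ∧ y ∧ z` (helper43)

`p3_tri` and `om_tri`: the components of degree `3` and `2` of `[x ∧ y ∧ z, Y]`.
-/

set_option linter.unusedSectionVars false

namespace Pool.Agent.Licci

open scoped BigOperators

variable {A : Type*} [CommRing A]

/-! ### general facts -/

theorem sc_eq_zero_of_ne {n c m : Fin 248} (hn : (n : ℕ) < 240) (hm : (m : ℕ) < 240) (hnm : n ≠ m)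
    (h : (c : ℕ) ≠ fnd (cd m + off + off - cd n)) : sc n c m = 0 := by
  by_contra hs
  have h1 := scN_wt n.2 c.2 hs
  rcases lt_or_ge (c : ℕ) 240 with hc | hc
  · apply h
    have h2 : cd (c : ℕ) + off = cd m + off + off - cd n := by omega
    rw [← h2, fnd_cd hc]
  · have h2 := cd_cartan hc c.2
    have h3 : cd n = cd m := by omega
    apply hnm
    apply Fin.ext
    rw [← fnd_cd hn, ← fnd_cd hm, h3]

theorem br_eb_left (n : Fin 248) (Y : E8 A) (m : Fin 248) :
    br (eb n) Y m = ∑ c, (sc n c m : A) * Y c := by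
  rw [br_apply, Finset.sum_eq_single n]
  · simp [eb_apply]
  · intro b _ hb
    apply Finset.sum_eq_zero
    intro c _
    simp [eb_apply, hb]
  · intro h
    exact absurd (Finset.mem_univ _) h

/-- a bracket with a root vector, one component -/
theorem br_eb_left_of {n c m : Fin 248} (hn : (n : ℕ) < 240) (hm : (m : ℕ) < 240) (hnm : n ≠ m)
    (h : (c : ℕ) = fnd (cd m + off + off - cd n)) (Y : E8 A) :
    br (eb n) Y m = (sc n c m : A) * Y c := by
  rw [br_eb_left, Finset.sum_eq_single c]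
  · intro b _ hb
    rw [sc_eq_zero_of_ne hn hm hnm (fun hb' => hb (Fin.ext (hb'.trans h.symm)))]
    simp
  · intro h
    exact absurd (Finset.mem_univ _) h

theorem br_eb_left_zero {n m : Fin 248} (hn : (n : ℕ) < 240) (hm : (m : ℕ) < 240) (hnm : n ≠ m)
    (h : 248 ≤ fnd (cd m + off + off - cd n)) (Y : E8 A) :
    br (eb n) Y m = 0 := by
  rw [br_eb_left]
  apply Finset.sum_eq_zero
  intro b _
  rw [sc_eq_zero_of_ne hn hm hnm (by have := b.2; omega)]
  simp

/-! ### kernel checks -/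

set_option maxRecDepth 100000 in
theorem i1_rng : ∀ i j k : Fin 8, i < j → j < k → 36 ≤ (i1 i j k : ℕ) ∧ (i1 i j k : ℕ) < 92 := by
  decide +kernel

set_option maxRecDepth 100000 in
theorem i2_rng : ∀ i j : Fin 8, i < j → 8 ≤ (i2 i j : ℕ) ∧ (i2 i j : ℕ) < 36 := by
  decide +kernel

set_option maxRecDepth 100000 in
theorem tri3_chk : ∀ i j k : Fin 8, i < j → j < k → ∀ a : Fin 8,
    if a = i then (i2 j k : ℕ) = fnd (cd (ix a) + off + off - cd (i1 i j k)) ∧
      sc (i1 i j k) (i2 j k) (ix a) = - sg3 i j k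
    else if a = j then (i2 i k : ℕ) = fnd (cd (ix a) + off + off - cd (i1 i j k)) ∧
      sc (i1 i j k) (i2 i k) (ix a) = sg3 i j k
    else if a = k then (i2 i j : ℕ) = fnd (cd (ix a) + off + off - cd (i1 i j k)) ∧
      sc (i1 i j k) (i2 i j) (ix a) = - sg3 i j k
    else 248 ≤ fnd (cd (ix a) + off + off - cd (i1 i j k)) := by
  decide +kernel


/-- sign of the permutation sorting `i, j, k, p, q` -/
def ep5 (i j k p q : Fin 8) : ℤ :=
  ep3 i j k * ep2 p q * Int.sign (((p : ℤ) - i) * ((p : ℤ) - j) * ((p : ℤ) - k)) *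
    Int.sign (((q : ℤ) - i) * ((q : ℤ) - j) * ((q : ℤ) - k))

/-- index of the triple complementary to `i, j, k, p, q` -/
def cpl (i j k p q : Fin 8) : Fin 248 :=
  ix (fnd (0x44444444 + 0x11111111 - 16 ^ (i : ℕ) - 16 ^ (j : ℕ) - 16 ^ (k : ℕ) - 16 ^ (p : ℕ) -
    16 ^ (q : ℕ)))

set_option maxRecDepth 100000 in
theorem tri2_chk : ∀ i j k : Fin 8, i < j → j < k → ∀ p q : Fin 8, p < q →
    if ep5 i j k p q = 0 then
      248 ≤ fnd (cd (i2 p q) + off + off - cd (i1 i j k))
    else (cpl i j k p q : ℕ) = fnd (cd (i2 p q) + off + off - cd (i1 i j k)) ∧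
      sc (i1 i j k) (cpl i j k p q) (i2 p q) = - sg3 i j k * ep5 i j k p q := by
  decide +kernel

/-! ### symmetries -/

theorem ix_val {n : ℕ} (h : n < 248) : ((ix n : Fin 248) : ℕ) = n := by
  simp [ix, Nat.mod_eq_of_lt h]

theorem ix_fin (a : Fin 8) : ((ix a : Fin 248) : ℕ) = a := ix_val (lt_trans a.2 (by norm_num))

theorem ep3_of_lt {i j k : Fin 8} (h1 : i < j) (h2 : j < k) : ep3 i j k = 1 := by
  have h3 : ((i : ℕ) : ℤ) < j := by exact_mod_cast h1
  have h4 : ((j : ℕ) : ℤ) < k := by exact_mod_cast h2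
  unfold ep3
  rw [Int.sign_eq_one_iff_pos]
  have a1 : (0 : ℤ) < (j : ℤ) - i := by omega
  have a2 : (0 : ℤ) < (k : ℤ) - i := by omega
  have a3 : (0 : ℤ) < (k : ℤ) - j := by omega
  positivity

theorem ep2_of_lt {i j : Fin 8} (h1 : i < j) : ep2 i j = 1 := by
  have h3 : ((i : ℕ) : ℤ) < j := by exact_mod_cast h1
  unfold ep2
  rw [Int.sign_eq_one_iff_pos]
  omega

theorem ep3_swap (i j k : Fin 8) : ep3 i j k = - ep3 j i k := by
  unfold ep3
  rw [← Int.sign_neg]
  congr 1
  ring

theorem ep3_swap' (i j k : Fin 8) : ep3 i j k = - ep3 i k j := by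
  unfold ep3
  rw [← Int.sign_neg]
  congr 1
  ring

theorem ep3_self (i k : Fin 8) : ep3 i i k = 0 := by simp [ep3]

theorem ep2_swap (i j : Fin 8) : ep2 i j = - ep2 j i := by
  unfold ep2
  rw [← Int.sign_neg]
  congr 1
  ring

theorem ep2_self (i : Fin 8) : ep2 i i = 0 := by simp [ep2]

theorem sg3_swap (i j k : Fin 8) : sg3 i j k = sg3 j i k := by
  unfold sg3
  congr 1
  omega

theorem sg3_swap' (i j k : Fin 8) : sg3 i j k = sg3 i k j := by
  unfold sg3
  congr 1
  omega

theorem sg3_sq (i j k : Fin 8) : sg3 i j k * sg3 i j k = 1 := by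
  unfold sg3
  rw [← pow_add, ← two_mul, pow_mul]
  simp

theorem i1_swap (i j k : Fin 8) : i1 i j k = i1 j i k := by
  unfold i1
  congr 2
  ring

theorem i1_swap' (i j k : Fin 8) : i1 i j k = i1 i k j := by
  unfold i1
  congr 2
  ring

theorem i2_swap (i j : Fin 8) : i2 i j = i2 j i := by
  unfold i2
  congr 2
  omega

theorem T_swap (i j k : Fin 8) : (T i j k : E8 A) = - T j i k := by
  unfold T
  rw [i1_swap i j k, sg3_swap i j k, ep3_swap i j k, mul_neg, neg_neg, ← neg_smul]
  congr 1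
  push_cast
  ring

theorem T_swap' (i j k : Fin 8) : (T i j k : E8 A) = - T i k j := by
  unfold T
  rw [i1_swap' i j k, sg3_swap' i j k, ep3_swap' i j k, mul_neg, neg_neg, ← neg_smul]
  congr 1
  push_cast
  ring

theorem T_self (i k : Fin 8) : (T i i k : E8 A) = 0 := by
  unfold T
  rw [ep3_self]
  simp

theorem w2_swap (Y : E8 A) (i j : Fin 8) : w2 Y i j = - w2 Y j i := by
  unfold w2
  rw [ep2_swap i j, i2_swap i j]
  push_cast
  ring

theorem w2_self (Y : E8 A) (i : Fin 8) : w2 Y i i = 0 := by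
  unfold w2
  rw [ep2_self]
  simp

/-- an alternating function vanishes if it vanishes on increasing triples -/
theorem alt3_zero {M : Type*} [AddCommGroup M] (Φ : Fin 8 → Fin 8 → Fin 8 → M)
    (h1 : ∀ i j k, Φ i j k = - Φ j i k) (h2 : ∀ i j k, Φ i j k = - Φ i k j)
    (h0 : ∀ i k, Φ i i k = 0) (hs : ∀ i j k, i < j → j < k → Φ i j k = 0) (i j k : Fin 8) :
    Φ i j k = 0 := by
  have key : ∀ i j k, i < j → Φ i j k = 0 := by
    intro i j k hij
    rcases lt_trichotomy j k with h | h | h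
    · exact hs i j k hij h
    · subst h
      rw [h1, h2, h0]
      simp
    · rcases lt_trichotomy i k with h' | h' | h'
      · rw [h2, hs i k j h' h, neg_zero]
      · subst h'
        rw [h2, h0, neg_zero]
      · rw [h2, h1, hs k i j h' hij]
        simp
  rcases lt_trichotomy i j with h | h | h
  · exact key i j k h
  · subst h
    exact h0 i k
  · rw [h1, key j i k h, neg_zero]

/-! ### degree three -/

theorem br_T_three {i j k : Fin 8} (hij : i < j) (hjk : j < k) (Y : E8 A) (a : Fin 8) :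
    br (T i j k) Y (ix a) = w2 Y j k * (if a = i then 1 else 0) - w2 Y i k * (if a = j then 1 else 0) +
      w2 Y i j * (if a = k then 1 else 0) := by
  have hr := i1_rng i j k hij hjk
  have ha : ((ix a : Fin 248) : ℕ) = a := ix_fin a
  have hn : ((i1 i j k : Fin 248) : ℕ) < 240 := by omega
  have hm : ((ix a : Fin 248) : ℕ) < 240 := by omega
  have hnm : i1 i j k ≠ ix a := by
    intro h
    have := congrArg Fin.val h
    omega
  have hc := tri3_chk i j k hij hjk a
  have hs : ((sg3 i j k : ℤ) : A) * ((sg3 i j k : ℤ) : A) = 1 := by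
    rw [← Int.cast_mul, sg3_sq, Int.cast_one]
  have hik : i < k := lt_trans hij hjk
  unfold T
  rw [br_smul_left, Pi.smul_apply, smul_eq_mul, ep3_of_lt hij hjk, mul_one]
  unfold w2
  rw [ep2_of_lt hij, ep2_of_lt hjk, ep2_of_lt hik, Int.cast_one, one_mul, one_mul, one_mul]
  by_cases h1 : a = i
  · rw [if_pos h1] at hc
    rw [br_eb_left_of hn hm hnm hc.1, hc.2, if_pos h1, if_neg (by rw [h1]; exact ne_of_lt hij),
      if_neg (by rw [h1]; exact ne_of_lt hik)]
    push_cast
    linear_combination (Y (i2 j k)) * hs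
  · rw [if_neg h1] at hc
    by_cases h2 : a = j
    · rw [if_pos h2] at hc
      rw [br_eb_left_of hn hm hnm hc.1, hc.2, if_neg h1, if_pos h2,
        if_neg (by rw [h2]; exact ne_of_lt hjk)]
      push_cast
      linear_combination - (Y (i2 i k)) * hs
    · rw [if_neg h2] at hc
      by_cases h3 : a = k
      · rw [if_pos h3] at hc
        rw [br_eb_left_of hn hm hnm hc.1, hc.2, if_neg h1, if_neg h2, if_pos h3]
        push_cast
        linear_combination (Y (i2 i j)) * hs
      · rw [if_neg h3] at hc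
        rw [br_eb_left_zero hn hm hnm hc, if_neg h1, if_neg h2, if_neg h3]
        ring

theorem br_T_three' (i j k : Fin 8) (Y : E8 A) (a : Fin 8) :
    br (T i j k) Y (ix a) = w2 Y j k * (if a = i then 1 else 0) - w2 Y i k * (if a = j then 1 else 0) +
      w2 Y i j * (if a = k then 1 else 0) := by
  rw [← sub_eq_zero]
  refine alt3_zero (fun i j k => br (T i j k) Y (ix a) - (w2 Y j k * (if a = i then 1 else 0) -
    w2 Y i k * (if a = j then 1 else 0) + w2 Y i j * (if a = k then 1 else 0))) ?_ ?_ ?_ ?_ i j k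
  · intro i j k
    rw [T_swap i j k, br_neg_left, Pi.neg_apply, w2_swap Y j i]
    ring
  · intro i j k
    rw [T_swap' i j k, br_neg_left, Pi.neg_apply, w2_swap Y j k]
    ring
  · intro i k
    rw [T_self, br_zero_left, w2_self, Pi.zero_apply]
    ring
  · intro i j k h1 h2
    rw [br_T_three h1 h2, sub_self]

theorem br_tri_apply (x y z : Vec A) (Y : E8 A) (m : Fin 248) :
    br (tri x y z) Y m = ∑ i, ∑ j, ∑ k, (x i * y j * z k) * br (T i j k) Y m := by
  unfold tri
  rw [br_sum_left, Finset.sum_apply]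
  refine Finset.sum_congr rfl fun i _ => ?_
  rw [br_sum_left, Finset.sum_apply]
  refine Finset.sum_congr rfl fun j _ => ?_
  rw [br_sum_left, Finset.sum_apply]
  refine Finset.sum_congr rfl fun k _ => ?_
  rw [br_smul_left, Pi.smul_apply, smul_eq_mul]

/-- (F2) -/
theorem p3_tri (x y z : Vec A) (Y : E8 A) :
    p3 (br (tri x y z) Y) = om Y y z • x - om Y x z • y + om Y x y • z := by
  funext a
  change br (tri x y z) Y (ix a) = _
  rw [br_tri_apply]
  simp only [br_T_three', Pi.add_apply, Pi.sub_apply, Pi.smul_apply, smul_eq_mul, om]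
  have e1 : ∑ i, ∑ j, ∑ k, x i * y j * z k * (w2 Y j k * (if a = i then 1 else 0)) =
      (∑ j, ∑ k, w2 Y j k * (y j * z k)) * x a := by
    rw [Finset.sum_eq_single a]
    · simp only [if_true, mul_one, Finset.sum_mul]
      refine Finset.sum_congr rfl fun j _ => Finset.sum_congr rfl fun k _ => ?_
      ring
    · intro i _ hi
      simp [Ne.symm hi]
    · intro h
      exact absurd (Finset.mem_univ _) h
  have e2 : ∑ i, ∑ j, ∑ k, x i * y j * z k * (w2 Y i k * (if a = j then 1 else 0)) =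
      (∑ i, ∑ k, w2 Y i k * (x i * z k)) * y a := by
    rw [Finset.sum_mul]
    refine Finset.sum_congr rfl fun i _ => ?_
    rw [Finset.sum_eq_single a]
    · simp only [if_true, mul_one, Finset.sum_mul]
      refine Finset.sum_congr rfl fun k _ => ?_
      ring
    · intro j _ hj
      simp [Ne.symm hj]
    · intro h
      exact absurd (Finset.mem_univ _) h
  have e3 : ∑ i, ∑ j, ∑ k, x i * y j * z k * (w2 Y i j * (if a = k then 1 else 0)) =
      (∑ i, ∑ j, w2 Y i j * (x i * y j)) * z a := by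
    rw [Finset.sum_mul]
    refine Finset.sum_congr rfl fun i _ => ?_
    rw [Finset.sum_mul]
    refine Finset.sum_congr rfl fun j _ => ?_
    rw [Finset.sum_eq_single a]
    · simp only [if_true, mul_one]
      ring
    · intro k _ hk
      simp [Ne.symm hk]
    · intro h
      exact absurd (Finset.mem_univ _) h
  rw [← e1, ← e2, ← e3]
  simp only [← Finset.sum_sub_distrib, ← Finset.sum_add_distrib]
  refine Finset.sum_congr rfl fun i _ => Finset.sum_congr rfl fun j _ =>
    Finset.sum_congr rfl fun k _ => ?_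
  ring

/-! ### degree two -/

theorem ep5_swap12 (i j k p q : Fin 8) : ep5 i j k p q = - ep5 j i k p q := by
  unfold ep5
  rw [ep3_swap i j k, show ((p : ℤ) - i) * ((p : ℤ) - j) * ((p : ℤ) - k) =
    ((p : ℤ) - j) * ((p : ℤ) - i) * ((p : ℤ) - k) by ring,
    show ((q : ℤ) - i) * ((q : ℤ) - j) * ((q : ℤ) - k) =
    ((q : ℤ) - j) * ((q : ℤ) - i) * ((q : ℤ) - k) by ring]
  ring

theorem ep5_swap23 (i j k p q : Fin 8) : ep5 i j k p q = - ep5 i k j p q := by
  unfold ep5
  rw [ep3_swap' i j k, show ((p : ℤ) - i) * ((p : ℤ) - j) * ((p : ℤ) - k) =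
    ((p : ℤ) - i) * ((p : ℤ) - k) * ((p : ℤ) - j) by ring,
    show ((q : ℤ) - i) * ((q : ℤ) - j) * ((q : ℤ) - k) =
    ((q : ℤ) - i) * ((q : ℤ) - k) * ((q : ℤ) - j) by ring]
  ring

theorem ep5_swap45 (i j k p q : Fin 8) : ep5 i j k p q = - ep5 i j k q p := by
  unfold ep5
  rw [ep2_swap p q]
  ring

theorem ep5_eq (i j k p q : Fin 8) : ep5 i j k p q =
    Int.sign ((((j : ℤ) - i) * ((k : ℤ) - i) * ((k : ℤ) - j)) * ((q : ℤ) - p) *
      (((p : ℤ) - i) * ((p : ℤ) - j) * ((p : ℤ) - k)) *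
      (((q : ℤ) - i) * ((q : ℤ) - j) * ((q : ℤ) - k))) := by
  unfold ep5 ep3 ep2
  simp only [Int.sign_mul]

theorem ep5_swap14 (i j k p q : Fin 8) : ep5 i j k p q = - ep5 p j k i q := by
  rw [ep5_eq, ep5_eq, ← Int.sign_neg]
  congr 1
  ring

theorem cpl_swap12 (i j k p q : Fin 8) : cpl i j k p q = cpl j i k p q := by
  unfold cpl
  congr 2
  omega

theorem cpl_swap23 (i j k p q : Fin 8) : cpl i j k p q = cpl i k j p q := by
  unfold cpl
  congr 2
  omega

theorem cpl_swap45 (i j k p q : Fin 8) : cpl i j k p q = cpl i j k q p := by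
  unfold cpl
  congr 2
  omega

theorem cpl_swap14 (i j k p q : Fin 8) : cpl i j k p q = cpl p j k i q := by
  unfold cpl
  congr 2
  omega

theorem w2_br_T_sorted {i j k p q : Fin 8} (hij : i < j) (hjk : j < k) (hpq : p < q) (Y : E8 A) :
    w2 (br (T i j k) Y) p q = (ep5 i j k p q : A) * Y (cpl i j k p q) := by
  have hr := i1_rng i j k hij hjk
  have hr2 := i2_rng p q hpq
  have hn : ((i1 i j k : Fin 248) : ℕ) < 240 := by omega
  have hm : ((i2 p q : Fin 248) : ℕ) < 240 := by omega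
  have hnm : i1 i j k ≠ i2 p q := by
    intro h
    have := congrArg Fin.val h
    omega
  have hc := tri2_chk i j k hij hjk p q hpq
  have hs : ((sg3 i j k : ℤ) : A) * ((sg3 i j k : ℤ) : A) = 1 := by
    rw [← Int.cast_mul, sg3_sq, Int.cast_one]
  unfold T w2
  rw [br_smul_left, Pi.smul_apply, smul_eq_mul, ep3_of_lt hij hjk, mul_one, ep2_of_lt hpq,
    Int.cast_one, one_mul]
  by_cases h : ep5 i j k p q = 0
  · rw [if_pos h] at hc
    rw [br_eb_left_zero hn hm hnm hc, h]
    simp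
  · rw [if_neg h] at hc
    rw [br_eb_left_of hn hm hnm hc.1, hc.2]
    push_cast
    linear_combination ((ep5 i j k p q : ℤ) : A) * Y (cpl i j k p q) * hs

theorem w2_br_T (i j k p q : Fin 8) (Y : E8 A) :
    w2 (br (T i j k) Y) p q = (ep5 i j k p q : A) * Y (cpl i j k p q) := by
  have key : ∀ p q : Fin 8, p < q → ∀ i j k : Fin 8,
      w2 (br (T i j k) Y) p q = (ep5 i j k p q : A) * Y (cpl i j k p q) := by
    intro p q hpq i j k
    rw [← sub_eq_zero]
    refine alt3_zero (fun i j k => w2 (br (T i j k) Y) p q -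
      (ep5 i j k p q : A) * Y (cpl i j k p q)) ?_ ?_ ?_ ?_ i j k
    · intro i j k
      simp only [w2]
      rw [T_swap i j k, br_neg_left, Pi.neg_apply, ep5_swap12 i j k, cpl_swap12 i j k]
      push_cast
      ring
    · intro i j k
      simp only [w2]
      rw [T_swap' i j k, br_neg_left, Pi.neg_apply, ep5_swap23 i j k, cpl_swap23 i j k]
      push_cast
      ring
    · intro i k
      simp only [w2]
      rw [T_self, br_zero_left, Pi.zero_apply]
      simp [ep5, ep3_self]
    · intro i j k h1 h2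
      rw [w2_br_T_sorted h1 h2 hpq, sub_self]
  rcases lt_trichotomy p q with h | h | h
  · exact key p q h i j k
  · subst h
    rw [w2_self]
    simp [ep5, ep2_self]
  · rw [w2_swap, key q p h, ep5_swap45 i j k p q, cpl_swap45 i j k p q]
    push_cast
    ring

theorem sum_alt {M : Type*} [CommRing M] (a : Fin 8 → Fin 8 → M) (h0 : ∀ i, a i i = 0)
    (h : ∀ i p, a i p = - a p i) (x : Fin 8 → M) : ∑ i, ∑ p, a i p * (x i * x p) = 0 := by
  rw [← Finset.sum_product']
  refine Finset.sum_involution (fun ip _ => (ip.2, ip.1)) ?_ ?_ ?_ ?_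
  · intro ip _
    simp only
    rw [h ip.1 ip.2]
    ring
  · intro ip _ hne heq
    apply hne
    have h1 : ip.2 = ip.1 := congrArg Prod.fst heq
    rw [h1, h0, zero_mul]
  · intro ip _
    simp
  · intro ip _
    rfl

theorem w2_br_tri (x y z : Vec A) (Y : E8 A) (p q : Fin 8) :
    w2 (br (tri x y z) Y) p q =
      ∑ i, ∑ j, ∑ k, (x i * y j * z k) * ((ep5 i j k p q : A) * Y (cpl i j k p q)) := by
  have e : ∀ i j k, ((ep5 i j k p q : A) * Y (cpl i j k p q)) =
      (ep2 p q : A) * br (T i j k) Y (i2 p q) := by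
    intro i j k
    rw [← w2_br_T]
    rfl
  unfold w2
  rw [br_tri_apply, Finset.mul_sum]
  refine Finset.sum_congr rfl fun i _ => ?_
  rw [Finset.mul_sum]
  refine Finset.sum_congr rfl fun j _ => ?_
  rw [Finset.mul_sum]
  refine Finset.sum_congr rfl fun k _ => ?_
  rw [e]
  ring

/-- (F3) -/
theorem om_tri (x y z : Vec A) (Y : E8 A) (u : Vec A) : om (br (tri x y z) Y) x u = 0 := by
  unfold om
  have e : ∀ p q, w2 (br (tri x y z) Y) p q * (x p * u q) =
      ∑ i, (∑ j, ∑ k, (y j * z k * u q) * ((ep5 i j k p q : A) * Y (cpl i j k p q))) *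
        (x i * x p) := by
    intro p q
    rw [w2_br_tri, Finset.sum_mul]
    refine Finset.sum_congr rfl fun i _ => ?_
    rw [Finset.sum_mul, Finset.sum_mul]
    refine Finset.sum_congr rfl fun j _ => ?_
    rw [Finset.sum_mul, Finset.sum_mul]
    refine Finset.sum_congr rfl fun k _ => ?_
    ring
  simp only [e]
  rw [Finset.sum_comm]
  apply Finset.sum_eq_zero
  intro q _
  rw [Finset.sum_comm]
  refine sum_alt (fun i p => ∑ j, ∑ k, (y j * z k * u q) * ((ep5 i j k p q : A) *
    Y (cpl i j k p q))) ?_ ?_ x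
  · intro i
    refine Finset.sum_eq_zero fun j _ => Finset.sum_eq_zero fun k _ => ?_
    have h0 : ep5 i j k i q = 0 := by simp [ep5]
    rw [h0]
    simp
  · intro i p
    rw [← Finset.sum_neg_distrib]
    refine Finset.sum_congr rfl fun j _ => ?_
    rw [← Finset.sum_neg_distrib]
    refine Finset.sum_congr rfl fun k _ => ?_
    rw [ep5_swap14 i j k p q, cpl_swap14 i j k p q]
    push_cast
    ring

end Pool.Agent.Licci

end

section

/-!
# Module L4a: the `gl_8`-description, elementary facts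
-/

set_option linter.unusedSectionVars false

namespace Pool.Agent.Licci

open scoped BigOperators
open U (Sup)

variable {A : Type*} [CommRing A]

/-! ### kernel checks -/

set_option maxRecDepth 100000 in
theorem zdg_lt8 : ∀ a : Fin 8, zdg (ix a) = 3 := by decide +kernel

set_option maxRecDepth 100000 in
theorem zdg_i2 : ∀ i j : Fin 8, i < j → zdg (i2 i j) = 2 := by decide +kernel

set_option maxRecDepth 100000 in
theorem zdg_i1 : ∀ i j k : Fin 8, i < j → j < k → zdg (i1 i j k) = 1 := by decide +kernel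

set_option maxRecDepth 100000 in
theorem zdg_im1 : ∀ i j k : Fin 8, i < j → j < k → zdg (im1 i j k) = -1 := by decide +kernel

set_option maxRecDepth 100000 in
theorem zdg_big : ∀ m : Fin 248, 36 ≤ (m : ℕ) → zdg m < 2 := by decide +kernel

set_option maxRecDepth 100000 in
theorem i2_surj : ∀ m : Fin 248, 8 ≤ (m : ℕ) → (m : ℕ) < 36 → ∃ i j : Fin 8, i < j ∧ i2 i j = m := by
  decide +kernel

set_option maxRecDepth 100000 in
theorem wtg_i2 : ∀ i j : Fin 8, i < j → ∀ q, wtg q (i2 i j) = 0 ↔ (q = i ∨ q = j) := by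
  decide +kernel

set_option maxRecDepth 100000 in
theorem wtg_im1 : ∀ i j k : Fin 8, i < j → j < k → ∀ q, wtg q (im1 i j k) = -1 ↔
    (q = i ∨ q = j ∨ q = k) := by
  decide +kernel

theorem i2_inj {i j i' j' : Fin 8} (h : i < j) (h' : i' < j') (he : i2 i j = i2 i' j') :
    i = i' ∧ j = j' := by
  have h1 := (wtg_i2 i' j' h' i).1 (by rw [← he]; exact (wtg_i2 i j h i).2 (Or.inl rfl))
  have h2 := (wtg_i2 i' j' h' j).1 (by rw [← he]; exact (wtg_i2 i j h j).2 (Or.inr rfl))
  omega

theorem im1_inj {i j k i' j' k' : Fin 8} (h1 : i < j) (h2 : j < k) (h1' : i' < j') (h2' : j' < k')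
    (he : im1 i j k = im1 i' j' k') : i = i' ∧ j = j' ∧ k = k' := by
  have a1 := (wtg_im1 i' j' k' h1' h2' i).1
    (by rw [← he]; exact (wtg_im1 i j k h1 h2 i).2 (Or.inl rfl))
  have a2 := (wtg_im1 i' j' k' h1' h2' j).1
    (by rw [← he]; exact (wtg_im1 i j k h1 h2 j).2 (Or.inr (Or.inl rfl)))
  have a3 := (wtg_im1 i' j' k' h1' h2' k).1
    (by rw [← he]; exact (wtg_im1 i j k h1 h2 k).2 (Or.inr (Or.inr rfl)))
  omega

/-! ### degree three -/

theorem V3_apply_ix (v : Vec A) (a : Fin 8) : V3 v (ix a) = v a := by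
  have h : ((ix a : Fin 248) : ℕ) < 8 := by rw [ix_fin]; exact a.2
  unfold V3
  rw [dif_pos h]
  congr 1
  apply Fin.ext
  exact ix_fin a

theorem V3_apply_of_le (v : Vec A) {m : Fin 248} (h : 8 ≤ (m : ℕ)) : V3 v m = 0 := by
  unfold V3
  rw [dif_neg (by omega)]

theorem p3_V3 (v : Vec A) : p3 (V3 v) = v := by
  funext a
  exact V3_apply_ix v a

theorem eq_ix {m : Fin 248} (h : (m : ℕ) < 8) : m = ix (⟨m, h⟩ : Fin 8) := by
  apply Fin.ext
  rw [ix_fin]

theorem V3_sup (v : Vec A) : Sup zdg 3 (V3 v) := by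
  intro m hm
  rcases lt_or_ge (m : ℕ) 8 with h | h
  · exfalso
    apply hm
    rw [eq_ix h]
    exact zdg_lt8 _
  · exact V3_apply_of_le v h

/-! ### degree two -/

theorem W2_apply (w : Fin 8 → Fin 8 → A) (m : Fin 248) :
    W2 w m = ∑ i, ∑ j, if i < j ∧ i2 i j = m then w i j else 0 := by
  unfold W2
  rw [Finset.sum_apply]
  refine Finset.sum_congr rfl fun i _ => ?_
  rw [Finset.sum_apply]
  refine Finset.sum_congr rfl fun j _ => ?_
  by_cases h : i < j
  · rw [if_pos h, Pi.smul_apply, eb_apply, smul_eq_mul]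
    by_cases h' : i2 i j = m
    · rw [if_pos h'.symm, if_pos ⟨h, h'⟩, mul_one]
    · rw [if_neg (Ne.symm h'), if_neg (fun h'' => h' h''.2), mul_zero]
  · rw [if_neg h, if_neg (fun h'' => h h''.1)]
    rfl

theorem W2_apply_zero (w : Fin 8 → Fin 8 → A) {m : Fin 248}
    (h : (m : ℕ) < 8 ∨ 36 ≤ (m : ℕ)) : W2 w m = 0 := by
  rw [W2_apply]
  refine Finset.sum_eq_zero fun i _ => Finset.sum_eq_zero fun j _ => ?_
  rw [if_neg]
  rintro ⟨h1, h2⟩
  have := i2_rng i j h1
  rw [h2] at this
  omega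

theorem W2_apply_i2 (w : Fin 8 → Fin 8 → A) {i j : Fin 8} (h : i < j) : W2 w (i2 i j) = w i j := by
  rw [W2_apply, Finset.sum_eq_single i, Finset.sum_eq_single j]
  · rw [if_pos ⟨h, rfl⟩]
  · intro b _ hb
    rw [if_neg]
    rintro ⟨h1, h2⟩
    exact hb (i2_inj h1 h h2).2
  · simp
  · intro b _ hb
    refine Finset.sum_eq_zero fun c _ => ?_
    rw [if_neg]
    rintro ⟨h1, h2⟩
    exact hb (i2_inj h1 h h2).1
  · simp

theorem p3_W2 (w : Fin 8 → Fin 8 → A) : p3 (W2 w) = 0 := by
  funext a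
  exact W2_apply_zero w (Or.inl (by rw [ix_fin]; exact a.2))

theorem W2_sup (w : Fin 8 → Fin 8 → A) : Sup zdg 2 (W2 w) := by
  intro m hm
  rw [W2_apply]
  refine Finset.sum_eq_zero fun i _ => Finset.sum_eq_zero fun j _ => ?_
  rw [if_neg]
  rintro ⟨h1, h2⟩
  apply hm
  rw [← h2]
  exact zdg_i2 i j h1

theorem w2_W2 (w : Fin 8 → Fin 8 → A) (h0 : ∀ i, w i i = 0) (h : ∀ i j, w i j = - w j i)
    (i j : Fin 8) : w2 (W2 w) i j = w i j := by
  have key : ∀ i j : Fin 8, i < j → w2 (W2 w) i j = w i j := by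
    intro i j hij
    unfold w2
    rw [ep2_of_lt hij, Int.cast_one, one_mul, W2_apply_i2 w hij]
  rcases lt_trichotomy i j with h1 | h1 | h1
  · exact key i j h1
  · subst h1
    rw [w2_self, h0]
  · rw [w2_swap, key j i h1, h i j]

theorem w2_V3 (v : Vec A) (i j : Fin 8) : w2 (V3 v) i j = 0 := by
  have key : ∀ i j : Fin 8, i < j → w2 (V3 v) i j = 0 := by
    intro i j hij
    unfold w2
    rw [V3_apply_of_le v (i2_rng i j hij).1, mul_zero]
  rcases lt_trichotomy i j with h1 | h1 | h1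
  · exact key i j h1
  · subst h1
    rw [w2_self]
  · rw [w2_swap, key j i h1, neg_zero]

theorem om_V3 (v x y : Vec A) : om (V3 v) x y = 0 := by
  unfold om
  refine Finset.sum_eq_zero fun i _ => Finset.sum_eq_zero fun j _ => ?_
  rw [w2_V3, zero_mul]

/-- an element of degrees `≥ 2` is `V3 + W2` -/
theorem eq_V3_W2 {Y : E8 A} (h : ∀ m, zdg m < 2 → Y m = 0) : Y = V3 (p3 Y) + W2 (w2 Y) := by
  funext m
  rw [Pi.add_apply]
  rcases lt_or_ge (m : ℕ) 8 with h1 | h1
  · rw [W2_apply_zero _ (Or.inl h1), add_zero]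
    conv_rhs => rw [eq_ix h1]
    rw [V3_apply_ix]
    show Y m = Y (ix _)
    rw [← eq_ix h1]
  · rw [V3_apply_of_le _ h1, zero_add]
    rcases lt_or_ge (m : ℕ) 36 with h2 | h2
    · obtain ⟨i, j, hij, rfl⟩ := i2_surj m h1 h2
      rw [W2_apply_i2 _ hij]
      unfold w2
      rw [ep2_of_lt hij, Int.cast_one, one_mul]
    · rw [W2_apply_zero _ (Or.inr h2), h m (zdg_big m h2)]

/-! ### degree `-1` -/

theorem M1_apply (μ : Fin 8 → Fin 8 → Fin 8 → A) (m : Fin 248) :
    M1 μ m = ∑ i, ∑ j, ∑ k, if (i < j ∧ j < k) ∧ im1 i j k = m then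
      ((sg3 i j k : ℤ) : A) * μ i j k else 0 := by
  unfold M1
  rw [Finset.sum_apply]
  refine Finset.sum_congr rfl fun i _ => ?_
  rw [Finset.sum_apply]
  refine Finset.sum_congr rfl fun j _ => ?_
  rw [Finset.sum_apply]
  refine Finset.sum_congr rfl fun k _ => ?_
  by_cases h : i < j ∧ j < k
  · rw [if_pos h, Pi.smul_apply, eb_apply, smul_eq_mul]
    by_cases h' : im1 i j k = m
    · rw [if_pos h'.symm, if_pos ⟨h, h'⟩, mul_one]
    · rw [if_neg (Ne.symm h'), if_neg (fun h'' => h' h''.2), mul_zero]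
  · rw [if_neg h, if_neg (fun h'' => h h''.1)]
    rfl

theorem M1_sup (μ : Fin 8 → Fin 8 → Fin 8 → A) : Sup zdg (-1) (M1 μ) := by
  intro m hm
  rw [M1_apply]
  refine Finset.sum_eq_zero fun i _ => Finset.sum_eq_zero fun j _ => Finset.sum_eq_zero fun k _ => ?_
  rw [if_neg]
  rintro ⟨⟨h1, h2⟩, h3⟩
  apply hm
  rw [← h3]
  exact zdg_im1 i j k h1 h2

theorem M1_apply_im1 (μ : Fin 8 → Fin 8 → Fin 8 → A) {i j k : Fin 8} (h1 : i < j) (h2 : j < k) :
    M1 μ (im1 i j k) = ((sg3 i j k : ℤ) : A) * μ i j k := by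
  rw [M1_apply, Finset.sum_eq_single i, Finset.sum_eq_single j, Finset.sum_eq_single k]
  · rw [if_pos ⟨⟨h1, h2⟩, rfl⟩]
  · intro b _ hb
    rw [if_neg]
    rintro ⟨⟨h3, h4⟩, h5⟩
    exact hb (im1_inj h3 h4 h1 h2 h5).2.2
  · simp
  · intro b _ hb
    refine Finset.sum_eq_zero fun c _ => ?_
    rw [if_neg]
    rintro ⟨⟨h3, h4⟩, h5⟩
    exact hb (im1_inj h3 h4 h1 h2 h5).2.1
  · simp
  · intro b _ hb
    refine Finset.sum_eq_zero fun c _ => Finset.sum_eq_zero fun d _ => ?_
    rw [if_neg]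
    rintro ⟨⟨h3, h4⟩, h5⟩
    exact hb (im1_inj h3 h4 h1 h2 h5).1
  · simp

theorem im1_swap (i j k : Fin 8) : im1 i j k = im1 j i k := by
  unfold im1
  congr 2
  omega

theorem im1_swap' (i j k : Fin 8) : im1 i j k = im1 i k j := by
  unfold im1
  congr 2
  omega

theorem t1_swap (Y : E8 A) (i j k : Fin 8) : t1 Y i j k = - t1 Y j i k := by
  unfold t1
  rw [im1_swap i j k, sg3_swap i j k, ep3_swap i j k]
  push_cast
  ring

theorem t1_swap' (Y : E8 A) (i j k : Fin 8) : t1 Y i j k = - t1 Y i k j := by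
  unfold t1
  rw [im1_swap' i j k, sg3_swap' i j k, ep3_swap' i j k]
  push_cast
  ring

theorem t1_self (Y : E8 A) (i k : Fin 8) : t1 Y i i k = 0 := by
  unfold t1
  rw [ep3_self]
  simp

theorem t1_M1 (μ : Fin 8 → Fin 8 → Fin 8 → A) (h0 : ∀ i j, μ i i j = 0)
    (h1 : ∀ i j k, μ i j k = - μ j i k) (h2 : ∀ i j k, μ i j k = - μ i k j) (i j k : Fin 8) :
    t1 (M1 μ) i j k = μ i j k := by
  rw [← sub_eq_zero]
  refine alt3_zero (fun i j k => t1 (M1 μ) i j k - μ i j k) ?_ ?_ ?_ ?_ i j k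
  · intro i j k
    rw [t1_swap, h1 i j k]
    ring
  · intro i j k
    rw [t1_swap', h2 i j k]
    ring
  · intro i k
    rw [t1_self, h0, sub_zero]
  · intro i j k hij hjk
    have hs : ((sg3 i j k : ℤ) : A) * ((sg3 i j k : ℤ) : A) = 1 := by
      rw [← Int.cast_mul, sg3_sq, Int.cast_one]
    unfold t1
    rw [M1_apply_im1 μ hij hjk, ep3_of_lt hij hjk]
    push_cast
    linear_combination (μ i j k) * hs

/-! ### `x ∧ y ∧ z` -/

theorem T_sup (i j k : Fin 8) : Sup zdg 1 (T i j k : E8 A) := by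
  intro m hm
  refine alt3_zero (fun i j k => (T i j k : E8 A) m) ?_ ?_ ?_ ?_ i j k
  · intro i j k
    rw [T_swap, Pi.neg_apply]
  · intro i j k
    rw [T_swap', Pi.neg_apply]
  · intro i k
    rw [T_self, Pi.zero_apply]
  · intro i j k hij hjk
    unfold T
    rw [Pi.smul_apply, eb_apply, if_neg, smul_zero]
    rintro rfl
    exact hm (zdg_i1 i j k hij hjk)

theorem tri_sup (x y z : Vec A) : Sup zdg 1 (tri x y z) := by
  intro m hm
  unfold tri
  rw [Finset.sum_apply]
  refine Finset.sum_eq_zero fun i _ => ?_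
  rw [Finset.sum_apply]
  refine Finset.sum_eq_zero fun j _ => ?_
  rw [Finset.sum_apply]
  refine Finset.sum_eq_zero fun k _ => ?_
  rw [Pi.smul_apply, T_sup i j k m hm, smul_zero]

theorem tri_swap_left (x y z : Vec A) : tri x y z = - tri y x z := by
  unfold tri
  rw [Finset.sum_comm, ← Finset.sum_neg_distrib]
  refine Finset.sum_congr rfl fun i _ => ?_
  rw [← Finset.sum_neg_distrib]
  refine Finset.sum_congr rfl fun j _ => ?_
  rw [← Finset.sum_neg_distrib]
  refine Finset.sum_congr rfl fun k _ => ?_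
  rw [T_swap, smul_neg, mul_comm (x j)]

theorem tri_swap_right (x y z : Vec A) : tri x y z = - tri x z y := by
  unfold tri
  rw [← Finset.sum_neg_distrib]
  refine Finset.sum_congr rfl fun i _ => ?_
  rw [Finset.sum_comm, ← Finset.sum_neg_distrib]
  refine Finset.sum_congr rfl fun j _ => ?_
  rw [← Finset.sum_neg_distrib]
  refine Finset.sum_congr rfl fun k _ => ?_
  rw [T_swap', smul_neg, mul_right_comm]

/-- an antisymmetric double sum with symmetric coefficients and zero diagonal vanishes -/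
theorem sum_sum_antisymm {M : Type*} [AddCommGroup M] (F : Fin 8 → Fin 8 → M)
    (h0 : ∀ i, F i i = 0) (h : ∀ i j, F i j = - F j i) : ∑ i, ∑ j, F i j = 0 := by
  have e : ∀ i, ∑ j, F i j = ∑ j, (if i < j then F i j else 0) - ∑ j, (if j < i then F j i else 0) := by
    intro i
    rw [← Finset.sum_sub_distrib]
    refine Finset.sum_congr rfl fun j _ => ?_
    rcases lt_trichotomy i j with h1 | h1 | h1
    · rw [if_pos h1, if_neg (not_lt.2 h1.le), sub_zero]
    · subst h1
      rw [if_neg (lt_irrefl _), sub_zero, h0]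
    · rw [if_pos h1, if_neg (not_lt.2 h1.le), zero_sub, h i j]
  rw [Finset.sum_congr rfl fun i _ => e i, Finset.sum_sub_distrib,
    Finset.sum_comm (f := fun i j => if j < i then F j i else 0), sub_self]

theorem tri_self_left (x z : Vec A) : tri x x z = 0 := by
  unfold tri
  refine sum_sum_antisymm _ (fun i => ?_) fun i j => ?_
  · exact Finset.sum_eq_zero fun k _ => by rw [T_self, smul_zero]
  · rw [← Finset.sum_neg_distrib]
    refine Finset.sum_congr rfl fun k _ => ?_
    rw [T_swap, smul_neg, mul_comm (x i)]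

theorem tri_self_right (x y : Vec A) : tri x y y = 0 := by
  rw [tri_swap_left, tri_swap_right, neg_neg, tri_self_left]

theorem om_swap (Y : E8 A) (x y : Vec A) : om Y x y = - om Y y x := by
  unfold om
  rw [Finset.sum_comm, ← Finset.sum_neg_distrib]
  refine Finset.sum_congr rfl fun i _ => ?_
  rw [← Finset.sum_neg_distrib]
  refine Finset.sum_congr rfl fun j _ => ?_
  rw [w2_swap]
  ring

theorem om_self (Y : E8 A) (x : Vec A) : om Y x x = 0 := by
  unfold om
  refine sum_sum_antisymm _ (fun i => ?_) fun i j => ?_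
  · rw [w2_self, zero_mul]
  · rw [w2_swap]
    ring

end Pool.Agent.Licci

end
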