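import Pool.Agent.Work.MP_a98e4e_ag.Fu.L.State1
import Pool.Agent.Work.MP_a98e4e_ag.Fu.Term

/-!
# LICCI, codimension 4: integral states (helper43)

The `4`-form of an integral state and the moved state.
-/

set_option linter.unusedSectionVars false

noncomputable section

namespace Pool.Agent.Licci

open scoped BigOperators
open U (Sup)
open Module RingTheory.Sequence IsLocalRing

universe u

namespace MV

variable {A : Type*} [CommRing A]

theorem p3_add (Y Y' : E8 A) : p3 (Y + Y') = p3 Y + p3 Y' := rfl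

theorem p3_smul (c : A) (Y : E8 A) : p3 (c • Y) = c • p3 Y := rfl

theorem om_add (Y Y' : E8 A) (x y : Vec A) : om (Y + Y') x y = om Y x y + om Y' x y := by
  simp only [om, w2, Pi.add_apply, ← Finset.sum_add_distrib]
  refine Finset.sum_congr rfl fun i _ => Finset.sum_congr rfl fun j _ => ?_
  ring

theorem om_smul (c : A) (Y : E8 A) (x y : Vec A) : om (c • Y) x y = c * om Y x y := by
  simp only [om, w2, Pi.smul_apply, smul_eq_mul, Finset.mul_sum]
  refine Finset.sum_congr rfl fun i _ => Finset.sum_congr rfl fun j _ => ?_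
  ring

theorem om_add_left (Y : E8 A) (x x' y : Vec A) : om Y (x + x') y = om Y x y + om Y x' y := by
  simp only [om, Pi.add_apply, ← Finset.sum_add_distrib]
  refine Finset.sum_congr rfl fun i _ => Finset.sum_congr rfl fun j _ => ?_
  ring

theorem om_smul_left (c : A) (Y : E8 A) (x y : Vec A) : om Y (c • x) y = c * om Y x y := by
  simp only [om, Pi.smul_apply, smul_eq_mul, Finset.mul_sum]
  refine Finset.sum_congr rfl fun i _ => Finset.sum_congr rfl fun j _ => ?_
  ring

theorem om_add_right (Y : E8 A) (x y y' : Vec A) : om Y x (y + y') = om Y x y + om Y x y' := by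
  simp only [om, Pi.add_apply, ← Finset.sum_add_distrib]
  refine Finset.sum_congr rfl fun i _ => Finset.sum_congr rfl fun j _ => ?_
  ring

theorem om_smul_right (c : A) (Y : E8 A) (x y : Vec A) : om Y x (c • y) = c * om Y x y := by
  simp only [om, Pi.smul_apply, smul_eq_mul, Finset.mul_sum]
  refine Finset.sum_congr rfl fun i _ => Finset.sum_congr rfl fun j _ => ?_
  ring

theorem Th_add_left (Y Y' Z : E8 A) (u : Vec A) : Th (Y + Y') Z u = Th Y Z u + Th Y' Z u := by
  simp only [Th, p3_add, om_add, om_add_left]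
  ring

theorem Th_smul_left (c : A) (Y Z : E8 A) (u : Vec A) : Th (c • Y) Z u = c * Th Y Z u := by
  simp only [Th, p3_smul, om_smul, om_smul_left]
  ring

theorem Th_add_right (Y Z Z' : E8 A) (u : Vec A) : Th Y (Z + Z') u = Th Y Z u + Th Y Z' u := by
  simp only [Th, p3_add, om_add, om_add_left]
  ring

theorem Th_smul_right (c : A) (Y Z : E8 A) (u : Vec A) : Th Y (c • Z) u = c * Th Y Z u := by
  simp only [Th, p3_smul, om_smul, om_smul_left]
  ring

theorem Th_add_last (Y Z : E8 A) (u u' : Vec A) : Th Y Z (u + u') = Th Y Z u + Th Y Z u' := by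
  simp only [Th, om_add_right]
  ring

theorem Th_smul_last (c : A) (Y Z : E8 A) (u : Vec A) : Th Y Z (c • u) = c * Th Y Z u := by
  simp only [Th, om_smul_right]
  ring

/-! ### base change -/

variable {A' : Type*} [CommRing A'] (φ : A →+* A')

theorem p3_map (Y : E8 A) : p3 (φ ∘ Y) = φ ∘ p3 Y := rfl

theorem om_map (Y : E8 A) (x y : Vec A) : om (φ ∘ Y) (φ ∘ x) (φ ∘ y) = φ (om Y x y) := by
  simp only [om, w2, Function.comp_apply, map_sum, map_mul, map_intCast]

theorem Th_map (Y Z : E8 A) (u : Vec A) : Th (φ ∘ Y) (φ ∘ Z) (φ ∘ u) = φ (Th Y Z u) := by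
  simp only [Th, p3_map, om_map, map_add]

theorem tri_map (x y z : Vec A) : φ ∘ tri x y z = tri (φ ∘ x) (φ ∘ y) (φ ∘ z) := by
  funext m
  simp only [tri, T, Function.comp_apply, Finset.sum_apply, Pi.smul_apply, smul_eq_mul, map_sum,
    map_mul, map_intCast, eb_apply]
  refine Finset.sum_congr rfl fun i _ => Finset.sum_congr rfl fun j _ =>
    Finset.sum_congr rfl fun k _ => ?_
  split_ifs <;> simp

theorem comp_smul (c : A) (x : Vec A) : φ ∘ (c • x) = φ c • (φ ∘ x) := by
  funext m
  simp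

/-- `[x ∧ y ∧ z, Y]` in the pairing `Θ` -/
def dT (Y Z : E8 A) (x y z u : Vec A) : A :=
  Th (br (tri x y z) Y) Z u + Th Y (br (tri x y z) Z) u

theorem dT_map (Y Z : E8 A) (x y z u : Vec A) :
    dT (φ ∘ Y) (φ ∘ Z) (φ ∘ x) (φ ∘ y) (φ ∘ z) (φ ∘ u) = φ (dT Y Z x y z u) := by
  simp only [dT, ← tri_map, ← br_map, Th_map, map_add]

end MV

open MV

variable {R : Type u} [CommRing R]

/-- `ν` is a `4`-form of the state `s` -/
def RState.IsNu {K : Type u} [Field K] [Algebra R K]
    {M : Matrix (Fin 14) (Fin 14) R} (s : RState R K M) (ν : Vec R [⋀^Fin 4]→ₗ[R] R) : Prop :=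
  ∀ x y z u, algebraMap R K (ν ![x, y, z, u]) = nuOf s.k (algebraMap R K ∘ x) (algebraMap R K ∘ y)
        (algebraMap R K ∘ z) (algebraMap R K ∘ u)

section state

variable [IsDomain R] [Algebra ℚ R] {K : Type u} [Field K] [Algebra R K] [IsFractionRing R K]
  [Algebra ℚ K] {M : Matrix (Fin 14) (Fin 14) R}

theorem RState.M_symm (s : RState R K M) (l m : Fin 14) : M l m = M m l := by
  apply IsFractionRing.injective R K
  rw [← s.gram, ← s.gram, B0_symm]

theorem exists_M_ne (hMu : IsUnit M.det) : ∃ l m, M l m ≠ 0 := by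
  by_contra h
  push Not at h
  have : M = 0 := by
    ext l m
    exact h l m
  rw [this, Matrix.det_zero] at hMu
  exact not_isUnit_zero hMu

/-- the average over the inverse Gram matrix -/
def avg (M : Matrix (Fin 14) (Fin 14) R) (a : Fin 14 → Fin 14 → R) : R :=
  algebraMap ℚ R (14⁻¹ : ℚ) * ∑ l, ∑ m, M⁻¹ l m * a l m

theorem RState.avg_eq (hMu : IsUnit M.det) (s : RState R K M) (a : Fin 14 → Fin 14 → R) (b : K)
    (h : ∀ l m, algebraMap R K (a l m) = algebraMap R K (M l m) * b) :
    algebraMap R K (avg M a) = b := by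
  have hN : M⁻¹ * M = 1 := Matrix.nonsing_inv_mul M hMu
  have h1 : ∑ l, ∑ m, M⁻¹ l m * M l m = 14 := by
    have h2 : ∀ l, ∑ m, M⁻¹ l m * M l m = 1 := by
      intro l
      have h3 : (M⁻¹ * M) l l = 1 := by rw [hN]; simp
      rw [Matrix.mul_apply] at h3
      rw [← h3]
      refine Finset.sum_congr rfl fun m _ => ?_
      rw [s.M_symm l m]
    simp only [h2]
    simp
  have h4 : algebraMap R K (∑ l, ∑ m, M⁻¹ l m * a l m) = 14 * b := by
    rw [map_sum]
    have h5 : (14 : K) = algebraMap R K (∑ l, ∑ m, M⁻¹ l m * M l m) := by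
      rw [h1]
      exact (map_ofNat (algebraMap R K) 14).symm
    rw [h5, map_sum, Finset.sum_mul]
    refine Finset.sum_congr rfl fun l _ => ?_
    rw [map_sum, map_sum, Finset.sum_mul]
    refine Finset.sum_congr rfl fun m _ => ?_
    rw [map_mul, map_mul, h]
    ring
  have h6 : algebraMap R K (algebraMap ℚ R (14⁻¹ : ℚ)) * 14 = 1 := by
    have h7 : algebraMap R K (algebraMap ℚ R 14) = (14 : K) := by
      rw [map_ofNat (algebraMap ℚ R) 14, map_ofNat (algebraMap R K) 14]
    rw [← h7, ← map_mul, ← map_mul, inv_mul_cancel₀ (by norm_num), map_one, map_one]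
  rw [avg, map_mul, h4, ← mul_assoc, h6, one_mul]


/-- the linear form over the field -/
theorem RState.exists_fK (hMu : IsUnit M.det) (s : RState R K M) :
    ∃ fK : Vec K →ₗ[K] K, FormOf s.k fK ∧ ∀ u : Vec R, algebraMap R K (s.f u) =
      fK (algebraMap R K ∘ u) := by
  obtain ⟨fK, hfK⟩ := exists_form s.aut
  refine ⟨fK, hfK, fun u => ?_⟩
  obtain ⟨l, m, hlm⟩ := exists_M_ne hMu
  have h1 := hfK (s.g l) (s.g m) (s.sup l) (s.sup m) (algebraMap R K ∘ u)
  rw [s.kg, s.kg, Th_map, s.th, s.gram, map_mul] at h1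
  have h2 : algebraMap R K (M l m) ≠ 0 := fun h => hlm
    ((map_eq_zero_iff _ (IsFractionRing.injective R K)).mp h)
  exact mul_left_cancel₀ h2 h1

/-- the coefficients of the `4`-form -/
def nuR (M : Matrix (Fin 14) (Fin 14) R) (γ : Fin 14 → E8 R) (x y z u : Vec R) : R :=
  avg M fun l m => dT (γ l) (γ m) x y z u

theorem avg_add (a b : Fin 14 → Fin 14 → R) :
    avg M (fun l m => a l m + b l m) = avg M a + avg M b := by
  simp only [avg, mul_add, Finset.sum_add_distrib]

theorem avg_smul (c : R) (a : Fin 14 → Fin 14 → R) :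
    avg M (fun l m => c * a l m) = c * avg M a := by
  simp only [avg, Finset.mul_sum]
  refine Finset.sum_congr rfl fun l _ => Finset.sum_congr rfl fun m _ => ?_
  ring

theorem RState.nuR_map (hMu : IsUnit M.det) (s : RState R K M) (x y z u : Vec R) :
    algebraMap R K (nuR M s.γ x y z u) = nuOf s.k (algebraMap R K ∘ x) (algebraMap R K ∘ y)
        (algebraMap R K ∘ z) (algebraMap R K ∘ u) := by
  obtain ⟨fK, hfK, _⟩ := s.exists_fK hMu
  refine s.avg_eq hMu _ _ fun l m => ?_
  rw [← dT_map, ← s.gram, ← nuOf_spec s.aut hfK (s.sup l) (s.sup m), s.kg, s.kg]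
  rfl

theorem nuR_add1 (γ : Fin 14 → E8 R) (x x' y z u : Vec R) :
    nuR M γ (x + x') y z u = nuR M γ x y z u + nuR M γ x' y z u := by
  rw [nuR, nuR, nuR, ← avg_add]
  congr 1
  funext l m
  simp only [dT, tri_add_left, br_add_left, Th_add_left, Th_add_right]
  ring

theorem nuR_smul1 (γ : Fin 14 → E8 R) (c : R) (x y z u : Vec R) :
    nuR M γ (c • x) y z u = c * nuR M γ x y z u := by
  rw [nuR, nuR, ← avg_smul]
  congr 1
  funext l m
  simp only [dT, tri_smul_left, br_smul_left, Th_smul_left, Th_smul_right]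
  ring

theorem nuR_swap12 (γ : Fin 14 → E8 R) (x y z u : Vec R) :
    nuR M γ x y z u = - nuR M γ y x z u := by
  rw [nuR, nuR, ← neg_one_mul, ← avg_smul]
  congr 1
  funext l m
  simp only [dT]
  rw [tri_swap_left x y z, ← neg_one_smul R (tri y x z)]
  simp only [br_smul_left, Th_smul_left, Th_smul_right]
  ring

theorem nuR_swap23 (γ : Fin 14 → E8 R) (x y z u : Vec R) :
    nuR M γ x y z u = - nuR M γ x z y u := by
  rw [nuR, nuR, ← neg_one_mul, ← avg_smul]
  congr 1
  funext l m
  simp only [dT]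
  rw [tri_swap_right x y z, ← neg_one_smul R (tri x z y)]
  simp only [br_smul_left, Th_smul_left, Th_smul_right]
  ring

theorem nuR_add4 (γ : Fin 14 → E8 R) (x y z u u' : Vec R) :
    nuR M γ x y z (u + u') = nuR M γ x y z u + nuR M γ x y z u' := by
  rw [nuR, nuR, nuR, ← avg_add]
  congr 1
  funext l m
  simp only [dT, Th_add_last]
  ring

theorem nuR_smul4 (γ : Fin 14 → E8 R) (c : R) (x y z u : Vec R) :
    nuR M γ x y z (c • u) = c * nuR M γ x y z u := by
  rw [nuR, nuR, ← avg_smul]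
  congr 1
  funext l m
  simp only [dT, Th_smul_last]
  ring

theorem nuR_self12 (γ : Fin 14 → E8 R) (x z u : Vec R) : nuR M γ x x z u = 0 := by
  have h : avg M (fun _ _ => (0 : R)) = 0 := by simp [avg]
  rw [nuR, ← h]
  congr 1
  funext l m
  simp only [dT, tri_self_left, br_zero_left]
  rw [← zero_smul R (0 : E8 R), Th_smul_left, Th_smul_right]
  ring

theorem RState.nuR_self14 (hMu : IsUnit M.det) (s : RState R K M) (x y z : Vec R) :
    nuR M s.γ x y z x = 0 := by
  apply IsFractionRing.injective R K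
  rw [s.nuR_map hMu, nuOf_self, map_zero]

/-- the `4`-form of a state -/
def RState.form (hMu : IsUnit M.det) (s : RState R K M) : Vec R [⋀^Fin 4]→ₗ[R] R where
  toFun a := nuR M s.γ (a 0) (a 1) (a 2) (a 3)
  map_update_add' := by
    intro inst a i x y
    have hinst : inst = instDecidableEqFin 4 := Subsingleton.elim _ _
    subst hinst
    have e2 : ∀ x x' y z u, nuR M s.γ y (x + x') z u = nuR M s.γ y x z u + nuR M s.γ y x' z u := by
      intro x x' y z u
      rw [nuR_swap12, nuR_add1, nuR_swap12 _ y x, nuR_swap12 _ y x']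
      ring
    have e3 : ∀ x x' y z u, nuR M s.γ y z (x + x') u = nuR M s.γ y z x u + nuR M s.γ y z x' u := by
      intro x x' y z u
      rw [nuR_swap23, e2, nuR_swap23 _ y z x, nuR_swap23 _ y z x']
      ring
    fin_cases i
    · simpa using nuR_add1 s.γ x y (a 1) (a 2) (a 3)
    · simpa using e2 x y (a 0) (a 2) (a 3)
    · simpa using e3 x y (a 0) (a 1) (a 3)
    · simpa using nuR_add4 s.γ (a 0) (a 1) (a 2) x y
  map_update_smul' := by
    intro inst a i c x
    have hinst : inst = instDecidableEqFin 4 := Subsingleton.elim _ _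
    subst hinst
    have e2 : ∀ x y z u, nuR M s.γ y (c • x) z u = c * nuR M s.γ y x z u := by
      intro x y z u
      rw [nuR_swap12, nuR_smul1, nuR_swap12 _ y x]
      ring
    have e3 : ∀ x y z u, nuR M s.γ y z (c • x) u = c * nuR M s.γ y z x u := by
      intro x y z u
      rw [nuR_swap23, e2, nuR_swap23 _ y z x]
      ring
    fin_cases i
    · simpa using nuR_smul1 s.γ c x (a 1) (a 2) (a 3)
    · simpa using e2 x (a 0) (a 2) (a 3)
    · simpa using e3 x (a 0) (a 1) (a 3)
    · simpa using nuR_smul4 s.γ c (a 0) (a 1) (a 2) x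
  map_eq_zero_of_eq' := by
    intro a i j hij hne
    have e01 : ∀ x z u, nuR M s.γ x x z u = 0 := nuR_self12 s.γ
    have e12 : ∀ x y u, nuR M s.γ x y y u = 0 := by
      intro x y u
      rw [nuR_swap12, nuR_swap23, e01]
      simp
    have e02 : ∀ x y u, nuR M s.γ x y x u = 0 := by
      intro x y u
      rw [nuR_swap12, e12, neg_zero]
    have e03 : ∀ x y z, nuR M s.γ x y z x = 0 := s.nuR_self14 hMu
    have e13 : ∀ x y z, nuR M s.γ x y z y = 0 := by
      intro x y z
      rw [nuR_swap12, e03, neg_zero]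
    have e23 : ∀ x y z, nuR M s.γ x y z z = 0 := by
      intro x y z
      rw [nuR_swap23, e13, neg_zero]
    have key : ∀ i j : Fin 4, i < j → a i = a j → nuR M s.γ (a 0) (a 1) (a 2) (a 3) = 0 := by
      intro i j hlt h
      have hc : ∀ i j : Fin 4, i < j → (i = 0 ∧ j = 1) ∨ (i = 0 ∧ j = 2) ∨ (i = 0 ∧ j = 3) ∨
          (i = 1 ∧ j = 2) ∨ (i = 1 ∧ j = 3) ∨ (i = 2 ∧ j = 3) := by decide
      rcases hc i j hlt with ⟨rfl, rfl⟩ | ⟨rfl, rfl⟩ | ⟨rfl, rfl⟩ | ⟨rfl, rfl⟩ | ⟨rfl, rfl⟩ |
        ⟨rfl, rfl⟩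
      · rw [h]
        exact e01 (a 1) (a 2) (a 3)
      · rw [h]
        exact e02 (a 2) (a 1) (a 3)
      · rw [h]
        exact e03 (a 3) (a 1) (a 2)
      · rw [h]
        exact e12 (a 0) (a 2) (a 3)
      · rw [h]
        exact e13 (a 0) (a 3) (a 2)
      · rw [h]
        exact e23 (a 0) (a 1) (a 3)
    rcases lt_or_gt_of_ne hne with h | h
    · exact key i j h hij
    · exact key j i h hij.symm

theorem RState.form_apply (hMu : IsUnit M.det) (s : RState R K M) (a : Fin 4 → Vec R) :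
    s.form hMu a = nuR M s.γ (a 0) (a 1) (a 2) (a 3) := rfl

/-- the `4`-form of a state -/
theorem RState.exists_nu (hMu : IsUnit M.det) (s : RState R K M) :
    ∃ ν : Vec R [⋀^Fin 4]→ₗ[R] R, (∀ x y z u,
      algebraMap R K (ν ![x, y, z, u]) = nuOf s.k (algebraMap R K ∘ x) (algebraMap R K ∘ y)
        (algebraMap R K ∘ z) (algebraMap R K ∘ u)) ∧
      (∀ (a : Fin 4 → Vec R) (v : Vec R), ∑ j, s.f (a j) * ν (Function.update a j v) = s.f v * ν a) ∧
      ∀ l x y z, ν ![x, y, z, p3 (s.γ l)] =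
        -(s.f x * om (s.γ l) y z - s.f y * om (s.γ l) x z + s.f z * om (s.γ l) x y) := by
  obtain ⟨fK, hfK, hf⟩ := s.exists_fK hMu
  have hinj := IsFractionRing.injective R K
  have hf0 : fK ≠ 0 := by
    rintro rfl
    apply s.f0
    apply LinearMap.ext
    intro u
    apply hinj
    rw [hf]
    simp
  refine ⟨s.form hMu, fun x y z u => s.nuR_map hMu x y z u, fun a v => ?_, fun l x y z => ?_⟩
  · apply hinj
    rw [map_sum, Fin.sum_univ_four]
    simp only [RState.form_apply, map_mul, s.nuR_map hMu, hf]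
    have h := nuOf_cyc s.aut hfK hf0 (algebraMap R K ∘ a 0) (algebraMap R K ∘ a 1)
      (algebraMap R K ∘ a 2) (algebraMap R K ∘ a 3) (algebraMap R K ∘ v)
    rw [h]
    simp
  · apply hinj
    have h := nuOf_d s.aut hfK (s.sup l) (algebraMap R K ∘ x) (algebraMap R K ∘ y)
      (algebraMap R K ∘ z)
    rw [s.kg, p3_map] at h
    rw [RState.form_apply]
    simp only [Matrix.cons_val]
    rw [s.nuR_map hMu, h]
    simp only [om_map, ← hf, map_neg, map_add, map_sub, map_mul]

/-- the moved state -/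
theorem RState.exists_move (hMu : IsUnit M.det) (s : RState R K M) (x y z : Vec R) (c : R)
    (hx : s.f x ≠ 0) :
    ∃ s' : RState R K M, (∀ l, s'.γ l = ex (tri (c • x) y z) (s.γ l)) ∧
      (∀ u, algebraMap R K (s'.f u) = algebraMap R K (s.f u) +
        algebraMap R K c * nuOf s.k (algebraMap R K ∘ x) (algebraMap R K ∘ y)
          (algebraMap R K ∘ z) (algebraMap R K ∘ u)) ∧
        ∀ u : Vec K, nuOf s'.k (algebraMap R K ∘ x) (algebraMap R K ∘ y) (algebraMap R K ∘ z) u =
          nuOf s.k (algebraMap R K ∘ x) (algebraMap R K ∘ y) (algebraMap R K ∘ z) u := by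
  have hinj := IsFractionRing.injective R K
  obtain ⟨fK, hfK, hf⟩ := s.exists_fK hMu
  set φ := algebraMap R K with hφ
  set E := tri (φ c • (φ ∘ x)) (φ ∘ y) (φ ∘ z) with hE
  have hnil : (brL E) ^ 7 = 0 := triE_nil _ _ _
  have hEaut : IsAut (ex E) := ex_isAut hnil
  let k' : E8 K →ₗ[K] E8 K := ex E ∘ₗ s.k
  have hk' : IsAut k' := by
    constructor
    · exact hEaut.bij.comp s.aut.bij
    · intro X Y
      change ex E (s.k (br X Y)) = br (ex E (s.k X)) (ex E (s.k Y))
      rw [s.aut.map_br, hEaut.map_br]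
  obtain ⟨fK', hfK'⟩ := exists_form hk'
  let γ' : Fin 14 → E8 R := fun l => ex (tri (c • x) y z) (s.γ l)
  have hkg : ∀ l, k' (s.g l) = φ ∘ γ' l := by
    intro l
    change ex E (s.k (s.g l)) = φ ∘ ex (tri (c • x) y z) (s.γ l)
    rw [s.kg, ex_map, MV.tri_map, comp_smul]
  -- the new linear form
  have hTh : ∀ l m (u : Vec R), φ (Th (γ' l) (γ' m) u) = φ (M l m) * fK' (φ ∘ u) := by
    intro l m u
    rw [← Th_map, ← hkg, ← hkg, hfK' _ _ (s.sup l) (s.sup m), s.gram]
  let f' : Vec R →ₗ[R] R :=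
    { toFun := fun u => avg M fun l m => Th (γ' l) (γ' m) u
      map_add' := by
        intro u v
        rw [← avg_add]
        congr 1
        funext l m
        rw [Th_add_last]
      map_smul' := by
        intro r u
        rw [RingHom.id_apply, smul_eq_mul, ← avg_smul]
        congr 1
        funext l m
        rw [Th_smul_last] }
  have hf' : ∀ u : Vec R, φ (f' u) = fK' (φ ∘ u) := fun u =>
    s.avg_eq hMu _ _ fun l m => hTh l m u
  have hxK : fK (φ c • (φ ∘ x)) = φ c * φ (s.f x) := by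
    rw [map_smul, smul_eq_mul, hf]
  have hxK' : fK (φ ∘ x) ≠ 0 := by
    rw [← hf]
    exact fun h => hx ((map_eq_zero_iff _ hinj).mp h)
  -- the formula for the new form
  have hmove : ∀ u : Vec K, fK' u = fK u + φ c * nuOf s.k (φ ∘ x) (φ ∘ y) (φ ∘ z) u := by
    intro u
    have e1 : E = tri (φ ∘ x) (φ c • (φ ∘ y)) (φ ∘ z) := by
      rw [hE, tri_smul_left, tri_smul_mid]
    have hform : FormOf (ex (tri (φ ∘ x) (φ c • (φ ∘ y)) (φ ∘ z)) ∘ₗ s.k) fK' := by
      rw [← e1]
      exact hfK'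
    rw [FormOf.move s.aut hfK (φ ∘ x) (φ c • (φ ∘ y)) (φ ∘ z) hxK' hform u]
    congr 1
    simp only [nuOf, tri_smul_mid, br_smul_left, Th_smul_left, Th_smul_right]
    ring
  let s' : RState R K M :=
    { γ := γ'
      k := k'
      aut := hk'
      g := s.g
      sup := s.sup
      kg := hkg
      gram := s.gram
      f := f'
      th := by
        intro l m u
        apply hinj
        rw [map_mul]
        change φ (Th (γ' l) (γ' m) u) = φ (M l m) * φ (f' u)
        rw [hTh, hf']
      f0 := by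
        intro h
        apply hx
        apply hinj
        have h1 : φ (f' x) = 0 := by rw [h]; simp
        rw [hf', hmove, nuOf_self, mul_zero, add_zero, ← hf] at h1
        rw [h1, map_zero] }
  refine ⟨s', fun l => rfl, fun u => ?_, fun u => ?_⟩
  · change φ (f' u) = _
    rw [hf', hmove, hf]
  · change nuOf k' (φ ∘ x) (φ ∘ y) (φ ∘ z) u = _
    -- one more move by `x ∧ y ∧ z`
    set E0 := tri (φ ∘ x) (φ ∘ y) (φ ∘ z) with hE0
    have hnil0 : (brL E0) ^ 7 = 0 := triE_nil _ _ _
    have hk'' : IsAut (ex E0 ∘ₗ k') := by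
      constructor
      · exact (ex_isAut hnil0).bij.comp hk'.bij
      · intro X Y
        change ex E0 (k' (br X Y)) = br (ex E0 (k' X)) (ex E0 (k' Y))
        rw [hk'.map_br, (ex_isAut hnil0).map_br]
    obtain ⟨f2, hf2⟩ := exists_form hk''
    have hx2 : fK' (φ ∘ x) ≠ 0 := by
      rw [hmove, nuOf_self, mul_zero, add_zero]
      exact hxK'
    have h1 := FormOf.move hk' hfK' (φ ∘ x) (φ ∘ y) (φ ∘ z) hx2 hf2 u
    have h2 : ex E0 ∘ₗ k' = ex (tri (φ ∘ x) ((1 + φ c) • (φ ∘ y)) (φ ∘ z)) ∘ₗ s.k := by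
      apply LinearMap.ext
      intro Y
      change ex E0 (ex E (s.k Y)) = ex (tri (φ ∘ x) ((1 + φ c) • (φ ∘ y)) (φ ∘ z)) (s.k Y)
      rw [tri_smul_mid, ex_smul_smul hnil0, one_smul, hE, tri_smul_left]
    rw [h2] at hf2
    have h3 := FormOf.move s.aut hfK (φ ∘ x) ((1 + φ c) • (φ ∘ y)) (φ ∘ z) hxK' hf2 u
    have h4 : nuOf s.k (φ ∘ x) ((1 + φ c) • (φ ∘ y)) (φ ∘ z) u =
        (1 + φ c) * nuOf s.k (φ ∘ x) (φ ∘ y) (φ ∘ z) u := by
      simp only [nuOf, tri_smul_mid, br_smul_left, Th_smul_left, Th_smul_right]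
      ring
    rw [h4] at h3
    have h5 := hmove u
    linear_combination h3 - h1 - h5

end state

end Pool.Agent.Licci
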