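import Pool.Agent.Work.MP_a98e4e_ag.Fu.L.Grad
import Pool.Agent.Work.MP_a98e4e_ag.Fu.L.FormA2
import Pool.Agent.Work.MP_a98e4e_ag.Fu.L.Jac

/-!
# LICCI, module L4d: brackets with matrix units and with degrees `≤ -1`
-/

set_option linter.unusedSectionVars false

namespace Pool.Agent.Licci

open scoped BigOperators
open U (Sup)

variable {A : Type*} [CommRing A]

/-- the sign of the matrix unit -/
def egs (i j : Fin 8) : ℤ := (-1) ^ ((i : ℕ) + j + if j < i then 1 else 0)

/-! ### kernel checks -/

set_option maxRecDepth 100000 in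
theorem i0_rng : ∀ i j : Fin 8, i ≠ j → 92 ≤ (i0 i j : ℕ) ∧ (i0 i j : ℕ) < 148 := by
  decide +kernel

set_option maxRecDepth 100000 in
theorem i0_zdg : ∀ i j : Fin 8, i ≠ j → zdg (i0 i j) = 0 := by
  decide +kernel

set_option maxRecDepth 100000 in
theorem i0_wtg : ∀ i j : Fin 8, i ≠ j → ∀ q : Fin 8,
    wtg q (i0 i j) = (if q = i then 1 else 0) - if q = j then 1 else 0 := by
  decide +kernel

set_option maxRecDepth 100000 in
theorem eg3_chk : ∀ i j : Fin 8, i ≠ j → ∀ a : Fin 8,
    if a = i then ((ix j : Fin 248) : ℕ) = fnd (cd (ix a) + off + off - cd (i0 i j)) ∧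
      sc (i0 i j) (ix j) (ix a) = egs i j
    else 248 ≤ fnd (cd (ix a) + off + off - cd (i0 i j)) := by
  decide +kernel

set_option maxRecDepth 100000 in
theorem eg2_chk : ∀ i j : Fin 8, i ≠ j → ∀ p q : Fin 8, p < q →
    if p = j then
      (if q = i then 248 ≤ fnd (cd (i2 p q) + off + off - cd (i0 i j))
        else (i2 i q : ℕ) = fnd (cd (i2 p q) + off + off - cd (i0 i j)) ∧
          sc (i0 i j) (i2 i q) (i2 p q) = - (egs i j * ep2 i q))
    else if q = j then
      (if p = i then 248 ≤ fnd (cd (i2 p q) + off + off - cd (i0 i j))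
        else (i2 p i : ℕ) = fnd (cd (i2 p q) + off + off - cd (i0 i j)) ∧
          sc (i0 i j) (i2 p i) (i2 p q) = - (egs i j * ep2 p i))
    else 248 ≤ fnd (cd (i2 p q) + off + off - cd (i0 i j)) := by
  decide +kernel

set_option maxRecDepth 100000 in
theorem m1_chk : ∀ p q : Fin 8, p < q → ∀ a : Fin 8,
    if a = p ∨ a = q then 248 ≤ fnd (cd (i2 p q) + off + off - cd (ix a))
    else (im1 a p q : ℕ) = fnd (cd (i2 p q) + off + off - cd (ix a)) ∧
      sc (ix a) (im1 a p q) (i2 p q) = - (sg3 a p q * ep3 a p q) := by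
  decide +kernel

/-! ### matrix units -/

theorem egs_sq (i j : Fin 8) : egs i j * egs i j = 1 := by
  unfold egs
  rw [← pow_add, ← two_mul, pow_mul]
  simp

theorem Eg_def (i j : Fin 8) : (Eg i j : E8 A) = ((egs i j : ℤ) : A) • eb (i0 i j) := rfl

theorem Eg_zdg {i j : Fin 8} (h : i ≠ j) : Sup zdg 0 (Eg i j : E8 A) := by
  intro m hm
  rw [Eg_def, Pi.smul_apply, eb_apply, if_neg, smul_zero]
  rintro rfl
  exact hm (i0_zdg i j h)

theorem Eg_wtg {i j : Fin 8} (h : i ≠ j) (q : Fin 8) :
    Sup (wtg q) ((if q = i then 1 else 0) - if q = j then 1 else 0) (Eg i j : E8 A) := by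
  intro m hm
  rw [Eg_def, Pi.smul_apply, eb_apply, if_neg, smul_zero]
  rintro rfl
  exact hm (i0_wtg i j h q)

/-- matrix units -/
theorem p3_Eg {i j : Fin 8} (h : i ≠ j) (Y : E8 A) :
    p3 (br (Eg i j) Y) = p3 Y j • (Pi.single i 1 : Vec A) := by
  funext a
  have hr := i0_rng i j h
  have ha : ((ix a : Fin 248) : ℕ) = a := ix_fin a
  have hn : ((i0 i j : Fin 248) : ℕ) < 240 := by omega
  have hm : ((ix a : Fin 248) : ℕ) < 240 := by omega
  have hnm : i0 i j ≠ ix a := by
    intro h
    have := congrArg Fin.val h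
    omega
  have hc := eg3_chk i j h a
  have hs : ((egs i j : ℤ) : A) * ((egs i j : ℤ) : A) = 1 := by
    rw [← Int.cast_mul, egs_sq, Int.cast_one]
  change br (Eg i j) Y (ix a) = p3 Y j * (Pi.single i (1 : A) : Vec A) a
  rw [Eg_def, br_smul_left, Pi.smul_apply, smul_eq_mul]
  by_cases h1 : a = i
  · rw [if_pos h1] at hc
    rw [br_eb_left_of hn hm hnm hc.1, hc.2, h1, Pi.single_eq_same, mul_one, ← mul_assoc, hs, one_mul]
    rfl
  · rw [if_neg h1] at hc
    rw [br_eb_left_zero hn hm hnm hc, mul_zero, Pi.single_eq_of_ne h1, mul_zero]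

theorem w2_Eg {i j : Fin 8} (h : i ≠ j) (Y : E8 A) (p q : Fin 8) :
    w2 (br (Eg i j) Y) p q = - ((if p = j then w2 Y i q else 0) + if q = j then w2 Y p i else 0) := by
  have hs : ((egs i j : ℤ) : A) * ((egs i j : ℤ) : A) = 1 := by
    rw [← Int.cast_mul, egs_sq, Int.cast_one]
  have key : ∀ p q : Fin 8, p < q → w2 (br (Eg i j) Y) p q =
      - ((if p = j then w2 Y i q else 0) + if q = j then w2 Y p i else 0) := by
    intro p q hpq
    have hr := i0_rng i j h
    have hr2 := i2_rng p q hpq
    have hn : ((i0 i j : Fin 248) : ℕ) < 240 := by omega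
    have hm : ((i2 p q : Fin 248) : ℕ) < 240 := by omega
    have hnm : i0 i j ≠ i2 p q := by
      intro h
      have := congrArg Fin.val h
      omega
    have hc := eg2_chk i j h p q hpq
    unfold w2
    rw [Eg_def, br_smul_left, Pi.smul_apply, smul_eq_mul, ep2_of_lt hpq, Int.cast_one, one_mul]
    by_cases h1 : p = j
    · have h2 : q ≠ j := by rw [← h1]; exact (ne_of_lt hpq).symm
      rw [if_pos h1] at hc
      rw [if_pos h1, if_neg h2, add_zero]
      by_cases h3 : q = i
      · rw [if_pos h3] at hc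
        rw [br_eb_left_zero hn hm hnm hc, h3, ep2_self]
        simp
      · rw [if_neg h3] at hc
        rw [br_eb_left_of hn hm hnm hc.1, hc.2]
        push_cast
        linear_combination - ((ep2 i q : ℤ) : A) * Y (i2 i q) * hs
    · rw [if_neg h1] at hc
      rw [if_neg h1, zero_add]
      by_cases h2 : q = j
      · rw [if_pos h2] at hc
        rw [if_pos h2]
        by_cases h3 : p = i
        · rw [if_pos h3] at hc
          rw [br_eb_left_zero hn hm hnm hc, h3, ep2_self]
          simp
        · rw [if_neg h3] at hc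
          rw [br_eb_left_of hn hm hnm hc.1, hc.2]
          push_cast
          linear_combination - ((ep2 p i : ℤ) : A) * Y (i2 p i) * hs
      · rw [if_neg h2] at hc
        rw [if_neg h2, br_eb_left_zero hn hm hnm hc, mul_zero, neg_zero]
  rcases lt_trichotomy p q with h1 | h1 | h1
  · exact key p q h1
  · subst h1
    rw [w2_self]
    by_cases h2 : p = j
    · rw [if_pos h2, if_pos h2, w2_swap Y i p]
      ring
    · rw [if_neg h2, if_neg h2]
      ring
  · rw [w2_swap, key q p h1, w2_swap Y q i, w2_swap Y i p]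
    by_cases h2 : p = j
    · rw [if_pos h2, if_pos h2]
      by_cases h3 : q = j
      · rw [if_pos h3, if_pos h3]
        ring
      · rw [if_neg h3, if_neg h3]
        ring
    · rw [if_neg h2, if_neg h2]
      by_cases h3 : q = j
      · rw [if_pos h3, if_pos h3]
        ring
      · rw [if_neg h3, if_neg h3]
        ring

theorem om_single_left (Y : E8 A) (i : Fin 8) (c : A) (y : Vec A) :
    om Y (c • Pi.single i 1) y = c * ∑ q, w2 Y i q * y q := by
  unfold om
  rw [Finset.sum_eq_single i, Finset.mul_sum]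
  · refine Finset.sum_congr rfl fun q _ => ?_
    rw [Pi.smul_apply, Pi.single_eq_same, smul_eq_mul]
    ring
  · intro b _ hb
    refine Finset.sum_eq_zero fun q _ => ?_
    rw [Pi.smul_apply, Pi.single_eq_of_ne hb, smul_eq_mul]
    ring
  · simp

theorem om_single_right (Y : E8 A) (i : Fin 8) (c : A) (x : Vec A) :
    om Y x (c • Pi.single i 1) = c * ∑ p, w2 Y p i * x p := by
  unfold om
  rw [Finset.mul_sum]
  refine Finset.sum_congr rfl fun p _ => ?_
  rw [Finset.sum_eq_single i]
  · rw [Pi.smul_apply, Pi.single_eq_same, smul_eq_mul]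
    ring
  · intro b _ hb
    rw [Pi.smul_apply, Pi.single_eq_of_ne hb, smul_eq_mul]
    ring
  · simp

theorem om_Eg {i j : Fin 8} (h : i ≠ j) (Y : E8 A) (x y : Vec A) :
    om (br (Eg i j) Y) x y = - (om Y (x j • Pi.single i 1) y + om Y x (y j • Pi.single i 1)) := by
  rw [om_single_left, om_single_right]
  unfold om
  have e1 : ∀ p q, w2 (br (Eg i j) Y) p q * (x p * y q) =
      - ((if p = j then x j * (w2 Y i q * y q) else 0) +
        if q = j then y j * (w2 Y p i * x p) else 0) := by
    intro p q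
    rw [w2_Eg h]
    by_cases h2 : p = j
    · rw [if_pos h2, if_pos h2]
      by_cases h3 : q = j
      · rw [if_pos h3, if_pos h3, h2, h3]
        ring
      · rw [if_neg h3, if_neg h3, h2]
        ring
    · rw [if_neg h2, if_neg h2]
      by_cases h3 : q = j
      · rw [if_pos h3, if_pos h3, h3]
        ring
      · rw [if_neg h3, if_neg h3]
        ring
  simp only [e1, Finset.sum_neg_distrib, Finset.sum_add_distrib]
  rw [Finset.sum_comm]
  simp only [Finset.sum_ite_eq', Finset.mem_univ, if_true, ← Finset.mul_sum]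

/-! ### degrees `≤ -1` -/

theorem br_eb_right_zero {M : E8 A} (hM : Le zdg (-1) M) {c m : Fin 248} (hc : zdg c < 3)
    (hm : zdg m = 2) : br M (eb c) m = 0 := by
  rw [br_apply]
  refine Finset.sum_eq_zero fun n _ => Finset.sum_eq_zero fun d _ => ?_
  by_cases hs : sc n d m = 0
  · rw [hs, Int.cast_zero, zero_mul]
  · by_cases hd : d = c
    · subst hd
      have h1 := sc_zdg hs
      rw [hM n (by omega), zero_mul, mul_zero]
    · rw [eb_apply, if_neg hd, mul_zero, mul_zero]

theorem zdg_lt_of_ge {m : Fin 248} (h : 8 ≤ (m : ℕ)) : zdg m < 3 := by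
  rcases lt_or_ge (m : ℕ) 36 with h1 | h1
  · obtain ⟨i, j, hij, rfl⟩ := i2_surj m h h1
    rw [zdg_i2 i j hij]
    norm_num
  · have := zdg_big m h1
    omega

theorem br_m1_i2 {M : E8 A} (hM : Le zdg (-1) M) (Y : E8 A) {p q : Fin 8} (hpq : p < q) :
    br M Y (i2 p q) = ∑ a : Fin 8, Y (ix a) * br M (eb (ix a)) (i2 p q) := by
  have h1 : br M Y (i2 p q) = ∑ c : Fin 248, Y c * br M (eb c) (i2 p q) := by
    conv_lhs => rw [E8.eq_sum Y]
    rw [br_sum_right, Finset.sum_apply]
    refine Finset.sum_congr rfl fun c _ => ?_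
    rw [br_smul_right, Pi.smul_apply, smul_eq_mul]
  rw [h1]
  symm
  rw [← Finset.sum_image (s := (Finset.univ : Finset (Fin 8))) (g := fun a : Fin 8 => (ix a : Fin 248))
    (f := fun c => Y c * br M (eb c) (i2 p q))]
  · refine Finset.sum_subset (Finset.subset_univ _) fun c _ hc => ?_
    rw [br_eb_right_zero hM _ (zdg_i2 p q hpq), mul_zero]
    apply zdg_lt_of_ge
    by_contra hlt
    apply hc
    rw [Finset.mem_image]
    exact ⟨⟨c, by omega⟩, Finset.mem_univ _, (eq_ix (by omega)).symm⟩
  · intro a _ b _ hab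
    apply Fin.ext
    have := congrArg Fin.val hab
    simpa only [ix_fin] using this

theorem w2_m1 {M : E8 A} (hM : Le zdg (-1) M) (Y : E8 A) (p q : Fin 8) :
    w2 (br M Y) p q = ∑ a : Fin 8, t1 M a p q * Y (ix a) := by
  have key : ∀ p q : Fin 8, p < q → w2 (br M Y) p q = ∑ a : Fin 8, t1 M a p q * Y (ix a) := by
    intro p q hpq
    unfold w2
    rw [ep2_of_lt hpq, Int.cast_one, one_mul, br_m1_i2 hM Y hpq]
    refine Finset.sum_congr rfl fun a _ => ?_
    have hr2 := i2_rng p q hpq
    have ha : ((ix a : Fin 248) : ℕ) = a := ix_fin a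
    have hn : ((ix a : Fin 248) : ℕ) < 240 := by omega
    have hm : ((i2 p q : Fin 248) : ℕ) < 240 := by omega
    have hnm : (ix a : Fin 248) ≠ i2 p q := by
      intro h
      have := congrArg Fin.val h
      omega
    have hc := m1_chk p q hpq a
    rw [br_skew, Pi.neg_apply]
    by_cases h1 : a = p ∨ a = q
    · rw [if_pos h1] at hc
      rw [br_eb_left_zero hn hm hnm hc]
      have h0 : t1 M a p q = 0 := by
        rcases h1 with h1 | h1
        · rw [h1, t1_self]
        · rw [h1, t1_swap', t1_self, neg_zero]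
      rw [h0]
      ring
    · rw [if_neg h1] at hc
      rw [br_eb_left_of hn hm hnm hc.1, hc.2]
      unfold t1
      push_cast
      ring
  rcases lt_trichotomy p q with h1 | h1 | h1
  · exact key p q h1
  · subst h1
    rw [w2_self]
    symm
    refine Finset.sum_eq_zero fun a _ => ?_
    rw [t1_swap, t1_swap', t1_self]
    simp
  · rw [w2_swap, key q p h1, ← Finset.sum_neg_distrib]
    refine Finset.sum_congr rfl fun a _ => ?_
    rw [t1_swap' M a q p]
    ring

/-- (F6) -/
theorem om_M1 {M : E8 A} (hM : Le zdg (-1) M) (Y : E8 A) (x y : Vec A) :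
    om (br M Y) x y = th M (p3 Y) x y := by
  unfold om th
  simp only [w2_m1 hM, Finset.sum_mul]
  have e : ∀ p : Fin 8, ∑ q : Fin 8, ∑ a : Fin 8, t1 M a p q * Y (ix a) * (x p * y q) =
      ∑ a : Fin 8, ∑ q : Fin 8, t1 M a p q * (p3 Y a * x p * y q) := by
    intro p
    rw [Finset.sum_comm]
    refine Finset.sum_congr rfl fun a _ => Finset.sum_congr rfl fun q _ => ?_
    unfold p3
    ring
  simp only [e]
  rw [Finset.sum_comm]

end Pool.Agent.Licci
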