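import Pool.Agent.Work.MP_a98e4e_ag.Fu.L.Tab
import Pool.Agent.Work.MP_a98e4e_ag.Fu.U.Base
import Pool.Agent.Work.MP_a98e4e_ag.Fu.L.Form
import Pool.Agent.Work.MP_a98e4e_ag.Fu.L.ChkDef
import Pool.Agent.Work.MP_a98e4e_ag.Fu.L.FormA2

section

/-! The `x`-graded table of `e_8` as an `XTab`. -/

namespace Pool.Agent.Licci

/-- `x`-degree of the `i`-th basis vector: `z`-degree minus `b_0` -/
def xdN (i : ℕ) : ℤ := zdN i - wtN i 0

/-- the Euler element of the `x`-grading, `h_0 + 3 h_1 + 5 h_2 + 7 h_3 + 9 h_4 + 6 h_5 + 3 h_6 + 5 h_7` -/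
def xeN (i : ℕ) : ℤ := if 240 ≤ i then ([1, 3, 5, 7, 9, 6, 3, 5] : List ℤ).getD (i - 240) 0 else 0

/-- `e ↦ e^♭` : `x`-degree `2` (indices `1..7`, `8..14`) to `x`-degree `-2` -/
def flN (i : ℕ) : ℕ := if i < 8 then 203 + i else 225 + i

/-- the table; `q` is `-1` on the pairs `(q, q + 7)`, `q = 1..7`, and `cl e v = 2 [e^♭, v]` -/
noncomputable def xtab : U.XTab (Fin 248) where
  c := sc
  deg := fun i => xdN i
  h := fun i => xeN i
  q := fun i j =>
    if (1 ≤ (i : ℕ) ∧ (i : ℕ) ≤ 7 ∧ (j : ℕ) = i + 7) ∨ (1 ≤ (j : ℕ) ∧ (j : ℕ) ≤ 7 ∧ (i : ℕ) = j + 7)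
    then -1 else 0
  cl := fun i j k => if 1 ≤ (i : ℕ) ∧ (i : ℕ) ≤ 14 then 2 * scN (flN i) j k else 0

theorem xtab_br (A : Type*) [CommRing A] (x y : E8 A) : xtab.br A x y = br x y := by
  rfl

end Pool.Agent.Licci

end

section

/-!
# LICCI, codimension 4: the first state (`RState`) from the frames (`UData`)
-/

namespace Pool.Agent.Licci

open scoped BigOperators
open U (Sup)

universe u

namespace RS

section qf

variable {A : Type u} [CommRing A]

theorem xtab_q (i j : Fin 248) : xtab.q i j =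
    -∑ q : Fin 7, ((if i = ix (q + 1) then if j = ix (q + 8) then (1 : ℤ) else 0 else 0) +
      (if i = ix (q + 8) then if j = ix (q + 1) then 1 else 0 else 0)) := by
  have hix : ∀ n : ℕ, n < 248 → ∀ i : Fin 248, (i = ix n ↔ (i : ℕ) = n) := by
    intro n hn i
    rw [Fin.ext_iff]
    simp only [ix, Fin.ofNat, Nat.mod_eq_of_lt hn]
  have h1 : ∀ q : Fin 7, ((if i = ix (q + 1) then if j = ix (q + 8) then (1 : ℤ) else 0 else 0) +
      (if i = ix (q + 8) then if j = ix (q + 1) then 1 else 0 else 0)) =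
      if (q : ℕ) + 1 = i ∧ (j : ℕ) = i + 7 then 1 else if (q : ℕ) + 1 = j ∧ (i : ℕ) = j + 7 then 1 else 0 := by
    intro q
    simp only [hix _ (show (q : ℕ) + 1 < 248 by omega), hix _ (show (q : ℕ) + 8 < 248 by omega)]
    split_ifs <;> first | rfl | omega
  rw [Finset.sum_congr rfl fun q _ => h1 q]
  simp only [xtab]
  by_cases c1 : 1 ≤ (i : ℕ) ∧ (i : ℕ) ≤ 7 ∧ (j : ℕ) = i + 7
  · rw [if_pos (Or.inl c1), Finset.sum_eq_single (⟨(i : ℕ) - 1, by omega⟩ : Fin 7)]
    · rw [if_pos]
      simp only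
      omega
    · intro q _ hq
      have hq' : (q : ℕ) ≠ (i : ℕ) - 1 := fun h => hq (Fin.ext h)
      rw [if_neg (by omega), if_neg (by omega)]
    · intro h
      exact absurd (Finset.mem_univ _) h
  · by_cases c2 : 1 ≤ (j : ℕ) ∧ (j : ℕ) ≤ 7 ∧ (i : ℕ) = j + 7
    · rw [if_pos (Or.inr c2), Finset.sum_eq_single (⟨(j : ℕ) - 1, by omega⟩ : Fin 7)]
      · rw [if_neg (by simp only; omega), if_pos]
        simp only
        omega
      · intro q _ hq
        have hq' : (q : ℕ) ≠ (j : ℕ) - 1 := fun h => hq (Fin.ext h)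
        rw [if_neg (by omega), if_neg (by omega)]
      · intro h
        exact absurd (Finset.mem_univ _) h
    · rw [if_neg (not_or.mpr ⟨c1, c2⟩), Finset.sum_eq_zero, neg_zero]
      intro q _
      rw [if_neg (by omega), if_neg (by omega)]

theorem sum_pairs {ι : Type*} [Fintype ι] [DecidableEq ι] (a b : Fin 7 → ι) (c : ι → ι → ℤ)
    (hc : ∀ i j, c i j = -∑ q : Fin 7, ((if i = a q then if j = b q then (1 : ℤ) else 0 else 0) +
      (if i = b q then if j = a q then 1 else 0 else 0))) (x y : ι → A) :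
    ∑ i, ∑ j, (c i j : A) * (x i * y j) = -∑ q, (x (a q) * y (b q) + x (b q) * y (a q)) := by
  have h0 : ∀ i j, (c i j : A) * (x i * y j) =
      -∑ q : Fin 7, ((if i = a q then if j = b q then x i * y j else 0 else 0) +
        (if i = b q then if j = a q then x i * y j else 0 else 0)) := by
    intro i j
    rw [hc, Int.cast_neg, Int.cast_sum, neg_mul, Finset.sum_mul]
    congr 1
    refine Finset.sum_congr rfl fun q _ => ?_
    rw [Int.cast_add, add_mul]
    congr 1 <;> split_ifs <;> simp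
  simp only [h0, Finset.sum_neg_distrib, neg_inj]
  have h1 : ∀ i : ι, (∑ j : ι, ∑ q : Fin 7,
      ((if i = a q then if j = b q then x i * y j else 0 else 0) +
       (if i = b q then if j = a q then x i * y j else 0 else 0))) =
      ∑ q : Fin 7, ((if i = a q then x i * y (b q) else 0) +
        (if i = b q then x i * y (a q) else 0)) := by
    intro i
    rw [Finset.sum_comm]
    refine Finset.sum_congr rfl fun q _ => ?_
    rw [Finset.sum_add_distrib]
    congr 1 <;> split_ifs <;> simp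
  rw [Finset.sum_congr rfl fun i _ => h1 i, Finset.sum_comm]
  refine Finset.sum_congr rfl fun q _ => ?_
  rw [Finset.sum_add_distrib]
  simp

theorem qf_xtab (x y : E8 A) : U.qf xtab.q x y = B0 x y :=
  sum_pairs (fun q : Fin 7 => ix (q + 1)) (fun q : Fin 7 => ix (q + 8)) xtab.q xtab_q x y

end qf

section aux

theorem br_comp {A A' : Type*} [CommRing A] [CommRing A'] (φ : A →+* A') (x y : E8 A) :
    φ ∘ br x y = br (φ ∘ x) (φ ∘ y) := by
  funext k
  simp only [Function.comp_apply, br_apply, map_sum, map_mul, map_intCast]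

theorem comp_eb {A A' : Type*} [CommRing A] [CommRing A'] (φ : A →+* A') (i : Fin 248) :
    φ ∘ (eb i : E8 A) = eb i := by
  funext k
  simp only [Function.comp_apply, eb_apply]
  split_ifs <;> simp

theorem map_mulVec_comp {A A' : Type*} [CommRing A] [CommRing A'] (φ : A →+* A')
    (G : Matrix (Fin 248) (Fin 248) A) (x : E8 A) :
    (G.map φ).mulVec (φ ∘ x) = φ ∘ G.mulVec x := by
  funext k
  exact (RingHom.map_mulVec φ G x k).symm

/-- base change of an automorphism given by a matrix -/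
theorem isAut_of_matrix {A A' : Type*} [CommRing A] [CommRing A'] (φ : A →+* A')
    {G G' : Matrix (Fin 248) (Fin 248) A} (h1 : G * G' = 1) (h2 : G' * G = 1)
    (hom : ∀ x y : E8 A, G.mulVec (br x y) = br (G.mulVec x) (G.mulVec y)) :
    IsAut (G'.map φ).mulVecLin := by
  have hom' : ∀ x y : E8 A, G'.mulVec (br x y) = br (G'.mulVec x) (G'.mulVec y) := by
    intro x y
    have e : ∀ z : E8 A, G.mulVec (G'.mulVec z) = z := fun z => by
      rw [Matrix.mulVec_mulVec, h1, Matrix.one_mulVec]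
    have e' : ∀ z : E8 A, G'.mulVec (G.mulVec z) = z := fun z => by
      rw [Matrix.mulVec_mulVec, h2, Matrix.one_mulVec]
    conv_lhs => rw [← e x, ← e y, ← hom, e']
  have hm1 : (G.map φ) * (G'.map φ) = 1 := by
    rw [← Matrix.map_mul, h1, Matrix.map_one _ (map_zero φ) (map_one φ)]
  have hm2 : (G'.map φ) * (G.map φ) = 1 := by
    rw [← Matrix.map_mul, h2, Matrix.map_one _ (map_zero φ) (map_one φ)]
  constructor
  · refine Function.bijective_iff_has_inverse.2 ⟨(G.map φ).mulVecLin, fun x => ?_, fun x => ?_⟩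
    · rw [Matrix.mulVecLin_apply, Matrix.mulVecLin_apply, Matrix.mulVec_mulVec, hm1,
        Matrix.one_mulVec]
    · rw [Matrix.mulVecLin_apply, Matrix.mulVecLin_apply, Matrix.mulVec_mulVec, hm2,
        Matrix.one_mulVec]
  · intro x y
    have key : (brL (A := A')).compr₂ (G'.map φ).mulVecLin =
        (brL (A := A')).compl₁₂ (G'.map φ).mulVecLin (G'.map φ).mulVecLin := by
      refine E8.hom_ext fun i => E8.hom_ext fun j => ?_
      simp only [LinearMap.compr₂_apply, LinearMap.compl₁₂_apply, brL_apply,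
        Matrix.mulVecLin_apply]
      rw [← comp_eb φ i, ← comp_eb φ j, ← br_comp, map_mulVec_comp, map_mulVec_comp,
        map_mulVec_comp, ← br_comp, hom']
    exact LinearMap.congr_fun (LinearMap.congr_fun key x) y

theorem B0_comp {A A' : Type*} [CommRing A] [CommRing A'] (φ : A →+* A') (g h : E8 A) :
    φ (B0 g h) = B0 (φ ∘ g) (φ ∘ h) := by
  simp only [B0, Function.comp_apply, map_neg, map_sum, map_add, map_mul]

end aux

end RS

section lf

variable {R : Type u} [CommRing R]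

/-- the linear form with given coefficients -/
def lf (f : Vec R) : Vec R →ₗ[R] R where
  toFun x := ∑ a, f a * x a
  map_add' x y := by simp only [Pi.add_apply, mul_add, Finset.sum_add_distrib]
  map_smul' c x := by
    simp only [Pi.smul_apply, smul_eq_mul, RingHom.id_apply, Finset.mul_sum]
    exact Finset.sum_congr rfl fun a _ => by ring

theorem lf_apply (f x : Vec R) : lf f x = ∑ a, f a * x a := rfl

theorem lf_coeff (f : Vec R →ₗ[R] R) : lf (fun a => f (Pi.single a 1)) = f := by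
  refine LinearMap.ext fun x => ?_
  have h : x = ∑ a, x a • (Pi.single a 1 : Vec R) := by
    funext b
    simp [Pi.single_apply]
  rw [lf_apply]
  conv_rhs => rw [h]
  rw [map_sum]
  exact Finset.sum_congr rfl fun a _ => by rw [map_smul, smul_eq_mul, mul_comm]

theorem lf_ne_zero {f : Vec R} (hf : f ≠ 0) : lf f ≠ 0 := by
  intro h
  apply hf
  funext a
  have := LinearMap.congr_fun h (Pi.single a 1)
  simpa [lf_apply, Pi.single_apply] using this

theorem Th_lf {Y Z : E8 R} {f : Vec R} {c : R}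
    (h : ∀ a, ∑ m, (w2 Z m a * p3 Y m + w2 Y m a * p3 Z m) = c * f a) (u : Vec R) :
    Th Y Z u = c * lf f u := by
  simp only [Th, om]
  rw [Finset.sum_comm, Finset.sum_comm (f := fun i j => w2 Y i j * (p3 Z i * u j)),
    ← Finset.sum_add_distrib, lf_apply, Finset.mul_sum]
  refine Finset.sum_congr rfl fun a _ => ?_
  rw [← mul_assoc, ← h a, Finset.sum_mul, ← Finset.sum_add_distrib]
  exact Finset.sum_congr rfl fun m _ => by ring

end lf

section state

open RS

variable {R : Type u} [CommRing R] {T : Type u} [CommRing T] [Algebra R T]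

/-- the frames give an integral state -/
theorem rstate_of_udata {C : U.Cov R T} (W : U.UData xtab C) (K : Type u) [Field K]
    [Algebra R K] [Algebra T K] [IsScalarTower R T K] {f : Vec R} (hf : f ≠ 0)
    {M : Matrix (Fin 14) (Fin 14) R} (hWM : W.M = M)
    (hM : ∀ k l a, ∑ m, (w2 (W.γ l) m a * p3 (W.γ k) m + w2 (W.γ k) m a * p3 (W.γ l) m) =
      M k l * f a) :
    ∃ s : RState R K M, s.γ = W.γ ∧ s.f = lf f := by
  subst hWM
  have hφ : ∀ x : E8 R, algebraMap R K ∘ x = algebraMap T K ∘ (algebraMap R T ∘ x) := by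
    intro x
    funext m
    exact IsScalarTower.algebraMap_apply R T K (x m)
  refine ⟨{ γ := W.γ
            k := ((W.G' 0).map (algebraMap T K)).mulVecLin
            aut := isAut_of_matrix (algebraMap T K) (W.GG' 0) (W.G'G 0) (W.hom 0)
            g := fun l => algebraMap T K ∘ (W.G 0).mulVec (algebraMap R T ∘ W.γ l)
            sup := ?_
            kg := ?_
            gram := ?_
            f := lf f
            th := fun l m u => Th_lf (hM l m) u
            f0 := lf_ne_zero hf }, rfl, rfl⟩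
  · intro l m hm
    rw [Function.comp_apply, W.hγ 0 l m hm, map_zero]
  · intro l
    rw [Matrix.mulVecLin_apply, map_mulVec_comp, Matrix.mulVec_mulVec, W.G'G 0,
      Matrix.one_mulVec, hφ]
  · intro l m
    rw [← B0_comp, ← qf_xtab, ← W.hM 0 l m, ← IsScalarTower.algebraMap_apply R T K]

end state

end Pool.Agent.Licci

end

section

/-!
# LICCI, codimension 4: the state of the frames
-/

namespace Pool.Agent.Licci

open scoped BigOperators
open U (Sup)
open Module RingTheory.Sequence IsLocalRing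

universe u

set_option linter.unusedSectionVars false in
theorem RState.of_udata {R : Type u} [CommRing R] [IsDomain R] [IsLocalRing R] [Algebra ℚ R]
    {T : Type u} [CommRing T] [Algebra R T] {K : Type u} [Field K] [Algebra R K] [Algebra T K]
    [IsScalarTower R T K] [IsFractionRing R K] (C : U.Cov R T) (W : U.UData xtab C)
    (f : Vec R →ₗ[R] R) (hf : f ≠ 0) (hth : ∀ l m u, Th (W.γ l) (W.γ m) u = W.M l m * f u) :
    ∃ s : RState R K W.M, s.γ = W.γ ∧ s.f = f := by
  have hφ : ∀ x : E8 R, algebraMap R K ∘ x = algebraMap T K ∘ (algebraMap R T ∘ x) := by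
    intro x
    funext m
    exact IsScalarTower.algebraMap_apply R T K (x m)
  refine ⟨{ γ := W.γ
            k := ((W.G' 0).map (algebraMap T K)).mulVecLin
            aut := RS.isAut_of_matrix (algebraMap T K) (W.GG' 0) (W.G'G 0) (W.hom 0)
            g := fun l => algebraMap T K ∘ (W.G 0).mulVec (algebraMap R T ∘ W.γ l)
            sup := ?_
            kg := ?_
            gram := ?_
            f := f
            th := hth
            f0 := hf }, rfl, rfl⟩
  · intro l m hm
    rw [Function.comp_apply, W.hγ 0 l m hm, map_zero]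
  · intro l
    rw [Matrix.mulVecLin_apply, RS.map_mulVec_comp, Matrix.mulVec_mulVec, W.G'G 0,
      Matrix.one_mulVec, hφ]
  · intro l m
    rw [← RS.B0_comp, ← RS.qf_xtab, ← W.hM 0 l m, ← IsScalarTower.algebraMap_apply R T K]

end Pool.Agent.Licci

end

section

/-!
# Block (U6a): degrees of the table `xtab`, gradedness, Euler element, cardinalities
-/

namespace Pool.Agent.Licci

open Module

universe u

/-- base 16 -/
def ev (a0 a1 a2 a3 a4 a5 a6 a7 : ℕ) : ℕ := a0 + 16 * (a1 + 16 * (a2 + 16 * (a3 + 16 * (a4 + 16 * (a5 + 16 * (a6 + 16 * a7))))))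
theorem digits_add (a0 a1 a2 a3 a4 a5 a6 a7 b0 b1 b2 b3 b4 b5 b6 b7 c0 c1 c2 c3 c4 c5 c6 c7 : ℕ)
   (ha : a0 ≤ 7 ∧ a1 ≤ 7 ∧ a2 ≤ 7 ∧ a3 ≤ 7 ∧ a4 ≤ 7 ∧ a5 ≤ 7 ∧ a6 ≤ 7 ∧ a7 ≤ 7)
   (hb : b0 ≤ 7 ∧ b1 ≤ 7 ∧ b2 ≤ 7 ∧ b3 ≤ 7 ∧ b4 ≤ 7 ∧ b5 ≤ 7 ∧ b6 ≤ 7 ∧ b7 ≤ 7)
   (hc : c0 ≤ 7 ∧ c1 ≤ 7 ∧ c2 ≤ 7 ∧ c3 ≤ 7 ∧ c4 ≤ 7 ∧ c5 ≤ 7 ∧ c6 ≤ 7 ∧ c7 ≤ 7)
   (h : ev a0 a1 a2 a3 a4 a5 a6 a7 + ev b0 b1 b2 b3 b4 b5 b6 b7 = ev c0 c1 c2 c3 c4 c5 c6 c7 + ev 2 2 2 2 2 2 2 2) :
   a0 + b0 = c0 + 2 ∧ a1 + b1 = c1 + 2 ∧ a2 + b2 = c2 + 2 ∧ a3 + b3 = c3 + 2 ∧ a4 + b4 = c4 + 2 ∧ a5 + b5 = c5 + 2 ∧ a6 + b6 = c6 + 2 ∧ a7 + b7 = c7 + 2 := by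
  obtain ⟨x0, x1, x2, x3, x4, x5, x6, x7⟩ := ha
  obtain ⟨y0, y1, y2, y3, y4, y5, y6, y7⟩ := hb
  obtain ⟨z0, z1, z2, z3, z4, z5, z6, z7⟩ := hc
  unfold ev at h
  have e0 : a0 + b0 = c0 + 2 := by omega
  have h1 : (a1 + 16 * (a2 + 16 * (a3 + 16 * (a4 + 16 * (a5 + 16 * (a6 + 16 * a7)))))) +
     (b1 + 16 * (b2 + 16 * (b3 + 16 * (b4 + 16 * (b5 + 16 * (b6 + 16 * b7)))))) =
     (c1 + 16 * (c2 + 16 * (c3 + 16 * (c4 + 16 * (c5 + 16 * (c6 + 16 * c7)))))) +
     (2 + 16 * (2 + 16 * (2 + 16 * (2 + 16 * (2 + 16 * (2 + 16 * 2)))))) := by omega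
  clear h
  have e1 : a1 + b1 = c1 + 2 := by omega
  have h2 : (a2 + 16 * (a3 + 16 * (a4 + 16 * (a5 + 16 * (a6 + 16 * a7))))) +
     (b2 + 16 * (b3 + 16 * (b4 + 16 * (b5 + 16 * (b6 + 16 * b7))))) =
     (c2 + 16 * (c3 + 16 * (c4 + 16 * (c5 + 16 * (c6 + 16 * c7))))) +
     (2 + 16 * (2 + 16 * (2 + 16 * (2 + 16 * (2 + 16 * 2))))) := by omega
  clear h1
  have e2 : a2 + b2 = c2 + 2 := by omega
  have h3 : (a3 + 16 * (a4 + 16 * (a5 + 16 * (a6 + 16 * a7)))) +
     (b3 + 16 * (b4 + 16 * (b5 + 16 * (b6 + 16 * b7)))) =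
     (c3 + 16 * (c4 + 16 * (c5 + 16 * (c6 + 16 * c7)))) +
     (2 + 16 * (2 + 16 * (2 + 16 * (2 + 16 * 2)))) := by omega
  clear h2
  have e3 : a3 + b3 = c3 + 2 := by omega
  have h4 : (a4 + 16 * (a5 + 16 * (a6 + 16 * a7))) + (b4 + 16 * (b5 + 16 * (b6 + 16 * b7))) =
     (c4 + 16 * (c5 + 16 * (c6 + 16 * c7))) + (2 + 16 * (2 + 16 * (2 + 16 * 2))) := by omega
  clear h3
  have e4 : a4 + b4 = c4 + 2 := by omega
  have h5 : (a5 + 16 * (a6 + 16 * a7)) + (b5 + 16 * (b6 + 16 * b7)) =
     (c5 + 16 * (c6 + 16 * c7)) + (2 + 16 * (2 + 16 * 2)) := by omega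
  clear h4
  have e5 : a5 + b5 = c5 + 2 := by omega
  have h6 : (a6 + 16 * a7) + (b6 + 16 * b7) = (c6 + 16 * c7) + (2 + 16 * 2) := by omega
  clear h5
  have e6 : a6 + b6 = c6 + 2 := by omega
  have e7 : a7 + b7 = c7 + 2 := by omega
  exact ⟨e0, e1, e2, e3, e4, e5, e6, e7⟩

/-- bounds for degree and digits, digit expansion, `z`-degree exact -/
def xdC (i : ℕ) : Bool :=
  decide (-2 ≤ xdN i) && decide (xdN i ≤ 2) &&
  Nat.ble (dg i 0) 7 && Nat.ble (dg i 1) 7 && Nat.ble (dg i 2) 7 && Nat.ble (dg i 3) 7 &&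
  Nat.ble (dg i 4) 7 && Nat.ble (dg i 5) 7 && Nat.ble (dg i 6) 7 && Nat.ble (dg i 7) 7 &&
  Nat.beq (cd i) (ev (dg i 0) (dg i 1) (dg i 2) (dg i 3) (dg i 4) (dg i 5) (dg i 6) (dg i 7)) &&
  decide (3 * zdN i = (((dg i 0 + dg i 1 + dg i 2 + dg i 3 + dg i 4 + dg i 5 + dg i 6 +
    dg i 7 : ℕ) : ℤ) - 16))

set_option maxRecDepth 100000 in
theorem xdC_chk : (List.range 248).all xdC = true := by decide +kernel

/-- the properties of one index, with the digits as variables -/
structure Dig (x z w0 : ℤ) (c d0 d1 d2 d3 d4 d5 d6 d7 : ℕ) : Prop where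
  ge : -2 ≤ x
  le : x ≤ 2
  hx : x = z - w0
  hw : w0 = (d0 : ℤ) - 2
  hc : c = ev d0 d1 d2 d3 d4 d5 d6 d7
  hz : 3 * z = ((d0 + d1 + d2 + d3 + d4 + d5 + d6 + d7 : ℕ) : ℤ) - 16
  bd : d0 ≤ 7 ∧ d1 ≤ 7 ∧ d2 ≤ 7 ∧ d3 ≤ 7 ∧ d4 ≤ 7 ∧ d5 ≤ 7 ∧ d6 ≤ 7 ∧ d7 ≤ 7

theorem xdC_spec {i : ℕ} (hi : i < 248) :
    Dig (xdN i) (zdN i) (wtN i 0) (cd i) (dg i 0) (dg i 1) (dg i 2) (dg i 3) (dg i 4) (dg i 5)
      (dg i 6) (dg i 7) := by
  have h := all_range xdC_chk hi
  unfold xdC at h
  rw [Bool.and_eq_true, Bool.and_eq_true, Bool.and_eq_true, Bool.and_eq_true, Bool.and_eq_true,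
    Bool.and_eq_true, Bool.and_eq_true, Bool.and_eq_true, Bool.and_eq_true, Bool.and_eq_true,
    Bool.and_eq_true] at h
  obtain ⟨⟨⟨⟨⟨⟨⟨⟨⟨⟨⟨h1, h2⟩, a0⟩, a1⟩, a2⟩, a3⟩, a4⟩, a5⟩, a6⟩, a7⟩, h3⟩, h4⟩ := h
  exact ⟨of_decide_eq_true h1, of_decide_eq_true h2, rfl, rfl, Nat.eq_of_beq_eq_true h3,
    of_decide_eq_true h4, Nat.le_of_ble_eq_true a0, Nat.le_of_ble_eq_true a1,
    Nat.le_of_ble_eq_true a2, Nat.le_of_ble_eq_true a3, Nat.le_of_ble_eq_true a4,
    Nat.le_of_ble_eq_true a5, Nat.le_of_ble_eq_true a6, Nat.le_of_ble_eq_true a7⟩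

theorem Dig.add {x z w0 : ℤ} {c d0 d1 d2 d3 d4 d5 d6 d7 : ℕ}
    {x' z' w0' : ℤ} {c' d0' d1' d2' d3' d4' d5' d6' d7' : ℕ}
    {x'' z'' w0'' : ℤ} {c'' d0'' d1'' d2'' d3'' d4'' d5'' d6'' d7'' : ℕ}
    (h : Dig x z w0 c d0 d1 d2 d3 d4 d5 d6 d7)
    (h' : Dig x' z' w0' c' d0' d1' d2' d3' d4' d5' d6' d7')
    (h'' : Dig x'' z'' w0'' c'' d0'' d1'' d2'' d3'' d4'' d5'' d6'' d7'')
    (hc : c + c' = c'' + ev 2 2 2 2 2 2 2 2) : x + x' = x'' := by
  have e := digits_add _ _ _ _ _ _ _ _ _ _ _ _ _ _ _ _ _ _ _ _ _ _ _ _ h.bd h'.bd h''.bd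
    (by rw [← h.hc, ← h'.hc, ← h''.hc]; exact hc)
  obtain ⟨e0, e1, e2, e3, e4, e5, e6, e7⟩ := e
  have a1 := h.hx
  have a2 := h.hw
  have a3 := h.hz
  have b1 := h'.hx
  have b2 := h'.hw
  have b3 := h'.hz
  have c1 := h''.hx
  have c2 := h''.hw
  have c3 := h''.hz
  clear h h' h'' hc
  push_cast at a3 b3 c3
  omega

theorem xdN_add {i j l : ℕ} (hi : i < 248) (hj : j < 248) (hl : l < 248)
    (h : cd i + cd j = cd l + off) : xdN i + xdN j = xdN l :=
  (xdC_spec hi).add (xdC_spec hj) (xdC_spec hl) h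

theorem xtab_deg_ge (b : Fin 248) : -2 ≤ xtab.deg b := (xdC_spec b.2).ge

theorem xtab_deg_le (b : Fin 248) : xtab.deg b ≤ 2 := (xdC_spec b.2).le

theorem sc_deg {i j l : Fin 248} (h : sc i j l ≠ 0) :
    xtab.deg i + xtab.deg j = xtab.deg l :=
  xdN_add i.2 j.2 l.2 (scN_wt i.2 j.2 h)

theorem xtab_br_sup (A : Type u) [CommRing A] (k l : ℤ) (x y : Fin 248 → A)
    (hx : U.Sup xtab.deg k x) (hy : U.Sup xtab.deg l y) :
    U.Sup xtab.deg (k + l) (xtab.br A x y) := by
  intro b hb
  change ∑ i, ∑ j, (sc i j b : A) * (x i * y j) = 0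
  refine Finset.sum_eq_zero fun i _ => Finset.sum_eq_zero fun j _ => ?_
  by_cases hi : xtab.deg i = k
  · by_cases hj : xtab.deg j = l
    · by_cases hs : sc i j b = 0
      · rw [hs, Int.cast_zero, zero_mul]
      · exact absurd (by rw [← sc_deg hs, hi, hj]) hb
    · rw [hy j hj, mul_zero, mul_zero]
  · rw [hx i hi, zero_mul, mul_zero]

theorem card_range (n : ℕ) (p : ℕ → Bool) :
    Fintype.card {b : Fin n // p b = true} = ((List.range n).filter p).length := by
  rw [Fintype.card_subtype]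
  have h1 : (Finset.univ.filter (fun b : Fin n => p b = true)).card =
      ((Finset.range n).filter (fun i => p i = true)).card := by
    refine Finset.card_bij (fun b _ => (b : ℕ)) ?_ ?_ ?_
    · intro b hb
      rw [Finset.mem_filter] at hb ⊢
      exact ⟨Finset.mem_range.2 b.2, hb.2⟩
    · intro a _ b _ h
      exact Fin.ext h
    · intro i hi
      rw [Finset.mem_filter, Finset.mem_range] at hi
      exact ⟨⟨i, hi.1⟩, by rw [Finset.mem_filter]; exact ⟨Finset.mem_univ _, hi.2⟩, rfl⟩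
  have hnd : (List.filter p (List.range n)).Nodup := List.Nodup.filter _ List.nodup_range
  rw [h1, ← List.toFinset_card_of_nodup hnd]
  congr 1
  ext i
  simp

/-- integer equality as a Boolean -/
def ieq (a b : ℤ) : Bool := decide (a = b)

set_option maxRecDepth 100000 in
theorem card1_chk : ((List.range 248).filter (fun i => ieq (xdN i) 1)).length = 64 := by
  decide +kernel

set_option maxRecDepth 100000 in
theorem card2_chk : ((List.range 248).filter (fun i => ieq (xdN i) 2)).length = 14 := by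
  decide +kernel

theorem xtab_card1 : Fintype.card {b // xtab.deg b = 1} = 64 := by
  rw [← card1_chk, ← card_range]
  refine Fintype.card_congr (Equiv.subtypeEquivRight fun b => ?_)
  exact (decide_eq_true_iff (p := xdN b = 1)).symm

theorem xtab_card2 : Fintype.card {b // xtab.deg b = 2} = 14 := by
  rw [← card2_chk, ← card_range]
  refine Fintype.card_congr (Equiv.subtypeEquivRight fun b => ?_)
  exact (decide_eq_true_iff (p := xdN b = 2)).symm

/-- the Euler element acts on the `j`-th basis vector by its degree -/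
def euC (j : ℕ) : Bool :=
  bif Nat.blt j 240 then
    ieq (prN j 0 + 3 * prN j 1 + 5 * prN j 2 + 7 * prN j 3 + 9 * prN j 4 + 6 * prN j 5 +
      3 * prN j 6 + 5 * prN j 7) (xdN j)
  else ieq (xdN j) 0

set_option maxRecDepth 100000 in
theorem euC_chk : (List.range 248).all euC = true := by decide +kernel

theorem xeN_lt {i : ℕ} (h : i < 240) : xeN i = 0 := by
  rw [xeN, if_neg (by omega)]

set_option maxRecDepth 100000 in
theorem scN_cartan (q j k : ℕ) :
    scN (240 + q) j k = if j < 240 ∧ j = k then prN j q else 0 := by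
  have b1 : Nat.blt (240 + q) 240 = false := by
    rw [Bool.eq_false_iff]
    intro h
    rw [Nat.blt_eq] at h
    omega
  rw [scN, sp, b1, cond_false]
  rcases lt_or_ge j 240 with h | h
  · have b2 : Nat.blt j 240 = true := by simpa [Nat.blt_eq] using h
    rw [b2, cond_true, cf_cons, cf_nil, add_zero]
    have e : 240 + q - 240 = q := by omega
    simp only [e, h, true_and]
  · have b2 : Nat.blt j 240 = false := by
      rw [Bool.eq_false_iff]
      intro h'
      rw [Nat.blt_eq] at h'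
      omega
    rw [b2, cond_false, cf_nil, if_neg (by omega)]

theorem euler_coef (j k : Fin 248) :
    ∑ i : Fin 248, xeN i * sc i j k = if j = k then xdN j else 0 := by
  have h0 : ∑ i : Fin 248, xeN i * sc i j k =
      ∑ q : Fin 8, xeN (240 + q) * scN (240 + q) j k := by
    have := Fin.sum_univ_add (a := 240) (b := 8) (fun i : Fin (240 + 8) =>
      xeN i * scN i j k)
    change ∑ i : Fin (240 + 8), xeN i * scN i j k = _
    rw [this]
    have hz : ∑ i : Fin 240, xeN (Fin.castAdd 8 i) * scN (Fin.castAdd 8 i) j k = 0 := by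
      refine Finset.sum_eq_zero fun i _ => ?_
      rw [xeN_lt (by simp), zero_mul]
    rw [hz, zero_add]
    refine Finset.sum_congr rfl fun q _ => ?_
    simp
  rw [h0]
  simp only [scN_cartan, Fin.val_inj]
  have hc := all_range euC_chk j.2
  by_cases hjk : j = k
  · rcases lt_or_ge (j : ℕ) 240 with h | h
    · have b2 : Nat.blt j 240 = true := by simpa [Nat.blt_eq] using h
      rw [euC, b2, cond_true] at hc
      have hc' := of_decide_eq_true hc
      subst hjk
      rw [if_pos rfl, ← hc']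
      simp only [h, and_self, if_true]
      rw [Fin.sum_univ_eight]
      have v0 : xeN (240 + ((0 : Fin 8) : ℕ)) = 1 := by decide
      have v1 : xeN (240 + ((1 : Fin 8) : ℕ)) = 3 := by decide
      have v2 : xeN (240 + ((2 : Fin 8) : ℕ)) = 5 := by decide
      have v3 : xeN (240 + ((3 : Fin 8) : ℕ)) = 7 := by decide
      have v4 : xeN (240 + ((4 : Fin 8) : ℕ)) = 9 := by decide
      have v5 : xeN (240 + ((5 : Fin 8) : ℕ)) = 6 := by decide
      have v6 : xeN (240 + ((6 : Fin 8) : ℕ)) = 3 := by decide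
      have v7 : xeN (240 + ((7 : Fin 8) : ℕ)) = 5 := by decide
      rw [v0, v1, v2, v3, v4, v5, v6, v7]
      change 1 * prN j 0 + 3 * prN j 1 + 5 * prN j 2 + 7 * prN j 3 + 9 * prN j 4 +
        6 * prN j 5 + 3 * prN j 6 + 5 * prN j 7 = _
      rw [one_mul]
    · have b2 : Nat.blt j 240 = false := by
        rw [Bool.eq_false_iff]
        intro h'
        rw [Nat.blt_eq] at h'
        omega
      rw [euC, b2, cond_false] at hc
      have hc' := of_decide_eq_true hc
      rw [if_pos hjk, hc']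
      refine Finset.sum_eq_zero fun q _ => ?_
      rw [if_neg (by omega), mul_zero]
  · rw [if_neg hjk]
    refine Finset.sum_eq_zero fun q _ => ?_
    rw [if_neg (fun h => hjk h.2), mul_zero]

theorem xtab_br_h (A : Type u) [CommRing A] (x : Fin 248 → A) :
    xtab.br A (fun b => (xtab.h b : A)) x = fun b => (xtab.deg b : A) * x b := by
  funext k
  change ∑ i, ∑ j, (sc i j k : A) * ((xeN i : A) * x j) = (xdN k : A) * x k
  rw [Finset.sum_comm]
  have h1 : ∀ j : Fin 248, ∑ i, (sc i j k : A) * ((xeN i : A) * x j) =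
      ((if j = k then xdN j else 0 : ℤ) : A) * x j := by
    intro j
    rw [← euler_coef j k, Int.cast_sum, Finset.sum_mul]
    refine Finset.sum_congr rfl fun i _ => ?_
    rw [Int.cast_mul]
    ring
  rw [Finset.sum_congr rfl fun j _ => h1 j, Finset.sum_eq_single k]
  · rw [if_pos rfl]
  · intro j _ hj
    rw [if_neg hj, Int.cast_zero, zero_mul]
  · intro h
    exact absurd (Finset.mem_univ k) h

end Pool.Agent.Licci

end

section

/-!
# L11a: the torus element, the `x`-degree in degrees `≥ 2`, exponentials of degree zero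
-/

namespace Pool.Agent.Licci

open scoped BigOperators
open U (Sup)

namespace Tor

theorem wt_add (q : Fin 8) {i j l : ℕ} (hi : i < 248) (hj : j < 248) (hl : l < 248)
    (h : cd i + cd j = cd l + off) : wtN i q + wtN j q = wtN l q := by
  have e := digits_add _ _ _ _ _ _ _ _ _ _ _ _ _ _ _ _ _ _ _ _ _ _ _ _ (xdC_spec hi).bd
    (xdC_spec hj).bd (xdC_spec hl).bd
    (by rw [← (xdC_spec hi).hc, ← (xdC_spec hj).hc, ← (xdC_spec hl).hc]; exact h)
  have key : ∀ a b c : ℕ, a + b = c + 2 → ((a : ℤ) - 2) + ((b : ℤ) - 2) = (c : ℤ) - 2 := by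
    intro a b c h
    omega
  obtain ⟨e0, e1, e2, e3, e4, e5, e6, e7⟩ := e
  fin_cases q
  · exact key _ _ _ e0
  · exact key _ _ _ e1
  · exact key _ _ _ e2
  · exact key _ _ _ e3
  · exact key _ _ _ e4
  · exact key _ _ _ e5
  · exact key _ _ _ e6
  · exact key _ _ _ e7

theorem zd_add {i j l : ℕ} (hi : i < 248) (hj : j < 248) (hl : l < 248)
    (h : cd i + cd j = cd l + off) : zdN i + zdN j = zdN l := by
  have h1 := xdN_add hi hj hl h
  have h2 := wt_add 0 hi hj hl h
  simp only [xdN] at h1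
  change wtN i 0 + wtN j 0 = wtN l 0 at h2
  linarith

theorem sc_wt (q : Fin 8) {i j k : Fin 248} (h : sc i j k ≠ 0) :
    wtg q i + wtg q j = wtg q k :=
  wt_add q i.2 j.2 k.2 (scN_wt i.2 j.2 h)

theorem sc_zd {i j k : Fin 248} (h : sc i j k ≠ 0) : zdg i + zdg j = zdg k :=
  zd_add i.2 j.2 k.2 (scN_wt i.2 j.2 h)

end Tor

section L11a

variable {A : Type*} [CommRing A]

theorem tor_apply (q : Fin 8) (u : Aˣ) (Y : E8 A) (m : Fin 248) :
    tor q u Y m = ((u ^ (wtg q m) : Aˣ) : A) * Y m := rfl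

theorem tor_inv (q : Fin 8) (u : Aˣ) (Y : E8 A) : tor q u⁻¹ (tor q u Y) = Y := by
  funext m
  rw [tor_apply, tor_apply, ← mul_assoc, ← Units.val_mul, inv_zpow, inv_mul_cancel, Units.val_one,
    one_mul]

theorem tor_isAut (q : Fin 8) (u : Aˣ) : IsAut (tor q u) := by
  refine ⟨⟨?_, ?_⟩, ?_⟩
  · intro Y Z h
    rw [← tor_inv q u Y, h, tor_inv]
  · intro Y
    refine ⟨tor q u⁻¹ Y, ?_⟩
    have := tor_inv q u⁻¹ Y
    rwa [inv_inv] at this
  · intro x y
    funext m
    rw [tor_apply, br_apply, br_apply, Finset.mul_sum]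
    refine Finset.sum_congr rfl fun i _ => ?_
    rw [Finset.mul_sum]
    refine Finset.sum_congr rfl fun j _ => ?_
    rw [tor_apply, tor_apply]
    by_cases hs : sc i j m = 0
    · rw [hs, Int.cast_zero, zero_mul, zero_mul, mul_zero]
    · rw [← Tor.sc_wt q hs, zpow_add, Units.val_mul]
      ring

theorem tor_sup (q : Fin 8) (u : Aˣ) {Y : E8 A} {k : ℤ} (h : Sup xdg k Y) :
    Sup xdg k (tor q u Y) := by
  intro m hm
  rw [tor_apply, h m hm, mul_zero]

theorem wtg_B0 : ∀ q : Fin 7, wtg 0 (ix ((q : ℕ) + 1)) = 1 ∧ wtg 0 (ix ((q : ℕ) + 8)) = 0 := by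
  decide +kernel

theorem tor_B0 (u : Aˣ) {g h : E8 A} : B0 (tor 0 u g) (tor 0 u h) = (u : A) * B0 g h := by
  rw [B0, B0, mul_neg, Finset.mul_sum]
  congr 1
  refine Finset.sum_congr rfl fun q _ => ?_
  rw [tor_apply, tor_apply, tor_apply, tor_apply, (wtg_B0 q).1, (wtg_B0 q).2, zpow_one, zpow_zero,
    Units.val_one]
  ring

theorem tor_mem {R : Type*} [CommRing R] [Algebra R A] (S : Subalgebra R A) (q : Fin 8) (u : Aˣ)
    (h1 : (u : A) ∈ S) (h2 : ((u⁻¹ : Aˣ) : A) ∈ S) {Y : E8 A} (hY : ∀ m, Y m ∈ S) (m : Fin 248) :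
    tor q u Y m ∈ S := by
  rw [tor_apply]
  refine S.mul_mem ?_ (hY m)
  obtain ⟨n, hn | hn⟩ := Int.eq_nat_or_neg (wtg q m)
  · rw [hn, zpow_natCast, Units.val_pow_eq_pow_val]
    exact S.pow_mem h1 n
  · rw [hn, zpow_neg, zpow_natCast, ← inv_pow, Units.val_pow_eq_pow_val]
    exact S.pow_mem h2 n

theorem xdg_ix : ∀ a : Fin 8, a ≠ 0 → xdg (ix a) = 2 := by
  decide +kernel

set_option maxRecDepth 100000 in
theorem xdg_i2 : ∀ j : Fin 8, 0 < j → xdg (i2 0 j) = 2 := by
  decide +kernel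

/-- `x`-degree `2` is `v_0 = 0`, `e^0 ∧ w = 0` in degrees `≥ 2` -/
theorem sup_xdg_two {Y : E8 A} (h : ∀ m, zdg m < 2 → Y m = 0) (h0 : p3 Y 0 = 0)
    (hw : ∀ i j : Fin 8, i ≠ 0 → j ≠ 0 → w2 Y i j = 0) : Sup xdg 2 Y := by
  intro m hm
  rcases lt_or_ge (m : ℕ) 36 with h36 | h36
  · rcases lt_or_ge (m : ℕ) 8 with h8 | h8
    · have e : m = ix ((⟨m, h8⟩ : Fin 8) : ℕ) := by
        apply Fin.ext
        rw [ix_val (show (m : ℕ) < 248 from m.2)]
      by_cases hz : (⟨m, h8⟩ : Fin 8) = 0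
      · have h0' : Y (ix ((0 : Fin 8) : ℕ)) = 0 := h0
        rw [e, hz]
        exact h0'
      · exact absurd (by rw [e]; exact xdg_ix _ hz) hm
    · obtain ⟨i, j, hij, he⟩ := i2_surj m h8 h36
      by_cases hi : i = 0
      · subst hi
        exact absurd (by rw [← he]; exact xdg_i2 j hij) hm
      · have hj : j ≠ 0 := by
          intro hj
          rw [hj] at hij
          exact absurd hij (Fin.not_lt_zero i)
        have h1 := hw i j hi hj
        rw [w2, ep2_of_lt hij, Int.cast_one, one_mul, he] at h1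
        exact h1
  · exact h m (zdg_big m h36)

variable [Algebra ℚ A]

theorem br_sup_zdg {x : E8 A} (hx : Sup zdg 0 x) {k : ℤ} {Y : E8 A} (hY : Sup zdg k Y) :
    Sup zdg k (br x Y) := by
  intro m hm
  rw [br_apply]
  refine Finset.sum_eq_zero fun i _ => Finset.sum_eq_zero fun j _ => ?_
  by_cases hs : sc i j m = 0
  · rw [hs, Int.cast_zero, zero_mul]
  · by_cases hi : zdg i = 0
    · by_cases hj : zdg j = k
      · exact absurd (by rw [← Tor.sc_zd hs, hi, hj, zero_add]) hm
      · rw [hY j hj, mul_zero, mul_zero]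
    · rw [hx i hi, zero_mul, mul_zero]

/-- exponentials of degree `0` keep the degree -/
theorem ex_sup_zdg {x : E8 A} (hx : Sup zdg 0 x) {k : ℤ} {Y : E8 A} (hY : Sup zdg k Y) :
    Sup zdg k (ex x Y) := by
  have hp : ∀ n : ℕ, Sup zdg k (((brL x) ^ n) Y) := by
    intro n
    induction n with
    | zero => simpa using hY
    | succ n ih =>
      rw [pow_succ', Module.End.mul_apply, brL_apply]
      exact br_sup_zdg hx ih
  intro m hm
  rw [ex, LinearMap.sum_apply, Finset.sum_apply]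
  refine Finset.sum_eq_zero fun n _ => ?_
  rw [LinearMap.smul_apply, Pi.smul_apply, hp n m hm, smul_zero]

end L11a

end Pool.Agent.Licci

end

section

/-!
# Module L11c, part A: the quadratic form of the table, and the form `f ∧ ŵ = 0`
-/

namespace Pool.Agent.Licci

open scoped BigOperators
open U (Sup)

universe u

/-- a sum over `Fin 248` of a function supported on `1..14` -/
theorem sum_fourteen {A : Type*} [AddCommMonoid A] (F : Fin 248 → A)
    (h : ∀ i : Fin 248, ¬ (1 ≤ (i : ℕ) ∧ (i : ℕ) ≤ 14) → F i = 0) :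
    ∑ i, F i = ∑ q : Fin 7, F (ix (q + 1)) + ∑ q : Fin 7, F (ix (q + 8)) := by
  have h1 : ∑ q : Fin 14, F (ix (q + 1)) = ∑ q : Fin 7, F (ix (q + 1)) + ∑ q : Fin 7, F (ix (q + 8)) := by
    rw [Fin.sum_univ_add (a := 7) (b := 7) (fun q : Fin (7 + 7) => F (ix (q + 1)))]
    congr 1
  rw [← h1]
  have hinj : Function.Injective (fun q : Fin 14 => ix (q + 1)) := by
    intro a b hab
    have := congrArg Fin.val hab
    simp only [ix, Fin.val_ofNat] at this
    apply Fin.ext
    omega
  refine Eq.trans ?_ (Finset.sum_map Finset.univ ⟨_, hinj⟩ F)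
  symm
  refine Finset.sum_subset (Finset.subset_univ _) fun i _ hi => h i fun hi' => hi ?_
  rw [Finset.mem_map]
  refine ⟨⟨(i : ℕ) - 1, by omega⟩, Finset.mem_univ _, ?_⟩
  apply Fin.ext
  simp only [Function.Embedding.coeFn_mk, ix, Fin.val_ofNat]
  have := i.2
  omega

theorem qf_eq_B0 {A : Type u} [CommRing A] (x y : E8 A) : U.qf xtab.q x y = B0 x y := by
  have hin : ∀ i : Fin 248, ∑ j, ((xtab.q i j : ℤ) : A) * (x i * y j) =
      (if 1 ≤ (i : ℕ) ∧ (i : ℕ) ≤ 7 then -(x i * y (ix (i + 7))) else 0) +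
      (if 8 ≤ (i : ℕ) ∧ (i : ℕ) ≤ 14 then -(x i * y (ix (i - 7))) else 0) := by
    intro i
    by_cases h1 : 1 ≤ (i : ℕ) ∧ (i : ℕ) ≤ 7
    · rw [if_pos h1, if_neg (by omega), add_zero, Finset.sum_eq_single (ix (i + 7))]
      · have : xtab.q i (ix (i + 7)) = -1 := by
          show (if _ then _ else _) = _
          rw [if_pos]
          left
          refine ⟨h1.1, h1.2, ?_⟩
          simp only [ix, Fin.val_ofNat]
          omega
        rw [this]
        push_cast
        ring
      · intro j _ hj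
        have : xtab.q i j = 0 := by
          show (if _ then _ else _) = _
          rw [if_neg]
          rintro (⟨_, _, h⟩ | ⟨_, _, h⟩)
          · apply hj
            apply Fin.ext
            simp only [ix, Fin.val_ofNat]
            omega
          · omega
        rw [this]
        push_cast
        ring
      · simp
    · rw [if_neg h1, zero_add]
      by_cases h2 : 8 ≤ (i : ℕ) ∧ (i : ℕ) ≤ 14
      · rw [if_pos h2, Finset.sum_eq_single (ix (i - 7))]
        · have : xtab.q i (ix (i - 7)) = -1 := by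
            show (if _ then _ else _) = _
            rw [if_pos]
            right
            simp only [ix, Fin.val_ofNat]
            omega
          rw [this]
          push_cast
          ring
        · intro j _ hj
          have : xtab.q i j = 0 := by
            show (if _ then _ else _) = _
            rw [if_neg]
            rintro (⟨_, _, h⟩ | ⟨_, _, h⟩)
            · omega
            · apply hj
              apply Fin.ext
              simp only [ix, Fin.val_ofNat]
              omega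
          rw [this]
          push_cast
          ring
        · simp
      · rw [if_neg h2]
        refine Finset.sum_eq_zero fun j _ => ?_
        have : xtab.q i j = 0 := by
          show (if _ then _ else _) = _
          rw [if_neg]
          rintro (⟨_, _, h⟩ | ⟨_, _, h⟩)
          · omega
          · omega
        rw [this]
        push_cast
        ring
  have e1 : U.qf xtab.q x y = ∑ i : Fin 248,
      ((if 1 ≤ (i : ℕ) ∧ (i : ℕ) ≤ 7 then -(x i * y (ix (i + 7))) else 0) +
      (if 8 ≤ (i : ℕ) ∧ (i : ℕ) ≤ 14 then -(x i * y (ix (i - 7))) else 0)) :=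
    Finset.sum_congr rfl fun i _ => hin i
  rw [e1, sum_fourteen _ (by
    intro i hi
    rw [if_neg (by omega), if_neg (by omega), add_zero]), B0, ← Finset.sum_add_distrib,
    ← Finset.sum_neg_distrib]
  refine Finset.sum_congr rfl fun q _ => ?_
  have v1 : ((ix (q + 1) : Fin 248) : ℕ) = q + 1 := by
    simp only [ix, Fin.val_ofNat]
    omega
  have v2 : ((ix (q + 8) : Fin 248) : ℕ) = q + 8 := by
    simp only [ix, Fin.val_ofNat]
    omega
  rw [v1, v2, if_pos (by omega), if_neg (by omega), if_neg (by omega), if_pos (by omega)]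
  have e2 : (q : ℕ) + 1 + 7 = q + 8 := by omega
  have e3 : (q : ℕ) + 8 - 7 = q + 1 := by omega
  rw [e2, e3]
  ring

end Pool.Agent.Licci

end

section

/-!
# Block (U6c): kernel checks for the Clifford relations of the table
-/

namespace Pool.Agent.Licci.T6c

open Pool.Agent.Licci

/-- the correction term of the Clifford relation -/
def co (i j k : ℕ) : List (ℕ × ℤ) := bif Nat.beq j (Nat.add i 7) then [(k, 1)] else []

/-- `[e_i,[e_j^♭, e_k]] + [e_j,[e_i^♭, e_k]] = q_ij e_k` -/
def ch1 (i j k : ℕ) : Bool := zr (lm i (sp (flN j) k) ++ (lm j (sp (flN i) k) ++ co i j k))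

/-- `[e_i^♭,[e_j, e_k]] + [e_j^♭,[e_i, e_k]] = q_ij e_k` -/
def ch2 (i j k : ℕ) : Bool := zr (lm (flN i) (sp j k) ++ (lm (flN j) (sp i k) ++ co i j k))

/-- all pairs `1 ≤ i ≤ j ≤ 14` -/
def prs (p : ℕ → ℕ → Bool) : Bool :=
  (List.range 15).all (fun j => (List.range (j + 1)).all (fun i => bif Nat.beq i 0 then true else p i j))

theorem prs_spec {p : ℕ → ℕ → Bool} (h : prs p = true) {i j : ℕ} (hi : 1 ≤ i) (hij : i ≤ j)
    (hj : j ≤ 14) : p i j = true := by
  have h1 := all_range (all_range h (i := j) (by omega)) (i := i) (by omega)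
  have h2 : Nat.beq i 0 = false := by
    rw [Bool.eq_false_iff]
    intro h
    rw [Nat.beq_eq] at h
    omega
  rw [h2] at h1
  exact h1

set_option maxRecDepth 100000

theorem chk1 : (List.range 248).all (fun k => bif isz (xdN k - 1) then
    prs (fun i j => ch1 i j k) else true) = true := by decide +kernel

theorem chk2 : (List.range 248).all (fun k => bif isz (xdN k + 1) then
    prs (fun i j => ch2 i j k) else true) = true := by decide +kernel

theorem chk3 : (List.range 248).all (fun k => bif isz (xdN k - 2) then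
    Nat.ble 1 k && Nat.ble k 14 else true) = true := by decide +kernel

theorem chk4 : (List.range 248).all (fun k => bif isz (xdN k - 1) then
    (List.range 15).all (fun i => bif Nat.beq i 0 then true else
      (sp (flN i) k).all (fun p => isz (xdN p.1 + 1))) else true) = true := by decide +kernel

theorem cl1 {i j k : ℕ} (hi : 1 ≤ i) (hij : i ≤ j) (hj : j ≤ 14) (hk : k < 248)
    (hd : xdN k = 1) : ch1 i j k = true := by
  have h1 := all_range chk1 hk
  have h2 : isz (xdN k - 1) = true := by rw [isz_iff]; omega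
  simp only [h2, cond_true] at h1
  exact prs_spec h1 hi hij hj

theorem cl2 {i j k : ℕ} (hi : 1 ≤ i) (hij : i ≤ j) (hj : j ≤ 14) (hk : k < 248)
    (hd : xdN k = -1) : ch2 i j k = true := by
  have h1 := all_range chk2 hk
  have h2 : isz (xdN k + 1) = true := by rw [isz_iff]; omega
  simp only [h2, cond_true] at h1
  exact prs_spec h1 hi hij hj

theorem deg_two {k : ℕ} (hk : k < 248) (hd : xdN k = 2) : 1 ≤ k ∧ k ≤ 14 := by
  have h1 := all_range chk3 hk
  have h2 : isz (xdN k - 2) = true := by rw [isz_iff]; omega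
  simp only [h2, cond_true, Bool.and_eq_true, Nat.ble_eq] at h1
  exact h1

theorem deg_neg_one {i k : ℕ} (hi : 1 ≤ i) (hi' : i ≤ 14) (hk : k < 248) (hd : xdN k = 1)
    {l : ℕ} (hl : scN (flN i) k l ≠ 0) : xdN l = -1 := by
  have h1 := all_range chk4 hk
  have h2 : isz (xdN k - 1) = true := by rw [isz_iff]; omega
  simp only [h2, cond_true] at h1
  have h3 := all_range h1 (i := i) (by omega)
  have h4 : Nat.beq i 0 = false := by
    rw [Bool.eq_false_iff]
    intro h
    rw [Nat.beq_eq] at h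
    omega
  rw [h4, cond_false, List.all_eq_true] at h3
  by_contra hc
  apply hl
  apply cf_eq_zero_of_notMem
  intro p hp hpl
  have h5 := h3 p hp
  rw [isz_iff, hpl] at h5
  omega

end Pool.Agent.Licci.T6c

end

section

/-!
# Block (U6c): the Clifford relations of the table
-/

namespace Pool.Agent.Licci

open U

universe u

namespace T6c

theorem cf_map_mul (c : ℤ) (L : List (ℕ × ℤ)) (m : ℕ) :
    cf (L.map (fun q => (q.1, c * q.2))) m = c * cf L m := by
  induction L with
  | nil => simp [cf_nil]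
  | cons p L ih =>
    rw [List.map_cons, cf_cons, cf_cons, ih]
    split_ifs <;> ring

theorem cf_lm (g : ℕ) (L : List (ℕ × ℤ)) (hL : ∀ p ∈ L, p.1 < 248) (m : ℕ) :
    cf (lm g L) m = ∑ l : Fin 248, cf L l * scN g l m := by
  induction L with
  | nil => simp [lm, cf_nil]
  | cons p L ih =>
    have h1 : lm g (p :: L) = (sp g p.1).map (fun q => (q.1, p.2 * q.2)) ++ lm g L := rfl
    rw [h1, cf_append, cf_map_mul, ih (fun q hq => hL q (List.mem_cons_of_mem _ hq))]
    have hp := hL p List.mem_cons_self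
    have h2 : ∀ l : Fin 248, cf (p :: L) l * scN g l m =
        (if (⟨p.1, hp⟩ : Fin 248) = l then p.2 * scN g l m else 0) + cf L l * scN g l m := by
      intro l
      rw [cf_cons, add_mul]
      congr 1
      by_cases h : p.1 = (l : ℕ)
      · rw [if_pos h, if_pos (Fin.ext h)]
      · rw [if_neg h, if_neg (fun h' => h (congrArg Fin.val h')), zero_mul]
    rw [Finset.sum_congr rfl fun l _ => h2 l, Finset.sum_add_distrib, Finset.sum_ite_eq,
      if_pos (Finset.mem_univ _)]
    rfl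

theorem cf_lm_sp (A : Type u) [CommRing A] (g : ℕ) {i j : ℕ} (hi : i < 248) (hj : j < 248)
    (m : ℕ) : ((cf (lm g (sp i j)) m : ℤ) : A) =
      ∑ l : Fin 248, (scN g l m : A) * (scN i j l : A) := by
  rw [cf_lm g _ (fun p hp => sp_rng hi hj hp)]
  push_cast
  refine Finset.sum_congr rfl fun l _ => ?_
  rw [mul_comm]
  rfl

/-- `bil` on a basis vector -/
theorem bil_single (c : Fin 248 → Fin 248 → Fin 248 → ℤ) (A : Type u) [CommRing A] (i : Fin 248)
    (y : Fin 248 → A) (m : Fin 248) :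
    bil c A (Pi.single i 1) y m = ∑ l, (c i l m : A) * y l := by
  rw [bil_apply, Finset.sum_eq_single i]
  · simp
  · intro b _ hb
    simp [hb]
  · simp

theorem bil_single_single (c : Fin 248 → Fin 248 → Fin 248 → ℤ) (A : Type u) [CommRing A]
    (i j : Fin 248) (m : Fin 248) :
    bil c A (Pi.single i 1) (Pi.single j 1) m = (c i j m : A) := by
  rw [bil_single, Finset.sum_eq_single j]
  · simp
  · intro b _ hb
    simp [hb]
  · simp

theorem qf_single (q : Fin 248 → Fin 248 → ℤ) (A : Type u) [CommRing A] (i j : Fin 248) :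
    qf q (Pi.single i 1 : Fin 248 → A) (Pi.single j 1) = (q i j : A) := by
  unfold qf
  rw [Finset.sum_eq_single i, Finset.sum_eq_single j]
  · simp
  · intro b _ hb
    simp [hb]
  · simp
  · intro b _ hb
    simp [hb]
  · simp

/-- the form as a bilinear map -/
def qL (q : Fin 248 → Fin 248 → ℤ) (A : Type u) [CommRing A] :
    (Fin 248 → A) →ₗ[A] (Fin 248 → A) →ₗ[A] A :=
  LinearMap.mk₂ A (fun x y => qf q x y)
    (by intro x x' y; simp only [qf, Pi.add_apply, ← Finset.sum_add_distrib]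
        refine Finset.sum_congr rfl fun i _ => Finset.sum_congr rfl fun j _ => ?_; ring)
    (by intro a x y; simp only [qf, Pi.smul_apply, smul_eq_mul, Finset.mul_sum]
        refine Finset.sum_congr rfl fun i _ => Finset.sum_congr rfl fun j _ => ?_; ring)
    (by intro x y y'; simp only [qf, Pi.add_apply, ← Finset.sum_add_distrib]
        refine Finset.sum_congr rfl fun i _ => Finset.sum_congr rfl fun j _ => ?_; ring)
    (by intro a x y; simp only [qf, Pi.smul_apply, smul_eq_mul, Finset.mul_sum]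
        refine Finset.sum_congr rfl fun i _ => Finset.sum_congr rfl fun j _ => ?_; ring)

theorem qL_apply (q : Fin 248 → Fin 248 → ℤ) (A : Type u) [CommRing A] (x y : Fin 248 → A) :
    qL q A x y = qf q x y := rfl

/-- a linear map which kills the basis vectors of degree `k` kills degree `k` -/
theorem lin_zero {deg : Fin 248 → ℤ} {k : ℤ} {A : Type u} [CommRing A] {M : Type*}
    [AddCommGroup M] [Module A M] (f : (Fin 248 → A) →ₗ[A] M)
    (h : ∀ b, deg b = k → f (Pi.single b 1) = 0) {x : Fin 248 → A} (hx : Sup deg k x) :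
    f x = 0 := by
  have hdec : x = ∑ b : Fin 248, x b • (Pi.single b 1 : Fin 248 → A) := by
    funext b'
    simp [Finset.sum_apply, Pi.single_apply]
  rw [hdec, map_sum]
  refine Finset.sum_eq_zero fun b _ => ?_
  rw [map_smul]
  by_cases hb : deg b = k
  · rw [h b hb, smul_zero]
  · rw [hx b hb, zero_smul]

theorem tri_zero {deg : Fin 248 → ℤ} {k1 k2 k3 : ℤ} {A : Type u} [CommRing A] {M : Type*}
    [AddCommGroup M] [Module A M]
    (f : (Fin 248 → A) →ₗ[A] (Fin 248 → A) →ₗ[A] (Fin 248 → A) →ₗ[A] M)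
    (h : ∀ a b c, deg a = k1 → deg b = k2 → deg c = k3 →
      f (Pi.single a 1) (Pi.single b 1) (Pi.single c 1) = 0)
    {x y z : Fin 248 → A} (hx : Sup deg k1 x) (hy : Sup deg k2 y) (hz : Sup deg k3 z) :
    f x y z = 0 := by
  have h1 : ∀ a b, deg a = k1 → deg b = k2 → f (Pi.single a 1) (Pi.single b 1) z = 0 :=
    fun a b ha hb => lin_zero (f (Pi.single a 1) (Pi.single b 1)) (fun c hc => h a b c ha hb hc) hz
  have h2 : ∀ a, deg a = k1 → f (Pi.single a 1) y z = 0 := fun a ha =>
    lin_zero ((LinearMap.applyₗ z) ∘ₗ f (Pi.single a 1)) (fun b hb => h1 a b ha hb) hy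
  exact lin_zero ((LinearMap.applyₗ z) ∘ₗ (LinearMap.applyₗ y) ∘ₗ f) (fun a ha => h2 a ha) hx

/-- composition of two bilinear maps, symmetrised, minus the form -/
noncomputable def F (c c' : Fin 248 → Fin 248 → Fin 248 → ℤ) (q : Fin 248 → Fin 248 → ℤ)
    (A : Type u) [CommRing A] :
    (Fin 248 → A) →ₗ[A] (Fin 248 → A) →ₗ[A] (Fin 248 → A) →ₗ[A] (Fin 248 → A) :=
  LinearMap.mk₂ A (fun x y => bil c A x ∘ₗ bil c' A y + bil c A y ∘ₗ bil c' A x -
      (2 * qL q A x y) • LinearMap.id)
    (by intro x x' y; refine LinearMap.ext fun z => ?_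
        simp only [map_add, LinearMap.add_apply, LinearMap.sub_apply,
          LinearMap.comp_apply, LinearMap.smul_apply, LinearMap.id_apply, mul_add, add_smul]; abel)
    (by intro a x y; refine LinearMap.ext fun z => ?_
        simp only [map_smul, LinearMap.smul_apply, LinearMap.sub_apply, LinearMap.add_apply,
          LinearMap.comp_apply, LinearMap.id_apply, smul_eq_mul, smul_sub, smul_add, smul_smul]
        congr 2
        ring)
    (by intro x y y'; refine LinearMap.ext fun z => ?_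
        simp only [map_add, LinearMap.add_apply, LinearMap.sub_apply,
          LinearMap.comp_apply, LinearMap.smul_apply, LinearMap.id_apply, mul_add, add_smul]; abel)
    (by intro a x y; refine LinearMap.ext fun z => ?_
        simp only [map_smul, LinearMap.smul_apply, LinearMap.sub_apply, LinearMap.add_apply,
          LinearMap.comp_apply, LinearMap.id_apply, smul_eq_mul, smul_sub, smul_add, smul_smul]
        congr 2
        ring)

theorem F_apply (c c' : Fin 248 → Fin 248 → Fin 248 → ℤ) (q : Fin 248 → Fin 248 → ℤ)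
    (A : Type u) [CommRing A] (x y z : Fin 248 → A) :
    F c c' q A x y z = bil c A x (bil c' A y z) + bil c A y (bil c' A x z) -
      (2 * qf q x y) • z := by
  rw [F, LinearMap.mk₂_apply, LinearMap.sub_apply, LinearMap.add_apply, LinearMap.comp_apply,
    LinearMap.comp_apply, LinearMap.smul_apply, LinearMap.id_apply, qL_apply]

theorem F_swap (c c' : Fin 248 → Fin 248 → Fin 248 → ℤ) (q : Fin 248 → Fin 248 → ℤ)
    (hq : ∀ i j, q i j = q j i) (A : Type u) [CommRing A] (i j : Fin 248) (z : Fin 248 → A) :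
    F c c' q A (Pi.single i 1) (Pi.single j 1) z = F c c' q A (Pi.single j 1) (Pi.single i 1) z := by
  rw [F_apply, F_apply, qf_single, qf_single, hq i j, add_comm (bil c A (Pi.single i 1) _)]

theorem F_single (c c' : Fin 248 → Fin 248 → Fin 248 → ℤ) (q : Fin 248 → Fin 248 → ℤ)
    (A : Type u) [CommRing A] (i j k m : Fin 248) :
    F c c' q A (Pi.single i 1) (Pi.single j 1) (Pi.single k 1) m =
      ∑ l, (c i l m : A) * (c' j k l : A) + ∑ l, (c j l m : A) * (c' i k l : A) -
        2 * (q i j : A) * (if m = k then 1 else 0) := by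
  rw [F_apply, Pi.sub_apply, Pi.add_apply, bil_single, bil_single, qf_single, Pi.smul_apply,
    smul_eq_mul, Pi.single_apply]
  simp only [bil_single_single]

theorem cf_co (i j k m : ℕ) : cf (co i j k) m = if j = i + 7 ∧ m = k then 1 else 0 := by
  unfold co
  by_cases h : j = i + 7
  · have h1 : Nat.beq j (Nat.add i 7) = true := by
      rw [Nat.beq_eq]
      exact h
    rw [h1, cond_true, cf_cons, cf_nil, add_zero]
    by_cases h2 : k = m
    · subst h2
      simp [h]
    · rw [if_neg h2, if_neg (fun h3 => h2 h3.2.symm)]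
  · have h1 : Nat.beq j (Nat.add i 7) = false := by
      rw [Bool.eq_false_iff]
      intro h2
      rw [Nat.beq_eq] at h2
      exact h h2
    rw [h1, cond_false, cf_nil, if_neg (fun h3 => h h3.1)]

theorem flN_lt {i : ℕ} (h : i ≤ 14) : flN i < 248 := by
  unfold flN
  split_ifs <;> omega

theorem q_symm (i j : Fin 248) : xtab.q i j = xtab.q j i := by
  simp only [xtab]
  congr 1
  rw [or_comm]

theorem q_val {i j : Fin 248} (hi : 1 ≤ (i : ℕ)) (hij : i ≤ j) (hj : (j : ℕ) ≤ 14) :
    xtab.q i j = if (j : ℕ) = i + 7 then -1 else 0 := by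
  have hij' : (i : ℕ) ≤ j := hij
  simp only [xtab]
  by_cases h : (j : ℕ) = i + 7
  · rw [if_pos h, if_pos]
    left
    omega
  · rw [if_neg h, if_neg]
    rintro (h1 | h1) <;> omega

theorem cl_val {i : Fin 248} (hi : 1 ≤ (i : ℕ)) (hi' : (i : ℕ) ≤ 14) (j k : Fin 248) :
    xtab.cl i j k = 2 * scN (flN i) j k := by
  simp only [xtab]
  rw [if_pos ⟨hi, hi'⟩]

theorem F1_basis (A : Type u) [CommRing A] {i j k : Fin 248} (hi : xtab.deg i = 2)
    (hj : xtab.deg j = 2) (hk : xtab.deg k = 1) (hij : i ≤ j) :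
    F xtab.c xtab.cl xtab.q A (Pi.single i 1) (Pi.single j 1) (Pi.single k 1) = 0 := by
  obtain ⟨i1, i2⟩ := deg_two i.2 hi
  obtain ⟨j1, j2⟩ := deg_two j.2 hj
  funext m
  rw [F_single, q_val i1 hij j2, Pi.zero_apply]
  have h1 := zr_spec (cl1 i1 hij j2 k.2 hk) m
  rw [cf_append, cf_append, cf_co] at h1
  have h2 := congrArg (Int.cast (R := A)) h1
  rw [Int.cast_add, Int.cast_add, cf_lm_sp A _ (flN_lt j2) k.2, cf_lm_sp A _ (flN_lt i2) k.2,
    Int.cast_zero] at h2
  have h3 : ∑ l, (xtab.c i l m : A) * (xtab.cl j k l : A) =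
      2 * ∑ l : Fin 248, (scN i l m : A) * (scN (flN j) k l : A) := by
    rw [Finset.mul_sum]
    refine Finset.sum_congr rfl fun l _ => ?_
    rw [cl_val j1 j2]
    push_cast
    change (scN i l m : A) * _ = _
    ring
  have h4 : ∑ l, (xtab.c j l m : A) * (xtab.cl i k l : A) =
      2 * ∑ l : Fin 248, (scN j l m : A) * (scN (flN i) k l : A) := by
    rw [Finset.mul_sum]
    refine Finset.sum_congr rfl fun l _ => ?_
    rw [cl_val i1 i2]
    push_cast
    change (scN j l m : A) * _ = _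
    ring
  rw [h3, h4]
  by_cases h5 : (j : ℕ) = i + 7
  · by_cases h6 : m = k
    · rw [if_pos ⟨h5, congrArg Fin.val h6⟩] at h2
      rw [if_pos h5, if_pos h6]
      push_cast at h2 ⊢
      linear_combination 2 * h2
    · rw [if_neg (fun h7 => h6 (Fin.ext h7.2))] at h2
      rw [if_neg h6]
      push_cast at h2 ⊢
      linear_combination 2 * h2
  · rw [if_neg (fun h7 => h5 h7.1)] at h2
    rw [if_neg h5]
    push_cast at h2 ⊢
    linear_combination 2 * h2

theorem F2_basis (A : Type u) [CommRing A] {i j k : Fin 248} (hi : xtab.deg i = 2)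
    (hj : xtab.deg j = 2) (hk : xtab.deg k = -1) (hij : i ≤ j) :
    F xtab.cl xtab.c xtab.q A (Pi.single i 1) (Pi.single j 1) (Pi.single k 1) = 0 := by
  obtain ⟨i1, i2⟩ := deg_two i.2 hi
  obtain ⟨j1, j2⟩ := deg_two j.2 hj
  funext m
  rw [F_single, q_val i1 hij j2, Pi.zero_apply]
  have h1 := zr_spec (cl2 i1 hij j2 k.2 hk) m
  rw [cf_append, cf_append, cf_co] at h1
  have h2 := congrArg (Int.cast (R := A)) h1
  rw [Int.cast_add, Int.cast_add, cf_lm_sp A _ j.2 k.2, cf_lm_sp A _ i.2 k.2,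
    Int.cast_zero] at h2
  have h3 : ∑ l, (xtab.cl i l m : A) * (xtab.c j k l : A) =
      2 * ∑ l : Fin 248, (scN (flN i) l m : A) * (scN j k l : A) := by
    rw [Finset.mul_sum]
    refine Finset.sum_congr rfl fun l _ => ?_
    rw [cl_val i1 i2]
    push_cast
    change _ * (scN j k l : A) = _
    ring
  have h4 : ∑ l, (xtab.cl j l m : A) * (xtab.c i k l : A) =
      2 * ∑ l : Fin 248, (scN (flN j) l m : A) * (scN i k l : A) := by
    rw [Finset.mul_sum]
    refine Finset.sum_congr rfl fun l _ => ?_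
    rw [cl_val j1 j2]
    push_cast
    change _ * (scN i k l : A) = _
    ring
  rw [h3, h4]
  by_cases h5 : (j : ℕ) = i + 7
  · by_cases h6 : m = k
    · rw [if_pos ⟨h5, congrArg Fin.val h6⟩] at h2
      rw [if_pos h5, if_pos h6]
      push_cast at h2 ⊢
      linear_combination 2 * h2
    · rw [if_neg (fun h7 => h6 (Fin.ext h7.2))] at h2
      rw [if_neg h6]
      push_cast at h2 ⊢
      linear_combination 2 * h2
  · rw [if_neg (fun h7 => h5 h7.1)] at h2
    rw [if_neg h5]
    push_cast at h2 ⊢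
    linear_combination 2 * h2

end T6c

open T6c

theorem xtab_cl_sup (A : Type u) [CommRing A] (e v : Fin 248 → A) (he : Sup xtab.deg 2 e)
    (hv : Sup xtab.deg 1 v) : Sup xtab.deg (-1) (bil xtab.cl A e v) := by
  intro m hm
  rw [bil_apply]
  refine Finset.sum_eq_zero fun i _ => Finset.sum_eq_zero fun j _ => ?_
  by_cases hi : xtab.deg i = 2
  · by_cases hj : xtab.deg j = 1
    · obtain ⟨i1, i2⟩ := deg_two i.2 hi
      rw [cl_val i1 i2]
      by_cases h : scN (flN i) j m = 0
      · rw [h]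
        simp
      · exact absurd (deg_neg_one i1 i2 j.2 hj h) hm
    · rw [hv j hj, mul_zero, mul_zero]
  · rw [he i hi, zero_mul, mul_zero]

theorem xtab_cliff1 (A : Type u) [CommRing A] (e e' v : Fin 248 → A) (he : Sup xtab.deg 2 e)
    (he' : Sup xtab.deg 2 e') (hv : Sup xtab.deg 1 v) :
    xtab.br A e (bil xtab.cl A e' v) + xtab.br A e' (bil xtab.cl A e v) =
      (2 * qf xtab.q e e') • v := by
  have h := tri_zero (F xtab.c xtab.cl xtab.q A) (fun i j k hi hj hk => by
    rcases le_total i j with hij | hij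
    · exact F1_basis A hi hj hk hij
    · rw [F_swap _ _ _ q_symm]
      exact F1_basis A hj hi hk hij) he he' hv
  rw [F_apply, sub_eq_zero] at h
  exact h

theorem xtab_cliff2 (A : Type u) [CommRing A] (e e' v : Fin 248 → A) (he : Sup xtab.deg 2 e)
    (he' : Sup xtab.deg 2 e') (hv : Sup xtab.deg (-1) v) :
    bil xtab.cl A e (xtab.br A e' v) + bil xtab.cl A e' (xtab.br A e v) =
      (2 * qf xtab.q e e') • v := by
  have h := tri_zero (F xtab.cl xtab.c xtab.q A) (fun i j k hi hj hk => by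
    rcases le_total i j with hij | hij
    · exact F2_basis A hi hj hk hij
    · rw [F_swap _ _ _ q_symm]
      exact F2_basis A hj hi hk hij) he he' hv
  rw [F_apply, sub_eq_zero] at h
  exact h

end Pool.Agent.Licci

end
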