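import Pool.Agent.Work.MP_a98e4e_ag.Fu.L.Grad
import Pool.Agent.Work.MP_a98e4e_ag.Fu.L.Jac
import Pool.Agent.Work.MP_a98e4e_ag.Fu.L.Form
import Pool.Agent.Work.MP_a98e4e_ag.Fu.L.FormB
import Pool.Agent.Work.MP_a98e4e_ag.Fu.U.Base
import Pool.Agent.Work.MP_a98e4e_ag.Fu.L.FormA4
import Pool.Agent.Work.MP_a98e4e_ag.Fu.L.XT
import Pool.Agent.Work.MP_a98e4e_ag.Fu.L.FormA2
import Pool.Agent.Work.MP_a98e4e_ag.Fu.L.LemX
import Pool.Agent.Work.MP_a98e4e_ag.Fu.E.KChk1
import Pool.Agent.Work.MP_a98e4e_ag.Fu.Acyclic5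
import Pool.Agent.Work.MP_a98e4e_ag.Fu.L.ChkDef
import Pool.Agent.Work.MP_a98e4e_ag.Fu.DLink

section

/-!
# LICCI, codimension 4, module L3: unipotent automorphisms with trivial part of degree `-1`
-/

namespace Pool.Agent.Licci

open scoped BigOperators
open U (Sup)

set_option linter.unusedSectionVars false

variable {A : Type*} [CommRing A] [Algebra ℚ A]

namespace RG

theorem Hz_sup : Sup zdg 0 (Hz : E8 A) := by
  intro m hm
  unfold Hz
  split_ifs with h
  · exact absurd (zdN_cartan h m.2) hm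
  · rfl

theorem Sup.le {k : ℤ} {Y : E8 A} (h : Sup zdg k Y) : Le zdg k Y := fun m hm => h m (by omega)

theorem Le.mono {k l : ℤ} {Y : E8 A} (h : Le zdg k Y) (hkl : k ≤ l) : Le zdg l Y :=
  fun m hm => h m (by omega)

theorem Le.neg {k : ℤ} {Y : E8 A} (h : Le zdg k Y) : Le zdg k (-Y) := fun m hm => by
  rw [Pi.neg_apply, h m hm, neg_zero]

theorem Le.sub {k : ℤ} {Y Z : E8 A} (h : Le zdg k Y) (h' : Le zdg k Z) : Le zdg k (Y - Z) :=
  fun m hm => by rw [Pi.sub_apply, h m hm, h' m hm, sub_zero]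

theorem eb_le (m : Fin 248) : Le zdg (zdg m) (eb m : E8 A) := by
  intro k hk
  rw [eb_apply, if_neg]
  rintro rfl
  exact lt_irrefl _ hk

theorem pow_le {x Y : E8 A} (hx : Le zdg (-1) x) {k : ℤ} (hY : Le zdg k Y) (n : ℕ) :
    Le zdg (k - n) (((brL x) ^ n) Y) := by
  induction n with
  | zero => simpa using hY
  | succ n ih =>
    rw [pow_succ', Module.End.mul_apply, brL_apply]
    have := Licci.Le.br (d := zdg) (fun _ _ _ h => sc_zdg h) hx ih
    refine Le.mono this ?_
    push_cast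
    omega

theorem ex_eq_two {x Y : E8 A} (m : Fin 248) (h : ∀ n, 2 ≤ n → n < 7 → ((brL x) ^ n) Y m = 0) :
    ex x Y m = Y m + br x Y m := by
  rw [ex_apply, Finset.sum_apply]
  have h7 : Finset.range 7 = insert 0 (insert 1 (Finset.Ico 2 7)) := by decide
  rw [h7, Finset.sum_insert (by decide), Finset.sum_insert (by decide), Finset.sum_eq_zero]
  · simp
  · intro n hn
    rw [Finset.mem_Ico] at hn
    rw [Pi.smul_apply, h n hn.1 hn.2, smul_zero]

theorem ex_top2 {x Y : E8 A} (hx : Le zdg (-1) x) {k : ℤ} (hY : Le zdg k Y) (m : Fin 248)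
    (hm : k - 1 ≤ zdg m) : ex x Y m = Y m + br x Y m :=
  ex_eq_two m fun n hn _ => pow_le hx hY n m (by omega)

theorem ex_top {x Y : E8 A} (hx : Le zdg (-1) x) {k : ℤ} (hY : Le zdg k Y) (m : Fin 248)
    (hm : k ≤ zdg m) : ex x Y m = Y m := by
  rw [ex_top2 hx hY m (by omega), Licci.Le.br (d := zdg) (fun _ _ _ h => sc_zdg h) hx hY m (by omega), add_zero]

theorem ex_le {x Y : E8 A} (hx : Le zdg (-1) x) {k : ℤ} (hY : Le zdg k Y) : Le zdg k (ex x Y) :=
  fun m hm => by rw [ex_top hx hY m hm.le, hY m hm]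

theorem rat_cancel {n : ℤ} (hn : n ≠ 0) {y : A} (h : (n : A) * y = 0) : y = 0 := by
  have h1 : algebraMap ℚ A (n : ℚ)⁻¹ * ((n : A) * y) = y := by
    rw [← map_intCast (algebraMap ℚ A) n, ← mul_assoc, ← map_mul,
      inv_mul_cancel₀ (Int.cast_ne_zero.2 hn), map_one, one_mul]
  rw [← h1, h, mul_zero]

theorem br_Hz_right (Y : E8 A) (m : Fin 248) : br Y Hz m = -((zdg m : A) * Y m) := by
  rw [br_skew, Pi.neg_apply, br_Hz]

end RG

open RG

/-- an automorphism which fixes `Hz` and is the identity modulo lower degrees is the identity -/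
theorem aut_eq_one {w : E8 A →ₗ[A] E8 A} (hw : IsAut w) (hH : w Hz = Hz)
    (hlow : ∀ (m : Fin 248) (k : Fin 248), zdg m ≤ zdg k → w (eb m) k = if k = m then 1 else 0) :
    w = LinearMap.id := by
  refine E8.hom_ext fun m => ?_
  funext k
  rw [LinearMap.id_apply, eb_apply]
  by_cases h : zdg m ≤ zdg k
  · exact hlow m k h
  · have hkm : k ≠ m := by
      rintro rfl
      exact h le_rfl
    rw [if_neg hkm]
    have h1 : br Hz (eb m : E8 A) = (zdg m : A) • eb m := by
      funext j
      rw [br_Hz, Pi.smul_apply, smul_eq_mul, eb_apply]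
      split_ifs with hj
      · rw [hj]
      · rw [mul_zero, mul_zero]
    have h2 := congrFun (hw.map_br Hz (eb m)) k
    rw [h1, map_smul, hH, br_Hz, Pi.smul_apply, smul_eq_mul] at h2
    refine rat_cancel (n := zdg m - zdg k) (by omega) ?_
    rw [Int.cast_sub, sub_mul, h2, sub_self]

/-- brackets of elements of degrees `≤ -2` vanish -/
theorem br_low {L L' : E8 A} (h : Le zdg (-2) L) (h' : Le zdg (-2) L') : br L L' = 0 := by
  funext m
  have hz := zdg_ge m
  exact Licci.Le.br (d := zdg) (fun _ _ _ h => sc_zdg h) h h' m (by omega)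

/-- `exp` is injective and additive on degrees `≤ -2` -/
theorem ex_low_add {L L' : E8 A} (h : Le zdg (-2) L) (h' : Le zdg (-2) L') (Y : E8 A) :
    ex (L + L') Y = ex L (ex L' Y) := by
  refine ex_add (ad_nil_neg (Le.mono h (by omega))) (ad_nil_neg (Le.mono h' (by omega)))
    (ad_nil_neg ?_) (br_low h h') Y
  intro m hm
  rw [Pi.add_apply, h m (by omega), h' m (by omega), add_zero]

theorem ex_low_Hz {L : E8 A} (h : Le zdg (-2) L) (m : Fin 248) :
    ex L Hz m = Hz m + br L Hz m := by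
  refine ex_eq_two m fun n hn _ => ?_
  obtain ⟨n, rfl⟩ := Nat.exists_eq_add_of_le hn
  have h2 : br L (br L Hz) = 0 := br_low h (Le.mono
    (Licci.Le.br (d := zdg) (fun _ _ _ h => sc_zdg h) h (Sup.le Hz_sup)) (by omega))
  rw [add_comm, pow_add, Module.End.mul_apply, pow_two, Module.End.mul_apply, brL_apply, brL_apply,
    h2, map_zero]
  rfl

theorem ex_low_inj {L L' : E8 A} (h : Le zdg (-2) L) (h' : Le zdg (-2) L')
    (he : ex L Hz = ex L' Hz) : L = L' := by
  funext m
  by_cases hm : -2 < zdg m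
  · rw [h m hm, h' m hm]
  · have h1 := congrFun he m
    rw [ex_low_Hz h, ex_low_Hz h', br_Hz_right, br_Hz_right, add_right_inj, neg_inj] at h1
    rw [← sub_eq_zero]
    refine rat_cancel (n := zdg m) (by omega) ?_
    rw [mul_sub, h1, sub_self]

/-- for `a, b` of degree `-1` (coefficients in a subalgebra `S`) there is `L` of degrees `≤ -2` with
`exp (-b) exp (b - a) exp a = exp L` -/
theorem exists_bch {R : Type*} [CommRing R] [Algebra ℚ R] [Algebra R A] (S : Subalgebra R A)
    {a b : E8 A} (ha : Sup zdg (-1) a) (hb : Sup zdg (-1) b) (haS : ∀ m, a m ∈ S)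
    (hbS : ∀ m, b m ∈ S) : ∃ L : E8 A, Le zdg (-2) L ∧ (∀ m, L m ∈ S) ∧
      ∀ Y, ex (-b) (ex (b - a) (ex a Y)) = ex L Y := by
  have hq : ∀ r : ℚ, algebraMap ℚ A r ∈ S := fun r => by
    rw [← (algebraMap R A).map_rat_algebraMap]
    exact S.algebraMap_mem _
  have hHS : ∀ m, (Hz : E8 A) m ∈ S := fun m => by
    unfold Hz
    split_ifs
    · exact intCast_mem S _
    · exact S.zero_mem
  have ha' : Le zdg (-1) a := Sup.le ha
  have hb' : Le zdg (-1) b := Sup.le hb
  have hba : Le zdg (-1) (b - a) := Le.sub hb' ha'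
  have hnb : Le zdg (-1) (-b) := Le.neg hb'
  have hH0 : Le zdg 0 (Hz : E8 A) := Sup.le Hz_sup
  -- the composite
  set w : E8 A →ₗ[A] E8 A := ex (-b) ∘ₗ ex (b - a) ∘ₗ ex a with hw
  have hwa : ∀ Y, w Y = ex (-b) (ex (b - a) (ex a Y)) := fun Y => rfl
  have hwaut : IsAut w := by
    have h1 := ex_isAut (ad_nil_neg hnb)
    have h2 := ex_isAut (ad_nil_neg hba)
    have h3 := ex_isAut (ad_nil_neg ha')
    refine ⟨h1.bij.comp (h2.bij.comp h3.bij), fun x y => ?_⟩
    rw [hwa, hwa, hwa, h3.map_br, h2.map_br, h1.map_br]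
  -- first order part on `Hz`
  have hfirst : ∀ (x Y : E8 A), Le zdg (-1) x → Le zdg 0 Y → (∀ m, zdg m = 0 → Y m = Hz m) →
      ∀ m, -1 ≤ zdg m → ex x Y m = Y m + br x Hz m := by
    intro x Y hx hY hYH m hm
    rw [ex_top2 hx hY m (by omega)]
    congr 1
    by_cases h0 : zdg m = -1
    · exact br_top (fun _ _ _ h => sc_zdg h) hx hY hx hH0 (fun _ _ => rfl) hYH m (by omega)
    · rw [Licci.Le.br (d := zdg) (fun _ _ _ h => sc_zdg h) hx hY m (by omega),
        Licci.Le.br (d := zdg) (fun _ _ _ h => sc_zdg h) hx hH0 m (by omega)]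
  set Y1 := ex a (Hz : E8 A) with hY1
  set Y2 := ex (b - a) Y1 with hY2
  have hY1le : Le zdg 0 Y1 := ex_le ha' hH0
  have hY2le : Le zdg 0 Y2 := ex_le hba hY1le
  have hY1H : ∀ m, zdg m = 0 → Y1 m = Hz m := fun m hm => ex_top ha' hH0 m (by omega)
  have hY2H : ∀ m, zdg m = 0 → Y2 m = Hz m := fun m hm => by
    rw [hY2, ex_top hba hY1le m (by omega), hY1H m hm]
  have hN : Le zdg (-2) (w Hz - Hz) := by
    intro m hm
    have e1 := hfirst a Hz ha' hH0 (fun _ _ => rfl) m (by omega)
    have e2 := hfirst (b - a) Y1 hba hY1le hY1H m (by omega)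
    have e3 := hfirst (-b) Y2 hnb hY2le hY2H m (by omega)
    rw [Pi.sub_apply, hwa, e3, hY2, e2, hY1, e1, br_sub_left, br_neg_left, Pi.sub_apply,
      Pi.neg_apply]
    ring
  have hNS : ∀ m, (w Hz - Hz : E8 A) m ∈ S := fun m => by
    rw [Pi.sub_apply]
    refine S.sub_mem ?_ (hHS m)
    refine ex_mem S (fun k => ?_) (fun k => ex_mem S (fun l => ?_) (fun l => ex_mem S haS hHS l) k) m
    · rw [Pi.neg_apply]
      exact S.neg_mem (hbS k)
    · rw [Pi.sub_apply]
      exact S.sub_mem (hbS l) (haS l)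
  -- the element `L`
  set L : E8 A := fun m => algebraMap ℚ A (-(zdg m : ℚ)⁻¹) * (w Hz - Hz : E8 A) m with hL
  have hLle : Le zdg (-2) L := fun m hm => by
    rw [hL]
    simp only
    rw [hN m hm, mul_zero]
  have hLS : ∀ m, L m ∈ S := fun m => S.mul_mem (hq _) (hNS m)
  have hLH : ex L Hz = w Hz := by
    funext m
    rw [ex_low_Hz hLle, br_Hz_right]
    by_cases hm : -2 < zdg m
    · rw [hLle m hm, mul_zero, neg_zero, add_zero]
      have := hN m hm
      rw [Pi.sub_apply, sub_eq_zero] at this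
      exact this.symm
    · have hz : (zdg m : ℚ) ≠ 0 := Int.cast_ne_zero.2 (by omega)
      have h1 : (zdg m : A) * L m = -((w Hz - Hz : E8 A) m) := by
        rw [hL]
        simp only
        rw [← map_intCast (algebraMap ℚ A) (zdg m), ← mul_assoc, ← map_mul, mul_neg,
          mul_inv_cancel₀ hz, map_neg, map_one, neg_one_mul]
      rw [h1, neg_neg, Pi.sub_apply, add_sub_cancel]
  have hL1 : Le zdg (-1) L := Le.mono hLle (by omega)
  have hnL1 : Le zdg (-1) (-L) := Le.neg hL1
  have hLn := ad_nil_neg hL1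
  refine ⟨L, hLle, hLS, fun Y => ?_⟩
  have hid : ex (-L) ∘ₗ w = LinearMap.id := by
    refine aut_eq_one ?_ ?_ ?_
    · have h1 := ex_isAut (ad_nil_neg hnL1)
      refine ⟨h1.bij.comp hwaut.bij, fun x y => ?_⟩
      show ex (-L) (w (br x y)) = br (ex (-L) (w x)) (ex (-L) (w y))
      rw [hwaut.map_br, h1.map_br]
    · rw [LinearMap.comp_apply, ← hLH, ex_neg_ex hLn]
    · intro m k hmk
      have e0 := eb_le (A := A) m
      have e1 := ex_le ha' e0
      have e2 := ex_le hba e1
      have e3 := ex_le hnb e2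
      rw [LinearMap.comp_apply, hwa, ex_top hnL1 e3 k hmk, ex_top hnb e2 k hmk,
        ex_top hba e1 k hmk, ex_top ha' e0 k hmk, eb_apply]
  have h1 := LinearMap.congr_fun hid Y
  rw [LinearMap.comp_apply, LinearMap.id_apply] at h1
  rw [← hwa]
  conv_rhs => rw [← h1]
  rw [ex_ex_neg hLn]

end Pool.Agent.Licci

end

section

/-!
# LICCI, codimension 4, module L10: gluing along the `z`-filtration
-/

namespace Pool.Agent.Licci

open scoped BigOperators
open U (Sup)
open Module RingTheory.Sequence IsLocalRing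

namespace Glue

section aux

variable {A : Type*} [CommRing A]

theorem zdg_ix : ∀ i : Fin 8, zdg (ix i) = 3 := by decide +kernel

theorem zdg_i2ne : ∀ i j : Fin 8, i ≠ j → zdg (i2 i j) = 2 := by decide +kernel

theorem ep2_self (i : Fin 8) : ep2 i i = 0 := by simp [ep2]

theorem M1_sub (μ μ' : Fin 8 → Fin 8 → Fin 8 → A) :
    M1 (fun i j k => μ i j k - μ' i j k) = M1 μ - M1 μ' := by
  unfold M1
  simp only [← Finset.sum_sub_distrib]
  refine Finset.sum_congr rfl fun i _ => Finset.sum_congr rfl fun j _ =>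
    Finset.sum_congr rfl fun k _ => ?_
  split_ifs
  · rw [mul_sub, sub_smul]
  · rw [sub_zero]

theorem W2_add (w w' : Fin 8 → Fin 8 → A) :
    W2 (fun i j => w i j + w' i j) = W2 w + W2 w' := by
  unfold W2
  simp only [← Finset.sum_add_distrib]
  refine Finset.sum_congr rfl fun i _ => Finset.sum_congr rfl fun j _ => ?_
  split_ifs
  · rw [add_smul]
  · rw [add_zero]

theorem eb_mem {R : Type*} [CommRing R] [Algebra R A] (S : Subalgebra R A) (i m : Fin 248) :
    (eb i : E8 A) m ∈ S := by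
  rw [eb_apply]
  split_ifs
  · exact one_mem S
  · exact zero_mem S

theorem M1_mem {R : Type*} [CommRing R] [Algebra R A] (S : Subalgebra R A)
    {μ : Fin 8 → Fin 8 → Fin 8 → A} (h : ∀ i j k, μ i j k ∈ S) (m : Fin 248) : M1 μ m ∈ S := by
  unfold M1
  simp only [Finset.sum_apply]
  refine sum_mem fun i _ => sum_mem fun j _ => sum_mem fun k _ => ?_
  split_ifs
  · rw [Pi.smul_apply, smul_eq_mul]
    exact mul_mem (mul_mem (intCast_mem S _) (h i j k)) (eb_mem S _ _)
  · exact zero_mem S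

theorem W2_mem {R : Type*} [CommRing R] [Algebra R A] (S : Subalgebra R A)
    {w : Fin 8 → Fin 8 → A} (h : ∀ i j, w i j ∈ S) (m : Fin 248) : W2 w m ∈ S := by
  unfold W2
  simp only [Finset.sum_apply]
  refine sum_mem fun i _ => sum_mem fun j _ => ?_
  split_ifs
  · rw [Pi.smul_apply, smul_eq_mul]
    exact mul_mem (h i j) (eb_mem S _ _)
  · exact zero_mem S

theorem V3_mem {R : Type*} [CommRing R] [Algebra R A] (S : Subalgebra R A)
    {v : Vec A} (h : ∀ i, v i ∈ S) (m : Fin 248) : V3 v m ∈ S := by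
  unfold V3
  split_ifs
  · exact h _
  · exact zero_mem S

theorem sup_le {d : Fin 248 → ℤ} {k : ℤ} {x : E8 A} (h : Sup d k x) : Le d k x :=
  fun m hm => h m (ne_of_gt hm)

theorem le_mono {d : Fin 248 → ℤ} {k l : ℤ} (hkl : k ≤ l) {x : E8 A} (h : Le d k x) : Le d l x :=
  fun m hm => h m (lt_of_le_of_lt hkl hm)

theorem le_neg {d : Fin 248 → ℤ} {k : ℤ} {x : E8 A} (h : Le d k x) : Le d k (-x) :=
  fun m hm => by rw [Pi.neg_apply, h m hm, neg_zero]

theorem le_sub {d : Fin 248 → ℤ} {k : ℤ} {x y : E8 A} (h : Le d k x) (h' : Le d k y) :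
    Le d k (x - y) :=
  fun m hm => by rw [Pi.sub_apply, h m hm, h' m hm, sub_zero]

theorem le_add {d : Fin 248 → ℤ} {k : ℤ} {x y : E8 A} (h : Le d k x) (h' : Le d k y) :
    Le d k (x + y) :=
  fun m hm => by rw [Pi.add_apply, h m hm, h' m hm, add_zero]

theorem le_three (x : E8 A) : Le zdg 3 x := fun m hm => absurd (zdg_le m) (not_le.mpr hm)

theorem le_pow {x Y : E8 A} {a b : ℤ} (hx : Le zdg a x) (hY : Le zdg b Y) (n : ℕ) :
    Le zdg (n * a + b) (((brL x) ^ n) Y) := by
  induction n with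
  | zero => simpa using hY
  | succ n ih =>
    rw [pow_succ', Module.End.mul_apply, brL_apply]
    have := Le.br (fun i j k h => sc_zdg h) hx ih
    refine le_mono (le_of_eq ?_) this
    push_cast
    ring

variable [Algebra ℚ A]

theorem ex_split (x Y : E8 A) : ex x Y = Y + br x Y +
    ∑ n ∈ Finset.range 5, algebraMap ℚ A (((n + 2).factorial : ℚ)⁻¹) • ((brL x) ^ (n + 2)) Y := by
  rw [ex_apply, Finset.sum_range_succ', Finset.sum_range_succ']
  simp only [zero_add, Nat.factorial_zero, Nat.factorial_one, Nat.cast_one, inv_one, map_one,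
    one_smul, pow_zero, pow_one, Module.End.one_apply, brL_apply]
  rw [add_assoc, add_comm, add_comm (br x Y) Y]

theorem ex_of_br_br {x Y : E8 A} (h : br x (br x Y) = 0) : ex x Y = Y + br x Y := by
  rw [ex_split, Finset.sum_eq_zero, add_zero]
  intro n _
  rw [pow_succ, pow_succ, Module.End.mul_apply, Module.End.mul_apply, brL_apply, brL_apply, h,
    map_zero, smul_zero]

theorem ex_top {x Y : E8 A} (hx : Le zdg (-1) x) {m : Fin 248} (hm : 2 ≤ zdg m) :
    ex x Y m = Y m + br x Y m := by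
  rw [ex_split, Pi.add_apply, Pi.add_apply, Finset.sum_apply, Finset.sum_eq_zero, add_zero]
  intro n _
  rw [Pi.smul_apply, le_pow hx (le_three Y) (n + 2) m (by push_cast; omega), smul_zero]

theorem ex_top3 {x Y : E8 A} (hx : Le zdg (-1) x) {m : Fin 248} (hm : zdg m = 3) :
    ex x Y m = Y m := by
  have h1 : br x Y m = 0 := Le.br (d := zdg) (fun i j k h => sc_zdg h) hx (le_three Y) m (by omega)
  rw [ex_top hx (by omega), h1, add_zero]

theorem ex_low {x Y : E8 A} (hx : Le zdg (-2) x) {m : Fin 248} (hm : 2 ≤ zdg m) :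
    ex x Y m = Y m := by
  have h1 : br x Y m = 0 := Le.br (d := zdg) (fun i j k h => sc_zdg h) hx (le_three Y) m (by omega)
  rw [ex_top (le_mono (by norm_num) hx) hm, h1, add_zero]

end aux

section main

variable {R : Type*} [CommRing R] {T : Type*} [CommRing T] [Algebra R T] (D : Dat R)

theorem nu_aab (i a c : Fin 8) : D.nu i a a c = 0 := by
  rw [D.nu1, D.nu2, neg_neg, D.nu0]

theorem nu_abb (i a b : Fin 8) : D.nu i a b b = 0 := by
  rw [D.nu2, D.nu3, neg_neg, nu_aab]

theorem mu0 (i a b : Fin 8) : D.mu (T := T) i a a b = 0 := by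
  rw [Dat.mu, nu_aab, map_zero, mul_zero]

theorem mu1 (i a b c : Fin 8) : D.mu (T := T) i a b c = - D.mu (T := T) i b a c := by
  rw [Dat.mu, Dat.mu, D.nu2 i a b c, map_neg, mul_neg]

theorem mu2 (i a b c : Fin 8) : D.mu (T := T) i a b c = - D.mu (T := T) i a c b := by
  rw [Dat.mu, Dat.mu, D.nu3 i a b c, map_neg, mul_neg]

theorem mu_self (i b c : Fin 8) : D.mu (T := T) i i b c = 0 := by
  rw [Dat.mu, D.nu0, map_zero, mul_zero]

/-- the `2`-form `θ_ij` with `μ_j - μ_i = f ∧ θ_ij` -/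
noncomputable def tht (T : Type*) [CommRing T] [Algebra R T] (D : Dat R) (i j b c : Fin 8) : T :=
  Ring.inverse (algebraMap R T (D.f i)) * Ring.inverse (algebraMap R T (D.f j)) *
    algebraMap R T (D.nu j i b c)

theorem tht0 (i j b : Fin 8) : tht T D i j b b = 0 := by
  rw [tht, nu_abb, map_zero, mul_zero]

theorem tht1 (i j b c : Fin 8) : tht T D i j b c = - tht T D i j c b := by
  rw [tht, tht, D.nu3 j i b c, map_neg, mul_neg]

/-- the linear form over `T` -/
def fT (T : Type*) [CommRing T] [Algebra R T] (D : Dat R) : Vec T := fun a => algebraMap R T (D.f a)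

variable {i j : Fin 8} (hi : IsUnit (algebraMap R T (D.f i))) (hj : IsUnit (algebraMap R T (D.f j)))

include hi hj in
theorem mu_sub (a b c : Fin 8) : D.mu (T := T) j a b c - D.mu (T := T) i a b c =
    wedge12 (fT T D) (tht T D i j) a b c := by
  have h := congrArg (algebraMap R T) (D.cyc j i a b c)
  simp only [map_add, map_sub, map_mul, map_zero] at h
  have ei := Ring.inverse_mul_cancel _ hi
  have ej := Ring.inverse_mul_cancel _ hj
  simp only [wedge12, fT, tht, Dat.mu]
  set ui := Ring.inverse (algebraMap R T (D.f i))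
  set uj := Ring.inverse (algebraMap R T (D.f j))
  linear_combination (-(ui * uj)) * h - (algebraMap R T (D.nu j a b c) * uj) * ei +
    (algebraMap R T (D.nu i a b c) * ui) * ej

include hi hj in
theorem M1_mu_sub : M1 (D.mu (T := T) j) - M1 (D.mu (T := T) i) =
    M1 (wedge12 (fT T D) (tht T D i j)) := by
  rw [← M1_sub]
  congr 1
  funext a b c
  exact mu_sub D hi hj a b c

/-- the coefficients `w + ι_v μ_i` -/
noncomputable def Wc (T : Type*) [CommRing T] [Algebra R T] (D : Dat R) (i : Fin 8) (v : Vec R)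
    (w : Fin 8 → Fin 8 → R) (a b : Fin 8) : T :=
  algebraMap R T (w a b) + ∑ m, algebraMap R T (v m) * D.mu (T := T) i m a b

theorem sv_eq (i : Fin 8) (v : Vec R) (w : Fin 8 → Fin 8 → R) :
    D.sv T i v w = V3 (fun a => algebraMap R T (v a)) + W2 (Wc T D i v w) := rfl

variable {v : Vec R} {w : Fin 8 → Fin 8 → R} (hvw : D.IsP v w)

include hvw in
theorem Wc0 (a : Fin 8) : Wc T D i v w a a = 0 := by
  rw [Wc, hvw.w0, map_zero, zero_add]
  refine Finset.sum_eq_zero fun m _ => ?_
  rw [Dat.mu, nu_abb, map_zero, mul_zero, mul_zero]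

include hvw in
theorem Wc1 (a b : Fin 8) : Wc T D i v w a b = - Wc T D i v w b a := by
  rw [Wc, Wc, hvw.w1 a b, map_neg, neg_add, ← Finset.sum_neg_distrib]
  congr 1
  refine Finset.sum_congr rfl fun m _ => ?_
  rw [mu2 D i m a b, mul_neg]

include hi hvw in
/-- `f ∧ (w + ι_v μ_i) = 0` -/
theorem Wc_wedge (a b c : Fin 8) : fT T D a * Wc T D i v w b c - fT T D b * Wc T D i v w a c +
    fT T D c * Wc T D i v w a b = 0 := by
  have h1 := congrArg (algebraMap R T) (hvw.fw a b c)
  simp only [map_add, map_sub, map_mul, map_sum] at h1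
  have ei := Ring.inverse_mul_cancel _ hi
  -- `f ∧ ι_v μ_i = - ι_v ν`
  have h2 : ∀ m, algebraMap R T (v m) * (fT T D a * D.mu (T := T) i m b c -
      fT T D b * D.mu (T := T) i m a c + fT T D c * D.mu (T := T) i m a b) =
      Ring.inverse (algebraMap R T (D.f i)) * (algebraMap R T (D.f m) * algebraMap R T (v m)) *
        algebraMap R T (D.nu i a b c) -
      algebraMap R T (v m) * algebraMap R T (D.nu m a b c) := by
    intro m
    have h := congrArg (algebraMap R T) (D.cyc i m a b c)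
    simp only [map_add, map_sub, map_mul, map_zero] at h
    simp only [fT, Dat.mu]
    set ui := Ring.inverse (algebraMap R T (D.f i))
    linear_combination (algebraMap R T (v m) * ui) * h -
      (algebraMap R T (v m) * algebraMap R T (D.nu m a b c)) * ei
  have h3 := congrArg (algebraMap R T) hvw.fv
  simp only [map_sum, map_mul, map_zero] at h3
  have h4 : fT T D a * (∑ m, algebraMap R T (v m) * D.mu (T := T) i m b c) -
      fT T D b * (∑ m, algebraMap R T (v m) * D.mu (T := T) i m a c) +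
      fT T D c * (∑ m, algebraMap R T (v m) * D.mu (T := T) i m a b) =
      - ∑ m, algebraMap R T (v m) * algebraMap R T (D.nu m a b c) := by
    have h5 := Finset.sum_congr rfl fun m (_ : m ∈ Finset.univ) => h2 m
    rw [Finset.sum_sub_distrib, ← Finset.sum_mul, ← Finset.mul_sum, h3, mul_zero, zero_mul,
      zero_sub] at h5
    rw [← h5, Finset.mul_sum, Finset.mul_sum, Finset.mul_sum, ← Finset.sum_sub_distrib,
      ← Finset.sum_add_distrib]
    refine Finset.sum_congr rfl fun m _ => ?_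
    ring
  simp only [Wc]
  simp only [fT] at h4 ⊢
  linear_combination h1 + h4

include hi hvw in
/-- `w + ι_v μ_i = f ∧ η` -/
theorem Wc_eq : Wc T D i v w = wedge11 (fT T D)
    (fun c => Ring.inverse (algebraMap R T (D.f i)) * Wc T D i v w i c) := by
  funext b c
  have h := Wc_wedge D hi hvw i b c
  have ei := Ring.inverse_mul_cancel _ hi
  simp only [wedge11]
  simp only [fT] at h ⊢
  set ui := Ring.inverse (algebraMap R T (D.f i))
  linear_combination ui * h - (Wc T D i v w b c) * ei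

include hi hj hvw in
/-- `exp (a_j - a_i)` maps the `i`-th standard vector to the `j`-th one -/
theorem ex_sv [Algebra ℚ T] :
    ex (M1 (D.mu (T := T) j) - M1 (D.mu (T := T) i)) (D.sv T i v w) = D.sv T j v w := by
  have hx := M1_mu_sub D hi hj
  have e1 : br (M1 (D.mu (T := T) j) - M1 (D.mu (T := T) i)) (W2 (Wc T D i v w)) = 0 := by
    rw [hx, Wc_eq D hi hvw]
    exact br_M1_W2 _ _ _ (tht0 D i j) (tht1 D i j)
  have e2 : br (M1 (D.mu (T := T) j) - M1 (D.mu (T := T) i)) (V3 (fun a => algebraMap R T (v a))) =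
      W2 (fun a b => ∑ m, algebraMap R T (v m) * (D.mu (T := T) j m a b - D.mu (T := T) i m a b)) := by
    rw [← M1_sub]
    exact br_M1_V3 _ (fun a b => by rw [mu0, mu0, sub_zero])
      (fun a b c => by rw [mu1 D j a b c, mu1 D i a b c]; ring)
      (fun a b c => by rw [mu2 D j a b c, mu2 D i a b c]; ring) _
  have h3 := congrArg (algebraMap R T) hvw.fv
  simp only [map_sum, map_mul, map_zero] at h3
  have e3 : (fun a b => ∑ m, algebraMap R T (v m) *
      (D.mu (T := T) j m a b - D.mu (T := T) i m a b)) =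
      wedge11 (fT T D) (fun c => - ∑ m, algebraMap R T (v m) * tht T D i j m c) := by
    funext a b
    have h4 : ∀ m, algebraMap R T (v m) * (D.mu (T := T) j m a b - D.mu (T := T) i m a b) =
        algebraMap R T (D.f m) * algebraMap R T (v m) * tht T D i j a b -
        fT T D a * (algebraMap R T (v m) * tht T D i j m b) +
        fT T D b * (algebraMap R T (v m) * tht T D i j m a) := by
      intro m
      rw [mu_sub D hi hj]
      simp only [wedge12, fT]
      ring
    rw [Finset.sum_congr rfl fun m _ => h4 m, Finset.sum_add_distrib, Finset.sum_sub_distrib,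
      ← Finset.sum_mul, h3, zero_mul, ← Finset.mul_sum, ← Finset.mul_sum]
    simp only [wedge11]
    ring
  have e4 : br (M1 (D.mu (T := T) j) - M1 (D.mu (T := T) i))
      (br (M1 (D.mu (T := T) j) - M1 (D.mu (T := T) i)) (V3 (fun a => algebraMap R T (v a)))) = 0 := by
    rw [e2, e3, hx]
    exact br_M1_W2 _ _ _ (tht0 D i j) (tht1 D i j)
  rw [ex_of_br_br, sv_eq, sv_eq, br_add_right, e1, add_zero, e2, add_assoc, ← W2_add]
  · congr 2
    funext a b
    simp only [Wc]
    rw [add_assoc, ← Finset.sum_add_distrib]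
    congr 1
    refine Finset.sum_congr rfl fun m _ => ?_
    ring
  · rw [sv_eq, br_add_right, e1, add_zero, e4]

end main

end Glue

open Glue

/-- GLUE -/
theorem glue {R : Type*} [CommRing R] {T : Type*} [CommRing T] [Algebra R T]
    [IsLocalRing R] [IsNoetherianRing R] [Algebra ℚ R] [Algebra ℚ T] (C : U.Cov R T)
    (hm : ∀ i, C.f i ∈ maximalIdeal R) (hreg : IsWeaklyRegular R [C.f 0, C.f 1, C.f 2])
    (D : Dat R) (hf : ∀ i : Fin 3, D.f (Fin.castLE (by norm_num) i) = C.f i) :
    ∃ l : Fin 3 → E8 T, (∀ i, Le zdg (-2) (l i)) ∧ (∀ i m, l i m ∈ C.R1 i) ∧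
      ∀ v w, D.IsP v w → ∃ γ : E8 R, p3 γ = v ∧ (∀ a b, w2 γ a b = w a b) ∧
        ∀ i : Fin 3, ex (M1 (D.mu (Fin.castLE (by norm_num) i))) (ex (l i) (algebraMap R T ∘ γ)) =
          D.sv T (Fin.castLE (by norm_num) i) v w := by
  have hcast : (3 : ℕ) ≤ 8 := by norm_num
  set c : Fin 3 → Fin 8 := fun i => Fin.castLE hcast i with hc
  have hu : ∀ i, IsUnit (algebraMap R T (D.f (c i))) := fun i => by
    rw [hc]
    simp only
    rw [hf i]
    exact C.unit i
  set a : Fin 3 → E8 T := fun i => M1 (D.mu (c i)) with ha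
  have asup : ∀ i, Sup zdg (-1) (a i) := fun i => M1_sup _
  have hinv : ∀ i, Ring.inverse (algebraMap R T (D.f (c i))) ∈ C.R1 i := by
    intro i
    refine ⟨1, 1, ?_⟩
    rw [pow_one, map_one, ← hf i]
    exact Ring.mul_inverse_cancel _ (hu i)
  have hmu : ∀ i x y z, D.mu (T := T) (c i) x y z ∈ C.R1 i := fun i x y z =>
    mul_mem (hinv i) ((C.R1 i).algebraMap_mem _)
  have amem : ∀ i m, a i m ∈ C.R1 i := fun i m => M1_mem _ (hmu i) m
  have nil1 : ∀ {x : E8 T}, Le zdg (-1) x → (brL x) ^ 7 = 0 := fun h => ad_nil_neg h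
  have ale : ∀ i, Le zdg (-1) (a i) := fun i => sup_le (asup i)
  -- the transition elements
  choose L hL1 hL2 hL3 using fun i j : Fin 3 => exists_bch (C.R2 i j) (asup i) (asup j)
    (fun m => C.R1_le_R2 i j (amem i m)) (fun m => C.R1_le_R2' i j (amem j m))
  have hcomm : ∀ i j k : Fin 3, br (a k - a j) (a j - a i) = 0 := by
    intro i j k
    simp only [ha]
    rw [M1_mu_sub D (hu j) (hu k), M1_mu_sub D (hu i) (hu j)]
    exact br_M1_M1 _ _ _ (tht0 D _ _) (tht1 D _ _) (tht0 D _ _) (tht1 D _ _)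
  have hcoc : ∀ i j k : Fin 3, L i j + L j k = L i k := by
    intro i j k
    have hle : Le zdg (-2) (L j k + L i j) := le_add (hL1 j k) (hL1 i j)
    rw [add_comm]
    apply ex_low_inj hle (hL1 i k)
    rw [ex_low_add (hL1 j k) (hL1 i j), ← hL3 j k, ← hL3 i j,
      ex_ex_neg (nil1 (ale j)), ← hL3 i k,
      ← ex_add (nil1 (le_sub (ale k) (ale j))) (nil1 (le_sub (ale j) (ale i))) _ (hcomm i j k),
      sub_add_sub_cancel]
    rw [sub_add_sub_cancel]
    exact nil1 (le_sub (ale k) (ale i))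
  obtain ⟨b, hb1, hb2⟩ := C.cech hm hreg L hL2 (fun i j k s => congrFun (hcoc i j k) s)
  -- cut off the degrees `> -2`
  set l : Fin 3 → E8 T := fun i m => if zdg m ≤ -2 then b i m else 0 with hl
  have lle : ∀ i, Le zdg (-2) (l i) := by
    intro i m hm'
    simp only [hl]
    rw [if_neg (not_le.mpr hm')]
  have lmem : ∀ i m, l i m ∈ C.R1 i := by
    intro i m
    simp only [hl]
    split_ifs
    · exact hb1 i m
    · exact zero_mem _
  have hLl : ∀ i j, L i j = l j - l i := by
    intro i j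
    funext m
    simp only [hl, Pi.sub_apply]
    split_ifs with h
    · exact hb2 i j m
    · rw [sub_zero]
      exact hL1 i j m (not_le.mp h)
  refine ⟨l, lle, lmem, ?_⟩
  intro v w hvw
  set s : Fin 3 → E8 T := fun i => D.sv T (c i) v w with hs
  set g : Fin 3 → E8 T := fun i => ex (-(l i)) (ex (-(a i)) (s i)) with hg
  have l1 : ∀ i, Le zdg (-1) (l i) := fun i => le_mono (by norm_num) (lle i)
  have hgij : ∀ i j, g j = g i := by
    intro i j
    have e1 : s j = ex (a j - a i) (s i) := (ex_sv D (hu i) (hu j) hvw).symm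
    have e2 : ex (-(a j)) (s j) = ex (L i j) (ex (-(a i)) (s i)) := by
      rw [e1, ← hL3 i j, ex_ex_neg (nil1 (ale i))]
    simp only [hg]
    rw [e2, ← ex_low_add (le_neg (lle j)) (hL1 i j), hLl i j]
    congr 2
    abel
  have smem : ∀ i m, s i m ∈ C.R1 i := by
    intro i m
    simp only [hs]
    rw [sv_eq, Pi.add_apply]
    refine add_mem (V3_mem _ (fun x => (C.R1 i).algebraMap_mem _) m)
      (W2_mem _ (fun x y => ?_) m)
    exact add_mem ((C.R1 i).algebraMap_mem _)
      (sum_mem fun q _ => mul_mem ((C.R1 i).algebraMap_mem _) (hmu i q x y))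
  have gmem : ∀ i m, g i m ∈ C.R1 i := by
    intro i m
    simp only [hg]
    refine ex_mem (C.R1 i) (fun q => neg_mem (lmem i q)) (fun q => ?_) m
    exact ex_mem (C.R1 i) (fun q => neg_mem (amem i q)) (smem i) q
  have gR : ∀ m, ∃ r : R, algebraMap R T r = g 0 m := by
    intro m
    have h1 : g 0 m ∈ C.R1 1 := by
      rw [hgij 1 0]
      exact gmem 1 m
    exact C.inter hm hreg (i := 0) (j := 1) (by decide) (gmem 0 m) h1
  choose γ hγ using gR
  have hγ' : algebraMap R T ∘ γ = g 0 := funext hγ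
  refine ⟨γ, ?_, ?_, ?_⟩
  · funext q
    apply C.inj
    have h1 : algebraMap R T (p3 γ q) = g 0 (ix q) := hγ (ix q)
    rw [h1]
    simp only [hg]
    rw [ex_low (le_neg (lle 0)) (by rw [zdg_ix]; norm_num), ex_top3 (le_neg (ale 0)) (zdg_ix q)]
    have h2 : p3 (s 0) q = algebraMap R T (v q) := by
      simp only [hs]
      rw [sv_eq]
      have h3 : p3 (V3 (fun a => algebraMap R T (v a)) + W2 (Wc T D (c 0) v w)) =
          p3 (V3 (fun a => algebraMap R T (v a))) + p3 (W2 (Wc T D (c 0) v w)) := rfl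
      rw [h3, p3_V3, p3_W2, add_zero]
    exact h2
  · intro x y
    apply C.inj
    have h1 : algebraMap R T (w2 γ x y) = w2 (g 0) x y := by
      rw [← hγ']
      simp only [w2, map_mul, map_intCast, Function.comp_apply]
    rw [h1]
    by_cases hxy : x = y
    · subst hxy
      rw [hvw.w0, map_zero, w2, ep2_self, Int.cast_zero, zero_mul]
    have hz := zdg_i2ne x y hxy
    have h2 : g 0 (i2 x y) = W2 (Wc T D (c 0) v w) (i2 x y) -
        W2 (fun a b => ∑ m, algebraMap R T (v m) * D.mu (T := T) (c 0) m a b) (i2 x y) := by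
      simp only [hg]
      rw [ex_low (le_neg (lle 0)) (by omega), ex_top (le_neg (ale 0)) (by omega)]
      have h3 : s 0 = V3 (fun a => algebraMap R T (v a)) + W2 (Wc T D (c 0) v w) := rfl
      have h4 : br (-(a 0)) (s 0) = - W2 (fun a b => ∑ m, algebraMap R T (v m) *
          D.mu (T := T) (c 0) m a b) - br (a 0) (W2 (Wc T D (c 0) v w)) := by
        rw [h3, br_neg_left, br_add_right]
        simp only [ha]
        rw [br_M1_V3 _ (mu0 D (c 0)) (mu1 D (c 0)) (mu2 D (c 0))]
        abel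
      have h5 : br (a 0) (W2 (Wc T D (c 0) v w)) (i2 x y) = 0 :=
        Sup.br (d := zdg) (fun i j k h => sc_zdg h) (asup 0) (W2_sup _) _ (by omega)
      have h6 : V3 (fun a => algebraMap R T (v a)) (i2 x y) = 0 := V3_sup _ _ (by omega)
      rw [h4, h3, Pi.add_apply, Pi.sub_apply, Pi.neg_apply, h5, h6]
      ring
    have h7 : w2 (g 0) x y = w2 (W2 (Wc T D (c 0) v w)) x y -
        w2 (W2 (fun a b => ∑ m, algebraMap R T (v m) * D.mu (T := T) (c 0) m a b)) x y := by
      rw [w2, w2, w2, h2, mul_sub]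
    rw [h7, w2_W2 _ (Wc0 D hvw) (Wc1 D hvw), w2_W2]
    · rw [Wc]
      ring
    · intro i
      refine Finset.sum_eq_zero fun m _ => ?_
      rw [Dat.mu, nu_abb, map_zero, mul_zero, mul_zero]
    · intro i j
      rw [← Finset.sum_neg_distrib]
      refine Finset.sum_congr rfl fun m _ => ?_
      rw [mu2 D (c 0) m i j, mul_neg]
  · intro i
    rw [hγ', hgij i 0]
    simp only [hg]
    rw [ex_ex_neg (nil1 (l1 i))]
    exact ex_ex_neg (nil1 (ale i)) _

end Pool.Agent.Licci

end

section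

/-!
# LICCI L11b: exponentials of the matrix units in degree `0`
-/

namespace Pool.Agent.Licci

open scoped BigOperators
open U (Sup)

variable {A : Type*} [CommRing A]

namespace Levi

theorem p3_add (Y Z : E8 A) : p3 (Y + Z) = p3 Y + p3 Z := rfl

theorem p3_smul (c : A) (Y : E8 A) : p3 (c • Y) = c • p3 Y := rfl

theorem p3_zero : p3 (0 : E8 A) = 0 := rfl

theorem p3_sum {ι : Type*} (s : Finset ι) (Y : ι → E8 A) :
    p3 (∑ i ∈ s, Y i) = ∑ i ∈ s, p3 (Y i) := by
  classical
  induction s using Finset.induction_on with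
  | empty => simp [p3_zero]
  | insert a s ha ih => rw [Finset.sum_insert ha, Finset.sum_insert ha, p3_add, ih]

theorem om_add (Y Z : E8 A) (x y : Vec A) : om (Y + Z) x y = om Y x y + om Z x y := by
  simp only [om, w2, Pi.add_apply, mul_add, add_mul, Finset.sum_add_distrib]

theorem om_smul (c : A) (Y : E8 A) (x y : Vec A) : om (c • Y) x y = c * om Y x y := by
  simp only [om, w2, Pi.smul_apply, smul_eq_mul, Finset.mul_sum]
  refine Finset.sum_congr rfl fun i _ => Finset.sum_congr rfl fun j _ => ?_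
  ring

theorem om_zero (x y : Vec A) : om (0 : E8 A) x y = 0 := by
  simp [om, w2]

theorem om_sum {ι : Type*} (s : Finset ι) (Y : ι → E8 A) (x y : Vec A) :
    om (∑ i ∈ s, Y i) x y = ∑ i ∈ s, om (Y i) x y := by
  classical
  induction s using Finset.induction_on with
  | empty => simp [om_zero]
  | insert a s ha ih => rw [Finset.sum_insert ha, Finset.sum_insert ha, om_add, ih]

theorem om_add_left (Y : E8 A) (x x' y : Vec A) : om Y (x + x') y = om Y x y + om Y x' y := by
  simp only [om, Pi.add_apply, mul_add, add_mul, Finset.sum_add_distrib]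

theorem om_add_right (Y : E8 A) (x y y' : Vec A) : om Y x (y + y') = om Y x y + om Y x y' := by
  simp only [om, Pi.add_apply, mul_add, Finset.sum_add_distrib]

theorem om_smul_left (Y : E8 A) (c : A) (x y : Vec A) : om Y (c • x) y = c * om Y x y := by
  simp only [om, Pi.smul_apply, smul_eq_mul, Finset.mul_sum]
  refine Finset.sum_congr rfl fun i _ => Finset.sum_congr rfl fun j _ => ?_
  ring

theorem om_smul_right (Y : E8 A) (c : A) (x y : Vec A) : om Y x (c • y) = c * om Y x y := by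
  simp only [om, Pi.smul_apply, smul_eq_mul, Finset.mul_sum]
  refine Finset.sum_congr rfl fun i _ => Finset.sum_congr rfl fun j _ => ?_
  ring

theorem om_sum_left {ι : Type*} (s : Finset ι) (Y : E8 A) (x : ι → Vec A) (y : Vec A) :
    om Y (∑ i ∈ s, x i) y = ∑ i ∈ s, om Y (x i) y := by
  classical
  induction s using Finset.induction_on with
  | empty => simp [om]
  | insert a s ha ih => rw [Finset.sum_insert ha, Finset.sum_insert ha, om_add_left, ih]

theorem om_sum_right {ι : Type*} (s : Finset ι) (Y : E8 A) (x : Vec A) (y : ι → Vec A) :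
    om Y x (∑ i ∈ s, y i) = ∑ i ∈ s, om Y x (y i) := by
  classical
  induction s using Finset.induction_on with
  | empty => simp [om]
  | insert a s ha ih => rw [Finset.sum_insert ha, Finset.sum_insert ha, om_add_right, ih]

/-- `X` acts on `p3` by `v ↦ l v e_i` and on `om` contragrediently, `l (e_i) = 0` -/
structure Act (X : E8 A) (i : Fin 8) (l : Vec A → A) : Prop where
  l0 : ∀ v c, l (v + Pi.single i c) = l v
  l1 : ∀ c, l (Pi.single i c) = 0
  p3 : ∀ Y, Licci.p3 (br X Y) = Pi.single i (l (Licci.p3 Y))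
  om : ∀ Y x y, Licci.om (br X Y) x y =
    -(Licci.om Y (Pi.single i (l x)) y + Licci.om Y x (Pi.single i (l y)))

variable {X : E8 A} {i : Fin 8} {l : Vec A → A}

theorem Act.p3_two (h : Act X i l) (n : ℕ) (Y : E8 A) :
    Licci.p3 (((brL X) ^ (n + 2)) Y) = 0 := by
  rw [pow_succ', pow_succ', Module.End.mul_apply, Module.End.mul_apply, brL_apply, brL_apply, h.p3,
    h.p3, h.l1, Pi.single_zero]

theorem single_eq_smul (i : Fin 8) (c : A) : (Pi.single i c : Vec A) = c • Pi.single i 1 := by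
  funext j
  by_cases hj : j = i
  · subst hj; simp
  · simp [Pi.single_eq_of_ne hj]

theorem om_single_single (Y : E8 A) (i : Fin 8) (c c' : A) :
    Licci.om Y (Pi.single i c) (Pi.single i c') = 0 := by
  rw [single_eq_smul i c, single_eq_smul i c', om_smul_left, om_smul_right, om_self, mul_zero,
    mul_zero]

theorem om_zero_left (Y : E8 A) (y : Vec A) : Licci.om Y 0 y = 0 := by
  simp [Licci.om]

theorem om_zero_right (Y : E8 A) (y : Vec A) : Licci.om Y y 0 = 0 := by
  simp [Licci.om]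

theorem Act.om_two (h : Act X i l) (n : ℕ) (Y : E8 A) (x y : Vec A) :
    Licci.om (((brL X) ^ (n + 2)) Y) x y = 0 := by
  rw [pow_succ', pow_succ', Module.End.mul_apply, Module.End.mul_apply, brL_apply, brL_apply, h.om,
    h.om, h.om, h.l1, h.l1]
  simp only [om_single_single, Pi.single_zero, om_zero_left, om_zero_right]
  ring

variable [Algebra ℚ A]

theorem ex_eq (X Y : E8 A) : ex X Y = Y + br X Y + ∑ n ∈ Finset.range 5,
    algebraMap ℚ A (((n + 2).factorial : ℚ)⁻¹) • ((brL X) ^ (n + 2)) Y := by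
  rw [ex, LinearMap.sum_apply, Finset.sum_range_succ', Finset.sum_range_succ']
  simp only [LinearMap.smul_apply, zero_add, pow_zero, pow_one, Nat.factorial_zero,
    Nat.factorial_one, Nat.cast_one, inv_one, map_one, one_smul, Module.End.one_apply, brL_apply,
    add_assoc, Nat.reduceAdd]
  rw [add_comm, add_comm (br X Y) Y, add_assoc]

theorem Act.ex_p3 (h : Act X i l) (Y : E8 A) :
    Licci.p3 (ex X Y) = Licci.p3 Y + Pi.single i (l (Licci.p3 Y)) := by
  rw [ex_eq, p3_add, p3_add, h.p3, p3_sum, Finset.sum_eq_zero, add_zero]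
  intro n _
  rw [p3_smul, h.p3_two, smul_zero]

theorem Act.ex_om (h : Act X i l) (Y : E8 A) (x y : Vec A) :
    Licci.om (ex X Y) x y = Licci.om Y x y -
      (Licci.om Y (Pi.single i (l x)) y + Licci.om Y x (Pi.single i (l y))) := by
  rw [ex_eq, om_add, om_add, h.om, om_sum, Finset.sum_eq_zero, add_zero]
  · ring
  · intro n _
    rw [om_smul, h.om_two, mul_zero]

theorem Act.ex_om' (h : Act X i l) (Y : E8 A) (x y : Vec A) :
    Licci.om (ex X Y) (x + Pi.single i (l x)) (y + Pi.single i (l y)) = Licci.om Y x y := by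
  rw [h.ex_om, h.l0, h.l0]
  simp only [om_add_left, om_add_right, om_single_single]
  ring

end Levi

open Levi

/-- the row element -/
theorem row_act (t : Fin 8 → A) : Act (∑ j : Fin 7, t j.succ • Eg 0 j.succ : E8 A) 0
    (fun v => ∑ j : Fin 7, t j.succ * v j.succ) where
  l0 v c := by
    refine Finset.sum_congr rfl fun j _ => ?_
    rw [Pi.add_apply, Pi.single_eq_of_ne (Fin.succ_ne_zero j), add_zero]
  l1 c := by
    refine Finset.sum_eq_zero fun j _ => ?_
    rw [Pi.single_eq_of_ne (Fin.succ_ne_zero j), mul_zero]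
  p3 Y := by
    rw [br_sum_left, p3_sum]
    simp only [br_smul_left, p3_smul, p3_Eg (Fin.succ_ne_zero _).symm]
    rw [single_eq_smul 0 (∑ j : Fin 7, _), Finset.sum_smul]
    refine Finset.sum_congr rfl fun j _ => ?_
    rw [smul_smul]
  om Y x y := by
    rw [br_sum_left, om_sum]
    simp only [br_smul_left, om_smul, om_Eg (Fin.succ_ne_zero _).symm]
    rw [single_eq_smul 0 (∑ j : Fin 7, _), single_eq_smul 0 (∑ j : Fin 7, _), Finset.sum_smul,
      Finset.sum_smul, om_sum_left, om_sum_right, ← Finset.sum_add_distrib, ← Finset.sum_neg_distrib]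
    refine Finset.sum_congr rfl fun j _ => ?_
    simp only [om_smul_left, om_smul_right]
    ring

/-- one matrix unit -/
theorem unit_act {i j : Fin 8} (h : i ≠ j) (c : A) : Act (c • Eg i j : E8 A) i
    (fun v => c * v j) where
  l0 v d := by rw [Pi.add_apply, Pi.single_eq_of_ne h.symm, add_zero]
  l1 d := by rw [Pi.single_eq_of_ne h.symm, mul_zero]
  p3 Y := by
    rw [br_smul_left, p3_smul, p3_Eg h, smul_smul, ← single_eq_smul]
  om Y x y := by
    rw [br_smul_left, om_smul, om_Eg h, single_eq_smul i (c * x j), single_eq_smul i (c * y j)]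
    simp only [om_smul_left, om_smul_right]
    ring

theorem row_nil (t : Fin 8 → A) : (brL (∑ j : Fin 7, t j.succ • Eg 0 j.succ : E8 A)) ^ 7 = 0 := by
  refine ad_nil_wt 0 fun m hm => ?_
  rw [Finset.sum_apply]
  refine Finset.sum_eq_zero fun j _ => ?_
  rw [Pi.smul_apply, Eg_wtg (Fin.succ_ne_zero j).symm 0 m, smul_zero]
  rw [if_pos rfl, if_neg (Fin.succ_ne_zero j).symm]
  omega

theorem unit_nil {i j : Fin 8} (h : i ≠ j) (c : A) : (brL (c • Eg i j : E8 A)) ^ 7 = 0 := by
  refine ad_nil_wt i fun m hm => ?_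
  rw [Pi.smul_apply, Eg_wtg h i m, smul_zero]
  rw [if_pos rfl, if_neg h]
  omega

variable [Algebra ℚ A]

/-- exponentials of the matrix units in row `0`: `v ↦ v + (∑_(j ≠ 0) t_j v_j) e_0` -/
theorem row_p3 (t : Fin 8 → A) (Y : E8 A) :
    p3 (ex (∑ j : Fin 7, t j.succ • Eg 0 j.succ) Y) =
      p3 Y + Pi.single 0 (∑ j : Fin 7, t j.succ * p3 Y j.succ) := (row_act t).ex_p3 Y

theorem row_om (t : Fin 8 → A) (Y : E8 A) (x y : Vec A) :
    om (ex (∑ j : Fin 7, t j.succ • Eg 0 j.succ) Y)
      (x + Pi.single 0 (∑ j : Fin 7, t j.succ * x j.succ))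
      (y + Pi.single 0 (∑ j : Fin 7, t j.succ * y j.succ)) = om Y x y := (row_act t).ex_om' Y x y

/-- one matrix unit: `v ↦ v + c v_j e_i` -/
theorem unit_p3 {i j : Fin 8} (h : i ≠ j) (c : A) (Y : E8 A) :
    p3 (ex (c • Eg i j) Y) = p3 Y + Pi.single i (c * p3 Y j) := (unit_act h c).ex_p3 Y

theorem unit_om {i j : Fin 8} (h : i ≠ j) (c : A) (Y : E8 A) (x y : Vec A) :
    om (ex (c • Eg i j) Y) (x + Pi.single i (c * x j)) (y + Pi.single i (c * y j)) = om Y x y :=
  (unit_act h c).ex_om' Y x y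

end Pool.Agent.Licci

end

section

/-!
# Module L11c, part B: the standard vectors `v + (w + ι_v μ_i)` in the frame `i`
-/

namespace Pool.Agent.Licci

open scoped BigOperators
open U (Sup)

universe u

namespace UD

section lin

variable {A : Type*} [CommRing A]

theorem p3_add (Y Z : E8 A) : p3 (Y + Z) = p3 Y + p3 Z := rfl

theorem w2_add (Y Z : E8 A) (i j : Fin 8) : w2 (Y + Z) i j = w2 Y i j + w2 Z i j := by
  simp only [w2, Pi.add_apply]
  ring

theorem om_add (Y Z : E8 A) (x y : Vec A) : om (Y + Z) x y = om Y x y + om Z x y := by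
  simp only [om, w2_add, add_mul, Finset.sum_add_distrib]

theorem om_single (Y : E8 A) (i j : Fin 8) :
    om Y (Pi.single i 1) (Pi.single j 1) = w2 Y i j := by
  rw [om, Finset.sum_eq_single i, Finset.sum_eq_single j]
  · simp
  · intro b _ hb
    simp [hb]
  · simp
  · intro b _ hb
    simp [hb]
  · simp

theorem isAut_comp {k k' : E8 A →ₗ[A] E8 A} (h : IsAut k) (h' : IsAut k') : IsAut (k ∘ₗ k') where
  bij := h.bij.comp h'.bij
  map_br x y := by rw [LinearMap.comp_apply, h'.map_br, h.map_br]; rfl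

end lin

end UD

open UD

section dat

variable {R : Type u} [CommRing R] {T : Type u} [CommRing T] [Algebra R T]

/-- `ŵ = w + ι_v μ_i` -/
noncomputable def Dat.wh (D : Dat R) (T : Type u) [CommRing T] [Algebra R T] (i : Fin 8)
    (v : Vec R) (w : Fin 8 → Fin 8 → R) (a b : Fin 8) : T :=
  algebraMap R T (w a b) + ∑ m, algebraMap R T (v m) * D.mu (T := T) i m a b

theorem Dat.sv_eq (D : Dat R) (i : Fin 8) (v : Vec R) (w : Fin 8 → Fin 8 → R) :
    D.sv T i v w = V3 (fun a => algebraMap R T (v a)) + W2 (D.wh T i v w) := rfl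

theorem Dat.nu_last (D : Dat R) (i m a : Fin 8) : D.nu i m a a = 0 := by
  rw [D.nu2, D.nu1, neg_neg, D.nu3, D.nu2, neg_neg, D.nu0]

theorem Dat.mu_last (D : Dat R) (i m a : Fin 8) : D.mu (T := T) i m a a = 0 := by
  rw [Dat.mu, D.nu_last, map_zero, mul_zero]

theorem Dat.mu_swap (D : Dat R) (i m a b : Fin 8) :
    D.mu (T := T) i m a b = - D.mu (T := T) i m b a := by
  rw [Dat.mu, Dat.mu, D.nu3, map_neg, mul_neg]

theorem Dat.mu_swap' (D : Dat R) (i m a b : Fin 8) :
    D.mu (T := T) i m a b = - D.mu (T := T) i a m b := by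
  rw [Dat.mu, Dat.mu, D.nu2, map_neg, mul_neg]

theorem Dat.wh_self {D : Dat R} {v : Vec R} {w : Fin 8 → Fin 8 → R} (h : D.IsP v w) (i a : Fin 8) :
    D.wh T i v w a a = 0 := by
  rw [Dat.wh, h.w0, map_zero, zero_add]
  exact Finset.sum_eq_zero fun m _ => by rw [D.mu_last, mul_zero]

theorem Dat.wh_swap {D : Dat R} {v : Vec R} {w : Fin 8 → Fin 8 → R} (h : D.IsP v w)
    (i a b : Fin 8) : D.wh T i v w a b = - D.wh T i v w b a := by
  rw [Dat.wh, Dat.wh, h.w1, map_neg, neg_add, ← Finset.sum_neg_distrib]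
  congr 1
  exact Finset.sum_congr rfl fun m _ => by rw [D.mu_swap, mul_neg]

theorem Dat.f_mul_mu (D : Dat R) {i : Fin 8} (hi : IsUnit (algebraMap R T (D.f i)))
    (a b c : Fin 8) : algebraMap R T (D.f i) * D.mu (T := T) i a b c =
      algebraMap R T (D.nu i a b c) := by
  rw [Dat.mu, ← mul_assoc, Ring.mul_inverse_cancel _ hi, one_mul]

/-- `ν = f ∧ μ_i` -/
theorem Dat.nu_eq (D : Dat R) {i : Fin 8} (hi : IsUnit (algebraMap R T (D.f i)))
    (m a b c : Fin 8) : algebraMap R T (D.nu m a b c) =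
      algebraMap R T (D.f m) * D.mu (T := T) i a b c -
      algebraMap R T (D.f a) * D.mu (T := T) i m b c +
      algebraMap R T (D.f b) * D.mu (T := T) i m a c -
      algebraMap R T (D.f c) * D.mu (T := T) i m a b := by
  apply hi.mul_left_cancel
  have h := congrArg (algebraMap R T) (D.cyc i m a b c)
  simp only [map_add, map_sub, map_mul, map_zero, ← D.f_mul_mu hi] at h
  linear_combination h

theorem Dat.f_v {D : Dat R} {v : Vec R} {w : Fin 8 → Fin 8 → R} (h : D.IsP v w) :
    ∑ m, algebraMap R T (D.f m) * algebraMap R T (v m) = 0 := by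
  have := congrArg (algebraMap R T) h.fv
  simpa only [map_sum, map_mul, map_zero] using this

/-- `f ∧ ŵ = 0` -/
theorem Dat.wh_wedge {D : Dat R} {v : Vec R} {w : Fin 8 → Fin 8 → R} (h : D.IsP v w)
    {i : Fin 8} (hi : IsUnit (algebraMap R T (D.f i))) (a b c : Fin 8) :
    algebraMap R T (D.f a) * D.wh T i v w b c - algebraMap R T (D.f b) * D.wh T i v w a c +
      algebraMap R T (D.f c) * D.wh T i v w a b = 0 := by
  have h1 := congrArg (algebraMap R T) (h.fw a b c)
  simp only [map_add, map_sub, map_mul, map_sum] at h1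
  have h2 : ∑ m, algebraMap R T (v m) * algebraMap R T (D.nu m a b c) =
      (∑ m, algebraMap R T (D.f m) * algebraMap R T (v m)) * D.mu (T := T) i a b c -
      algebraMap R T (D.f a) * (∑ m, algebraMap R T (v m) * D.mu (T := T) i m b c) +
      algebraMap R T (D.f b) * (∑ m, algebraMap R T (v m) * D.mu (T := T) i m a c) -
      algebraMap R T (D.f c) * (∑ m, algebraMap R T (v m) * D.mu (T := T) i m a b) := by
    rw [Finset.sum_mul, Finset.mul_sum, Finset.mul_sum, Finset.mul_sum, ← Finset.sum_sub_distrib,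
      ← Finset.sum_add_distrib, ← Finset.sum_sub_distrib]
    refine Finset.sum_congr rfl fun m _ => ?_
    rw [D.nu_eq hi m a b c]
    ring
  rw [h2, Dat.f_v h, zero_mul] at h1
  simp only [Dat.wh]
  linear_combination h1

/-- `ŵ` vanishes on `ker f` -/
theorem Dat.wh_ker {D : Dat R} {v : Vec R} {w : Fin 8 → Fin 8 → R} (h : D.IsP v w)
    {i : Fin 8} (hi : IsUnit (algebraMap R T (D.f i))) (x y : Vec T)
    (hx : ∑ m, algebraMap R T (D.f m) * x m = 0) (hy : ∑ m, algebraMap R T (D.f m) * y m = 0) :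
    ∑ a, ∑ b, D.wh T i v w a b * (x a * y b) = 0 := by
  apply (hi.mul_right_eq_zero).1
  have e : ∀ a b, algebraMap R T (D.f i) * D.wh T i v w a b =
      algebraMap R T (D.f a) * D.wh T i v w i b - algebraMap R T (D.f b) * D.wh T i v w i a := by
    intro a b
    have := Dat.wh_wedge (T := T) h hi i a b
    linear_combination this
  have h1 : algebraMap R T (D.f i) * ∑ a, ∑ b, D.wh T i v w a b * (x a * y b) =
      (∑ a, algebraMap R T (D.f a) * x a) * (∑ b, D.wh T i v w i b * y b) -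
      (∑ b, algebraMap R T (D.f b) * y b) * (∑ a, D.wh T i v w i a * x a) := by
    rw [Finset.mul_sum, Finset.sum_mul_sum, Finset.sum_mul_sum]
    rw [Finset.sum_comm (f := fun b a => algebraMap R T (D.f b) * y b * (D.wh T i v w i a * x a)),
      ← Finset.sum_sub_distrib]
    refine Finset.sum_congr rfl fun a _ => ?_
    rw [Finset.mul_sum, ← Finset.sum_sub_distrib]
    refine Finset.sum_congr rfl fun b _ => ?_
    have := e a b
    linear_combination (x a * y b) * this
  rw [h1, hx, hy, zero_mul, zero_mul, sub_zero]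

theorem Dat.p3_sv (D : Dat R) (i : Fin 8) (v : Vec R) (w : Fin 8 → Fin 8 → R) :
    p3 (D.sv T i v w) = fun a => algebraMap R T (v a) := by
  rw [Dat.sv_eq, p3_add, p3_V3, p3_W2, add_zero]

theorem Dat.om_sv {D : Dat R} {v : Vec R} {w : Fin 8 → Fin 8 → R} (h : D.IsP v w) (i : Fin 8)
    (x y : Vec T) : om (D.sv T i v w) x y = ∑ a, ∑ b, D.wh T i v w a b * (x a * y b) := by
  rw [Dat.sv_eq, om_add, om_V3, zero_add, om]
  refine Finset.sum_congr rfl fun a _ => Finset.sum_congr rfl fun b _ => ?_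
  rw [w2_W2 _ (Dat.wh_self h i) (Dat.wh_swap h i)]

theorem Dat.sv_low (D : Dat R) (i : Fin 8) (v : Vec R) (w : Fin 8 → Fin 8 → R) (m : Fin 248)
    (hm : zdg m < 2) : D.sv T i v w m = 0 := by
  rw [Dat.sv_eq, Pi.add_apply, V3_sup _ m (by omega), W2_sup _ m (by omega), add_zero]

/-- the pairing of two standard vectors -/
theorem Dat.pair_sv {D : Dat R} {v v' : Vec R} {w w' : Fin 8 → Fin 8 → R} (h : D.IsP v w)
    (h' : D.IsP v' w') {c : R}
    (hc : ∀ a, ∑ m, (w' m a * v m + w m a * v' m) = c * D.f a) (i : Fin 8) (x : Vec T) :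
    om (D.sv T i v' w') (p3 (D.sv T i v w)) x + om (D.sv T i v w) (p3 (D.sv T i v' w')) x =
      algebraMap R T c * ∑ a, algebraMap R T (D.f a) * x a := by
  rw [Dat.om_sv h', Dat.om_sv h, Dat.p3_sv, Dat.p3_sv, Finset.sum_comm,
    Finset.sum_comm (f := fun a b => D.wh T i v w a b * (algebraMap R T (v' a) * x b)),
    ← Finset.sum_add_distrib, Finset.mul_sum]
  refine Finset.sum_congr rfl fun b _ => ?_
  have h1 := congrArg (algebraMap R T) (hc b)
  simp only [map_sum, map_add, map_mul] at h1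
  have h2 : ∑ a, ∑ m, (algebraMap R T (v' m) * D.mu (T := T) i m a b * algebraMap R T (v a) +
      algebraMap R T (v m) * D.mu (T := T) i m a b * algebraMap R T (v' a)) = 0 := by
    have h3 : ∑ a, ∑ m, algebraMap R T (v' m) * D.mu (T := T) i m a b * algebraMap R T (v a) =
        - ∑ a, ∑ m, algebraMap R T (v m) * D.mu (T := T) i m a b * algebraMap R T (v' a) := by
      rw [Finset.sum_comm, ← Finset.sum_neg_distrib]
      refine Finset.sum_congr rfl fun a _ => ?_
      rw [← Finset.sum_neg_distrib]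
      refine Finset.sum_congr rfl fun m _ => ?_
      rw [D.mu_swap' i a m b]
      ring
    simp only [Finset.sum_add_distrib]
    rw [h3, neg_add_cancel]
  have h4 : ∑ a, D.wh T i v' w' a b * (algebraMap R T (v a) * x b) +
      ∑ a, D.wh T i v w a b * (algebraMap R T (v' a) * x b) =
      (∑ m, (algebraMap R T (w' m b) * algebraMap R T (v m) +
        algebraMap R T (w m b) * algebraMap R T (v' m))) * x b +
      (∑ a, ∑ m, (algebraMap R T (v' m) * D.mu (T := T) i m a b * algebraMap R T (v a) +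
      algebraMap R T (v m) * D.mu (T := T) i m a b * algebraMap R T (v' a))) * x b := by
    rw [← Finset.sum_add_distrib, Finset.sum_mul, Finset.sum_mul, ← Finset.sum_add_distrib]
    refine Finset.sum_congr rfl fun a _ => ?_
    rw [Finset.sum_add_distrib, ← Finset.sum_mul, ← Finset.sum_mul]
    simp only [Dat.wh]
    ring
  rw [h4, h2, h1]
  ring

end dat

end Pool.Agent.Licci

end

section

/-!
# Module L11c: the frames
-/

namespace Pool.Agent.Licci

open scoped BigOperators
open U (Sup)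
open Module RingTheory.Sequence IsLocalRing

universe u

namespace UD

section frame

variable {A : Type u} [CommRing A] [Algebra ℚ A]

/-- the matrix unit `(i, 0)` (zero for `i = 0`) -/
noncomputable def fx1 (i : Fin 8) (c : A) : E8 A := if i = 0 then 0 else c • Eg i 0

/-- the row -/
noncomputable def fx2 (t : Fin 8 → A) : E8 A := ∑ j : Fin 7, t j.succ • Eg 0 j.succ

theorem fx1_nil (i : Fin 8) (c : A) : (brL (fx1 i c)) ^ 7 = 0 := by
  rw [fx1]
  split_ifs with h
  · rw [map_zero]
    exact zero_pow (by norm_num)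
  · exact unit_nil h c

theorem fx2_nil (t : Fin 8 → A) : (brL (fx2 t)) ^ 7 = 0 := row_nil t

theorem fx1_p3 {i : Fin 8} {c : A} (hc : i = 0 → c = 0) (Y : E8 A) :
    p3 (ex (fx1 i c) Y) = p3 Y + Pi.single i (c * p3 Y 0) := by
  rw [fx1]
  split_ifs with h
  · rw [ex_zero, hc h, zero_mul, Pi.single_zero, add_zero]
    rfl
  · exact unit_p3 h c Y

theorem fx1_om {i : Fin 8} {c : A} (hc : i = 0 → c = 0) (Y : E8 A) (x y : Vec A) :
    om (ex (fx1 i c) Y) (x + Pi.single i (c * x 0)) (y + Pi.single i (c * y 0)) = om Y x y := by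
  rw [fx1]
  split_ifs with h
  · rw [ex_zero, hc h, zero_mul, zero_mul, Pi.single_zero, add_zero, add_zero]
    rfl
  · exact unit_om h c Y x y

theorem fx1_sup (i : Fin 8) (c : A) : Sup zdg 0 (fx1 i c) := by
  intro m hm
  rw [fx1]
  split_ifs with h
  · rfl
  · rw [Pi.smul_apply, Eg_zdg h m hm, smul_zero]

theorem fx2_sup (t : Fin 8 → A) : Sup zdg 0 (fx2 t) := by
  intro m hm
  rw [fx2, Finset.sum_apply]
  refine Finset.sum_eq_zero fun j _ => ?_
  rw [Pi.smul_apply, Eg_zdg (Fin.succ_ne_zero j).symm m hm, smul_zero]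

/-- exponentials of degree `0` preserve degrees `≥ 2` -/
theorem ex_low {x : E8 A} (hx : Sup zdg 0 x) {Y : E8 A} (hY : ∀ m, zdg m < 2 → Y m = 0) :
    ∀ m, zdg m < 2 → ex x Y m = 0 := by
  intro m hm
  rw [eq_V3_W2 hY, map_add, Pi.add_apply, ex_sup_zdg hx (V3_sup _) m (by omega),
    ex_sup_zdg hx (W2_sup _) m (by omega), add_zero]

end frame

section mem

variable {R : Type u} [CommRing R] {T : Type u} [CommRing T] [Algebra R T] (S : Subalgebra R T)

theorem smul_eb_mem {c : T} (hc : c ∈ S) (n m : Fin 248) : (c • eb n : E8 T) m ∈ S := by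
  rw [Pi.smul_apply, eb_apply, smul_eq_mul]
  split_ifs
  · rwa [mul_one]
  · rw [mul_zero]
    exact S.zero_mem

theorem M1_mem {μ : Fin 8 → Fin 8 → Fin 8 → T} (h : ∀ i j k, μ i j k ∈ S) (m : Fin 248) :
    M1 μ m ∈ S := by
  rw [M1, Finset.sum_apply]
  refine S.sum_mem fun i _ => ?_
  rw [Finset.sum_apply]
  refine S.sum_mem fun j _ => ?_
  rw [Finset.sum_apply]
  refine S.sum_mem fun k _ => ?_
  split_ifs
  · exact smul_eb_mem S (S.mul_mem (S.intCast_mem _) (h i j k)) _ _
  · exact S.zero_mem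

theorem smul_Eg_mem {c : T} (hc : c ∈ S) (i j : Fin 8) (m : Fin 248) :
    (c • Eg i j : E8 T) m ∈ S := by
  rw [Eg, smul_smul]
  exact smul_eb_mem S (S.mul_mem hc (S.intCast_mem _)) _ _

theorem fx1_mem {c : T} (hc : c ∈ S) (i : Fin 8) (m : Fin 248) : fx1 i c m ∈ S := by
  rw [fx1]
  split_ifs
  · exact S.zero_mem
  · exact smul_Eg_mem S hc _ _ _

theorem fx2_mem {t : Fin 8 → T} (ht : ∀ j, t j ∈ S) (m : Fin 248) : fx2 t m ∈ S := by
  rw [fx2, Finset.sum_apply]
  exact S.sum_mem fun j _ => smul_Eg_mem S (ht _) _ _ _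

end mem

section main

variable {R : Type u} [CommRing R] {T : Type u} [CommRing T] [Algebra R T] [Algebra ℚ T]

/-- the frame -/
noncomputable def frm (u : Tˣ) (t : Fin 8 → T) (i : Fin 8) (c : T) (a l : E8 T) :
    E8 T →ₗ[T] E8 T :=
  tor 0 u⁻¹ ∘ₗ ex (fx2 t) ∘ₗ ex (fx1 i c) ∘ₗ ex a ∘ₗ ex l

/-- its inverse -/
noncomputable def frm' (u : Tˣ) (t : Fin 8 → T) (i : Fin 8) (c : T) (a l : E8 T) :
    E8 T →ₗ[T] E8 T :=
  ex (-l) ∘ₗ ex (-a) ∘ₗ ex (-fx1 i c) ∘ₗ ex (-fx2 t) ∘ₗ tor 0 u

theorem frm_frm' (u : Tˣ) (t : Fin 8 → T) (i : Fin 8) (c : T) {a l : E8 T}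
    (ha : (brL a) ^ 7 = 0) (hl : (brL l) ^ 7 = 0) :
    frm u t i c a l ∘ₗ frm' u t i c a l = LinearMap.id := by
  refine LinearMap.ext fun Y => ?_
  simp only [frm, frm', LinearMap.comp_apply, LinearMap.id_apply]
  rw [ex_ex_neg hl, ex_ex_neg ha, ex_ex_neg (fx1_nil i c), ex_ex_neg (fx2_nil t),
    tor_inv]

theorem frm'_frm (u : Tˣ) (t : Fin 8 → T) (i : Fin 8) (c : T) {a l : E8 T}
    (ha : (brL a) ^ 7 = 0) (hl : (brL l) ^ 7 = 0) :
    frm' u t i c a l ∘ₗ frm u t i c a l = LinearMap.id := by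
  refine LinearMap.ext fun Y => ?_
  simp only [frm, frm', LinearMap.comp_apply, LinearMap.id_apply]
  have h := tor_inv 0 u⁻¹ (ex (fx2 t) (ex (fx1 i c) (ex a (ex l Y))))
  rw [inv_inv] at h
  rw [h, ex_neg_ex (fx2_nil t), ex_neg_ex (fx1_nil i c), ex_neg_ex ha,
    ex_neg_ex hl]

theorem frm_isAut (u : Tˣ) (t : Fin 8 → T) (i : Fin 8) (c : T) {a l : E8 T}
    (ha : (brL a) ^ 7 = 0) (hl : (brL l) ^ 7 = 0) : IsAut (frm u t i c a l) :=
  isAut_comp (tor_isAut 0 u⁻¹) (isAut_comp (ex_isAut (fx2_nil t))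
    (isAut_comp (ex_isAut (fx1_nil i c)) (isAut_comp (ex_isAut ha) (ex_isAut hl))))

theorem frm_mem [Algebra ℚ R] (S : Subalgebra R T) {u : Tˣ} (h1 : ((u⁻¹ : Tˣ) : T) ∈ S)
    (h2 : (u : T) ∈ S) {t : Fin 8 → T} (ht : ∀ j, t j ∈ S) (i : Fin 8) {c : T} (hc : c ∈ S)
    {a l : E8 T} (ha : ∀ m, a m ∈ S) (hl : ∀ m, l m ∈ S) {Y : E8 T} (hY : ∀ m, Y m ∈ S)
    (m : Fin 248) : frm u t i c a l Y m ∈ S := by
  simp only [frm, LinearMap.comp_apply]
  refine tor_mem S 0 u⁻¹ h1 (by rwa [inv_inv]) ?_ m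
  exact ex_mem S (fx2_mem S ht) (ex_mem S (fx1_mem S hc i) (ex_mem S ha (ex_mem S hl hY)))

theorem neg_mem' (S : Subalgebra R T) {x : E8 T} (hx : ∀ m, x m ∈ S) (m : Fin 248) :
    (-x) m ∈ S := S.neg_mem (hx m)

theorem frm'_mem [Algebra ℚ R] (S : Subalgebra R T) {u : Tˣ} (h1 : ((u⁻¹ : Tˣ) : T) ∈ S)
    (h2 : (u : T) ∈ S) {t : Fin 8 → T} (ht : ∀ j, t j ∈ S) (i : Fin 8) {c : T} (hc : c ∈ S)
    {a l : E8 T} (ha : ∀ m, a m ∈ S) (hl : ∀ m, l m ∈ S) {Y : E8 T} (hY : ∀ m, Y m ∈ S)
    (m : Fin 248) : frm' u t i c a l Y m ∈ S := by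
  simp only [frm', LinearMap.comp_apply]
  refine ex_mem S (neg_mem' S hl) (ex_mem S (neg_mem' S ha) (ex_mem S (neg_mem' S (fx1_mem S hc i))
    (ex_mem S (neg_mem' S (fx2_mem S ht)) ?_))) m
  exact tor_mem S 0 u h2 h1 hY

theorem toMatrix'_mulVec (g : E8 T →ₗ[T] E8 T) (x : E8 T) :
    (LinearMap.toMatrix' g).mulVec x = g x := by
  rw [← Matrix.toLin'_apply, Matrix.toLin'_toMatrix']

end main

section vec

variable {A : Type u} [CommRing A] [Algebra ℚ A]

/-- `P_1 v` -/
def pv1 (i : Fin 8) (c : A) (x : Vec A) : Vec A := x + Pi.single i (c * x 0)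

/-- `P_2 v` -/
def pv2 (t : Fin 8 → A) (x : Vec A) : Vec A :=
  x + Pi.single 0 (∑ j : Fin 7, t j.succ * x j.succ)

theorem two_p3 {i : Fin 8} {c : A} (hc : i = 0 → c = 0) (t : Fin 8 → A) (Y : E8 A) :
    p3 (ex (fx2 t) (ex (fx1 i c) Y)) = pv2 t (pv1 i c (p3 Y)) := by
  have h := row_p3 t (ex (fx1 i c) Y)
  rw [fx1_p3 hc] at h
  exact h

theorem two_om {i : Fin 8} {c : A} (hc : i = 0 → c = 0) (t : Fin 8 → A) (Y : E8 A) (x y : Vec A) :
    om (ex (fx2 t) (ex (fx1 i c) Y)) (pv2 t (pv1 i c x)) (pv2 t (pv1 i c y)) = om Y x y := by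
  have h := row_om t (ex (fx1 i c) Y) (pv1 i c x) (pv1 i c y)
  refine h.trans (fx1_om hc Y x y)

/-- the first coordinate of `P_2 P_1 x` -/
theorem two_zero {i : Fin 8} (f : Fin 8 → A) (hi : IsUnit (f i)) (x : Vec A) :
    f i * pv2 (fun j => Ring.inverse (f i) * f j) (pv1 i (Ring.inverse (f i) * f 0 - 1) x) 0 =
      ∑ m, f m * x m := by
  have hu : f i * Ring.inverse (f i) = 1 := Ring.mul_inverse_cancel _ hi
  have hc : f i * (Ring.inverse (f i) * f 0 - 1) = f 0 - f i := by
    rw [mul_sub, ← mul_assoc, hu]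
    ring
  set c : A := Ring.inverse (f i) * f 0 - 1
  have h1 : f i * (∑ j : Fin 7, Ring.inverse (f i) * f j.succ * pv1 i c x j.succ) =
      ∑ j : Fin 7, f j.succ * pv1 i c x j.succ := by
    rw [Finset.mul_sum]
    refine Finset.sum_congr rfl fun j _ => ?_
    rw [← mul_assoc, ← mul_assoc, hu, one_mul]
  have h2 : ∑ m, f m * pv1 i c x m = ∑ m, f m * x m + (f 0 - f i) * x 0 := by
    have h3 : ∀ m, f m * pv1 i c x m = f m * x m + if i = m then f i * (c * x 0) else 0 := by
      intro m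
      rw [pv1, Pi.add_apply, mul_add, Pi.single_apply]
      by_cases h : m = i
      · rw [if_pos h, if_pos h.symm, h]
      · rw [if_neg h, if_neg (Ne.symm h), mul_zero]
    rw [Finset.sum_congr rfl fun m _ => h3 m, Finset.sum_add_distrib, Finset.sum_ite_eq,
      if_pos (Finset.mem_univ _), ← mul_assoc, hc]
  rw [Fin.sum_univ_succ (fun m => f m * pv1 i c x m)] at h2
  rw [pv2, Pi.add_apply, Pi.single_eq_same, mul_add, h1]
  have h4 : f i * pv1 i c x 0 - f 0 * pv1 i c x 0 = (f i - f 0) * x 0 := by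
    rw [pv1, Pi.add_apply, Pi.single_apply]
    by_cases h : (0 : Fin 8) = i
    · rw [← h]
      ring
    · rw [if_neg h]
      ring
  linear_combination h2 + h4

/-- surjectivity of `P_2 P_1` -/
theorem two_surj (i : Fin 8) (c : A) (hc : i = 0 → c = 0) (t : Fin 8 → A) (y : Vec A) :
    ∃ x, pv2 t (pv1 i c x) = y := by
  have s2 : ∃ z, pv2 t z = y := by
    refine ⟨y - Pi.single 0 (∑ j : Fin 7, t j.succ * y j.succ), ?_⟩
    rw [pv2]
    have : ∀ j : Fin 7, (y - Pi.single 0 (∑ j : Fin 7, t j.succ * y j.succ) : Vec A) j.succ =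
        y j.succ := by
      intro j
      rw [Pi.sub_apply, Pi.single_eq_of_ne (Fin.succ_ne_zero j), sub_zero]
    simp only [this, sub_add_cancel]
  obtain ⟨z, hz⟩ := s2
  refine ⟨z - Pi.single i (c * z 0), ?_⟩
  rw [← hz, pv1]
  congr 1
  by_cases h : i = 0
  · simp [hc h]
  · have : (z - Pi.single i (c * z 0) : Vec A) 0 = z 0 := by
      rw [Pi.sub_apply, Pi.single_eq_of_ne (Ne.symm h), sub_zero]
    rw [this, sub_add_cancel]

end vec

end UD

open UD

section main2

variable {R : Type u} [CommRing R] {T : Type u} [CommRing T] [Algebra R T] [Algebra ℚ T]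

/-- the moved standard vector -/
noncomputable def Dat.yv (D : Dat R) (T : Type u) [CommRing T] [Algebra R T] [Algebra ℚ T]
    (i : Fin 8) (v : Vec R) (w : Fin 8 → Fin 8 → R) : E8 T :=
  ex (fx2 fun j => Ring.inverse (algebraMap R T (D.f i)) * algebraMap R T (D.f j))
    (ex (fx1 i (Ring.inverse (algebraMap R T (D.f i)) * algebraMap R T (D.f 0) - 1))
      (D.sv T i v w))

theorem Dat.hc0 (D : Dat R) {i : Fin 8} (hi : IsUnit (algebraMap R T (D.f i))) :
    i = 0 → Ring.inverse (algebraMap R T (D.f i)) * algebraMap R T (D.f 0) - 1 = 0 := by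
  rintro rfl
  rw [Ring.inverse_mul_cancel _ hi, sub_self]

theorem Dat.yv_p3_zero {D : Dat R} {v : Vec R} {w : Fin 8 → Fin 8 → R} (h : D.IsP v w)
    {i : Fin 8} (hi : IsUnit (algebraMap R T (D.f i))) : p3 (D.yv T i v w) 0 = 0 := by
  rw [Dat.yv, two_p3 (D.hc0 hi), D.p3_sv]
  apply (hi.mul_right_eq_zero).1
  have h1 := two_zero (fun j => algebraMap R T (D.f j)) hi (fun a => algebraMap R T (v a))
  exact h1.trans (Dat.f_v h)

theorem Dat.yv_w2 {D : Dat R} {v : Vec R} {w : Fin 8 → Fin 8 → R} (h : D.IsP v w)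
    {i : Fin 8} (hi : IsUnit (algebraMap R T (D.f i))) (a b : Fin 8) (ha : a ≠ 0) (hb : b ≠ 0) :
    w2 (D.yv T i v w) a b = 0 := by
  obtain ⟨x, hx⟩ := two_surj i _ (D.hc0 hi)
    (fun j => Ring.inverse (algebraMap R T (D.f i)) * algebraMap R T (D.f j)) (Pi.single a 1)
  obtain ⟨y, hy⟩ := two_surj i _ (D.hc0 hi)
    (fun j => Ring.inverse (algebraMap R T (D.f i)) * algebraMap R T (D.f j)) (Pi.single b 1)
  rw [← om_single, Dat.yv, ← hx, ← hy, two_om (D.hc0 hi), Dat.om_sv h]
  refine Dat.wh_ker h hi x y ?_ ?_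
  · rw [← two_zero (fun j => algebraMap R T (D.f j)) hi x, hx, Pi.single_eq_of_ne (Ne.symm ha),
      mul_zero]
  · rw [← two_zero (fun j => algebraMap R T (D.f j)) hi y, hy, Pi.single_eq_of_ne (Ne.symm hb),
      mul_zero]

theorem Dat.yv_sup {D : Dat R} {v : Vec R} {w : Fin 8 → Fin 8 → R} (h : D.IsP v w)
    {i : Fin 8} (hi : IsUnit (algebraMap R T (D.f i))) : Sup xdg 2 (D.yv T i v w) :=
  sup_xdg_two (ex_low (fx2_sup _) (ex_low (fx1_sup _ _) (D.sv_low i v w)))
    (Dat.yv_p3_zero h hi) (fun a b ha hb => Dat.yv_w2 h hi a b ha hb)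

theorem Dat.yv_B0 {D : Dat R} {v v' : Vec R} {w w' : Fin 8 → Fin 8 → R} (h : D.IsP v w)
    (h' : D.IsP v' w') {c : R}
    (hc : ∀ a, ∑ m, (w' m a * v m + w m a * v' m) = c * D.f a)
    {i : Fin 8} (hi : IsUnit (algebraMap R T (D.f i))) :
    B0 (D.yv T i v w) (D.yv T i v' w') = algebraMap R T c * algebraMap R T (D.f i) := by
  have h1 := Th_std (Dat.yv_sup (T := T) h hi) (Dat.yv_sup (T := T) h' hi) (Pi.single 0 1)
  rw [Pi.single_eq_same, mul_one] at h1
  rw [← h1, Th]
  obtain ⟨x, hx⟩ := two_surj i _ (D.hc0 hi)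
    (fun j => Ring.inverse (algebraMap R T (D.f i)) * algebraMap R T (D.f j)) (Pi.single 0 1)
  rw [← hx]
  have e1 : p3 (D.yv T i v w) = pv2 _ (pv1 i _ (p3 (D.sv T i v w))) := two_p3 (D.hc0 hi) _ _
  have e2 : p3 (D.yv T i v' w') = pv2 _ (pv1 i _ (p3 (D.sv T i v' w'))) := two_p3 (D.hc0 hi) _ _
  rw [e1, e2, Dat.yv, Dat.yv, two_om (D.hc0 hi), two_om (D.hc0 hi), Dat.pair_sv h h' hc,
    ← two_zero (fun j => algebraMap R T (D.f j)) hi x, hx, Pi.single_eq_same, mul_one]

/-- the frames -/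
theorem exists_udata {R : Type u} [CommRing R] [IsLocalRing R] [IsNoetherianRing R] [Algebra ℚ R]
    {T : Type u} [CommRing T] [Algebra R T] [Algebra ℚ T] (C : U.Cov R T)
    (hm : ∀ i, C.f i ∈ maximalIdeal R) (hreg : IsWeaklyRegular R [C.f 0, C.f 1, C.f 2])
    (D : Dat R) (hf : ∀ i : Fin 3, D.f (Fin.castLE (by norm_num) i) = C.f i)
    (v : Fin 14 → Vec R) (w : Fin 14 → Fin 8 → Fin 8 → R) (hvw : ∀ l, D.IsP (v l) (w l))
    (M : Matrix (Fin 14) (Fin 14) R) (hMs : M.transpose = M) (hMu : IsUnit M.det)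
    (hM : ∀ k l a, ∑ m, (w l m a * v k m + w k m a * v l m) = M k l * D.f a) :
    ∃ W : U.UData xtab C, W.M = M ∧ (∀ l, p3 (W.γ l) = v l) ∧ ∀ l a b, w2 (W.γ l) a b = w l a b := by
  obtain ⟨l, hl, hlm, hγ⟩ := glue C hm hreg D hf
  choose γ g1 g2 g3 using fun k => hγ (v k) (w k) (hvw k)
  have hu : ∀ i : Fin 3, IsUnit (algebraMap R T (D.f (Fin.castLE (by norm_num) i))) := by
    intro i
    rw [hf]
    exact C.unit i
  have hinv : ∀ i : Fin 3,
      Ring.inverse (algebraMap R T (D.f (Fin.castLE (by norm_num) i))) ∈ C.R1 i := by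
    intro i
    refine ⟨1, 1, ?_⟩
    rw [pow_one, ← hf, Ring.mul_inverse_cancel _ (hu i), map_one]
  set i8 : Fin 3 → Fin 8 := fun i => Fin.castLE (by norm_num) i with hi8
  have nl : ∀ i, (brL (l i)) ^ 7 = 0 := fun i =>
    ad_nil_neg fun m hm => hl i m (by omega)
  have na : ∀ i, (brL (M1 (D.mu (T := T) (i8 i)))) ^ 7 = 0 := fun i =>
    ad_nil_neg fun m hm => M1_sup _ m (by omega)
  have ht : ∀ i j, Ring.inverse (algebraMap R T (D.f (i8 i))) * algebraMap R T (D.f j) ∈ C.R1 i :=
    fun i j => (C.R1 i).mul_mem (hinv i) ((C.R1 i).algebraMap_mem _)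
  have hcm : ∀ i, Ring.inverse (algebraMap R T (D.f (i8 i))) * algebraMap R T (D.f 0) - 1 ∈
      C.R1 i := fun i => (C.R1 i).sub_mem (ht i 0) (C.R1 i).one_mem
  have ham : ∀ i m, M1 (D.mu (T := T) (i8 i)) m ∈ C.R1 i := fun i =>
    M1_mem _ fun a b c => (C.R1 i).mul_mem (hinv i) ((C.R1 i).algebraMap_mem _)
  have hui : ∀ i, (((hu i).unit⁻¹ : Tˣ) : T) ∈ C.R1 i := by
    intro i
    have : (((hu i).unit⁻¹ : Tˣ) : T) = Ring.inverse (algebraMap R T (D.f (i8 i))) := by
      rw [Ring.inverse_of_isUnit (hu i)]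
    rw [this]
    exact hinv i
  have hui' : ∀ i, (((hu i).unit : Tˣ) : T) ∈ C.R1 i := by
    intro i
    rw [IsUnit.unit_spec]
    exact (C.R1 i).algebraMap_mem _
  set G : Fin 3 → E8 T →ₗ[T] E8 T := fun i => frm (hu i).unit
    (fun j => Ring.inverse (algebraMap R T (D.f (i8 i))) * algebraMap R T (D.f j)) (i8 i)
    (Ring.inverse (algebraMap R T (D.f (i8 i))) * algebraMap R T (D.f 0) - 1)
    (M1 (D.mu (T := T) (i8 i))) (l i) with hG
  set G' : Fin 3 → E8 T →ₗ[T] E8 T := fun i => frm' (hu i).unit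
    (fun j => Ring.inverse (algebraMap R T (D.f (i8 i))) * algebraMap R T (D.f j)) (i8 i)
    (Ring.inverse (algebraMap R T (D.f (i8 i))) * algebraMap R T (D.f 0) - 1)
    (M1 (D.mu (T := T) (i8 i))) (l i) with hG'
  have g3' : ∀ k i, ex (M1 (D.mu (T := T) (i8 i))) (ex (l i) (algebraMap R T ∘ γ k)) =
      D.sv T (i8 i) (v k) (w k) := fun k i => g3 k i
  have hGγ : ∀ i k, G i (algebraMap R T ∘ γ k) =
      tor 0 (hu i).unit⁻¹ (D.yv T (i8 i) (v k) (w k)) := by
    intro i k
    simp only [hG, frm, LinearMap.comp_apply]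
    rw [g3' k i, Dat.yv]
  have single_mem : ∀ (S : Subalgebra R T) (b m : Fin 248), (Pi.single b (1 : T) : E8 T) m ∈ S := by
    intro S b m
    rw [Pi.single_apply]
    split_ifs
    · exact S.one_mem
    · exact S.zero_mem
  refine ⟨{ G := fun i => LinearMap.toMatrix' (G i)
            G' := fun i => LinearMap.toMatrix' (G' i)
            GG' := fun i => ?_
            G'G := fun i => ?_
            hG := fun i a b => ?_
            hG' := fun i a b => ?_
            hom := fun i x y => ?_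
            γ := γ
            hγ := fun i k => ?_
            M := M
            hMs := hMs
            hMu := hMu
            hM := fun i k k' => ?_ }, rfl, g1, g2⟩
  · rw [← LinearMap.toMatrix'_comp, hG, hG']
    dsimp only
    rw [frm_frm' _ _ _ _ (na i) (nl i), LinearMap.toMatrix'_id]
  · rw [← LinearMap.toMatrix'_comp, hG, hG']
    dsimp only
    rw [frm'_frm _ _ _ _ (na i) (nl i), LinearMap.toMatrix'_id]
  · rw [LinearMap.toMatrix'_apply]
    exact frm_mem (C.R1 i) (hui i) (hui' i) (ht i) _ (hcm i) (ham i) (hlm i)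
      (fun m => by simpa [Pi.single_apply] using single_mem (C.R1 i) b m) a
  · rw [LinearMap.toMatrix'_apply]
    exact frm'_mem (C.R1 i) (hui i) (hui' i) (ht i) _ (hcm i) (ham i) (hlm i)
      (fun m => by simpa [Pi.single_apply] using single_mem (C.R1 i) b m) a
  · rw [toMatrix'_mulVec, toMatrix'_mulVec, toMatrix'_mulVec]
    rw [xtab_br, xtab_br]
    exact (frm_isAut _ _ _ _ (na i) (nl i)).map_br x y
  · rw [toMatrix'_mulVec, hGγ]
    exact tor_sup 0 _ (Dat.yv_sup (hvw k) (hu i))
  · rw [toMatrix'_mulVec, toMatrix'_mulVec, hGγ, hGγ, qf_eq_B0, tor_B0,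
      Dat.yv_B0 (hvw k) (hvw k') (hM k k') (hu i)]
    have : (((hu i).unit⁻¹ : Tˣ) : T) * algebraMap R T (D.f (i8 i)) = 1 := (hu i).val_inv_mul
    linear_combination (- algebraMap R T (M k k')) * this

end main2

end Pool.Agent.Licci

end

section

/-!
# Module P, part 6: Lie algebra computations
-/

set_option linter.unusedSectionVars false

namespace Pool.Agent.Licci.P

open scoped BigOperators
open U (Sup)

section

variable {A : Type*} [CommRing A]

theorem br_assoc_of {a F m : E8 A} (h : br a F = 0) : br a (br m F) = br (br a m) F := by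
  rw [jacobi, h, br_zero_right, add_zero]

/-- comparison in degree `1` -/
theorem step_one {n m F : E8 A} (h : br n F = br m F) :
    br n (br n F) - br m (br m F) = br (br (n - m) m) F := by
  have ha : br (n - m) F = 0 := by rw [br_sub_left, h, sub_self]
  rw [← br_assoc_of ha, br_sub_left, h]

end

section

variable {A : Type*} [CommRing A] [Algebra ℚ A]

/-- the component of degree `1` of `exp (n₁ + n₂ + n₃) F` -/
def q1 (F n₁ n₂ : E8 A) : E8 A := br n₂ F + algebraMap ℚ A (1 / 2) • br n₁ (br n₁ F)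

/-- the component of degree `0` of `exp (n₁ + n₂) F` -/
def q0 (F n₁ n₂ : E8 A) : E8 A :=
  algebraMap ℚ A (1 / 2) • (br n₁ (br n₂ F) + br n₂ (br n₁ F)) +
    algebraMap ℚ A (1 / 6) • br n₁ (br n₁ (br n₁ F))

/-- comparison in degree `0` -/
theorem step_two {F n m n₂ m₂ : E8 A} (h : br n F = br m F) (h2 : q1 F n n₂ = q1 F m m₂) :
    ∃ c : E8 A, q0 F n n₂ - q0 F m m₂ = br c F ∧
      c = br ((n₂ - m₂) + algebraMap ℚ A (1 / 2) • br (n - m) m) m +
        algebraMap ℚ A (1 / 6) • br (n + m) (br (n - m) m) +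
        algebraMap ℚ A (1 / 2) • (br n n₂ - br m m₂) := by
  refine ⟨_, ?_, rfl⟩
  set a := n - m with ha
  set b := br a m with hb
  set Z := br m F with hZ
  set hf := algebraMap ℚ A (1 / 2) with hhf
  set sx := algebraMap ℚ A (1 / 6) with hsx
  have e2 : hf + hf = 1 := by
    rw [hhf, ← map_add]
    norm_num
  have e6 : sx + sx + sx = hf := by
    rw [hhf, hsx, ← map_add, ← map_add]
    norm_num
  have aF : br a F = 0 := by rw [ha, br_sub_left, h, sub_self]
  have bF : br b F = br a Z := by rw [hb, ← br_assoc_of aF]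
  -- `[d, F] = - ½ [a, Z]`
  have dF : br (n₂ - m₂) F = - (hf • br a Z) := by
    unfold q1 at h2
    rw [h] at h2
    rw [br_sub_left, ha, br_sub_left, smul_sub]
    have := h2
    rw [← sub_eq_zero] at this ⊢
    rw [← this]
    abel
  have eF : br ((n₂ - m₂) + hf • b) F = 0 := by
    rw [br_add_left, dF, br_smul_left, bF]
    abel
  have eZ : br ((n₂ - m₂) + hf • b) Z = br (br ((n₂ - m₂) + hf • b) m) F := br_assoc_of eF
  -- `[m, [a, Z]] = [[m, b], F] + [b, Z]`
  have maZ : br m (br a Z) = br (br m b) F + br b Z := by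
    rw [← bF, jacobi]
  have anZ : br a (br n Z) = br b Z + br (br n b) F + br b Z := by
    have hn : br a n = b := by
      rw [hb, ha, br_sub_left, br_sub_left]
      have h1 := br_skew n m
      have h2 : br n n = 0 := br_self n
      have h3 : br m m = 0 := br_self m
      rw [h2, h3, h1]
      abel
    rw [jacobi a n Z, hn, ← bF, jacobi n b F, h]
    abel
  have hnn : br n (br n F) - br m (br m F) = br a Z := by
    rw [h, ← hZ, ha, br_sub_left]
  -- cubic terms
  have cub : br n (br n (br n F)) - br m (br m (br m F)) =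
      br b Z + br b Z + br b Z + br (br (n + m) b) F := by
    have e1 : br n (br n (br n F)) - br m (br m (br m F)) = br a (br n Z) + br m (br a Z) := by
      rw [h, ← hZ, ha, br_sub_left, br_sub_left, br_sub_right]
      abel
    rw [e1, anZ, maZ, br_add_left n m, br_add_left]
    abel
  have quad : (br n (br n₂ F) + br n₂ (br n F)) - (br m (br m₂ F) + br m₂ (br m F)) =
      br (br n n₂ - br m m₂) F + (br (n₂ - m₂) Z + br (n₂ - m₂) Z) := by
    rw [jacobi n n₂ F, jacobi m m₂ F, h, ← hZ, br_sub_left, br_sub_left]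
    abel
  have main : q0 F n n₂ - q0 F m m₂ =
      hf • (br (br n n₂ - br m m₂) F + (br (n₂ - m₂) Z + br (n₂ - m₂) Z)) +
        sx • (br b Z + br b Z + br b Z + br (br (n + m) b) F) := by
    unfold q0
    rw [← quad, ← cub]
    module
  have eZ' : br (n₂ - m₂) Z + hf • br b Z = br (br ((n₂ - m₂) + hf • b) m) F := by
    rw [← eZ, br_add_left, br_smul_left]
  have e3 : ∀ c1 c2 c3 : E8 A, br (c1 + sx • c2 + hf • c3) F = br c1 F + sx • br c2 F +
      hf • br c3 F := by
    intro c1 c2 c3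
    rw [br_add_left (c1 + sx • c2), br_add_left c1, br_smul_left, br_smul_left]
  rw [main, e3, ← eZ']
  have x2 : ∀ X : E8 A, hf • (X + X) = X := by
    intro X
    rw [smul_add, ← add_smul, e2, one_smul]
  have x3 : ∀ X : E8 A, sx • (X + X + X) = hf • X := by
    intro X
    rw [smul_add, smul_add, ← add_smul, ← add_smul, e6]
  rw [smul_add, smul_add sx, x2, x3]
  abel

theorem cancel_rat {r : ℚ} (hr : r ≠ 0) {X : E8 A} (h : algebraMap ℚ A r • X = 0) : X = 0 := by
  have h1 : algebraMap ℚ A r⁻¹ * algebraMap ℚ A r = 1 := by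
    rw [← map_mul, inv_mul_cancel₀ hr, map_one]
  calc X = algebraMap ℚ A r⁻¹ • (algebraMap ℚ A r • X) := by rw [smul_smul, h1, one_smul]
    _ = 0 := by rw [h, smul_zero]

/-- the algebraic core of the uniqueness -/
theorem cone_core {f : Vec A} {x y : E8 A} {s : A} (hs : IsUnit s)
    (hx : kap (V3 f) x = -s) (hyx : br y x = 0) (h : br y (br (V3 f) x) = (2 * s) • y) (i : Fin 8)
    (hi : IsUnit (f i)) : y = 0 := by
  set F : E8 A := V3 f with hF
  set κ := kap F y with hκ
  have h1 : br (br y F) x = (2 * s) • y := by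
    rw [← h, jacobi y F x, hyx, br_zero_right, add_zero]
  have h2 : br F (br F x) = (2 * s) • F := by
    rw [hF, V3_cone, ← hF, hx]
    congr 1
    ring
  have h3 : br F (br y F) = (2 * κ) • F := by
    rw [br_skew y F, br_neg_right, hF, V3_cone, ← hF, ← hκ, ← neg_smul]
    congr 1
    ring
  have h4 : br (br F x) y = -((2 * s) • y) := by rw [br_skew, h]
  have h5 : br (br F x) F = -((2 * s) • F) := by rw [br_skew, h2]
  have h6 : (2 * κ) • br F x + (6 * s) • br y F = 0 := by
    have e := congrArg (br F) h1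
    rw [jacobi F (br y F) x, h3, br_smul_left, br_smul_right, br_skew (br y F) (br F x),
      jacobi (br F x) y F, h4, h5, br_neg_left, br_neg_right, br_smul_left, br_smul_right,
      br_skew F y] at e
    have e' := sub_eq_zero.2 e
    rw [← e']
    module
  have h7 : (16 * (s * κ)) • F = 0 := by
    have e := congrArg (br F) h6
    rw [br_add_right, br_smul_right, br_smul_right, h2, h3, br_zero_right] at e
    rw [← e]
    module
  have hκ0 : κ = 0 := by
    have e := congrFun h7 (ix (i : ℕ))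
    rw [Pi.smul_apply, hF, V3_apply_ix, Pi.zero_apply, smul_eq_mul] at e
    have e16 : algebraMap ℚ A (1 / 16) * (16 : A) = 1 := by
      rw [← map_ofNat (algebraMap ℚ A) 16, ← map_mul]
      norm_num
    have e1 : s * κ * f i = 0 := by
      linear_combination (algebraMap ℚ A (1 / 16)) * e - (s * κ * f i) * e16
    exact (hs.mul_right_eq_zero).1 ((hi.mul_left_eq_zero).1 e1)
  rw [hκ0, mul_zero, zero_smul, zero_add] at h6
  have h8 : br y F = 0 := by
    obtain ⟨u, rfl⟩ := hs
    have e6 : algebraMap ℚ A (1 / 6) * (6 : A) = 1 := by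
      rw [← map_ofNat (algebraMap ℚ A) 6, ← map_mul]
      norm_num
    calc br y F = ((u⁻¹ : Aˣ) : A) • algebraMap ℚ A (1 / 6) • ((6 * (u : A)) • br y F) := by
          rw [smul_smul, smul_smul]
          conv_lhs => rw [← one_smul A (br y F)]
          congr 1
          have hu := u.inv_mul
          linear_combination (-1 : A) * hu - ((u⁻¹ : Aˣ) : A) * (u : A) * e6
      _ = 0 := by rw [h6, smul_zero, smul_zero]
  rw [h8, br_zero_left] at h1
  obtain ⟨u, rfl⟩ := hs
  have e2 : algebraMap ℚ A (1 / 2) * (2 : A) = 1 := by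
    rw [← map_ofNat (algebraMap ℚ A) 2, ← map_mul]
    norm_num
  calc y = ((u⁻¹ : Aˣ) : A) • algebraMap ℚ A (1 / 2) • ((2 * (u : A)) • y) := by
        rw [smul_smul, smul_smul]
        conv_lhs => rw [← one_smul A y]
        congr 1
        have hu := u.inv_mul
        linear_combination (-1 : A) * hu - ((u⁻¹ : Aˣ) : A) * (u : A) * e2
    _ = 0 := by rw [← h1, smul_zero, smul_zero]

theorem eb_sup (m : Fin 248) : Sup zdg (zdg m) (eb m : E8 A) := by
  intro b hb
  rw [eb_apply, if_neg]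
  rintro rfl
  exact hb rfl

theorem le_three (x : E8 A) : Le zdg 3 x := fun m hm => absurd (zdg_le m) (by omega)

/-- one step of the uniqueness: if two cone points agree in degrees `> d`, `d < 0`, and some
coordinate of degree `3` is a unit, then they agree in degree `d` -/
theorem cone_step {q q' : E8 A} (hq : ∀ x, br q (br q x) = (-2 * kap q x) • q)
    (hq' : ∀ x, br q' (br q' x) = (-2 * kap q' x) • q') {d : ℤ} (hd : d < 0)
    (h : ∀ m, d < zdg m → q m = q' m) (i : Fin 8) (hi : IsUnit (q (ix (i : ℕ)))) (m : Fin 248)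
    (hm : zdg m = d) : q m = q' m := by
  have hzd : ∀ i j k : Fin 248, sc i j k ≠ 0 → zdg i + zdg j = zdg k := fun _ _ _ h => sc_zdg h
  set x : E8 A := eb (ixm i) with hx
  have hxs : Sup zdg (-3) x := by
    have := eb_sup (A := A) (ixm i)
    rwa [zdg_ixm] at this
  have hxl : Le zdg (-3) x := fun b hb => hxs b (by omega)
  set F : E8 A := V3 (p3 q) with hF
  have hFl : Le zdg 3 F := le_three F
  have hqF : ∀ b, zdg b = 3 → q b = F b := by
    intro b hb
    obtain ⟨j, rfl⟩ := ix_surj b hb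
    rw [hF, V3_apply_ix]
    rfl
  have hq'F : ∀ b, zdg b = 3 → q' b = F b := by
    intro b hb
    rw [← hqF b hb, h b (by omega)]
  set y : E8 A := fun b => if zdg b = d then q b - q' b else 0 with hy
  have hys : Sup zdg d y := fun b hb => by rw [hy]; exact if_neg hb
  have hyl : Le zdg d y := fun b hb => hys b (by omega)
  have hδl : Le zdg d (q - q') := fun b hb => by rw [Pi.sub_apply, h b hb, sub_self]
  have hδy : ∀ b, zdg b = d → (q - q') b = y b := by
    intro b hb
    rw [hy]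
    change q b - q' b = if zdg b = d then q b - q' b else 0
    rw [if_pos hb]
  have hk : kap q x = - q (ix (i : ℕ)) := kap_ixm q i
  have hk' : kap q' x = - q (ix (i : ℕ)) := by
    rw [hx, kap_ixm, h _ (by rw [zdg_lt8]; omega)]
  have hE : br (q - q') (br q x) + br q' (br (q - q') x) = (2 * q (ix (i : ℕ))) • (q - q') := by
    have e1 := hq x
    have e2 := hq' x
    rw [hk] at e1
    rw [hk'] at e2
    rw [br_sub_left, br_sub_left, br_sub_right, e1, e2]
    module
  have hyx : br y x = 0 := by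
    have hs := Sup.br hzd hys hxs
    funext b
    refine hs b ?_
    change zdg b ≠ _
    have := zdg_ge b
    omega
  have hqx : Le zdg 0 (br q x) := by
    have := Le.br hzd (le_three q) hxl
    rwa [show (3 : ℤ) + -3 = 0 by norm_num] at this
  have hFx : Le zdg 0 (br F x) := by
    have := Le.br hzd hFl hxl
    rwa [show (3 : ℤ) + -3 = 0 by norm_num] at this
  have hqx0 : ∀ b, zdg b = 0 → br q x b = br F x b := fun b hb =>
    br_top hzd (le_three q) hxl hFl hxl hqF (fun _ _ => rfl) b (by rw [hb]; norm_num)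
  have hmain : br y (br F x) = (2 * q (ix (i : ℕ))) • y := by
    funext b
    by_cases hb : zdg b = d
    · have e := congrFun hE b
      rw [Pi.add_apply, Pi.smul_apply, hδy b hb] at e
      have e1 : br (q - q') (br q x) b = br y (br F x) b :=
        br_top hzd hδl hqx hyl hFx hδy hqx0 b (by omega)
      have hδx : Le zdg (d + -3) (br (q - q') x) := Le.br hzd hδl hxl
      have hyx' : Le zdg (d + -3) (br y x) := Le.br hzd hyl hxl
      have hδx0 : ∀ b, zdg b = d + -3 → br (q - q') x b = br y x b := fun b hb =>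
        br_top hzd hδl hxl hyl hxl hδy (fun _ _ => rfl) b hb
      have e2 : br q' (br (q - q') x) b = br F (br y x) b :=
        br_top hzd (le_three q') hδx hFl hyx' hq'F hδx0 b (by omega)
      rw [e1, e2, hyx, br_zero_right, Pi.zero_apply, add_zero] at e
      rw [e, Pi.smul_apply]
    · have hFs : Sup zdg (3 + -3) (br F x) := Sup.br hzd (V3_sup _) hxs
      have hs := Sup.br hzd hys hFs
      rw [Pi.smul_apply, hys b hb, smul_zero]
      refine hs b ?_
      change zdg b ≠ _
      omega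
  have hy0 : y = 0 := cone_core (f := p3 q) (x := x) hi
    (by
      rw [← hF, hF]
      have := kap_ixm (V3 (p3 q)) i
      rw [V3_apply_ix] at this
      exact this) hyx hmain i hi
  have := congrFun hy0 m
  rw [← hδy m hm, Pi.sub_apply, Pi.zero_apply, sub_eq_zero] at this
  exact this

/-- a cone point with a unit in degree `3` is determined by its components of degree `≥ 0` -/
theorem cone_unique {q q' : E8 A} (hq : ∀ x, br q (br q x) = (-2 * kap q x) • q)
    (hq' : ∀ x, br q' (br q' x) = (-2 * kap q' x) • q') (h : ∀ m, 0 ≤ zdg m → q m = q' m)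
    (i : Fin 8) (hi : IsUnit (q (ix (i : ℕ)))) : q = q' := by
  have h1 : ∀ m, -1 ≤ zdg m → q m = q' m := fun m hm => by
    rcases eq_or_lt_of_le hm with h0 | h0
    · exact cone_step hq hq' (d := -1) (by norm_num) (fun b hb => h b (by omega)) i hi m h0.symm
    · exact h m (by omega)
  have h2 : ∀ m, -2 ≤ zdg m → q m = q' m := fun m hm => by
    rcases eq_or_lt_of_le hm with h0 | h0
    · exact cone_step hq hq' (d := -2) (by norm_num) (fun b hb => h1 b (by omega)) i hi m h0.symm
    · exact h1 m (by omega)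
  funext m
  rcases eq_or_lt_of_le (zdg_ge m) with h0 | h0
  · exact cone_step hq hq' (d := -3) (by norm_num) (fun b hb => h2 b (by omega)) i hi m h0.symm
  · exact h2 m (by omega)

end

end Pool.Agent.Licci.P

end

section

/-!
# Module P, part 3: degree `1` and degree `-2` as alternating forms
-/

set_option linter.unusedSectionVars false

namespace Pool.Agent.Licci.P

open scoped BigOperators
open U (Sup)

set_option maxRecDepth 100000 in
theorem wtg_i1 : ∀ i j k : Fin 8, i < j → j < k → ∀ q, wtg q (i1 i j k) = 1 ↔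
    (q = i ∨ q = j ∨ q = k) := by
  decide +kernel

set_option maxRecDepth 100000 in
theorem wtg_im2 : ∀ i j : Fin 8, i < j → ∀ q, wtg q (im2 i j) = 0 ↔ (q = i ∨ q = j) := by
  decide +kernel

set_option maxRecDepth 100000 in
theorem i1_surj : ∀ m : Fin 248, zdg m = 1 → ∃ i j k : Fin 8, i < j ∧ j < k ∧ i1 i j k = m := by
  decide +kernel

set_option maxRecDepth 100000 in
theorem im2_surj : ∀ m : Fin 248, zdg m = -2 → ∃ i j : Fin 8, i < j ∧ im2 i j = m := by
  decide +kernel

theorem i1_inj {i j k i' j' k' : Fin 8} (h1 : i < j) (h2 : j < k) (h1' : i' < j') (h2' : j' < k')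
    (he : i1 i j k = i1 i' j' k') : i = i' ∧ j = j' ∧ k = k' := by
  have a1 := (wtg_i1 i' j' k' h1' h2' i).1
    (by rw [← he]; exact (wtg_i1 i j k h1 h2 i).2 (Or.inl rfl))
  have a2 := (wtg_i1 i' j' k' h1' h2' j).1
    (by rw [← he]; exact (wtg_i1 i j k h1 h2 j).2 (Or.inr (Or.inl rfl)))
  have a3 := (wtg_i1 i' j' k' h1' h2' k).1
    (by rw [← he]; exact (wtg_i1 i j k h1 h2 k).2 (Or.inr (Or.inr rfl)))
  omega

theorem im2_inj {i j i' j' : Fin 8} (h : i < j) (h' : i' < j') (he : im2 i j = im2 i' j') :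
    i = i' ∧ j = j' := by
  have h1 := (wtg_im2 i' j' h' i).1 (by rw [← he]; exact (wtg_im2 i j h i).2 (Or.inl rfl))
  have h2 := (wtg_im2 i' j' h' j).1 (by rw [← he]; exact (wtg_im2 i j h j).2 (Or.inr rfl))
  omega

section

variable {A : Type*} [CommRing A]

/-! ### linearity of `M1`, `W2` -/

/-- `M1` as a linear map -/
def M1L : (Fin 8 → Fin 8 → Fin 8 → A) →ₗ[A] E8 A where
  toFun := M1
  map_add' μ ν := by
    funext m
    rw [Pi.add_apply, M1_apply, M1_apply, M1_apply]
    simp only [← Finset.sum_add_distrib]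
    refine Finset.sum_congr rfl fun i _ => Finset.sum_congr rfl fun j _ =>
      Finset.sum_congr rfl fun k _ => ?_
    split_ifs
    · simp only [Pi.add_apply]
      ring
    · rw [add_zero]
  map_smul' c μ := by
    funext m
    rw [Pi.smul_apply, M1_apply, M1_apply, smul_eq_mul]
    simp only [Finset.mul_sum]
    refine Finset.sum_congr rfl fun i _ => Finset.sum_congr rfl fun j _ =>
      Finset.sum_congr rfl fun k _ => ?_
    split_ifs
    · simp only [Pi.smul_apply, smul_eq_mul, RingHom.id_apply]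
      ring
    · rw [mul_zero]

/-- `W2` as a linear map -/
def W2L : (Fin 8 → Fin 8 → A) →ₗ[A] E8 A where
  toFun := W2
  map_add' μ ν := by
    funext m
    rw [Pi.add_apply, W2_apply, W2_apply, W2_apply]
    simp only [← Finset.sum_add_distrib]
    refine Finset.sum_congr rfl fun i _ => Finset.sum_congr rfl fun j _ => ?_
    split_ifs
    · simp only [Pi.add_apply]
    · rw [add_zero]
  map_smul' c μ := by
    funext m
    rw [Pi.smul_apply, W2_apply, W2_apply, smul_eq_mul]
    simp only [Finset.mul_sum]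
    refine Finset.sum_congr rfl fun i _ => Finset.sum_congr rfl fun j _ => ?_
    split_ifs
    · simp only [Pi.smul_apply, smul_eq_mul, RingHom.id_apply]
    · rw [mul_zero]

@[simp] theorem M1L_apply (μ : Fin 8 → Fin 8 → Fin 8 → A) : M1L μ = M1 μ := rfl

@[simp] theorem W2L_apply (w : Fin 8 → Fin 8 → A) : W2L w = W2 w := rfl

theorem kap_M1 (Y : E8 A) (μ : Fin 8 → Fin 8 → Fin 8 → A) :
    kap Y (M1 μ) = - ∑ i : Fin 8, ∑ j : Fin 8, ∑ k : Fin 8,
      if i < j ∧ j < k then ((sg3 i j k : ℤ) : A) * μ i j k * Y (i1 i j k) else 0 := by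
  unfold M1
  simp only [map_sum, ← Finset.sum_neg_distrib]
  refine Finset.sum_congr rfl fun i _ => Finset.sum_congr rfl fun j _ =>
      Finset.sum_congr rfl fun k _ => ?_
  split_ifs with h
  · rw [map_smul, kap_im1 Y h.1 h.2, smul_eq_mul]
    ring
  · rw [map_zero, neg_zero]

theorem kap_W2 (Y : E8 A) (w : Fin 8 → Fin 8 → A) :
    kap Y (W2 w) = - ∑ i : Fin 8, ∑ j : Fin 8, if i < j then w i j * Y (im2 i j) else 0 := by
  unfold W2
  simp only [map_sum, ← Finset.sum_neg_distrib]
  refine Finset.sum_congr rfl fun i _ => Finset.sum_congr rfl fun j _ => ?_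
  split_ifs with h
  · rw [map_smul, kap_i2 Y h, smul_eq_mul]
    ring
  · rw [map_zero, neg_zero]

/-! ### `x ∧ y ∧ z` in degree `-1`, `x ∧ y` in degree `2` -/

/-- `x ∧ y ∧ z ∈ Λ³ F^*` -/
def D3 : (Vec A) [⋀^Fin 3]→ₗ[A] E8 A :=
  (M1L (A := A)).compAlternatingMap (AlternatingMap.pi fun a => AlternatingMap.pi fun p =>
    AlternatingMap.pi fun q =>
      (Matrix.detRowAlternating (R := A) (n := Fin 3)).compLinearMap (LinearMap.funLeft A A ![a, p, q]))

/-- `x ∧ y ∈ Λ² F^*` -/
def D2 : (Vec A) [⋀^Fin 2]→ₗ[A] E8 A :=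
  (W2L (A := A)).compAlternatingMap (AlternatingMap.pi fun p => AlternatingMap.pi fun q =>
      (Matrix.detRowAlternating (R := A) (n := Fin 2)).compLinearMap (LinearMap.funLeft A A ![p, q]))

/-- coefficients of `x ∧ y ∧ z` -/
def det3 (v : Fin 3 → Vec A) (a p q : Fin 8) : A :=
  v 0 a * v 1 p * v 2 q - v 0 a * v 1 q * v 2 p - v 0 p * v 1 a * v 2 q + v 0 p * v 1 q * v 2 a +
    v 0 q * v 1 a * v 2 p - v 0 q * v 1 p * v 2 a

/-- coefficients of `x ∧ y` -/
def det2 (v : Fin 2 → Vec A) (p q : Fin 8) : A := v 0 p * v 1 q - v 0 q * v 1 p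

theorem D3_apply (v : Fin 3 → Vec A) : D3 v = M1 (det3 v) := by
  unfold D3
  rw [LinearMap.compAlternatingMap_apply, M1L_apply]
  congr 1
  funext a p q
  change Matrix.det (Matrix.of fun i j => v i (![a, p, q] j)) = det3 v a p q
  rw [Matrix.det_fin_three]
  rfl

theorem D2_apply (v : Fin 2 → Vec A) : D2 v = W2 (det2 v) := by
  unfold D2
  rw [LinearMap.compAlternatingMap_apply, W2L_apply]
  congr 1
  funext p q
  change Matrix.det (Matrix.of fun i j => v i (![p, q] j)) = det2 v p q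
  rw [Matrix.det_fin_two]
  rfl

theorem br_D3_V3 (v : Fin 3 → Vec A) (f : Vec A) :
    br (D3 v) (V3 f) = ∑ i : Fin 3, ((-1 : A) ^ (i : ℕ) * dot f (v i)) • D2 (i.removeNth v) := by
  have hs : Sup zdg (-1 + 3) (br (D3 v) (V3 f)) := by
    rw [D3_apply]
    exact Sup.br (fun _ _ _ h => sc_zdg h) (M1_sup _) (V3_sup f)
  have h1 := eq_V3_W2 (Y := br (D3 v) (V3 f)) (fun m hm => hs m (by
    change zdg m ≠ _
    omega))
  have h2 : p3 (br (D3 v) (V3 f)) = 0 := by
    funext i
    refine hs _ ?_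
    change zdg (ix (i : ℕ)) ≠ _
    rw [zdg_lt8]
    norm_num
  have hV : V3 (0 : Vec A) = 0 := by
    rw [V3_eq_sum]
    simp
  rw [h2, hV, zero_add] at h1
  rw [h1]
  simp only [D2_apply, ← W2L_apply, ← map_smul, ← map_sum]
  congr 1
  funext p q
  have hM : Le zdg (-1) (D3 v : E8 A) := by
    rw [D3_apply]
    intro m hm
    exact M1_sup _ m (by omega)
  rw [w2_m1 hM, D3_apply]
  have e : ∀ a, t1 (M1 (det3 v)) a p q = det3 v a p q := by
    intro a
    refine t1_M1 _ ?_ ?_ ?_ a p q <;> intros <;> unfold det3 <;> ring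
  simp only [e, V3_apply_ix, Finset.sum_apply, Pi.smul_apply, smul_eq_mul, Fin.sum_univ_three]
  have r0 : (0 : Fin 3).removeNth v = ![v 1, v 2] := by
    funext i; fin_cases i <;> rfl
  have r1 : (1 : Fin 3).removeNth v = ![v 0, v 2] := by
    funext i; fin_cases i <;> rfl
  have r2 : (2 : Fin 3).removeNth v = ![v 0, v 1] := by
    funext i; fin_cases i <;> rfl
  rw [r0, r1, r2]
  simp only [det2, Matrix.cons_val_zero, Matrix.cons_val_one, dot, Finset.sum_mul, Finset.mul_sum,
    ← Finset.sum_add_distrib, det3]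
  refine Finset.sum_congr rfl fun a _ => ?_
  simp
  ring

end

section forms

variable {R K : Type*} [CommRing R] [CommRing K] [Algebra R K]

/-- `Vec R → Vec K` -/
def emL (R K : Type*) [CommRing R] [CommRing K] [Algebra R K] : Vec R →ₗ[R] Vec K :=
  (Algebra.linearMap R K).compLeft (Fin 8)

theorem emL_apply (v : Vec R) (i : Fin 8) : emL R K v i = algebraMap R K (v i) := rfl

/-- the linear form `x ↦ ∑ f_i x_i` -/
def fL (f : Vec R) : Vec R →ₗ[R] R := Fintype.linearCombination R f

theorem fL_apply (f x : Vec R) : fL f x = dot f x := by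
  simp only [fL, Fintype.linearCombination_apply, dot, smul_eq_mul]
  exact Finset.sum_congr rfl fun i _ => mul_comm _ _

theorem dot_em (f x : Vec R) : dot (emL R K f) (emL R K x) = algebraMap R K (dot f x) := by
  simp only [dot, emL_apply, map_sum, map_mul]

/-- restriction of scalars for alternating maps on `Vec` -/
def altR (R : Type*) {K : Type*} [CommRing R] [CommRing K] [Algebra R K] {n : ℕ}
    (ω : (Vec K) [⋀^Fin n]→ₗ[K] K) : (Vec R) [⋀^Fin n]→ₗ[R] K where
  toFun v := ω fun i => emL R K (v i)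
  map_update_add' := by
    intro inst v i x y
    obtain rfl : inst = instDecidableEqFin n := Subsingleton.elim _ _
    have e : ∀ z, (fun j => emL R K (Function.update v i z j)) =
        Function.update (fun j => emL R K (v j)) i (emL R K z) := by
      intro z
      funext j
      by_cases h : j = i
      · subst h; simp
      · simp [h]
    change ω (fun j => emL R K (Function.update v i (x + y) j)) =
      ω (fun j => emL R K (Function.update v i x j)) + ω (fun j => emL R K (Function.update v i y j))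
    rw [e, e, e, map_add, AlternatingMap.map_update_add]
  map_update_smul' := by
    intro inst v i c x
    obtain rfl : inst = instDecidableEqFin n := Subsingleton.elim _ _
    have e : ∀ z, (fun j => emL R K (Function.update v i z j)) =
        Function.update (fun j => emL R K (v j)) i (emL R K z) := by
      intro z
      funext j
      by_cases h : j = i
      · subst h; simp
      · simp [h]
    have e2 : emL R K (c • x) = algebraMap R K c • emL R K x := by
      rw [map_smul, algebraMap_smul]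
    change ω (fun j => emL R K (Function.update v i (c • x) j)) =
      c • ω (fun j => emL R K (Function.update v i x j))
    rw [e, e, e2, AlternatingMap.map_update_smul, algebraMap_smul]
  map_eq_zero_of_eq' := by
    intro v i j h hij
    exact ω.map_eq_zero_of_eq _ (by simp only [h]) hij

theorem altR_apply {n : ℕ} (ω : (Vec K) [⋀^Fin n]→ₗ[K] K) (v : Fin n → Vec R) :
    altR R ω v = ω fun i => emL R K (v i) := rfl

/-- the `3`-form of the component of degree `1` -/
def al3 (R : Type*) {K : Type*} [CommRing R] [CommRing K] [Algebra R K] (Y : E8 K) :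
    (Vec R) [⋀^Fin 3]→ₗ[R] K :=
  altR R ((kap Y : E8 K →ₗ[K] K).compAlternatingMap D3)

/-- the `2`-form of the component of degree `-2` -/
def be2 (R : Type*) {K : Type*} [CommRing R] [CommRing K] [Algebra R K] (Y : E8 K) :
    (Vec R) [⋀^Fin 2]→ₗ[R] K :=
  altR R (((-kap Y) : E8 K →ₗ[K] K).compAlternatingMap D2)

theorem al3_apply (Y : E8 K) (v : Fin 3 → Vec R) :
    al3 R Y v = kap Y (D3 fun i => emL R K (v i)) := by
  rw [al3, altR_apply, LinearMap.compAlternatingMap_apply]

theorem be2_apply (Y : E8 K) (v : Fin 2 → Vec R) :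
    be2 R Y v = - kap Y (D2 fun i => emL R K (v i)) := by
  rw [be2, altR_apply, LinearMap.compAlternatingMap_apply, LinearMap.neg_apply]

theorem al3_add (Y Z : E8 K) : al3 R (Y + Z) = al3 R Y + al3 R Z := by
  ext v
  simp [al3_apply]

theorem al3_sub (Y Z : E8 K) : al3 R (Y - Z) = al3 R Y - al3 R Z := by
  ext v
  simp [al3_apply]

/-- `[M, f]` is `f ∧ M` -/
theorem al3_br (M : E8 K) (f : Vec R) :
    al3 R (br M (V3 (emL R K f))) = wedge (fL f) 2 (be2 R M) := by
  ext v
  rw [al3_apply, wedge_apply, kap_br, br_skew, map_neg, br_D3_V3, map_sum, ← Finset.sum_neg_distrib]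
  refine Finset.sum_congr rfl fun i _ => ?_
  rw [map_smul, be2_apply, fL_apply, dot_em, smul_eq_mul]
  have e : (i.removeNth fun j => emL R K (v j)) = fun j => emL R K (i.removeNth v j) := rfl
  rw [e]
  have h0 : (((-1 : ℤ) ^ (i : ℕ) : ℤ) : K) = (-1 : K) ^ (i : ℕ) := by push_cast; rfl
  rw [← h0, ← Int.cast_smul_eq_zsmul K, smul_eq_mul, Algebra.smul_def]
  ring

/-- alternating `3`-maps agree if they agree on sorted triples of basis vectors -/
theorem alt3_ext {N : Type*} [AddCommGroup N] [Module R N] {ω ω' : (Vec R) [⋀^Fin 3]→ₗ[R] N}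
    (h : ∀ i j k : Fin 8, i < j → j < k →
      ω ![Pi.single i 1, Pi.single j 1, Pi.single k 1] =
        ω' ![Pi.single i 1, Pi.single j 1, Pi.single k 1]) : ω = ω' := by
  refine Module.Basis.ext_alternating (Pi.basisFun R (Fin 8)) fun v _ => ?_
  have e : (fun i => Pi.basisFun R (Fin 8) (v i)) =
      ![Pi.single (v 0) 1, Pi.single (v 1) 1, Pi.single (v 2) 1] := by
    funext i
    fin_cases i <;> simp [Pi.basisFun_apply]
  rw [e, ← sub_eq_zero]
  refine alt3_zero (fun i j k => ω ![Pi.single i 1, Pi.single j 1, Pi.single k 1] -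
    ω' ![Pi.single i 1, Pi.single j 1, Pi.single k 1]) ?_ ?_ ?_ ?_ _ _ _
  · intro i j k
    have sw : (![Pi.single i 1, Pi.single j 1, Pi.single k 1] : Fin 3 → Vec R) =
        ![Pi.single j 1, Pi.single i 1, Pi.single k 1] ∘ Equiv.swap 0 1 := by
      funext l
      fin_cases l <;> simp [Equiv.swap_apply_def]
    rw [sw, AlternatingMap.map_swap _ _ (by decide), AlternatingMap.map_swap _ _ (by decide)]
    abel
  · intro i j k
    have sw : (![Pi.single i 1, Pi.single j 1, Pi.single k 1] : Fin 3 → Vec R) =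
        ![Pi.single i 1, Pi.single k 1, Pi.single j 1] ∘ Equiv.swap 1 2 := by
      funext l
      fin_cases l <;> simp [Equiv.swap_apply_def]
    rw [sw, AlternatingMap.map_swap _ _ (by decide), AlternatingMap.map_swap _ _ (by decide)]
    abel
  · intro i k
    rw [AlternatingMap.map_eq_zero_of_eq ω _ (i := 0) (j := 1) (by simp) (by decide),
      AlternatingMap.map_eq_zero_of_eq ω' _ (i := 0) (j := 1) (by simp) (by decide), sub_zero]
  · intro i j k hij hjk
    rw [h i j k hij hjk, sub_self]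

/-- alternating `2`-maps agree if they agree on sorted pairs of basis vectors -/
theorem alt2_ext {N : Type*} [AddCommGroup N] [Module R N] {ω ω' : (Vec R) [⋀^Fin 2]→ₗ[R] N}
    (h : ∀ i j : Fin 8, i < j →
      ω ![Pi.single i 1, Pi.single j 1] = ω' ![Pi.single i 1, Pi.single j 1]) : ω = ω' := by
  refine Module.Basis.ext_alternating (Pi.basisFun R (Fin 8)) fun v hv => ?_
  have e : (fun i => Pi.basisFun R (Fin 8) (v i)) = ![Pi.single (v 0) 1, Pi.single (v 1) 1] := by
    funext i
    fin_cases i <;> simp [Pi.basisFun_apply]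
  rw [e]
  rcases lt_trichotomy (v 0) (v 1) with h1 | h1 | h1
  · exact h _ _ h1
  · exact absurd (hv h1) (by decide)
  · have sw : (![Pi.single (v 0) 1, Pi.single (v 1) 1] : Fin 2 → Vec R) =
        ![Pi.single (v 1) 1, Pi.single (v 0) 1] ∘ Equiv.swap 0 1 := by
      funext l
      fin_cases l <;> simp [Equiv.swap_apply_def]
    rw [sw, AlternatingMap.map_swap _ _ (by decide), AlternatingMap.map_swap _ _ (by decide),
      h _ _ h1]

/-- value of the `3`-form on sorted basis vectors -/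
theorem al3_single (Y : E8 K) {a b c : Fin 8} (hab : a < b) (hbc : b < c) :
    al3 R Y ![Pi.single a 1, Pi.single b 1, Pi.single c 1] = -(((sg3 a b c : ℤ) : K) * Y (i1 a b c)) := by
  rw [al3_apply, D3_apply, kap_M1]
  have e : ∀ i j k : Fin 8, i < j → j < k → det3 (fun i => emL R K
      ((![Pi.single a 1, Pi.single b 1, Pi.single c 1] : Fin 3 → Vec R) i)) i j k =
        if i = a ∧ j = b ∧ k = c then 1 else 0 := by
    intro i j k hij hjk
    simp only [det3, emL_apply, Matrix.cons_val_zero, Matrix.cons_val_one, Matrix.cons_val_two,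
      Matrix.cons_val, Matrix.tail_cons, Matrix.head_cons, Pi.single_apply]
    by_cases h1 : i = a <;> by_cases h2 : j = b <;> by_cases h3 : k = c <;>
    by_cases h4 : i = b <;> by_cases h5 : i = c <;> by_cases h6 : j = a <;> by_cases h7 : j = c <;>
    by_cases h8 : k = a <;> by_cases h9 : k = b <;> first | omega | simp [h1, h2, h3, h4, h5, h6, h7, h8, h9, hab.ne, hab.ne', hbc.ne, hbc.ne',
      (hab.trans hbc).ne, (hab.trans hbc).ne']
  congr 1
  rw [Finset.sum_eq_single a, Finset.sum_eq_single b, Finset.sum_eq_single c]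
  · rw [if_pos ⟨hab, hbc⟩, e a b c hab hbc, if_pos ⟨rfl, rfl, rfl⟩, mul_one]
  · intro k _ hk
    split_ifs with h
    · rw [e a b k h.1 h.2, if_neg (fun h' => hk h'.2.2)]
      ring
    · rfl
  · simp
  · intro j _ hj
    refine Finset.sum_eq_zero fun k _ => ?_
    split_ifs with h
    · rw [e a j k h.1 h.2, if_neg (fun h' => hj h'.2.1)]
      ring
    · rfl
  · simp
  · intro i _ hi
    refine Finset.sum_eq_zero fun j _ => Finset.sum_eq_zero fun k _ => ?_
    split_ifs with h
    · rw [e i j k h.1 h.2, if_neg (fun h' => hi h'.1)]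
      ring
    · rfl
  · simp

end forms

end Pool.Agent.Licci.P

end

section

/-!
# Module P, part 4: elements of degree `1`, `-2` and `0` from forms
-/

set_option linter.unusedSectionVars false

namespace Pool.Agent.Licci.P

open scoped BigOperators
open U (Sup)

section

variable {A : Type*} [CommRing A]

/-- inclusion of `Λ³ F` in degree `1` (only the coefficients with `i < j < k` are used) -/
def T1 (c : Fin 8 → Fin 8 → Fin 8 → A) : E8 A :=
  ∑ i, ∑ j, ∑ k, if i < j ∧ j < k then (-(((sg3 i j k : ℤ) : A) * c i j k)) • eb (i1 i j k) else 0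

/-- inclusion of `Λ² F` in degree `-2` (only the coefficients with `i < j` are used) -/
def U2 (w : Fin 8 → Fin 8 → A) : E8 A := ∑ i, ∑ j, if i < j then w i j • eb (im2 i j) else 0

theorem T1_apply (c : Fin 8 → Fin 8 → Fin 8 → A) (m : Fin 248) :
    T1 c m = ∑ i, ∑ j, ∑ k, if (i < j ∧ j < k) ∧ i1 i j k = m then
      -(((sg3 i j k : ℤ) : A) * c i j k) else 0 := by
  unfold T1
  rw [Finset.sum_apply]
  refine Finset.sum_congr rfl fun i _ => ?_
  rw [Finset.sum_apply]
  refine Finset.sum_congr rfl fun j _ => ?_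
  rw [Finset.sum_apply]
  refine Finset.sum_congr rfl fun k _ => ?_
  by_cases h : i < j ∧ j < k
  · rw [if_pos h, Pi.smul_apply, eb_apply, smul_eq_mul]
    by_cases h' : i1 i j k = m
    · rw [if_pos h'.symm, if_pos ⟨h, h'⟩, mul_one]
    · rw [if_neg (Ne.symm h'), if_neg (fun h'' => h' h''.2), mul_zero]
  · rw [if_neg h, if_neg (fun h'' => h h''.1)]
    rfl

theorem U2_apply (w : Fin 8 → Fin 8 → A) (m : Fin 248) :
    U2 w m = ∑ i, ∑ j, if i < j ∧ im2 i j = m then w i j else 0 := by
  unfold U2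
  rw [Finset.sum_apply]
  refine Finset.sum_congr rfl fun i _ => ?_
  rw [Finset.sum_apply]
  refine Finset.sum_congr rfl fun j _ => ?_
  by_cases h : i < j
  · rw [if_pos h, Pi.smul_apply, eb_apply, smul_eq_mul]
    by_cases h' : im2 i j = m
    · rw [if_pos h'.symm, if_pos ⟨h, h'⟩, mul_one]
    · rw [if_neg (Ne.symm h'), if_neg (fun h'' => h' h''.2), mul_zero]
  · rw [if_neg h, if_neg (fun h'' => h h''.1)]
    rfl

theorem T1_apply_i1 (c : Fin 8 → Fin 8 → Fin 8 → A) {i j k : Fin 8} (h1 : i < j) (h2 : j < k) :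
    T1 c (i1 i j k) = -(((sg3 i j k : ℤ) : A) * c i j k) := by
  rw [T1_apply, Finset.sum_eq_single i, Finset.sum_eq_single j, Finset.sum_eq_single k]
  · rw [if_pos ⟨⟨h1, h2⟩, rfl⟩]
  · intro b _ hb
    rw [if_neg]
    rintro ⟨⟨h3, h4⟩, h5⟩
    exact hb (i1_inj h3 h4 h1 h2 h5).2.2
  · simp
  · intro b _ hb
    refine Finset.sum_eq_zero fun c _ => ?_
    rw [if_neg]
    rintro ⟨⟨h3, h4⟩, h5⟩
    exact hb (i1_inj h3 h4 h1 h2 h5).2.1
  · simp
  · intro b _ hb
    refine Finset.sum_eq_zero fun c _ => Finset.sum_eq_zero fun d _ => ?_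
    rw [if_neg]
    rintro ⟨⟨h3, h4⟩, h5⟩
    exact hb (i1_inj h3 h4 h1 h2 h5).1
  · simp

theorem U2_apply_im2 (w : Fin 8 → Fin 8 → A) {i j : Fin 8} (h : i < j) :
    U2 w (im2 i j) = w i j := by
  rw [U2_apply, Finset.sum_eq_single i, Finset.sum_eq_single j]
  · rw [if_pos ⟨h, rfl⟩]
  · intro b _ hb
    rw [if_neg]
    rintro ⟨h1, h2⟩
    exact hb (im2_inj h1 h h2).2
  · simp
  · intro b _ hb
    refine Finset.sum_eq_zero fun c _ => ?_
    rw [if_neg]
    rintro ⟨h1, h2⟩
    exact hb (im2_inj h1 h h2).1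
  · simp

theorem T1_sup (c : Fin 8 → Fin 8 → Fin 8 → A) : Sup zdg 1 (T1 c) := by
  intro m hm
  rw [T1_apply]
  refine Finset.sum_eq_zero fun i _ => Finset.sum_eq_zero fun j _ => Finset.sum_eq_zero fun k _ => ?_
  rw [if_neg]
  rintro ⟨⟨h1, h2⟩, rfl⟩
  exact hm (zdg_i1 i j k h1 h2)

theorem U2_sup (w : Fin 8 → Fin 8 → A) : Sup zdg (-2) (U2 w) := by
  intro m hm
  rw [U2_apply]
  refine Finset.sum_eq_zero fun i _ => Finset.sum_eq_zero fun j _ => ?_
  rw [if_neg]
  rintro ⟨h1, rfl⟩
  exact hm (neg_chk2 i j h1).2.1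

end

section forms

variable {R K : Type*} [CommRing R] [CommRing K] [Algebra R K]

theorem sg3_cast_sq (i j k : Fin 8) : ((sg3 i j k : ℤ) : K) * ((sg3 i j k : ℤ) : K) = 1 := by
  rw [← Int.cast_mul, sg3_sq, Int.cast_one]

theorem al3_inj {Y : E8 K} (hY : Sup zdg 1 Y) (h : al3 R Y = 0) : Y = 0 := by
  funext m
  by_cases hm : zdg m = 1
  · obtain ⟨i, j, k, hij, hjk, rfl⟩ := i1_surj m hm
    have h1 := al3_single (R := R) Y hij hjk
    rw [h] at h1
    have h2 := sg3_cast_sq (K := K) i j k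
    rw [AlternatingMap.zero_apply] at h1
    rw [Pi.zero_apply]
    linear_combination (-(Y (i1 i j k))) * h2 + ((sg3 i j k : ℤ) : K) * h1
  · rw [hY m hm, Pi.zero_apply]

/-- every `3`-form over `R` comes from an element of degree `1` -/
theorem al3_surj (P : (Vec R) [⋀^Fin 3]→ₗ[R] R) : ∃ Y : E8 R, Sup zdg 1 Y ∧
    ∀ v, al3 R (algebraMap R K ∘ Y : E8 K) v = algebraMap R K (P v) := by
  refine ⟨T1 fun i j k => P ![Pi.single i 1, Pi.single j 1, Pi.single k 1], T1_sup _, fun v => ?_⟩
  have h : al3 R (algebraMap R K ∘ (T1 fun i j k => P ![Pi.single i 1, Pi.single j 1,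
      Pi.single k 1]) : E8 K) = (Algebra.linearMap R K).compAlternatingMap P := by
    refine alt3_ext fun i j k hij hjk => ?_
    rw [al3_single _ hij hjk, Function.comp_apply, T1_apply_i1 _ hij hjk,
      LinearMap.compAlternatingMap_apply, Algebra.linearMap_apply, map_neg, map_mul, map_intCast]
    have h2 := sg3_cast_sq (K := K) i j k
    linear_combination (algebraMap R K (P ![Pi.single i 1, Pi.single j 1, Pi.single k 1])) * h2
  rw [h]
  rfl

theorem be2_single (Y : E8 K) {a b : Fin 8} (hab : a < b) :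
    be2 R Y ![Pi.single a 1, Pi.single b 1] = Y (im2 a b) := by
  rw [be2_apply, D2_apply, kap_W2, neg_neg]
  have e : ∀ i j : Fin 8, i < j → det2 (fun i => emL R K
      ((![Pi.single a 1, Pi.single b 1] : Fin 2 → Vec R) i)) i j =
        if i = a ∧ j = b then 1 else 0 := by
    intro i j hij
    simp only [det2, emL_apply, Matrix.cons_val_zero, Matrix.cons_val_one, Pi.single_apply]
    by_cases h1 : i = a <;> by_cases h2 : j = b <;> by_cases h4 : i = b <;> by_cases h6 : j = a <;>
      first | omega | simp [h1, h2, h4, h6, hab.ne, hab.ne']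
  rw [Finset.sum_eq_single a, Finset.sum_eq_single b]
  · rw [if_pos hab, e a b hab, if_pos ⟨rfl, rfl⟩, one_mul]
  · intro j _ hj
    split_ifs with h
    · rw [e a j h, if_neg (fun h' => hj h'.2), zero_mul]
    · rfl
  · simp
  · intro i _ hi
    refine Finset.sum_eq_zero fun j _ => ?_
    split_ifs with h
    · rw [e i j h, if_neg (fun h' => hi h'.1), zero_mul]
    · rfl
  · simp

/-- every `2`-form with values in `K` comes from an element of degree `-2` -/
theorem be2_surj (β : (Vec R) [⋀^Fin 2]→ₗ[R] K) : ∃ M : E8 K, Sup zdg (-2) M ∧ be2 R M = β ∧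
    ∀ S : Subalgebra R K, (∀ v, β v ∈ S) → ∀ m, M m ∈ S := by
  refine ⟨U2 fun i j => β ![Pi.single i 1, Pi.single j 1], U2_sup _, ?_, ?_⟩
  · refine alt2_ext fun i j hij => ?_
    rw [be2_single _ hij, U2_apply_im2 _ hij]
  · intro S hS m
    rw [U2_apply]
    refine S.sum_mem fun i _ => S.sum_mem fun j _ => ?_
    split_ifs
    · exact hS _
    · exact S.zero_mem

end forms

end Pool.Agent.Licci.P

end

section

/-!
# Block (U6b): degree `≤ 0` acts faithfully on degree `2` (field `inj` of `XTab.Good`)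
-/

namespace Pool.Agent.Licci

open U

universe u

namespace T6b

/-- witness: an index `e` in `1..14` such that `b + e` is a root -/
def wit (b : ℕ) : ℕ :=
  ((List.range 15).find? (fun e => bif Nat.beq e 0 then false else
    Nat.blt (fnd (Nat.add (cd b) (cd e))) 240)).getD 0

/-- the coefficient of `b + e` in `[v, e]` is `± v_b` -/
def wck (b : ℕ) : Bool :=
  let e := wit b
  let m := fnd (Nat.add (cd b) (cd e))
  Nat.ble 1 e && (Nat.ble e 14 && (Nat.blt m 240 && (List.range 248).all (fun j =>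
    bif Nat.beq j b then Nat.beq (cf (sp j e) m).natAbs 1 else isz (cf (sp j e) m))))

/-- the integer is `≤ 0` -/
def lez (n : ℤ) : Bool := match n with
  | Int.ofNat m => Nat.beq m 0
  | Int.negSucc _ => true

theorem lez_of {n : ℤ} (h : n ≤ 0) : lez n = true := by
  cases n with
  | ofNat m => simp at h; simp [lez, h]
  | negSucc m => rfl

set_option maxRecDepth 100000

theorem wck_all : (List.range 240).all (fun b => bif lez (xdN b) then wck b else true) = true := by
  decide +kernel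

theorem deg2 : (List.range 15).all (fun e => bif Nat.beq e 0 then true else
    isz (xdN e - 2)) = true := by decide +kernel

/-- the coefficient of `e` in `[v, e]` sees the Cartan part only -/
theorem cart : (List.range 15).all (fun e => bif Nat.beq e 0 then true else
    (List.range 240).all (fun j => isz (cf (sp j e) e))) = true := by decide +kernel

theorem deg_e {e : ℕ} (h1 : 1 ≤ e) (h2 : e ≤ 14) : xdN e = 2 := by
  have h := all_range deg2 (i := e) (by omega)
  have h4 : Nat.beq e 0 = false := by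
    rw [Bool.eq_false_iff]
    intro h
    rw [Nat.beq_eq] at h
    omega
  rw [h4, cond_false, isz_iff] at h
  omega

theorem br_single_right (A : Type u) [CommRing A] (v : E8 A) (e m : Fin 248) :
    xtab.br A v (Pi.single e 1) m = ∑ i : Fin 248, (scN i e m : A) * v i := by
  rw [bil_apply]
  refine Finset.sum_congr rfl fun i _ => ?_
  rw [Finset.sum_eq_single e]
  · rw [Pi.single_eq_same, mul_one]
    rfl
  · intro j _ hj
    rw [Pi.single_eq_of_ne hj, mul_zero, mul_zero]
  · intro h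
    exact absurd (Finset.mem_univ e) h

theorem sup_single (A : Type u) [CommRing A] (e : Fin 248) (h1 : 1 ≤ (e : ℕ))
    (h2 : (e : ℕ) ≤ 14) : Sup xtab.deg 2 (Pi.single e 1 : E8 A) := by
  intro b hb
  rw [Pi.single_eq_of_ne]
  rintro rfl
  exact hb (deg_e h1 h2)

theorem cart_eq (A : Type u) [CommRing A] (v : E8 A) (e : Fin 248) (h1 : 1 ≤ (e : ℕ))
    (h2 : (e : ℕ) ≤ 14) (h : xtab.br A v (Pi.single e 1) = 0) :
    ∑ q : Fin 8, ((prN e q : ℤ) : A) * v ⟨240 + q, by omega⟩ = 0 := by
  have h3 := congrFun h e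
  rw [br_single_right, Pi.zero_apply] at h3
  have h5 : Nat.beq (e : ℕ) 0 = false := by
    rw [Bool.eq_false_iff]
    intro h
    rw [Nat.beq_eq] at h
    omega
  have h4 := all_range cart (i := (e : ℕ)) (by omega)
  rw [h5, cond_false] at h4
  have h6 : ∀ i : Fin (240 + 8), ((scN i e e : ℤ) : A) * v i =
      Fin.addCases (motive := fun _ => A) (fun _ => 0)
        (fun q : Fin 8 => ((prN e q : ℤ) : A) * v ⟨240 + q, by omega⟩) i := by
    intro i
    refine Fin.addCases (fun j => ?_) (fun q => ?_) i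
    · rw [Fin.addCases_left]
      have h7 := all_range h4 (i := (j : ℕ)) j.2
      rw [isz_iff] at h7
      have h8 : scN ((Fin.castAdd 8 j : Fin (240 + 8)) : ℕ) e e = 0 := h7
      rw [h8, Int.cast_zero, zero_mul]
    · rw [Fin.addCases_right]
      have h8 : scN ((Fin.natAdd 240 q : Fin (240 + 8)) : ℕ) e e = prN e q := by
        rw [Fin.val_natAdd]
        unfold scN sp
        have h9 : Nat.blt (240 + (q : ℕ)) 240 = false := by
          rw [Bool.eq_false_iff]
          intro h
          rw [Nat.blt_eq] at h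
          omega
        have h10 : Nat.blt (e : ℕ) 240 = true := by
          rw [Nat.blt_eq]
          omega
        rw [h9, h10, cond_false, cond_true, cf_cons, cf_nil, if_pos rfl, add_zero,
          Nat.add_sub_cancel_left]
      rw [h8]
      rfl
  have h7 : ∑ i : Fin (240 + 8), ((scN i e e : ℤ) : A) * v i = 0 := h3
  rw [Finset.sum_congr rfl fun i _ => h6 i, Fin.sum_univ_add] at h7
  simpa using h7

/-- the values `prN e q`, `e = 1..8` -/
def tb : List (List ℤ) :=
  [[], [-1, 1, 0, 0, 0, 0, 0, 0], [0, -1, 1, 0, 0, 0, 0, 0], [0, 0, -1, 1, 0, 0, 0, 0],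
    [0, 0, 0, -1, 1, 0, 0, 0], [0, 0, 0, 0, -1, 1, 0, 1], [0, 0, 0, 0, 0, -1, 1, 1],
    [0, 0, 0, 0, 0, 0, -1, 1], [0, -1, 0, 0, 0, 0, 0, 1]]

theorem tb_chk : (List.range 9).all (fun e => bif Nat.beq e 0 then true else
    (List.range 8).all (fun q => isz (prN e q - (tb.getD e []).getD q 0))) = true := by
  decide +kernel

theorem cart_zero (A : Type u) [CommRing A] [Algebra ℚ A] (w : Fin 8 → A)
    (h : ∀ e : Fin 248, 1 ≤ (e : ℕ) → (e : ℕ) ≤ 8 → ∑ q : Fin 8, ((prN e q : ℤ) : A) * w q = 0) :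
    ∀ q, w q = 0 := by
  have h' : ∀ e : ℕ, 1 ≤ e → e ≤ 8 →
      ∑ q : Fin 8, (((tb.getD e []).getD q 0 : ℤ) : A) * w q = 0 := by
    intro e h1 h2
    rw [← h ⟨e, by omega⟩ h1 h2]
    refine Finset.sum_congr rfl fun q _ => ?_
    have h3 := all_range tb_chk (i := e) (by omega)
    have h4 : Nat.beq e 0 = false := by
      rw [Bool.eq_false_iff]
      intro h
      rw [Nat.beq_eq] at h
      omega
    rw [h4, cond_false] at h3
    have h5 := all_range h3 (i := (q : ℕ)) q.2
    rw [isz_iff, sub_eq_zero] at h5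
    rw [← h5]
  have e1 := h' 1 (by omega) (by omega)
  have e2 := h' 2 (by omega) (by omega)
  have e3 := h' 3 (by omega) (by omega)
  have e4 := h' 4 (by omega) (by omega)
  have e5 := h' 5 (by omega) (by omega)
  have e6 := h' 6 (by omega) (by omega)
  have e7 := h' 7 (by omega) (by omega)
  have e8 := h' 8 (by omega) (by omega)
  simp only [Fin.sum_univ_eight, tb] at e1 e2 e3 e4 e5 e6 e7 e8
  norm_num at e1 e2 e3 e4 e5 e6 e7 e8
  have h2 : (2 : A) * w 7 = 0 := by
    linear_combination e5 + e4 + e3 + e2 + e6 + e7 - e8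
  have h3 : algebraMap ℚ A (1 / 2) * 2 = 1 := by
    rw [← map_ofNat (algebraMap ℚ A) 2, ← map_mul]
    norm_num
  have w7 : w 7 = 0 := by
    linear_combination (algebraMap ℚ A (1 / 2)) * h2 - h3 * w 7
  have w6 : w 6 = 0 := by linear_combination w7 - e7
  have w5 : w 5 = 0 := by linear_combination w6 + w7 - e6
  have w4 : w 4 = 0 := by linear_combination w5 + w7 - e5
  have w3 : w 3 = 0 := by linear_combination w4 - e4
  have w2 : w 2 = 0 := by linear_combination w3 - e3
  have w1 : w 1 = 0 := by linear_combination w2 - e2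
  have w0 : w 0 = 0 := by linear_combination w1 - e1
  intro q
  fin_cases q
  · exact w0
  · exact w1
  · exact w2
  · exact w3
  · exact w4
  · exact w5
  · exact w6
  · exact w7

end T6b

open T6b in
theorem xtab_inj (A : Type u) [CommRing A] [Algebra ℚ A] (k : ℤ) (v : Fin 248 → A) (hk : k ≤ 0)
    (hv : Sup xtab.deg k v) (h : ∀ e : Fin 248 → A, Sup xtab.deg 2 e → xtab.br A v e = 0) :
    v = 0 := by
  have hE : ∀ e : Fin 248, 1 ≤ (e : ℕ) → (e : ℕ) ≤ 14 →
      ∑ q : Fin 8, ((prN e q : ℤ) : A) * v ⟨240 + q, by omega⟩ = 0 :=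
    fun e h1 h2 => cart_eq A v e h1 h2 (h _ (sup_single A e h1 h2))
  have hC : ∀ q : Fin 8, v ⟨240 + q, by omega⟩ = 0 :=
    cart_zero A (fun q => v ⟨240 + q, by omega⟩) fun e h1 h2 => hE e h1 (by omega)
  funext b
  rw [Pi.zero_apply]
  by_cases hb : xtab.deg b = k
  · by_cases hb' : (b : ℕ) < 240
    · have h1 := all_range wck_all hb'
      have h2 : lez (xdN b) = true := lez_of (by rw [← hb] at hk; exact hk)
      rw [h2, cond_true] at h1
      unfold wck at h1
      simp only [Bool.and_eq_true, Nat.ble_eq, Nat.blt_eq] at h1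
      obtain ⟨h3, h4, h5, h6⟩ := h1
      generalize wit b = e at h3 h4 h5 h6
      generalize fnd (Nat.add (cd b) (cd e)) = m at h5 h6
      have h7 := congrFun (h _ (sup_single A ⟨e, by omega⟩ h3 h4)) ⟨m, by omega⟩
      rw [br_single_right, Pi.zero_apply, Finset.sum_eq_single b] at h7
      · have h8 := all_range h6 (i := (b : ℕ)) (by omega)
        rw [show Nat.beq (b : ℕ) b = true from by simp, cond_true, Nat.beq_eq] at h8
        have h9 : scN b e m = 1 ∨ scN b e m = -1 := by
          unfold scN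
          omega
        rcases h9 with h9 | h9
        · simpa [h9] using h7
        · simpa [h9] using h7
      · intro j _ hj
        have h8 := all_range h6 (i := (j : ℕ)) (by omega)
        have h10 : Nat.beq (j : ℕ) b = false := by
          rw [Bool.eq_false_iff]
          intro h
          rw [Nat.beq_eq] at h
          exact hj (Fin.ext h)
        rw [h10, cond_false, isz_iff] at h8
        have h11 : scN j e m = 0 := h8
        simp [h11]
      · intro h
        exact absurd (Finset.mem_univ b) h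
    · have := hC ⟨b - 240, by omega⟩
      convert this using 2
      ext
      simp
      omega
  · exact hv b hb

end Pool.Agent.Licci

end

section

/-!
# Module P, part 5: degree `0`
-/

set_option linter.unusedSectionVars false

namespace Pool.Agent.Licci.P

open scoped BigOperators
open U (Sup)

section

variable {A : Type*} [CommRing A]

/-- `L3` as a linear map -/
def L3L : Vec A →ₗ[A] E8 A where
  toFun := L3
  map_add' φ ψ := by
    simp only [L3, Pi.add_apply, add_smul, Finset.sum_add_distrib]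
  map_smul' c φ := by
    simp only [L3, Pi.smul_apply, smul_eq_mul, RingHom.id_apply, Finset.smul_sum, smul_smul]

@[simp] theorem L3L_apply (φ : Vec A) : L3L φ = L3 φ := rfl

/-- `p3m` as a linear map -/
def p3mL : E8 A →ₗ[A] Vec A where
  toFun := p3m
  map_add' _ _ := rfl
  map_smul' _ _ := rfl

@[simp] theorem p3mL_apply (Y : E8 A) : p3mL Y = p3m Y := rfl

/-- the action on degree `-3` -/
def rho : E8 A →ₗ[A] Vec A →ₗ[A] Vec A :=
  LinearMap.mk₂ A (fun Y φ => p3m (br Y (L3 φ)))
    (fun Y Y' φ => by rw [br_add_left]; rfl)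
    (fun c Y φ => by rw [br_smul_left]; rfl)
    (fun Y φ ψ => by rw [← L3L_apply, map_add, br_add_right]; rfl)
    (fun c Y φ => by rw [← L3L_apply, map_smul, br_smul_right]; rfl)

theorem rho_apply (Y : E8 A) (φ : Vec A) : rho Y φ = p3m (br Y (L3 φ)) := rfl

/-- trace -/
def tr8 : (Vec A →ₗ[A] Vec A) →ₗ[A] A where
  toFun N := ∑ i : Fin 8, N (Pi.single i 1) i
  map_add' N N' := by simp [Finset.sum_add_distrib]
  map_smul' c N := by simp [Finset.mul_sum]

theorem tr8_apply (N : Vec A →ₗ[A] Vec A) : tr8 N = ∑ i : Fin 8, N (Pi.single i 1) i := rfl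

theorem br_L3_of_sup {Y : E8 A} (hY : Sup zdg 0 Y) (φ : Vec A) : br Y (L3 φ) = L3 (rho Y φ) := by
  have h := Sup.br (fun _ _ _ h => sc_zdg h) hY (L3_sup φ)
  rw [zero_add] at h
  exact eq_L3 h

theorem rho_L3_V3 (φ f ψ : Vec A) : rho (br (L3 φ) (V3 f)) ψ =
    - (dot f ψ • φ + dot f φ • ψ) := by
  rw [rho_apply, L3_V3_L3]
  change -(dot f ψ • p3m (L3 φ) + dot f φ • p3m (L3 ψ)) = _
  rw [p3m_L3, p3m_L3]

theorem dot_single_left (i : Fin 8) (φ : Vec A) : dot (Pi.single i 1) φ = φ i := by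
  unfold dot
  rw [Finset.sum_eq_single i]
  · simp
  · intro b _ hb
    simp [hb]
  · simp

theorem tr8_L3_V3 (φ f : Vec A) : tr8 (rho (br (L3 φ) (V3 f))) = - (9 * dot f φ) := by
  rw [tr8_apply]
  simp only [rho_L3_V3, Pi.neg_apply, Pi.add_apply, Pi.smul_apply, smul_eq_mul, dot_single,
    Pi.single_eq_same, mul_one, Finset.sum_neg_distrib, Finset.sum_add_distrib]
  rw [Finset.sum_const, Finset.card_univ, Fintype.card_fin]
  change -(dot f φ + _) = _
  simp
  ring

end

/-! ### `e_8` in degree `0` acts faithfully on degree `-3` -/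

set_option maxRecDepth 100000 in
theorem i0_surj : ∀ m : Fin 248, zdg m = 0 → (m : ℕ) < 240 → ∃ i j : Fin 8, i ≠ j ∧ i0 i j = m := by
  decide +kernel

set_option maxRecDepth 100000 in
theorem i0_ixm_chk : ∀ i j : Fin 8, i ≠ j →
    ((i0 i j : Fin 248) : ℕ) = fnd (cd (ixm j) + off + off - cd (ixm i)) ∧
      (sc (ixm i) (i0 i j) (ixm j) = 1 ∨ sc (ixm i) (i0 i j) (ixm j) = -1) := by
  decide +kernel

/-- eigenvalues of the simple coroots in degree `-3` -/
def tbm : Fin 8 → Fin 8 → ℤ :=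
  ![![-1, 0, 0, 0, 0, 0, 0, 0], ![1, -1, 0, 0, 0, 0, 0, 0], ![0, 1, -1, 0, 0, 0, 0, 0],
    ![0, 0, 1, -1, 0, 0, 0, 0], ![0, 0, 0, 1, -1, 0, 0, 0], ![0, 0, 0, 0, 1, -1, 0, -1],
    ![0, 0, 0, 0, 0, 1, -1, -1], ![0, 0, 0, 0, 0, 0, 1, -1]]

set_option maxRecDepth 100000 in
theorem cart_ixm_chk : ∀ i : Fin 8, ∀ q : Fin 8, prN (ixm i) q = tbm i q := by
  decide +kernel

section

variable {A : Type*} [CommRing A]

theorem br_eb_self' (n : Fin 248) (hn : (n : ℕ) < 240) (Y : E8 A) :
    br (eb n) Y n = - ∑ q : Fin 8, ((prN n q : ℤ) : A) * Y ⟨240 + q, by omega⟩ := by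
  rw [br_eb_left]
  have h6 : ∀ i : Fin (240 + 8), ((sc n i n : ℤ) : A) * Y i =
      Fin.addCases (motive := fun _ => A) (fun _ => 0)
        (fun q : Fin 8 => - (((prN n q : ℤ) : A) * Y ⟨240 + q, by omega⟩)) i := by
    intro i
    refine Fin.addCases (fun j => ?_) (fun q => ?_) i
    · rw [Fin.addCases_left]
      have h8 : sc n (Fin.castAdd 8 j : Fin (240 + 8)) n = 0 := by
        by_contra hne
        have h1 := scN_wt n.2 (Fin.castAdd 8 j : Fin (240 + 8)).2 hne
        have h2 : cd ((Fin.castAdd 8 j : Fin (240 + 8)) : ℕ) = off := by omega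
        have h3 := fnd_cd (i := (j : ℕ)) j.2
        rw [Fin.val_castAdd] at h2
        rw [h2] at h3
        have h4 : fnd (off + off) = 255 := by decide +kernel
        omega
      rw [h8, Int.cast_zero, zero_mul]
    · rw [Fin.addCases_right]
      have h8 : sc n (Fin.natAdd 240 q : Fin (240 + 8)) n = - prN n q := by
        unfold sc scN
        rw [Fin.val_natAdd, sp_cartan_right hn (by omega), cf_cons, cf_nil, if_pos rfl, add_zero,
          Nat.add_sub_cancel_left]
      rw [h8, Int.cast_neg, neg_mul]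
      rfl
  have h7 : ∑ i : Fin (240 + 8), ((sc n i n : ℤ) : A) * Y i =
      - ∑ q : Fin 8, ((prN n q : ℤ) : A) * Y ⟨240 + q, by omega⟩ := by
    rw [Finset.sum_congr rfl fun i _ => h6 i, Fin.sum_univ_add]
    simp only [Fin.addCases_left, Fin.addCases_right, Finset.sum_const_zero, zero_add,
      Finset.sum_neg_distrib]
  exact h7

theorem L3_single (i : Fin 8) : (L3 (Pi.single i 1) : E8 A) = eb (ixm i) := by
  unfold L3
  rw [Finset.sum_eq_single i]
  · simp
  · intro b _ hb
    simp [hb]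
  · simp

theorem three_cancel [Algebra ℚ A] {x : A} (h : (3 : A) * x = 0) : x = 0 := by
  have h1 : algebraMap ℚ A (1 / 3) * (3 : A) = 1 := by
    rw [← map_ofNat (algebraMap ℚ A) 3, ← map_mul]
    norm_num
  calc x = algebraMap ℚ A (1 / 3) * (3 * x) := by rw [← mul_assoc, h1, one_mul]
    _ = 0 := by rw [h, mul_zero]

/-- faithfulness -/
theorem rho_inj [Algebra ℚ A] {Y : E8 A} (hY : Sup zdg 0 Y)
    (h : ∀ i, rho Y (Pi.single i 1) = 0) : Y = 0 := by
  have h0 : ∀ i j : Fin 8, br (eb (ixm i)) Y (ixm j) = 0 := by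
    intro i j
    have h1 := congrFun (h i) j
    rw [rho_apply, L3_single, Pi.zero_apply] at h1
    rw [br_skew, Pi.neg_apply]
    change -(p3m (br Y (eb (ixm i))) j) = 0
    rw [h1, neg_zero]
  have hr : ∀ i : Fin 8, ((ixm i : Fin 248) : ℕ) < 240 := fun i => by
    rw [ixm_val]
    omega
  have hc : ∀ i : Fin 8, ∑ q : Fin 8, ((prN (ixm i) q : ℤ) : A) * Y ⟨240 + q, by omega⟩ = 0 := by
    intro i
    have h1 := h0 i i
    rw [br_eb_self' _ (hr i)] at h1
    exact neg_eq_zero.1 h1
  have hw : ∀ q : Fin 8, Y ⟨240 + q, by omega⟩ = 0 := by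
    have c0 := hc 0
    have c1 := hc 1
    have c2 := hc 2
    have c3 := hc 3
    have c4 := hc 4
    have c5 := hc 5
    have c6 := hc 6
    have c7 := hc 7
    simp only [cart_ixm_chk, Fin.sum_univ_eight] at c0 c1 c2 c3 c4 c5 c6 c7
    simp [tbm] at c0 c1 c2 c3 c4 c5 c6 c7
    have e7 : Y 247 = 0 := three_cancel (by
      linear_combination c0 - c1 - c2 - c3 - c4 - c5 - c6 - c7)
    have e6 : Y 246 = 0 := by linear_combination c7 + e7
    have e5 : Y 245 = 0 := by linear_combination c6 + e6 + e7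
    have e4 : Y 244 = 0 := by linear_combination c5 + e5 + e7
    have e3 : Y 243 = 0 := by linear_combination c4 + e4
    have e2 : Y 242 = 0 := by linear_combination c3 + e3
    have e1 : Y 241 = 0 := by linear_combination c2 + e2
    intro q
    fin_cases q
    · exact c0
    · exact e1
    · exact e2
    · exact e3
    · exact e4
    · exact e5
    · exact e6
    · exact e7
  funext m
  rw [Pi.zero_apply]
  by_cases hm : zdg m = 0
  · rcases lt_or_ge (m : ℕ) 240 with hm' | hm'
    · obtain ⟨i, j, hij, rfl⟩ := i0_surj m hm hm'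
      have h1 := h0 i j
      obtain ⟨e1, e2⟩ := i0_ixm_chk i j hij
      rw [br_eb_left_of (hr i) (hr j) (fun h => hij (ixm_inj h)) e1] at h1
      rcases e2 with e2 | e2
      · rw [e2] at h1
        simpa using h1
      · rw [e2] at h1
        simpa using h1
    · have e : m = ⟨240 + ((⟨(m : ℕ) - 240, by omega⟩ : Fin 8) : ℕ), by simp; omega⟩ := by
        apply Fin.ext
        simp
        omega
      rw [e]
      exact hw _
  · exact hY m hm

/-- the traceless correction of `rho` -/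
def tht [Algebra ℚ A] : E8 A →ₗ[A] Vec A →ₗ[A] Vec A :=
  rho - (algebraMap ℚ A (1 / 9)) • ((tr8 ∘ₗ rho).smulRight (LinearMap.id : Vec A →ₗ[A] Vec A))

theorem tht_apply [Algebra ℚ A] (Y : E8 A) (x : Vec A) :
    tht Y x = rho Y x - (algebraMap ℚ A (1 / 9) * tr8 (rho Y)) • x := by
  simp only [tht, LinearMap.sub_apply, LinearMap.smul_apply, LinearMap.smulRight_apply,
    LinearMap.comp_apply, LinearMap.id_apply, smul_smul]

theorem nine_inv [Algebra ℚ A] : algebraMap ℚ A (1 / 9) * (9 : A) = 1 := by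
  rw [← map_ofNat (algebraMap ℚ A) 9, ← map_mul]
  norm_num

theorem tht_L3_V3 [Algebra ℚ A] (φ f x : Vec A) :
    tht (br (L3 φ) (V3 f)) x = - (dot f x • φ) := by
  rw [tht_apply, rho_L3_V3, tr8_L3_V3]
  have h := nine_inv (A := A)
  have e : algebraMap ℚ A (1 / 9) * -(9 * dot f φ) = - dot f φ := by
    linear_combination (- dot f φ) * h
  rw [e]
  module

theorem tr8_id : tr8 (LinearMap.id : Vec A →ₗ[A] Vec A) = 8 := by
  rw [tr8_apply]
  simp

theorem tht_inj [Algebra ℚ A] {Y : E8 A} (hY : Sup zdg 0 Y)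
    (h : ∀ i, tht Y (Pi.single i 1) = 0) : Y = 0 := by
  have h1 : ∀ i, rho Y (Pi.single i 1) = (algebraMap ℚ A (1 / 9) * tr8 (rho Y)) • Pi.single i 1 := by
    intro i
    have := h i
    rwa [tht_apply, sub_eq_zero] at this
  have h2 : tr8 (rho Y) = 8 * (algebraMap ℚ A (1 / 9) * tr8 (rho Y)) := by
    conv_lhs => rw [tr8_apply]
    simp only [h1, Pi.smul_apply, Pi.single_eq_same, smul_eq_mul, mul_one, Finset.sum_const,
      Finset.card_univ, Fintype.card_fin, nsmul_eq_mul]
    push_cast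
    ring
  have h9 := nine_inv (A := A)
  have h3 : tr8 (rho Y) = 0 := by
    linear_combination 9 * h2 + (8 * tr8 (rho Y)) * h9
  refine rho_inj hY fun i => ?_
  rw [h1, h3, mul_zero, zero_smul]

/-- every endomorphism of `F^*` is the corrected action of an element of degree `0` -/
theorem rho_surj [Algebra ℚ A] (N : Vec A →ₗ[A] Vec A) : ∃ Y : E8 A, Sup zdg 0 Y ∧ rho Y = N := by
  have hsup : ∀ φ f : Vec A, Sup zdg 0 (br (L3 φ) (V3 f)) := by
    intro φ f
    have := Sup.br (fun _ _ _ h => sc_zdg h) (L3_sup φ) (V3_sup f)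
    rwa [show (-3 : ℤ) + 3 = 0 by norm_num] at this
  have hsum : ∀ {a b : E8 A}, Sup zdg 0 a → Sup zdg 0 b → Sup zdg 0 (a + b) := by
    intro a b ha hb m hm
    rw [Pi.add_apply, ha m hm, hb m hm, add_zero]
  have hsm : ∀ (c : A) {a : E8 A}, Sup zdg 0 a → Sup zdg 0 (c • a) := by
    intro c a ha m hm
    rw [Pi.smul_apply, ha m hm, smul_zero]
  have hss : ∀ (g : Fin 8 → E8 A), (∀ i, Sup zdg 0 (g i)) → Sup zdg 0 (∑ i, g i) := by
    intro g hg m hm
    rw [Finset.sum_apply]
    exact Finset.sum_eq_zero fun i _ => hg i m hm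
  let I0 : E8 A := ∑ j : Fin 8, br (L3 (Pi.single j 1)) (V3 (Pi.single j 1))
  have hI : rho I0 = (-9 : A) • LinearMap.id := by
    refine LinearMap.ext fun x => ?_
    simp only [I0, map_sum, LinearMap.sum_apply, rho_L3_V3, dot_single_left, Pi.single_eq_same,
      LinearMap.smul_apply, LinearMap.id_apply, one_smul, Finset.sum_neg_distrib,
      Finset.sum_add_distrib, Finset.sum_const, Finset.card_univ, Fintype.card_fin]
    have e : (∑ j : Fin 8, x j • (Pi.single j 1 : Vec A)) = x := by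
      funext k
      simp [Finset.sum_apply, Pi.single_apply]
    rw [e]
    module
  let t : A := ∑ j : Fin 8, N (Pi.single j 1) j
  refine ⟨(-1 : A) • (∑ j : Fin 8, br (L3 (N (Pi.single j 1))) (V3 (Pi.single j 1))) +
    (algebraMap ℚ A (1 / 9) * t) • I0, ?_, ?_⟩
  · refine hsum (hsm _ (hss _ fun i => hsup _ _)) (hsm _ (hss _ fun i => hsup _ _))
  · refine LinearMap.ext fun x => ?_
    rw [map_add, map_smul, map_smul, hI]
    simp only [map_sum, LinearMap.add_apply, LinearMap.smul_apply, LinearMap.sum_apply, rho_L3_V3,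
      dot_single_left, LinearMap.id_apply, Finset.sum_neg_distrib, Finset.sum_add_distrib]
    have e1 : (∑ j : Fin 8, x j • N (Pi.single j 1)) = N x := by
      conv_rhs => rw [show x = ∑ j : Fin 8, x j • (Pi.single j 1 : Vec A) by
        funext k
        simp [Finset.sum_apply, Pi.single_apply]]
      rw [map_sum]
      exact Finset.sum_congr rfl fun j _ => by rw [map_smul]
    rw [e1, ← Finset.sum_smul]
    change (-1 : A) • -(N x + t • x) + (algebraMap ℚ A (1 / 9) * t) • (-9 : A) • x = N x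
    have h := nine_inv (A := A)
    have e2 : (algebraMap ℚ A (1 / 9) * t) • (-9 : A) • x = (-t) • x := by
      rw [smul_smul]
      congr 1
      linear_combination (-t) * h
    rw [e2]
    module

theorem tht_surj [Algebra ℚ A] (N : Vec A →ₗ[A] Vec A) : ∃ Y : E8 A, Sup zdg 0 Y ∧ tht Y = N := by
  obtain ⟨Y, hY, h⟩ := rho_surj (N + tr8 N • LinearMap.id)
  refine ⟨Y, hY, LinearMap.ext fun x => ?_⟩
  rw [tht_apply, h, map_add, map_smul, tr8_id]
  have h9 := nine_inv (A := A)
  have e : algebraMap ℚ A (1 / 9) * (tr8 N + tr8 N • 8) = tr8 N := by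
    rw [smul_eq_mul]
    linear_combination (tr8 N) * h9
  rw [e]
  simp only [LinearMap.add_apply, LinearMap.smul_apply, LinearMap.id_apply]
  module

end

end Pool.Agent.Licci.P

end

section

/-!
# Module P, part 7: the components of degree `≥ 0` of `exp (n₁ + n₂ + n₃) F`
-/

set_option linter.unusedSectionVars false

namespace Pool.Agent.Licci.P

open scoped BigOperators
open U (Sup)

section

variable {A : Type*} [CommRing A]

theorem zle_add {a : ℤ} {x y : E8 A} (hx : Le zdg a x) (hy : Le zdg a y) : Le zdg a (x + y) :=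
  fun m hm => by rw [Pi.add_apply, hx m hm, hy m hm, add_zero]

theorem zle_smul {a : ℤ} (c : A) {x : E8 A} (hx : Le zdg a x) : Le zdg a (c • x) :=
  fun m hm => by rw [Pi.smul_apply, hx m hm, smul_zero]

theorem zle_mono {a b : ℤ} (h : a ≤ b) {x : E8 A} (hx : Le zdg a x) : Le zdg b x :=
  fun m hm => hx m (by omega)

theorem zsup_le {a : ℤ} {x : E8 A} (hx : Sup zdg a x) : Le zdg a x := fun m hm => hx m (by omega)

theorem zle_br {a b c : ℤ} (h : a + b ≤ c) {x y : E8 A} (hx : Le zdg a x) (hy : Le zdg b y) :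
    Le zdg c (br x y) := zle_mono h (Le.br (fun _ _ _ h => sc_zdg h) hx hy)

theorem zsup_br {a b c : ℤ} (h : a + b = c) {x y : E8 A} (hx : Sup zdg a x) (hy : Sup zdg b y) :
    Sup zdg c (br x y) := h ▸ (Sup.br (fun _ _ _ h => sc_zdg h) hx hy)

theorem zsup_add {a : ℤ} {x y : E8 A} (hx : Sup zdg a x) (hy : Sup zdg a y) : Sup zdg a (x + y) :=
  fun m hm => by rw [Pi.add_apply, hx m hm, hy m hm, add_zero]

theorem zsup_sub {a : ℤ} {x y : E8 A} (hx : Sup zdg a x) (hy : Sup zdg a y) : Sup zdg a (x - y) :=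
  fun m hm => by rw [Pi.sub_apply, hx m hm, hy m hm, sub_zero]

theorem zsup_smul {a : ℤ} (c : A) {x : E8 A} (hx : Sup zdg a x) : Sup zdg a (c • x) :=
  fun m hm => by rw [Pi.smul_apply, hx m hm, smul_zero]

end

section

variable {A : Type*} [CommRing A] [Algebra ℚ A]

theorem q1_sup {F n₁ n₂ : E8 A} (hF : Sup zdg 3 F) (h1 : Sup zdg (-1) n₁) (h2 : Sup zdg (-2) n₂) :
    Sup zdg 1 (q1 F n₁ n₂) :=
  zsup_add (zsup_br (by norm_num) h2 hF)
    (zsup_smul _ (zsup_br (b := 2) (by norm_num) h1 (zsup_br (by norm_num) h1 hF)))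

theorem q0_sup {F n₁ n₂ : E8 A} (hF : Sup zdg 3 F) (h1 : Sup zdg (-1) n₁) (h2 : Sup zdg (-2) n₂) :
    Sup zdg 0 (q0 F n₁ n₂) := by
  have a1 : Sup zdg 2 (br n₁ F) := zsup_br (by norm_num) h1 hF
  have a2 : Sup zdg 1 (br n₂ F) := zsup_br (by norm_num) h2 hF
  have a3 : Sup zdg 1 (br n₁ (br n₁ F)) := zsup_br (by norm_num) h1 a1
  exact zsup_add (zsup_smul _ (zsup_add (zsup_br (by norm_num) h1 a2) (zsup_br (by norm_num) h2 a1)))
    (zsup_smul _ (zsup_br (by norm_num) h1 a3))

theorem ex_comp {F n₁ n₂ n₃ : E8 A} (hF : Sup zdg 3 F) (h1 : Sup zdg (-1) n₁)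
    (h2 : Sup zdg (-2) n₂) (h3 : Sup zdg (-3) n₃) : ∃ r : E8 A, Le zdg (-1) r ∧
      ex (n₁ + n₂ + n₃) F = F + br n₁ F + q1 F n₁ n₂ + (br n₃ F + q0 F n₁ n₂) + r := by
  set N := n₁ + n₂ + n₃ with hN
  have l1 : Le zdg (-1) n₁ := zsup_le h1
  have l2 : Le zdg (-2) n₂ := zsup_le h2
  have l3 : Le zdg (-3) n₃ := zsup_le h3
  have lN : Le zdg (-1) N := zle_add (zle_add l1 (zle_mono (by norm_num) l2)) (zle_mono (by norm_num) l3)
  have f1 : Le zdg 2 (br n₁ F) := zsup_le (zsup_br (by norm_num) h1 hF)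
  have f2 : Le zdg 1 (br n₂ F) := zsup_le (zsup_br (by norm_num) h2 hF)
  have f3 : Le zdg 0 (br n₃ F) := zsup_le (zsup_br (by norm_num) h3 hF)
  have w1 : br N F = br n₁ F + br n₂ F + br n₃ F := by rw [hN, br_add_left, br_add_left]
  set r2 : E8 A := br n₁ (br n₃ F) + br n₂ (br n₂ F) + br n₃ (br n₁ F) + br n₂ (br n₃ F) +
    br n₃ (br n₂ F) + br n₃ (br n₃ F) with hr2
  have w2 : br N (br N F) = br n₁ (br n₁ F) + (br n₁ (br n₂ F) + br n₂ (br n₁ F)) + r2 := by
    rw [w1, hN, hr2]
    simp only [br_add_left, br_add_right]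
    abel
  have lr2 : Le zdg (-1) r2 := by
    refine zle_add (zle_add (zle_add (zle_add (zle_add ?_ ?_) ?_) ?_) ?_) ?_
    · exact zle_br (by norm_num) l1 f3
    · exact zle_br (by norm_num) l2 f2
    · exact zle_br (by norm_num) l3 f1
    · exact zle_br (by norm_num) l2 f3
    · exact zle_br (by norm_num) l3 f2
    · exact zle_br (by norm_num) l3 f3
  set r3 : E8 A := br n₂ (br n₁ (br n₁ F)) + br n₃ (br n₁ (br n₁ F)) +
    br N (br n₁ (br n₂ F) + br n₂ (br n₁ F)) + br N r2 with hr3
  have w3 : br N (br N (br N F)) = br n₁ (br n₁ (br n₁ F)) + r3 := by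
    rw [w2, hr3, br_add_right, br_add_right]
    have : br N (br n₁ (br n₁ F)) = br n₁ (br n₁ (br n₁ F)) + br n₂ (br n₁ (br n₁ F)) +
        br n₃ (br n₁ (br n₁ F)) := by rw [hN, br_add_left, br_add_left]
    rw [this]
    abel
  have g1 : Le zdg 1 (br n₁ (br n₁ F)) := zle_br (by norm_num) l1 f1
  have lr3 : Le zdg (-1) r3 := by
    refine zle_add (zle_add (zle_add ?_ ?_) ?_) ?_
    · exact zle_br (by norm_num) l2 g1
    · exact zle_br (by norm_num) l3 g1
    · refine zle_br (b := 0) (by norm_num) lN (zle_add ?_ ?_)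
      · exact zle_br (by norm_num) l1 f2
      · exact zle_br (by norm_num) l2 f1
    · exact zle_br (by norm_num) lN lr2
  have lk : ∀ k, 4 ≤ k → Le zdg (-1) (((brL N) ^ k) F) := by
    intro k hk
    have := br_pow_le (fun _ _ _ h => sc_zdg h) lN (le_three F) k
    exact zle_mono (by push_cast; omega) this
  refine ⟨algebraMap ℚ A (1 / 2) • r2 + algebraMap ℚ A (1 / 6) • r3 +
    (algebraMap ℚ A (((4 : ℕ).factorial : ℚ)⁻¹) • ((brL N) ^ 4) F +
    algebraMap ℚ A (((5 : ℕ).factorial : ℚ)⁻¹) • ((brL N) ^ 5) F +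
    algebraMap ℚ A (((6 : ℕ).factorial : ℚ)⁻¹) • ((brL N) ^ 6) F), ?_, ?_⟩
  · exact zle_add (zle_add (zle_smul _ lr2) (zle_smul _ lr3)) (zle_add (zle_add (zle_smul _ (lk 4 le_rfl))
      (zle_smul _ (lk 5 (by norm_num)))) (zle_smul _ (lk 6 (by norm_num))))
  · rw [ex_apply]
    simp only [Finset.sum_range_succ, Finset.sum_range_zero, zero_add]
    have p0 : ((brL N) ^ 0) F = F := by simp
    have p1 : ((brL N) ^ 1) F = br N F := by simp
    have p2 : ((brL N) ^ 2) F = br N (br N F) := by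
      rw [pow_two, Module.End.mul_apply, brL_apply, brL_apply]
    have p3 : ((brL N) ^ 3) F = br N (br N (br N F)) := by
      rw [pow_succ', Module.End.mul_apply, p2, brL_apply]
    rw [p0, p1, p2, p3, w3, w2, w1]
    have c0 : algebraMap ℚ A (((0 : ℕ).factorial : ℚ)⁻¹) = 1 := by norm_num
    have c1 : algebraMap ℚ A (((1 : ℕ).factorial : ℚ)⁻¹) = 1 := by norm_num
    have c2 : algebraMap ℚ A (((2 : ℕ).factorial : ℚ)⁻¹) = algebraMap ℚ A (1 / 2) := by
      norm_num
    have c3 : algebraMap ℚ A (((3 : ℕ).factorial : ℚ)⁻¹) = algebraMap ℚ A (1 / 6) := by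
      norm_num [Nat.factorial]
    rw [c0, c1, c2, c3]
    unfold q1 q0
    module

end

end Pool.Agent.Licci.P

end

section

/-!
# Module P, part 8: descending forms from `K` to `R`, base change, charts
-/

set_option linter.unusedSectionVars false

namespace Pool.Agent.Licci.P

open scoped BigOperators
open U (Sup)
open LicciCodimFour (chart mem_chart)
open RingTheory.Sequence

universe u v

section descend

variable {R : Type*} [CommRing R] {M N N' : Type*} [AddCommGroup M] [Module R M] [AddCommGroup N]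
  [Module R N] [AddCommGroup N'] [Module R N']

theorem exists_descend (j : N' →ₗ[R] N) (hj : Function.Injective j) {n : ℕ}
    (ω : M [⋀^Fin n]→ₗ[R] N) (h : ∀ v, ω v ∈ LinearMap.range j) :
    ∃ ω' : M [⋀^Fin n]→ₗ[R] N', j.compAlternatingMap ω' = ω := by
  let e := LinearEquiv.ofInjective j hj
  refine ⟨(e.symm : LinearMap.range j →ₗ[R] N').compAlternatingMap
    (ω.codRestrict (LinearMap.range j) h), ?_⟩
  ext v
  rw [LinearMap.compAlternatingMap_apply, LinearMap.compAlternatingMap_apply]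
  have h1 := e.apply_symm_apply (ω.codRestrict (LinearMap.range j) h v)
  have h2 := congrArg Subtype.val h1
  rw [LinearEquiv.ofInjective_apply] at h2
  exact h2

theorem comp_injective (j : N' →ₗ[R] N) (hj : Function.Injective j) {n : ℕ}
    {ω ω' : M [⋀^Fin n]→ₗ[R] N'} (h : j.compAlternatingMap ω = j.compAlternatingMap ω') :
    ω = ω' := by
  ext v
  apply hj
  have := congrArg (fun (f : M [⋀^Fin n]→ₗ[R] N) => f v) h
  exact this

/-- a closed form is `f ∧ _` where `f u` is invertible -/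
theorem eq_wedge_contr {K : Type*} [Field K] [Algebra R K] (f : M →ₗ[R] R) (u : M) (n : ℕ)
    (ω : M [⋀^Fin (n + 1)]→ₗ[R] K) (hω : wedge f (n + 1) ω = 0) (hu : algebraMap R K (f u) ≠ 0) :
    wedge f n ((LinearMap.mulLeft R (algebraMap R K (f u))⁻¹).compAlternatingMap (contr u n ω)) =
      ω := by
  have h1 := contr_wedge f u n ω
  rw [hω, map_zero] at h1
  have h2 : wedge f n (contr u n ω) = f u • ω := (sub_eq_zero.1 h1.symm).symm
  rw [wedge_compRight, h2]
  ext v
  rw [LinearMap.compAlternatingMap_apply, LinearMap.mulLeft_apply, AlternatingMap.smul_apply,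
    Algebra.smul_def, ← mul_assoc, inv_mul_cancel₀ hu, one_mul]

end descend

section basechange

variable {R K : Type*} [CommRing R] [CommRing K] [Algebra R K]

/-- `E8 R → E8 K` -/
def up (R K : Type*) [CommRing R] [CommRing K] [Algebra R K] (x : E8 R) : E8 K :=
  fun m => algebraMap R K (x m)

theorem up_apply (x : E8 R) (m : Fin 248) : up R K x m = algebraMap R K (x m) := rfl

theorem up_add (x y : E8 R) : up R K (x + y) = up R K x + up R K y := by
  funext m
  simp [up_apply]

theorem up_br (x y : E8 R) : up R K (br x y) = br (up R K x) (up R K y) :=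
  br_map (algebraMap R K) x y

theorem up_kap (x y : E8 R) : algebraMap R K (kap x y) = kap (up R K x) (up R K y) :=
  kap_map (algebraMap R K) x y

theorem up_sup {d : ℤ} {x : E8 R} (h : Sup zdg d x) : Sup zdg d (up R K x) := fun m hm => by
  rw [up_apply, h m hm, map_zero]

theorem V3_em (f : Vec R) : V3 (emL R K f) = up R K (V3 f) := by
  funext m
  rw [up_apply]
  unfold V3
  split_ifs
  · rfl
  · rw [map_zero]

theorem L3_em (φ : Vec R) : L3 (emL R K φ) = up R K (L3 φ) := by
  funext m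
  rw [up_apply]
  unfold L3
  simp only [Finset.sum_apply, Pi.smul_apply, smul_eq_mul, map_sum, map_mul, eb_apply, emL_apply]
  refine Finset.sum_congr rfl fun i _ => ?_
  split_ifs <;> simp

theorem em_single (i : Fin 8) : emL R K (Pi.single i 1) = Pi.single i 1 := by
  funext k
  rw [emL_apply]
  by_cases h : k = i
  · subst h; simp
  · simp [h]

theorem D3_em (v : Fin 3 → Vec R) : D3 (fun i => emL R K (v i)) = up R K (D3 v) := by
  funext m
  rw [up_apply, D3_apply, D3_apply, M1_apply, M1_apply]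
  simp only [map_sum]
  refine Finset.sum_congr rfl fun i _ => Finset.sum_congr rfl fun j _ =>
    Finset.sum_congr rfl fun k _ => ?_
  split_ifs
  · rw [map_mul, map_intCast]
    congr 1
    simp only [det3, emL_apply, map_add, map_sub, map_mul]
  · rw [map_zero]

theorem rho_em (Y : E8 R) (x : Vec R) : rho (up R K Y) (emL R K x) = emL R K (rho Y x) := by
  rw [rho_apply, rho_apply, L3_em, ← up_br]
  rfl

theorem tr8_em (Y : E8 R) : tr8 (rho (up R K Y)) = algebraMap R K (tr8 (rho Y)) := by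
  rw [tr8_apply, tr8_apply, map_sum]
  refine Finset.sum_congr rfl fun i _ => ?_
  rw [← em_single (R := R) (K := K), rho_em, emL_apply]

theorem tht_em [Algebra ℚ R] [Algebra ℚ K] (Y : E8 R) (x : Vec R) :
    tht (up R K Y) (emL R K x) = emL R K (tht Y x) := by
  rw [tht_apply, tht_apply, rho_em, tr8_em, map_sub, map_smul,
    ← (algebraMap R K).map_rat_algebraMap, ← map_mul, algebraMap_smul]

theorem emL_injective (h : Function.Injective (algebraMap R K)) :
    Function.Injective (emL R K) := by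
  intro x y hxy
  funext i
  apply h
  exact congrFun hxy i

/-- coordinates in a subalgebra -/
def In (S : Subalgebra R K) (x : E8 K) : Prop := ∀ m, x m ∈ S

theorem In.up (S : Subalgebra R K) (x : E8 R) : In S (up R K x) := fun _ => S.algebraMap_mem _

theorem In.add {S : Subalgebra R K} {x y : E8 K} (hx : In S x) (hy : In S y) : In S (x + y) :=
  fun m => S.add_mem (hx m) (hy m)

theorem In.sub {S : Subalgebra R K} {x y : E8 K} (hx : In S x) (hy : In S y) : In S (x - y) :=
  fun m => S.sub_mem (hx m) (hy m)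

theorem In.neg {S : Subalgebra R K} {x : E8 K} (hx : In S x) : In S (-x) :=
  fun m => S.neg_mem (hx m)

theorem In.smul {S : Subalgebra R K} {c : K} (hc : c ∈ S) {x : E8 K} (hx : In S x) :
    In S (c • x) := fun m => S.mul_mem hc (hx m)

theorem In.br {S : Subalgebra R K} {x y : E8 K} (hx : In S x) (hy : In S y) :
    In S (Licci.br x y) := br_mem S hx hy

theorem rat_mem [Algebra ℚ R] [Algebra ℚ K] (S : Subalgebra R K) (r : ℚ) :
    algebraMap ℚ K r ∈ S := by
  rw [← (algebraMap R K).map_rat_algebraMap]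
  exact S.algebraMap_mem _

theorem In.q1 [Algebra ℚ R] [Algebra ℚ K] {S : Subalgebra R K} {F n₁ n₂ : E8 K} (hF : In S F)
    (h1 : In S n₁) (h2 : In S n₂) : In S (q1 F n₁ n₂) :=
  (h2.br hF).add (In.smul (rat_mem S _) (h1.br (h1.br hF)))

theorem In.q0 [Algebra ℚ R] [Algebra ℚ K] {S : Subalgebra R K} {F n₁ n₂ : E8 K} (hF : In S F)
    (h1 : In S n₁) (h2 : In S n₂) : In S (q0 F n₁ n₂) :=
  (In.smul (rat_mem S _) ((h1.br (h2.br hF)).add (h2.br (h1.br hF)))).add
    (In.smul (rat_mem S _) (h1.br (h1.br (h1.br hF))))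

theorem al3_mem {S : Subalgebra R K} {q : E8 K} (hq : In S q) (v : Fin 3 → Vec R) :
    al3 R q v ∈ S := by
  rw [al3_apply, D3_em]
  exact kap_mem S hq (In.up S _)

theorem zsmul_mem' (S : Subalgebra R K) (n : ℤ) {x : K} (hx : x ∈ S) : n • x ∈ S := by
  rw [zsmul_eq_mul]
  exact S.mul_mem (intCast_mem S n) hx

theorem wedge_mem {S : Subalgebra R K} {n : ℕ} (f : Vec R →ₗ[R] R) {ω : (Vec R) [⋀^Fin n]→ₗ[R] K}
    (hω : ∀ v, ω v ∈ S) (v : Fin (n + 1) → Vec R) : wedge f n ω v ∈ S := by
  rw [wedge_apply]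
  exact S.sum_mem fun i _ => zsmul_mem' S _ (S.smul_mem (hω _) _)

theorem rho_mem {S : Subalgebra R K} {q : E8 K} (hq : In S q) (x : Vec R) (k : Fin 8) :
    rho q (emL R K x) k ∈ S := by
  rw [rho_apply, L3_em]
  exact (hq.br (In.up S _)) _

theorem tr8_mem {S : Subalgebra R K} {q : E8 K} (hq : In S q) : tr8 (rho q) ∈ S := by
  rw [tr8_apply]
  refine S.sum_mem fun i _ => ?_
  rw [← em_single (R := R)]
  exact rho_mem hq _ _

theorem tht_mem [Algebra ℚ R] [Algebra ℚ K] {S : Subalgebra R K} {q : E8 K} (hq : In S q)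
    (x : Vec R) (k : Fin 8) : tht q (emL R K x) k ∈ S := by
  rw [tht_apply]
  exact S.sub_mem (rho_mem hq x k) (S.mul_mem (S.mul_mem (rat_mem S _) (tr8_mem hq))
    (S.algebraMap_mem _))

end basechange

section hartogs

variable {R : Type u} [CommRing R] [IsDomain R] {K : Type v} [Field K] [Algebra R K]

/-- an element of `K` which lies in all the charts lies in `R` -/
theorem exists_of_charts (hinj : Function.Injective (algebraMap R K)) {f : Vec R}
    (hreg : HasReg (fL f) 6) {x : K} (hx : ∀ i, f i ≠ 0 → x ∈ chart K (f i)) :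
    ∃ r : R, x = algebraMap R K r := by
  obtain ⟨rs, hlen, hrs, hmem⟩ := hreg
  match rs, hlen with
  | a :: b :: c :: rest, _ =>
    have h3 : IsWeaklyRegular R [a, b, c] :=
      ((isWeaklyRegular_append_iff R [a, b, c] rest).1 (by simpa using hrs)).1
    have hR := LicciCodimFour.Reg3.of_isWeaklyRegular h3
    have ha0 : a ≠ 0 := by
      rintro rfl
      exact one_ne_zero (hR.one 1 (zero_mul _))
    have ha : IsUnit (algebraMap R K a) :=
      isUnit_iff_ne_zero.2 fun h => ha0 (hinj (by rw [h, map_zero]))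
    have key : ∀ y ∈ a :: b :: c :: rest, x ∈ chart K y := by
      intro y hy
      obtain ⟨v, rfl⟩ := hmem y hy
      have hspan : fL f v ∈ Ideal.span (Set.range fun i : {i : Fin 8 // f i ≠ 0} => f i) := by
        rw [fL_apply, dot]
        refine Ideal.sum_mem _ fun i _ => ?_
        by_cases hi : f i = 0
        · rw [hi, zero_mul]
          exact Ideal.zero_mem _
        · exact Ideal.mul_mem_right _ _ (Ideal.subset_span ⟨⟨i, hi⟩, rfl⟩)
      have := LicciCodimFour.mem_chart_of_cover (T := K) (fun i : {i : Fin 8 // f i ≠ 0} => f i) 1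
        (fL f v) hspan (x := x) (fun i => by rw [one_mul]; exact hx i i.2)
      rwa [one_mul] at this
    exact LicciCodimFour.exists_eq_algebraMap_of_inter hinj hR ha (key a (by simp))
      (key b (by simp))

theorem exists_ne_zero {f : Vec R} (hreg : HasReg (fL f) 6) : ∃ i, f i ≠ 0 := by
  by_contra hcon
  push Not at hcon
  obtain ⟨rs, hlen, hrs, hmem⟩ := hreg
  match rs, hlen with
  | a :: rest, _ =>
    obtain ⟨v, hv⟩ := hmem a (by simp)
    rw [fL_apply, dot] at hv
    simp only [hcon, zero_mul, Finset.sum_const_zero] at hv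
    have h1 := ((isWeaklyRegular_cons_iff R a rest).1 hrs).1
    rw [← hv] at h1
    exact one_ne_zero (h1 (by simp : (0 : R) • (1 : R) = (0 : R) • (0 : R)))

end hartogs

end Pool.Agent.Licci.P

end

section

/-!
# Module P: construction of a cone point `p` of `e_8(R)` with components `f` (degree `3`) and
`ζ` (degree `2`)
-/

set_option linter.unusedSectionVars false

namespace Pool.Agent.Licci.P

open scoped BigOperators
open U (Sup)
open LicciCodimFour (chart mem_chart)
open RingTheory.Sequence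

universe u v

/-- a linear map as a `1`-form -/
def o1 {R M N : Type*} [CommRing R] [AddCommGroup M] [Module R M] [AddCommGroup N] [Module R N]
    (l : M →ₗ[R] N) : M [⋀^Fin 1]→ₗ[R] N := AlternatingMap.ofSubsingleton R M N (0 : Fin 1) l

theorem o1_apply {R M N : Type*} [CommRing R] [AddCommGroup M] [Module R M] [AddCommGroup N]
    [Module R N] (l : M →ₗ[R] N) (x : Fin 1 → M) : o1 l x = l (x 0) := rfl

section

variable {R : Type u} [CommRing R] [IsDomain R] [Algebra ℚ R] {K : Type v} [Field K] [Algebra R K]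
  [Algebra ℚ K]

/-- degree `1` -/
theorem exists_p1 (hinj : Function.Injective (algebraMap R K)) {f : Vec R}
    (hreg : HasReg (fL f) 6) (n₁ : Fin 8 → E8 K) (hs : ∀ i, f i ≠ 0 → Sup zdg (-1) (n₁ i))
    (hS : ∀ i, f i ≠ 0 → In (chart K (f i)) (n₁ i))
    (hZ : ∀ i j, f i ≠ 0 → f j ≠ 0 → br (n₁ i) (V3 (emL R K f)) = br (n₁ j) (V3 (emL R K f))) :
    ∃ p₁ : E8 R, Sup zdg 1 p₁ ∧ ∀ i, f i ≠ 0 → ∃ n₂ : E8 K, Sup zdg (-2) n₂ ∧
      In (chart K (f i)) n₂ ∧ up R K p₁ = q1 (V3 (emL R K f)) (n₁ i) n₂ := by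
  set F : E8 K := V3 (emL R K f) with hF
  have hFs : Sup zdg 3 F := V3_sup _
  have hFin : ∀ S : Subalgebra R K, In S F := fun S => by
    rw [hF, V3_em]
    exact In.up S _
  obtain ⟨i₀, hi₀⟩ := exists_ne_zero hreg
  let w : Fin 8 → E8 K := fun i => algebraMap ℚ K (1 / 2) • br (n₁ i) (br (n₁ i) F)
  have hws : ∀ i, f i ≠ 0 → Sup zdg 1 (w i) := fun i hi =>
    zsup_smul _ (zsup_br (b := 2) (by norm_num) (hs i hi) (zsup_br (by norm_num) (hs i hi) hFs))
  have hwS : ∀ i, f i ≠ 0 → In (chart K (f i)) (w i) := fun i hi =>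
    In.smul (rat_mem _ _) ((hS i hi).br ((hS i hi).br (hFin _)))
  have hww : ∀ i j, f i ≠ 0 → f j ≠ 0 → wedge (fL f) 3 (al3 R (w i)) = wedge (fL f) 3 (al3 R (w j)) := by
    intro i j hi hj
    have h1 := step_one (hZ i j hi hj)
    have h2 : w i - w j = br (algebraMap ℚ K (1 / 2) • br (n₁ i - n₁ j) (n₁ j)) F := by
      rw [br_smul_left, ← h1, smul_sub]
    have h3 : al3 R (w i) - al3 R (w j) =
        wedge (fL f) 2 (be2 R (algebraMap ℚ K (1 / 2) • br (n₁ i - n₁ j) (n₁ j))) := by
      rw [← al3_sub, h2, hF, al3_br]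
    rw [← sub_eq_zero, ← map_sub, h3, wedge_wedge_self]
  -- descend
  obtain ⟨C, hC⟩ := exists_descend (Algebra.linearMap R K) hinj (wedge (fL f) 3 (al3 R (w i₀)))
    (fun v => by
      obtain ⟨r, hr⟩ := exists_of_charts hinj hreg
        (x := wedge (fL f) 3 (al3 R (w i₀)) v) (fun i hi => by
          rw [hww i₀ i hi₀ hi]
          exact wedge_mem _ (al3_mem (hwS i hi)) v)
      exact ⟨r, hr.symm⟩)
  have hC4 : wedge (fL f) 4 C = 0 := by
    refine comp_injective (Algebra.linearMap R K) hinj ?_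
    rw [← wedge_compRight, hC, wedge_wedge_self]
    ext v
    simp
  obtain ⟨P3, hP3⟩ : ∃ η, wedge (fL f) 3 η = C := hreg.isCob 4 (by norm_num) C hC4
  obtain ⟨p₁, hp₁s, hp₁⟩ := al3_surj (K := K) P3
  have hal : al3 R (up R K p₁) = (Algebra.linearMap R K).compAlternatingMap P3 := by
    ext v
    exact hp₁ v
  refine ⟨p₁, hp₁s, fun i hi => ?_⟩
  have hδ : wedge (fL f) 3 (al3 R (up R K p₁ - w i)) = 0 := by
    rw [al3_sub, map_sub, hal, wedge_compRight, hP3, hC, hww i₀ i hi₀ hi, sub_self]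
  have hfi : algebraMap R K (fL f (Pi.single i 1)) ≠ 0 := by
    rw [fL_apply, dot_single]
    intro h
    exact hi (hinj (by rw [h, map_zero]))
  have hβ := eq_wedge_contr (fL f) (Pi.single i 1) 2 _ hδ hfi
  obtain ⟨n₂, h2s, h2b, h2S⟩ := be2_surj
    ((LinearMap.mulLeft R (algebraMap R K (fL f (Pi.single i 1)))⁻¹).compAlternatingMap
      (contr (Pi.single i 1) 2 (al3 R (up R K p₁ - w i))))
  have hkey : br n₂ F = up R K p₁ - w i := by
    have h1 : Sup zdg 1 (br n₂ F - (up R K p₁ - w i)) :=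
      zsup_sub (zsup_br (by norm_num) h2s hFs) (zsup_sub (up_sup hp₁s) (hws i hi))
    have h2 : al3 R (br n₂ F - (up R K p₁ - w i)) = 0 := by
      rw [al3_sub, hF, al3_br, h2b, hβ, sub_self]
    exact sub_eq_zero.1 (al3_inj h1 h2)
  refine ⟨n₂, h2s, ?_, ?_⟩
  · refine h2S _ fun v => ?_
    rw [LinearMap.compAlternatingMap_apply, LinearMap.mulLeft_apply, contr_apply]
    refine Subalgebra.mul_mem _ ?_ ?_
    · rw [fL_apply, dot_single] at hfi ⊢
      exact LicciCodimFour.inv_mem_chart (mul_inv_cancel₀ hfi)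
    · exact al3_mem ((In.up _ _).sub (hwS i hi)) _
  · unfold q1
    rw [hkey]
    change up R K p₁ = up R K p₁ - w i + w i
    rw [sub_add_cancel]

/-- degree `0` -/
theorem exists_p0 (hinj : Function.Injective (algebraMap R K)) {f : Vec R}
    (hreg : HasReg (fL f) 6) (n₁ n₂ : Fin 8 → E8 K) (hs : ∀ i, f i ≠ 0 → Sup zdg (-1) (n₁ i))
    (hs2 : ∀ i, f i ≠ 0 → Sup zdg (-2) (n₂ i))
    (hS : ∀ i, f i ≠ 0 → In (chart K (f i)) (n₁ i)) (hS2 : ∀ i, f i ≠ 0 → In (chart K (f i)) (n₂ i))
    (hZ : ∀ i j, f i ≠ 0 → f j ≠ 0 → br (n₁ i) (V3 (emL R K f)) = br (n₁ j) (V3 (emL R K f)))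
    (hQ : ∀ i j, f i ≠ 0 → f j ≠ 0 → q1 (V3 (emL R K f)) (n₁ i) (n₂ i) =
      q1 (V3 (emL R K f)) (n₁ j) (n₂ j)) :
    ∃ p₀ : E8 R, Sup zdg 0 p₀ ∧ ∀ i, f i ≠ 0 → ∃ n₃ : E8 K, Sup zdg (-3) n₃ ∧
      In (chart K (f i)) n₃ ∧
      up R K p₀ = br n₃ (V3 (emL R K f)) + q0 (V3 (emL R K f)) (n₁ i) (n₂ i) := by
  set F : E8 K := V3 (emL R K f) with hF
  have hFs : Sup zdg 3 F := V3_sup _
  have hFin : ∀ S : Subalgebra R K, In S F := fun S => by
    rw [hF, V3_em]
    exact In.up S _
  obtain ⟨i₀, hi₀⟩ := exists_ne_zero hreg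
  let w : Fin 8 → E8 K := fun i => q0 F (n₁ i) (n₂ i)
  have hws : ∀ i, f i ≠ 0 → Sup zdg 0 (w i) := fun i hi => q0_sup hFs (hs i hi) (hs2 i hi)
  have hwS : ∀ i, f i ≠ 0 → In (chart K (f i)) (w i) := fun i hi =>
    In.q0 (hFin _) (hS i hi) (hS2 i hi)
  -- the `1`-forms
  let θ : E8 K → (Vec R →ₗ[R] Vec K) := fun Y =>
    { toFun := fun x => tht Y (emL R K x)
      map_add' := fun x y => by rw [map_add, map_add]
      map_smul' := fun c x => by
        have : emL R K (c • x) = algebraMap R K c • emL R K x := by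
          rw [map_smul, algebraMap_smul]
        rw [this, map_smul, algebraMap_smul, RingHom.id_apply] }
  have hθ : ∀ Y x, θ Y x = tht Y (emL R K x) := fun _ _ => rfl
  have hθsub : ∀ Y Z, θ (Y - Z) = θ Y - θ Z := by
    intro Y Z
    refine LinearMap.ext fun x => ?_
    rw [LinearMap.sub_apply, hθ, hθ, hθ, map_sub, LinearMap.sub_apply]
  have honesub : ∀ a b : Vec R →ₗ[R] Vec K, o1 (a - b) = o1 a - o1 b := by
    intro a b
    ext v
    rfl
  have hw1 : ∀ (a : Vec R →ₗ[R] Vec K) (v : Fin 2 → Vec R), wedge (fL f) 1 (o1 a) v =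
      fL f (v 0) • a (v 1) - fL f (v 1) • a (v 0) := by
    intro a v
    rw [wedge_apply, Fin.sum_univ_two, o1_apply, o1_apply]
    simp [Fin.removeNth, sub_eq_add_neg]
  have hzero : ∀ u : Vec K, wedge (fL f) 1 (o1 ((fL f).smulRight u)) = 0 := by
    intro u
    ext v
    rw [hw1, LinearMap.smulRight_apply, LinearMap.smulRight_apply, smul_smul, smul_smul, mul_comm,
      sub_self]
    rfl
  have hbr : ∀ c : E8 K, Sup zdg (-3) c → θ (br c F) = (fL f).smulRight (-(p3m c)) := by
    intro c hc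
    refine LinearMap.ext fun x => ?_
    rw [hθ, eq_L3 hc, hF, tht_L3_V3, LinearMap.smulRight_apply, p3m_L3, dot_em, fL_apply, smul_neg,
      algebraMap_smul]
  have hww : ∀ i j, f i ≠ 0 → f j ≠ 0 →
      wedge (fL f) 1 (o1 (θ (w i))) = wedge (fL f) 1 (o1 (θ (w j))) := by
    intro i j hi hj
    obtain ⟨c, hc, hc'⟩ := step_two (hZ i j hi hj) (hQ i j hi hj)
    have hcs : Sup zdg (-3) c := by
      rw [hc']
      have a1 := hs i hi
      have b1 := hs j hj
      have ab : Sup zdg (-2) (br (n₁ i - n₁ j) (n₁ j)) := zsup_br (by norm_num) (zsup_sub a1 b1) b1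
      refine zsup_add (zsup_add ?_ ?_) ?_
      · exact zsup_br (a := -2) (by norm_num)
          (zsup_add (zsup_sub (hs2 i hi) (hs2 j hj)) (zsup_smul _ ab)) b1
      · exact zsup_smul _ (zsup_br (by norm_num) (zsup_add a1 b1) ab)
      · exact zsup_smul _ (zsup_sub (zsup_br (by norm_num) a1 (hs2 i hi))
          (zsup_br (by norm_num) b1 (hs2 j hj)))
    rw [← sub_eq_zero, ← map_sub, ← honesub, ← hθsub]
    change wedge (fL f) 1 (o1 (θ (q0 F (n₁ i) (n₂ i) - q0 F (n₁ j) (n₂ j)))) = 0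
    rw [hc, hbr c hcs, hzero]
  have hem := emL_injective (R := R) (K := K) hinj
  obtain ⟨C, hC⟩ := exists_descend (emL R K) hem (wedge (fL f) 1 (o1 (θ (w i₀))))
    (fun v => by
      have hk : ∀ k : Fin 8, ∃ r : R, wedge (fL f) 1 (o1 (θ (w i₀))) v k = algebraMap R K r := by
        intro k
        refine exists_of_charts hinj hreg fun i hi => ?_
        rw [hww i₀ i hi₀ hi, hw1]
        refine Subalgebra.sub_mem _ ?_ ?_
        · exact Subalgebra.smul_mem _ (tht_mem (hwS i hi) _ _) _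
        · exact Subalgebra.smul_mem _ (tht_mem (hwS i hi) _ _) _
      choose r hr using hk
      exact ⟨r, funext fun k => (hr k).symm⟩)
  have hC2 : wedge (fL f) 2 C = 0 := by
    refine comp_injective (emL R K) hem ?_
    rw [← wedge_compRight, hC, wedge_wedge_self]
    ext v
    simp
  obtain ⟨P1, hP1⟩ : ∃ η, wedge (fL f) 1 η = C := by
    obtain ⟨rs, hlen, hrs, hmem⟩ := hreg
    exact koszul_exact' (fL f) rs (isWeaklyRegular_pi rs R hrs) hmem 2 (by omega) C hC2
  obtain ⟨N, hN⟩ : ∃ N : Vec R →ₗ[R] Vec R, P1 = o1 N :=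
    ⟨(AlternatingMap.ofSubsingleton R (Vec R) (Vec R) (0 : Fin 1)).symm P1,
      ((AlternatingMap.ofSubsingleton R (Vec R) (Vec R) (0 : Fin 1)).apply_symm_apply P1).symm⟩
  obtain ⟨p₀, hp₀s, hp₀⟩ := tht_surj N
  have hθp : θ (up R K p₀) = (emL R K) ∘ₗ N := by
    refine LinearMap.ext fun x => ?_
    rw [hθ, tht_em, hp₀]
    rfl
  refine ⟨p₀, hp₀s, fun i hi => ?_⟩
  set δ : E8 K := up R K p₀ - w i with hδdef
  have hδs : Sup zdg 0 δ := zsup_sub (up_sup hp₀s) (hws i hi)
  have hδ : wedge (fL f) 1 (o1 (θ δ)) = 0 := by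
    rw [hδdef, hθsub, honesub, map_sub, hθp, ← hww i₀ i hi₀ hi, ← hC]
    have : o1 ((emL R K) ∘ₗ N) = (emL R K).compAlternatingMap (o1 N) := by
      ext v
      rfl
    rw [this, wedge_compRight, ← hN, hP1, sub_self]
  have hfi : algebraMap R K (f i) ≠ 0 := by
    intro h
    exact hi (hinj (by rw [h, map_zero]))
  set φ : Vec K := (algebraMap R K (f i))⁻¹ • θ δ (Pi.single i 1) with hφ
  have hθδ : ∀ x, θ δ x = fL f x • φ := by
    intro x
    have h1 := congrArg (fun (g : (Vec R) [⋀^Fin 2]→ₗ[R] Vec K) => g ![x, Pi.single i 1]) hδ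
    simp only [hw1, Matrix.cons_val_zero, Matrix.cons_val_one, AlternatingMap.zero_apply] at h1
    rw [fL_apply f (Pi.single i 1), dot_single, sub_eq_zero] at h1
    rw [hφ, smul_comm, h1, ← algebraMap_smul K (f i), smul_smul, inv_mul_cancel₀ hfi, one_smul]
  refine ⟨L3 (-φ), L3_sup _, ?_, ?_⟩
  · have hφS : ∀ k, φ k ∈ chart K (f i) := fun k =>
      Subalgebra.mul_mem _ (LicciCodimFour.inv_mem_chart (mul_inv_cancel₀ hfi))
        (tht_mem ((In.up _ _).sub (hwS i hi)) _ _)
    intro m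
    unfold L3
    rw [Finset.sum_apply]
    refine Subalgebra.sum_mem _ fun k _ => ?_
    rw [Pi.smul_apply, eb_apply]
    split_ifs
    · rw [smul_eq_mul, mul_one]
      exact Subalgebra.neg_mem _ (hφS k)
    · rw [smul_zero]
      exact Subalgebra.zero_mem _
  · have h1 : Sup zdg 0 (br (L3 (-φ)) F - δ) :=
      zsup_sub (zsup_br (by norm_num) (L3_sup _) hFs) hδs
    have h2 : br (L3 (-φ)) F - δ = 0 := by
      refine tht_inj h1 fun k => ?_
      have h3 : θ (br (L3 (-φ)) F - δ) (Pi.single k 1) = 0 := by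
        rw [hθsub, LinearMap.sub_apply, hθδ, hbr _ (L3_sup _), p3m_L3, neg_neg,
          LinearMap.smulRight_apply, sub_self]
      rw [hθ, em_single] at h3
      exact h3
    rw [sub_eq_zero.1 h2, hδdef]
    change _ = up R K p₀ - w i + w i
    rw [sub_add_cancel]

/-- coefficients of `(e_i ∧ ζ) / f_i` -/
noncomputable def mu1 (K : Type v) [Field K] [Algebra R K] (f : Vec R) (ζ : Fin 8 → Fin 8 → R)
    (i a p q : Fin 8) : K :=
  (algebraMap R K (f i))⁻¹ * algebraMap R K ((if a = i then ζ p q else 0) -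
    (if p = i then ζ a q else 0) + (if q = i then ζ a p else 0))

theorem w2_up (x : E8 R) (i j : Fin 8) : w2 (up R K x) i j = algebraMap R K (w2 x i j) := by
  unfold w2
  rw [up_apply, map_mul, map_intCast]

theorem br_n1 (hinj : Function.Injective (algebraMap R K)) {f : Vec R} {ζ : Fin 8 → Fin 8 → R}
    (h0 : ∀ i, ζ i i = 0) (h1 : ∀ i j, ζ i j = - ζ j i) (hz : ∀ j, ∑ i, f i * ζ i j = 0)
    {i : Fin 8} (hi : f i ≠ 0) : br (M1 (mu1 K f ζ i)) (V3 (emL R K f)) =
      W2 (fun p q => algebraMap R K (ζ p q)) := by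
  have hfi : algebraMap R K (f i) ≠ 0 := by
    intro h
    exact hi (hinj (by rw [h, map_zero]))
  have hs : Sup zdg 2 (br (M1 (mu1 K f ζ i)) (V3 (emL R K f))) :=
    zsup_br (by norm_num) (M1_sup _) (V3_sup _)
  have e1 := eq_V3_W2 (Y := br (M1 (mu1 K f ζ i)) (V3 (emL R K f))) (fun m hm => hs m (by
    change zdg m ≠ _
    omega))
  have e2 : p3 (br (M1 (mu1 K f ζ i)) (V3 (emL R K f))) = 0 := by
    funext a
    refine hs _ ?_
    change zdg (ix (a : ℕ)) ≠ _
    rw [zdg_lt8]
    norm_num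
  have e3 : V3 (0 : Vec K) = 0 := by
    rw [V3_eq_sum]
    simp
  rw [e2, e3, zero_add] at e1
  rw [e1]
  congr 1
  funext p q
  have hM : Le zdg (-1) (M1 (mu1 K f ζ i)) := zsup_le (M1_sup _)
  rw [w2_m1 hM]
  have e4 : ∀ a, t1 (M1 (mu1 K f ζ i)) a p q = mu1 K f ζ i a p q := by
    intro a
    refine t1_M1 _ ?_ ?_ ?_ a p q
    · intro a q
      unfold mu1
      rw [h0 a]
      simp
    · intro a p q
      unfold mu1
      rw [← mul_neg, ← map_neg, h1 a p]
      congr 2
      split_ifs <;> ring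
    · intro a p q
      unfold mu1
      rw [← mul_neg, ← map_neg, h1 p q]
      congr 2
      split_ifs <;> ring
  simp only [e4, V3_apply_ix, emL_apply, mu1]
  have e5 : ∀ a : Fin 8, (algebraMap R K (f i))⁻¹ * algebraMap R K ((if a = i then ζ p q else 0) -
      (if p = i then ζ a q else 0) + (if q = i then ζ a p else 0)) * algebraMap R K (f a) =
      (algebraMap R K (f i))⁻¹ * algebraMap R K ((if a = i then f a * ζ p q else 0) -
      (if p = i then f a * ζ a q else 0) + (if q = i then f a * ζ a p else 0)) := by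
    intro a
    rw [mul_assoc, ← map_mul]
    congr 2
    split_ifs <;> ring
  rw [Finset.sum_congr rfl fun a _ => e5 a, ← Finset.mul_sum, ← map_sum, Finset.sum_add_distrib,
    Finset.sum_sub_distrib, Finset.sum_ite_eq', if_pos (Finset.mem_univ _)]
  have e6 : ∀ (c : Prop) [Decidable c] (g : Fin 8), (∑ a : Fin 8, if c then f a * ζ a g else 0) = 0 := by
    intro c _ g
    split_ifs
    · exact hz g
    · simp
  rw [e6, e6, sub_zero, add_zero, map_mul, ← mul_assoc, inv_mul_cancel₀ hfi, one_mul]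

theorem cone_ex {F n : E8 K} (hn : Le zdg (-1) n)
    (hF : ∀ x, br F (br F x) = (-2 * kap F x) • F) (x : E8 K) :
    br (ex n F) (br (ex n F) x) = (-2 * kap (ex n F) x) • ex n F := by
  have h7 := ad_nil_neg hn
  have hx : x = ex n (ex (-n) x) := (ex_ex_neg h7 x).symm
  rw [hx, ← ex_br h7, ← ex_br h7, hF, map_smul, kap_ex h7]

/-- a cone point of `e_8(R)` with given components `f` and `ζ` of degree `3` and `2` -/
theorem exists_cone' (hinj : Function.Injective (algebraMap R K)) (f : Vec R)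
    (hreg : HasReg (fL f) 6) (ζ : Fin 8 → Fin 8 → R)
    (h0 : ∀ i, ζ i i = 0) (h1 : ∀ i j, ζ i j = - ζ j i) (hz : ∀ j, ∑ i, f i * ζ i j = 0) :
    ∃ p : E8 R, p3 p = f ∧ (∀ i j, w2 p i j = ζ i j) ∧
      (∀ x, br p (br p x) = (-2 * kap p x) • p) ∧
      ∀ i, f i ≠ 0 → ∃ n : E8 K, Le zdg (-1) n ∧ (∀ m, n m ∈ chart K (f i)) ∧
        (fun m => algebraMap R K (p m)) = ex n (V3 fun j => algebraMap R K (f j)) := by
  set F : E8 K := V3 (emL R K f) with hF
  have hFs : Sup zdg 3 F := V3_sup _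
  have hFin : ∀ S : Subalgebra R K, In S F := fun S => by
    rw [hF, V3_em]
    exact In.up S _
  obtain ⟨i₀, hi₀⟩ := exists_ne_zero hreg
  let n₁ : Fin 8 → E8 K := fun i => M1 (mu1 K f ζ i)
  have hs : ∀ i, f i ≠ 0 → Sup zdg (-1) (n₁ i) := fun i _ => M1_sup _
  have hb : ∀ i, f i ≠ 0 → br (n₁ i) F = W2 (fun p q => algebraMap R K (ζ p q)) :=
    fun i hi => br_n1 hinj h0 h1 hz hi
  have hS : ∀ i, f i ≠ 0 → In (chart K (f i)) (n₁ i) := by
    intro i hi m
    have hfi : algebraMap R K (f i) ≠ 0 := by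
      intro h
      exact hi (hinj (by rw [h, map_zero]))
    change M1 (mu1 K f ζ i) m ∈ _
    rw [M1_apply]
    refine Subalgebra.sum_mem _ fun a _ => Subalgebra.sum_mem _ fun b _ =>
      Subalgebra.sum_mem _ fun c _ => ?_
    split_ifs
    · refine Subalgebra.mul_mem _ (intCast_mem _ _) (Subalgebra.mul_mem _ ?_ (Subalgebra.algebraMap_mem _ _))
      exact LicciCodimFour.inv_mem_chart (mul_inv_cancel₀ hfi)
    · exact Subalgebra.zero_mem _
  have hZ : ∀ i j, f i ≠ 0 → f j ≠ 0 → br (n₁ i) F = br (n₁ j) F := fun i j hi hj => by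
    rw [hb i hi, hb j hj]
  obtain ⟨p₁, hp₁s, hp₁⟩ := exists_p1 hinj hreg n₁ hs hS hZ
  choose! n₂ hs2 hS2 hq1 using hp₁
  have hQ : ∀ i j, f i ≠ 0 → f j ≠ 0 → q1 F (n₁ i) (n₂ i) = q1 F (n₁ j) (n₂ j) :=
    fun i j hi hj => by rw [← hq1 i hi, ← hq1 j hj]
  obtain ⟨p₀, hp₀s, hp₀⟩ := exists_p0 hinj hreg n₁ n₂ hs hs2 hS hS2 hZ hQ
  choose! n₃ hs3 hS3 hq0 using hp₀
  let n : Fin 8 → E8 K := fun i => n₁ i + n₂ i + n₃ i
  have hn : ∀ i, f i ≠ 0 → Le zdg (-1) (n i) := fun i hi =>
    zle_add (zle_add (zsup_le (hs i hi)) (zle_mono (by norm_num) (zsup_le (hs2 i hi))))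
      (zle_mono (by norm_num) (zsup_le (hs3 i hi)))
  have hnS : ∀ i, f i ≠ 0 → In (chart K (f i)) (n i) := fun i hi =>
    ((hS i hi).add (hS2 i hi)).add (hS3 i hi)
  have hcomp : ∀ i, f i ≠ 0 → ∃ r : E8 K, Le zdg (-1) r ∧ ex (n i) F =
      F + W2 (fun p q => algebraMap R K (ζ p q)) + up R K p₁ + up R K p₀ + r := by
    intro i hi
    obtain ⟨r, hr, hr'⟩ := ex_comp hFs (hs i hi) (hs2 i hi) (hs3 i hi)
    exact ⟨r, hr, by rw [hr', hb i hi, ← hq1 i hi, ← hq0 i hi]⟩
  have hge : ∀ i, f i ≠ 0 → ∀ m, 0 ≤ zdg m → ex (n i) F m =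
      (F + W2 (fun p q => algebraMap R K (ζ p q)) + up R K p₁ + up R K p₀) m := by
    intro i hi m hm
    obtain ⟨r, hr, hr'⟩ := hcomp i hi
    rw [hr', Pi.add_apply, hr m (by omega), add_zero]
  have hcone : ∀ i, f i ≠ 0 → ∀ x, br (ex (n i) F) (br (ex (n i) F) x) =
      (-2 * kap (ex (n i) F) x) • ex (n i) F := fun i hi x => cone_ex (hn i hi) (V3_cone _) x
  have htop : ∀ i, f i ≠ 0 → ∀ a : Fin 8, ex (n i) F (ix (a : ℕ)) = algebraMap R K (f a) := by
    intro i hi a
    have z3 : zdg (ix (a : ℕ)) = 3 := zdg_lt8 a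
    rw [hge i hi _ (by rw [z3]; norm_num)]
    simp only [Pi.add_apply]
    rw [W2_sup _ _ (by change zdg (ix (a : ℕ)) ≠ 2; rw [z3]; norm_num),
      up_sup hp₁s _ (by change zdg (ix (a : ℕ)) ≠ 1; rw [z3]; norm_num),
      up_sup hp₀s _ (by change zdg (ix (a : ℕ)) ≠ 0; rw [z3]; norm_num), hF, V3_apply_ix, emL_apply]
    ring
  have hf0 : algebraMap R K (f i₀) ≠ 0 := by
    intro h
    exact hi₀ (hinj (by rw [h, map_zero]))
  have heq : ∀ i, f i ≠ 0 → ex (n i₀) F = ex (n i) F := fun i hi =>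
    cone_unique (hcone i₀ hi₀) (hcone i hi)
      (fun m hm => by rw [hge i₀ hi₀ m hm, hge i hi m hm]) i₀
      (by rw [htop i₀ hi₀]; exact isUnit_iff_ne_zero.2 hf0)
  have hch : ∀ m, ∃ r : R, ex (n i₀) F m = algebraMap R K r := by
    intro m
    refine exists_of_charts hinj hreg fun i hi => ?_
    rw [heq i hi]
    exact ex_mem _ (hnS i hi) (hFin _) m
  choose p hp using hch
  have hup : up R K p = ex (n i₀) F := funext fun m => (hp m).symm
  have hupinj : ∀ x y : E8 R, up R K x = up R K y → x = y := fun x y h =>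
    funext fun m => hinj (congrFun h m)
  have hsm : ∀ (c : R) (x : E8 R), up R K (c • x) = algebraMap R K c • up R K x := by
    intro c x
    funext m
    rw [up_apply, Pi.smul_apply, Pi.smul_apply, up_apply, smul_eq_mul, smul_eq_mul, map_mul]
  refine ⟨p, ?_, ?_, ?_, ?_⟩
  · funext a
    apply hinj
    change algebraMap R K (p (ix (a : ℕ))) = _
    rw [← hp, htop i₀ hi₀]
  · intro i j
    apply hinj
    rw [← w2_up (K := K), hup]
    have e : ∀ i j : Fin 8, i < j → w2 (ex (n i₀) F) i j = algebraMap R K (ζ i j) := by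
      intro i j hij
      have z2 : zdg (i2 i j) = 2 := zdg_i2 i j hij
      unfold w2
      rw [ep2_of_lt hij, Int.cast_one, one_mul, hge i₀ hi₀ _ (by rw [z2]; norm_num)]
      simp only [Pi.add_apply]
      rw [hFs _ (by change zdg (i2 i j) ≠ 3; rw [z2]; norm_num), W2_apply_i2 _ hij,
        up_sup hp₁s _ (by change zdg (i2 i j) ≠ 1; rw [z2]; norm_num),
        up_sup hp₀s _ (by change zdg (i2 i j) ≠ 0; rw [z2]; norm_num)]
      ring
    rcases lt_trichotomy i j with h | h | h
    · exact e i j h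
    · subst h
      rw [w2_self, h0, map_zero]
    · rw [w2_swap, e j i h, h1 i j, map_neg]
  · intro x
    apply hupinj
    rw [up_br, up_br, hsm, map_mul, up_kap, hup, hcone i₀ hi₀, map_neg, map_ofNat]
  · intro i hi
    exact ⟨n i, hn i hi, hnS i hi, hup.trans (heq i hi)⟩

end

end Pool.Agent.Licci.P

end

section

/-!
# Module P, part 10: cone points of `e_8(R)` with given components of degree `3` and `2`
-/

set_option linter.unusedSectionVars false

namespace Pool.Agent.Licci.P

open scoped BigOperators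
open U (Sup)

variable {A : Type*} [CommRing A]

theorem kf_eq_kap (x y : E8 A) : kf x y = kap x y := by
  rw [kap_apply]
  rfl

theorem cone_iff_kap {p : E8 A} : Cone p ↔ ∀ x, br p (br p x) = (-2 * kap p x) • p := by
  unfold Cone
  refine forall_congr' fun x => ?_
  rw [kf_eq_kap, neg_mul]

/-- cone points with a unit among the coordinates of degree `3` and with equal components of degree
`≥ 0` are equal -/
theorem eq_of_cone {p q : E8 A} [Algebra ℚ A] (hp : Cone p) (hq : Cone q)
    (h : ∀ m, 0 ≤ zdg m → p m = q m) (i : Fin 8) (hu : IsUnit (p (ix (i : ℕ)))) : p = q :=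
  cone_unique (cone_iff_kap.1 hp) (cone_iff_kap.1 hq) h i hu

variable {R : Type*} [CommRing R] [IsDomain R] [Algebra ℚ R]

/-- **Module P.**  A cone point `p` of `e_8(R)` with given components `f` and `ζ` of degree `3` and
`2`, where `f` has grade `≥ 6` and `ι_f ζ = 0`. -/
theorem exists_cone (f : Vec R) (hreg : HasReg (fL f) 6) (ζ : Fin 8 → Fin 8 → R)
    (h0 : ∀ i, ζ i i = 0) (h1 : ∀ i j, ζ i j = - ζ j i) (hz : ∀ j, ∑ i, f i * ζ i j = 0) :
    ∃ p : E8 R, p3 p = f ∧ (∀ i j, w2 p i j = ζ i j) ∧ Cone p := by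
  obtain ⟨p, h3, h2, hc, -⟩ := exists_cone' (K := FractionRing R)
    (IsFractionRing.injective R (FractionRing R)) f hreg ζ h0 h1 hz
  exact ⟨p, h3, h2, cone_iff_kap.2 hc⟩

end Pool.Agent.Licci.P

end

section

/-!
# Block (U6): the table of `e_8` satisfies all the hypotheses of block (U)
-/

namespace Pool.Agent.Licci

universe u

theorem xtab_good : U.XTab.Good.{u} xtab where
  deg_ge := xtab_deg_ge
  deg_le := xtab_deg_le
  skew := fun _ _ x y => br_skew x y
  jac := fun _ _ x y z => jacobi x y z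
  br_sup := xtab_br_sup
  br_h := xtab_br_h
  inj := xtab_inj
  cl_sup := xtab_cl_sup
  cliff1 := xtab_cliff1
  cliff2 := xtab_cliff2
  card1 := xtab_card1
  card2 := xtab_card2

end Pool.Agent.Licci

end
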