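import Pool.Agent.Work.MP_a98e4e_ag.Fu.D.Vol
import Pool.Agent.Work.MP_a98e4e_ag.Fu.Descent
import Pool.Agent.Work.MP_a98e4e_ag.Fu.Acyclic5
import Pool.Agent.Work.MP_a98e4e_ag.Fu.L.Form
import Mathlib
import Pool.Agent.Work.MP_a98e4e_ag.Fu.L.Levi
import Pool.Agent.Work.MP_a98e4e_ag.Fu.L.XT
import Pool.Agent.Work.MP_a98e4e_ag.Fu.DLink
import Pool.Agent.Work.MP_a98e4e_ag.Fu.Exch
import Pool.Agent.Work.MP_a98e4e_ag.Fu.L.Moves
import Pool.Agent.Work.MP_a98e4e_ag.Fu.MapCone
import Pool.Agent.Work.MP_a98e4e_ag.Fu.U.Orth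
import Pool.Agent.Work.MP_a98e4e_ag.Fu.D.BridgeL

section

/-!
# LICCI, codimension 5: `5`-forms on `R ^ 7` and `2`-vectors (helper45)
-/

set_option linter.unusedSectionVars false

noncomputable section

namespace Pool.Agent.Licci

open scoped BigOperators

variable {A : Type*} [CommRing A]

/-- the projection to the first seven coordinates -/
def pr7 : Vec A →ₗ[A] (Fin 7 → A) where
  toFun v := fun i => v i.castSucc
  map_add' _ _ := rfl
  map_smul' _ _ := rfl

theorem pr7_i7 (v : Fin 7 → A) : pr7 (i7 v) = v := by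
  funext i
  change i7 v i.castSucc = v i
  rw [i7_apply, Fin.snoc_castSucc]

/-- the last coordinate -/
def co7 : Vec A →ₗ[A] A := LinearMap.proj 7

theorem co7_i7 (v : Fin 7 → A) : co7 (i7 v) = 0 := by
  change i7 v (Fin.last 7) = 0
  rw [i7_apply, Fin.snoc_last]

/-- the `6`-form on `A ^ 8` of a `5`-form on `A ^ 7` -/
def up5 (ν : (Fin 7 → A) [⋀^Fin 5]→ₗ[A] A) : Vec A [⋀^Fin 6]→ₗ[A] A :=
  wedge co7 5 (ν.compLinearMap pr7)

theorem res5_up5 (ν : (Fin 7 → A) [⋀^Fin 5]→ₗ[A] A) : res5 (up5 ν) = ν := by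
  ext a
  rw [res5_apply]
  unfold up5
  rw [wedge_apply, Fin.sum_univ_succ, Finset.sum_eq_zero, add_zero]
  · have h1 : (Fin.removeNth 0 (Fin.cons (Pi.single 7 1) (fun r => i7 (a r)) : Fin 6 → Vec A)) =
        fun r => i7 (a r) := by
      rw [Fin.removeNth_zero, Fin.tail_cons]
    rw [h1]
    have h2 : co7 ((Fin.cons (Pi.single 7 1) (fun r => i7 (a r)) : Fin 6 → Vec A) 0) = 1 := by
      rw [Fin.cons_zero]
      change (Pi.single 7 1 : Vec A) 7 = 1
      rw [Pi.single_eq_same]
    rw [h2, one_smul, Fin.val_zero, pow_zero, one_smul, AlternatingMap.compLinearMap_apply]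
    congr 1
    funext r
    exact pr7_i7 (a r)
  · intro j _
    rw [Fin.cons_succ, co7_i7, zero_smul, smul_zero]

/-- the form with last coordinate zero -/
def up1 (f : (Fin 7 → A) →ₗ[A] A) : Vec A →ₗ[A] A := f ∘ₗ pr7

theorem up5_closed (f : (Fin 7 → A) →ₗ[A] A) (ν : (Fin 7 → A) [⋀^Fin 5]→ₗ[A] A)
    (h : wedge f 5 ν = 0) : wedge (up1 f) 6 (up5 ν) = 0 := by
  unfold up5
  rw [wedge_wedge_anti]
  have h1 : wedge (up1 f) 5 (ν.compLinearMap pr7) = 0 := by
    unfold up1
    rw [← wedge_compLinearMap, h]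
    rfl
  rw [h1, map_zero, neg_zero]

theorem zt_seven (ω : Vec A [⋀^Fin 8]→ₗ[A] A) (ν : (Fin 7 → A) [⋀^Fin 5]→ₗ[A] A) (i : Fin 8) :
    zt ω (up5 ν) i 7 = 0 := by
  unfold zt
  by_cases h : i = 7
  · rw [if_pos h]
  · rw [if_neg h]
    have h1 : up5 ν (bt (cpl6 i 7)) = 0 := by
      unfold up5
      rw [wedge_apply]
      refine Finset.sum_eq_zero fun j _ => ?_
      have h2 : co7 (bt (cpl6 i 7) j : Vec A) = 0 := by
        change (Pi.single (cpl6 i 7 j) 1 : Vec A) 7 = 0
        rw [Pi.single_eq_of_ne]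
        exact ((cpl6_chk i 7 h).2.1 j).2.symm
      rw [h2, zero_smul, smul_zero]
    rw [h1, mul_zero]

theorem up1_single (f : (Fin 7 → A) →ₗ[A] A) (i : Fin 7) :
    up1 f (Pi.single i.castSucc 1) = f (Pi.single i 1) := by
  change f (pr7 _) = _
  congr 1
  funext j
  change (Pi.single i.castSucc 1 : Vec A) j.castSucc = _
  rw [Pi.single_apply, Pi.single_apply]
  refine if_congr ?_ rfl rfl
  exact Fin.castSucc_inj

theorem up1_seven (f : (Fin 7 → A) →ₗ[A] A) : up1 f (Pi.single 7 1) = 0 := by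
  change f (pr7 _) = 0
  have h : pr7 (Pi.single 7 1 : Vec A) = 0 := by
    funext j
    change (Pi.single (Fin.last 7) 1 : Vec A) j.castSucc = 0
    rw [Pi.single_eq_of_ne]
    exact (Fin.castSucc_lt_last j).ne
  rw [h, map_zero]

variable [Algebra ℚ A]

/-- **Hodge duality** for `5`-forms on `A ^ 7` -/
theorem exists_zeta5 (f : (Fin 7 → A) →ₗ[A] A) (ν : (Fin 7 → A) [⋀^Fin 5]→ₗ[A] A)
    (h : wedge f 5 ν = 0) :
    ∃ ζ : Fin 8 → Fin 8 → A, (∀ i, ζ i i = 0) ∧ (∀ i j, ζ i j = - ζ j i) ∧ (∀ i, ζ i 7 = 0) ∧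
      (∀ j, ∑ i, f (Pi.single i 1) * ζ i.castSucc j = 0) ∧
      ∀ p : E8 A, (∀ i j, w2 p i j = ζ i j) → nu5 (dF A) p = ν := by
  refine ⟨zt (dF A) (up5 ν), zt_self _ _, zt_swap _ _, zt_seven _ ν, fun j => ?_, fun p hp => ?_⟩
  · have h1 := zt_closed sqF_dF cram_dF (up1 f) (up5 ν)
      (fun a v => cyc_of_wedge (n := 5) (up1 f) (up5 ν) (up5_closed f ν h) a v) j
    rw [Fin.sum_univ_castSucc] at h1
    have h2 : up1 f (Pi.single (Fin.last 7) 1) = 0 := up1_seven f
    rw [h2, zero_mul, add_zero] at h1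
    rw [← h1]
    refine Finset.sum_congr rfl fun i _ => ?_
    rw [up1_single]
  · unfold nu5
    rw [nu6_of_zt sqF_dF (up5 ν) p hp]
    exact res5_up5 ν

end Pool.Agent.Licci
end

end

section

/-!
# LICCI, codimension 4: coordinates of `(f, ν)` and of `P'(f, ν)`
-/

namespace Pool.Agent.Licci

open scoped BigOperators

universe u

namespace Coord

section

variable {R : Type*} [CommRing R]

/-- the standard basis vectors of `R ^ 8` -/
def se (i : Fin 8) : Vec R := Pi.single i 1

theorem vec_eq_sum (v : Vec R) : v = ∑ m, v m • (se m : Vec R) := by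
  funext j
  simp [se, Finset.sum_apply, Pi.single_apply]

theorem lin_eq_sum {M : Type*} [AddCommGroup M] [Module R M] (g : Vec R →ₗ[R] M) (v : Vec R) :
    g v = ∑ m, v m • g (se m) := by
  conv_lhs => rw [vec_eq_sum v]
  rw [map_sum]
  exact Finset.sum_congr rfl fun m _ => map_smul _ _ _

variable {N : Type*} [AddCommGroup N] [Module R N]

/-- a `2`-form in its first variable -/
theorem alt2_sum_left (w : Vec R [⋀^Fin 2]→ₗ[R] N) (v x : Vec R) :
    w ![v, x] = ∑ m, v m • w ![se m, x] := by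
  let g : Vec R →ₗ[R] N :=
    { toFun := fun a => w ![a, x]
      map_add' := fun a b => alt2_add_left w a b x
      map_smul' := fun c a => alt2_smul_left w c a x }
  exact lin_eq_sum g v

/-- a `2`-form in coordinates -/
theorem alt2_sum (w : Vec R [⋀^Fin 2]→ₗ[R] R) (x y : Vec R) :
    w ![x, y] = ∑ a, ∑ b, w ![se a, se b] * (x a * y b) := by
  rw [alt2_sum_left]
  refine Finset.sum_congr rfl fun a _ => ?_
  rw [alt2_swap, alt2_sum_left, smul_neg, ← smul_neg, ← Finset.sum_neg_distrib, Finset.smul_sum]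
  refine Finset.sum_congr rfl fun b _ => ?_
  rw [alt2_swap w (se b) (se a)]
  simp only [smul_eq_mul]
  ring

/-- a `4`-form in its first variable -/
theorem alt4_sum_left (w : Vec R [⋀^Fin 4]→ₗ[R] R) (v x y z : Vec R) :
    w ![v, x, y, z] = ∑ m, v m * w ![se m, x, y, z] := by
  let g : Vec R →ₗ[R] R :=
    { toFun := fun a => contr a 3 w ![x, y, z]
      map_add' := fun a b => by rw [contr_add_left]; rfl
      map_smul' := fun c a => by rw [contr_smul_left]; rfl }
  have h : g v = _ := lin_eq_sum g v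
  simp only [g, LinearMap.coe_mk, AddHom.coe_mk, contr_apply_three, smul_eq_mul] at h
  exact h

theorem alt4_swap01 (w : Vec R [⋀^Fin 4]→ₗ[R] N) (a b c d : Vec R) :
    w ![a, b, c, d] = - w ![b, a, c, d] := by
  have h := w.map_swap ![b, a, c, d] (i := 0) (j := 1) (by decide)
  rw [← h]
  congr 1
  ext i
  fin_cases i <;> rfl

theorem alt4_swap12 (w : Vec R [⋀^Fin 4]→ₗ[R] N) (a b c d : Vec R) :
    w ![a, b, c, d] = - w ![a, c, b, d] := by
  have h := w.map_swap ![a, c, b, d] (i := 1) (j := 2) (by decide)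
  rw [← h]
  congr 1
  ext i
  fin_cases i <;> rfl

theorem alt4_swap23 (w : Vec R [⋀^Fin 4]→ₗ[R] N) (a b c d : Vec R) :
    w ![a, b, c, d] = - w ![a, b, d, c] := by
  have h := w.map_swap ![a, b, d, c] (i := 2) (j := 3) (by decide)
  rw [← h]
  congr 1
  ext i
  fin_cases i <;> rfl

theorem alt4_self01 (w : Vec R [⋀^Fin 4]→ₗ[R] N) (a c d : Vec R) : w ![a, a, c, d] = 0 :=
  w.map_eq_zero_of_eq ![a, a, c, d] (i := 0) (j := 1) rfl (by decide)

theorem wedge_four_apply {M : Type*} [AddCommGroup M] [Module R M] (f : M →ₗ[R] R)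
    (w : M [⋀^Fin 4]→ₗ[R] N) (a b c d e : M) :
    wedge f 4 w ![a, b, c, d, e] = f a • w ![b, c, d, e] - f b • w ![a, c, d, e] +
      f c • w ![a, b, d, e] - f d • w ![a, b, c, e] + f e • w ![a, b, c, d] := by
  have h0 : (Fin.removeNth 0 ![a, b, c, d, e] : Fin 4 → M) = ![b, c, d, e] := by
    ext i; fin_cases i <;> rfl
  have h1 : (Fin.removeNth 1 ![a, b, c, d, e] : Fin 4 → M) = ![a, c, d, e] := by
    ext i; fin_cases i <;> rfl
  have h2 : (Fin.removeNth 2 ![a, b, c, d, e] : Fin 4 → M) = ![a, b, d, e] := by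
    ext i; fin_cases i <;> rfl
  have h3 : (Fin.removeNth 3 ![a, b, c, d, e] : Fin 4 → M) = ![a, b, c, e] := by
    ext i; fin_cases i <;> rfl
  have h4 : (Fin.removeNth 4 ![a, b, c, d, e] : Fin 4 → M) = ![a, b, c, d] := by
    ext i; fin_cases i <;> rfl
  rw [wedge_apply, Fin.sum_univ_five, h0, h1, h2, h3, h4]
  simp [sub_eq_add_neg]

end

end Coord

open Coord

variable {R : Type*} [CommRing R]

/-- the coordinates of `(f, ν)` -/
def Dat.ofForm (f : Vec R →ₗ[R] R) (ν : Vec R [⋀^Fin 4]→ₗ[R] R) (hν : wedge f 4 ν = 0) : Dat R where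
  f := fun a => f (se a)
  nu := fun i j k l => ν ![se i, se j, se k, se l]
  nu0 := fun i k l => alt4_self01 ν _ _ _
  nu1 := fun i j k l => alt4_swap01 ν _ _ _ _
  nu2 := fun i j k l => alt4_swap12 ν _ _ _ _
  nu3 := fun i j k l => alt4_swap23 ν _ _ _ _
  cyc := fun a b c d e => by
    have h := congrArg (fun θ => θ ![se a, se b, se c, se d, se e]) hν
    simp only [wedge_four_apply, smul_eq_mul, AlternatingMap.zero_apply] at h
    exact h

theorem Dat.ofForm_isP {f : Vec R →ₗ[R] R} {ν : Vec R [⋀^Fin 4]→ₗ[R] R} (hν : wedge f 4 ν = 0)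
    (p : PP f ν) : (Dat.ofForm f ν hν).IsP p.1.1 (fun a b => p.1.2 ![se a, se b]) where
  w0 := fun i => p.1.2.map_eq_zero_of_eq ![se i, se i] (i := 0) (j := 1) rfl (by decide)
  w1 := fun i j => alt2_swap _ _ _
  fv := by
    have h := p.2.1
    rw [lin_eq_sum f] at h
    rw [← h]
    exact Finset.sum_congr rfl fun m _ => mul_comm _ _
  fw := fun a b c => by
    have h := PP_three p (se a) (se b) (se c)
    rw [alt4_sum_left] at h
    exact h

/-- The form `B` in coordinates. -/
theorem Dat.ofForm_gram {f : Vec R →ₗ[R] R} {ν : Vec R [⋀^Fin 4]→ₗ[R] R} (hν : wedge f 4 ν = 0)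
    (hf : HasReg f 4) (p q : PP f ν) (a : Fin 8) :
    ∑ m, (q.1.2 ![se m, se a] * p.1.1 m + p.1.2 ![se m, se a] * q.1.1 m) =
      B hf p q * (Dat.ofForm f ν hν).f a := by
  have h := B_spec hf p q (se a)
  rw [alt2_sum_left, alt2_sum_left p.1.2, ← Finset.sum_add_distrib] at h
  rw [show (Dat.ofForm f ν hν).f a = f (se a) from rfl, ← h]
  refine Finset.sum_congr rfl fun m _ => ?_
  simp only [smul_eq_mul]
  ring

/-- the Gram matrix of `B` in a basis has unit determinant -/
theorem isUnit_gram {f : Vec R →ₗ[R] R} {ν : Vec R [⋀^Fin 4]→ₗ[R] R} (hν : wedge f 4 ν = 0)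
    (hf : HasReg f 4) {n : ℕ} (b : Module.Basis (Fin n) R (PP f ν)) :
    IsUnit (Matrix.of fun k l => B hf (b k) (b l)).det := by
  let e : PP f ν ≃ₗ[R] Module.Dual R (PP f ν) := LinearEquiv.ofBijective (B hf)
    ⟨(injective_iff_map_eq_zero _).mpr fun p hp => B_injective hf hν
      (fun v hv => funext fun i => hv (LinearMap.proj i)) p hp,
      fun φ => B_surjective hf hν φ⟩
  have h : IsUnit (LinearMap.toMatrix b b.dualBasis
      (e : PP f ν →ₗ[R] Module.Dual R (PP f ν))).det := by
    apply LinearEquiv.isUnit_det (M := PP f ν) (M' := Module.Dual R (PP f ν)) e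
  have hM : (Matrix.of fun k l => B hf (b k) (b l)).transpose =
      LinearMap.toMatrix b b.dualBasis (e : PP f ν →ₗ[R] Module.Dual R (PP f ν)) := by
    ext k l
    rw [LinearMap.toMatrix_apply, Module.Basis.dualBasis_repr]
    rfl
  rw [← Matrix.det_transpose, hM]
  exact h

/-- The module `P'(f, ν)` in coordinates: the input of `exists_udata`. -/
theorem exists_coord {f : Vec R →ₗ[R] R} {ν : Vec R [⋀^Fin 4]→ₗ[R] R} (hν : wedge f 4 ν = 0)
    (hf : HasReg f 4) {n : ℕ} (b : Module.Basis (Fin n) R (PP f ν)) :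
    ∃ (v : Fin n → Vec R) (w : Fin n → Fin 8 → Fin 8 → R) (M : Matrix (Fin n) (Fin n) R),
      (∀ l, v l = (b l).1.1) ∧ (∀ l i j, w l i j = (b l).1.2 ![se i, se j]) ∧
      (∀ k l, M k l = B hf (b k) (b l)) ∧
      (∀ l, (Dat.ofForm f ν hν).IsP (v l) (w l)) ∧ M.transpose = M ∧ IsUnit M.det ∧
      (∀ k l a, ∑ m, (w l m a * v k m + w k m a * v l m) =
        M k l * (Dat.ofForm f ν hν).f a) := by
  refine ⟨fun l => (b l).1.1, fun l i j => (b l).1.2 ![se i, se j],
    Matrix.of fun k l => B hf (b k) (b l), fun _ => rfl, fun _ _ _ => rfl, fun _ _ => rfl,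
    fun l => Dat.ofForm_isP hν (b l), ?_, isUnit_gram hν hf b, fun k l a => ?_⟩
  · ext k l
    exact B_comm hf _ _
  · exact Dat.ofForm_gram hν hf (b k) (b l) a

theorem Dat.ofForm_apply {f : Vec R →ₗ[R] R} {ν : Vec R [⋀^Fin 4]→ₗ[R] R}
    (hν : wedge f 4 ν = 0) (x : Vec R) : f x = ∑ m, (Dat.ofForm f ν hν).f m * x m := by
  rw [lin_eq_sum f x]
  exact Finset.sum_congr rfl fun m _ => mul_comm _ _

/-- the first components of a basis of `P'(f, ν)` span the kernel of `f` -/
theorem exists_comb {f : Vec R →ₗ[R] R} {ν : Vec R [⋀^Fin 4]→ₗ[R] R} (hν : wedge f 4 ν = 0)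
    (hf : HasReg f 4) {n : ℕ} (b : Module.Basis (Fin n) R (PP f ν)) (x : Vec R) (hx : f x = 0) :
    ∃ c : Fin n → R, x = ∑ l, c l • (b l).1.1 := by
  obtain ⟨w, hw⟩ := exists_PP hf hν x hx
  refine ⟨fun l => b.repr ⟨(x, w), hw⟩ l, ?_⟩
  have h := congrArg (fun p : PP f ν => p.1.1) (b.sum_repr ⟨(x, w), hw⟩)
  simp only [Submodule.coe_sum, Submodule.coe_smul, Prod.fst_sum, Prod.smul_fst] at h
  exact h.symm

theorem exists_dat {R : Type u} [CommRing R] [IsLocalRing R] (f : Vec R →ₗ[R] R)
    (ν : Vec R [⋀^Fin 4]→ₗ[R] R) (hν : wedge f 4 ν = 0) (hf : HasReg f 4)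
    [Module.Free R (PP f ν)] [Module.Finite R (PP f ν)] (hr : Module.finrank R (PP f ν) = 14) :
    ∃ (D : Dat R) (v : Fin 14 → Vec R) (w : Fin 14 → Fin 8 → Fin 8 → R)
      (M : Matrix (Fin 14) (Fin 14) R), (∀ x, f x = ∑ m, D.f m * x m) ∧
      (∀ a b c d, D.nu a b c d =
        ν ![Pi.single a 1, Pi.single b 1, Pi.single c 1, Pi.single d 1]) ∧
      (∀ l, D.IsP (v l) (w l)) ∧
      (∀ l, ∃ p : (Fin 8 → R) × ((Fin 8 → R) [⋀^Fin 2]→ₗ[R] R), p ∈ PP f ν ∧ p.1 = v l ∧
        ∀ x y : Vec R, p.2 ![x, y] = ∑ a, ∑ b, w l a b * (x a * y b)) ∧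
      M.transpose = M ∧ IsUnit M.det ∧
      (∀ k l a, ∑ m, (w l m a * v k m + w k m a * v l m) = M k l * D.f a) ∧
      ∀ x, f x = 0 → ∃ c : Fin 14 → R, x = ∑ l, c l • v l := by
  let b : Module.Basis (Fin 14) R (PP f ν) :=
    (Module.finBasis R (PP f ν)).reindex (finCongr hr)
  obtain ⟨v, w, M, hv, hw, -, hP, hMs, hMu, hM⟩ := exists_coord hν hf b
  refine ⟨Dat.ofForm f ν hν, v, w, M, Dat.ofForm_apply hν, fun _ _ _ _ => rfl, hP,
    fun l => ⟨(b l).1, (b l).2, (hv l).symm, fun x y => ?_⟩, hMs, hMu, hM, fun x hx => ?_⟩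
  · rw [alt2_sum]
    exact Finset.sum_congr rfl fun i _ => Finset.sum_congr rfl fun j _ => by rw [hw]
  obtain ⟨c, hc⟩ := exists_comb hν hf b x hx
  exact ⟨c, by rw [hc]; exact Finset.sum_congr rfl fun l _ => by rw [hv]⟩

end Pool.Agent.Licci

end

section

/-!
# LICCI, codimension 4: the `4`-form of a state is determined by `f ∧ ω = ι_(d l) ν`
-/

namespace Pool.Agent.Licci

open scoped BigOperators
open U (Sup)

universe u

section

variable {R : Type u} [CommRing R]

/-- the last variable of a `4`-form -/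
def lastL (ν : Vec R [⋀^Fin 4]→ₗ[R] R) (x y z : Vec R) : Vec R →ₗ[R] R :=
  ν.toMultilinearMap.toLinearMap ![x, y, z, 0] 3

theorem lastL_apply (ν : Vec R [⋀^Fin 4]→ₗ[R] R) (x y z v : Vec R) :
    lastL ν x y z v = ν ![x, y, z, v] := by
  unfold lastL
  rw [MultilinearMap.toLinearMap_apply]
  have e : Function.update ![x, y, z, (0 : Vec R)] 3 v = ![x, y, z, v] := by
    funext i
    fin_cases i <;> rfl
  rw [e]
  rfl

theorem nu_swap_last (ν : Vec R [⋀^Fin 4]→ₗ[R] R) (x y z v : Vec R) :
    ν ![x, y, z, v] = - ν ![x, y, v, z] := by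
  have h := ν.map_swap ![x, y, v, z] (i := 2) (j := 3) (by decide)
  rw [← h]
  congr 1
  funext i
  fin_cases i <;> rfl

theorem nu_last_eq (ν : Vec R [⋀^Fin 4]→ₗ[R] R) (x y v : Vec R) : ν ![x, y, v, v] = 0 :=
  ν.map_eq_zero_of_eq ![x, y, v, v] (i := 2) (j := 3) rfl (by decide)

end

theorem RState.nu_eq {R : Type u} [CommRing R] [IsDomain R] {K : Type u} [Field K] [Algebra R K]
    [IsFractionRing R K] {M : Matrix (Fin 14) (Fin 14) R} (s : RState R K M)
    (ν ν' : Vec R [⋀^Fin 4]→ₗ[R] R)
    (h : ∀ l x y z, ν ![x, y, z, p3 (s.γ l)] =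
        -(s.f x * om (s.γ l) y z - s.f y * om (s.γ l) x z + s.f z * om (s.γ l) x y))
    (h' : ∀ l x y z, ν' ![x, y, z, p3 (s.γ l)] =
        -(s.f x * om (s.γ l) y z - s.f y * om (s.γ l) x z + s.f z * om (s.γ l) x y))
    (hs : ∀ x, s.f x = 0 → ∃ c : Fin 14 → R, x = ∑ l, c l • p3 (s.γ l)) : ν = ν' := by
  set δ : Vec R [⋀^Fin 4]→ₗ[R] R := ν - ν' with hδ
  have key : ∀ x y z v, s.f v = 0 → δ ![x, y, z, v] = 0 := by
    intro x y z v hv
    obtain ⟨c, rfl⟩ := hs v hv
    rw [← lastL_apply, map_sum]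
    refine Finset.sum_eq_zero fun l _ => ?_
    rw [map_smul, lastL_apply, hδ, AlternatingMap.sub_apply, h, h', sub_self, smul_zero]
  obtain ⟨x0, hx0⟩ : ∃ x, s.f x ≠ 0 := by
    by_contra hc
    push Not at hc
    exact s.f0 (LinearMap.ext fun x => by rw [hc x]; rfl)
  -- replace the last vector
  have rep : ∀ x y z v, s.f x0 * δ ![x, y, z, v] = s.f v * δ ![x, y, z, x0] := by
    intro x y z v
    have e := key x y z (s.f x0 • v - s.f v • x0) (by
      rw [map_sub, map_smul, map_smul, smul_eq_mul, smul_eq_mul]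
      ring)
    rw [← lastL_apply, map_sub, map_smul, map_smul, lastL_apply, lastL_apply, smul_eq_mul,
      smul_eq_mul] at e
    exact sub_eq_zero.1 e
  have last : ∀ x y z, δ ![x, y, z, x0] = 0 := by
    intro x y z
    have e := rep x y x0 z
    rw [nu_last_eq, mul_zero] at e
    rw [nu_swap_last, (mul_eq_zero.1 e).resolve_left hx0, neg_zero]
  have all : ∀ x y z v, δ ![x, y, z, v] = 0 := by
    intro x y z v
    have e := rep x y z v
    rw [last, mul_zero] at e
    exact (mul_eq_zero.1 e).resolve_left hx0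
  refine AlternatingMap.ext fun a => ?_
  have ea : a = ![a 0, a 1, a 2, a 3] := by
    funext i
    fin_cases i <;> rfl
  have e := all (a 0) (a 1) (a 2) (a 3)
  rw [← ea, hδ, AlternatingMap.sub_apply] at e
  exact sub_eq_zero.1 e

end Pool.Agent.Licci

end

section

/-! The Euler characteristic of a resolution of length four of a nonzero ideal over a domain. -/

namespace Pool.Agent.Licci

open Module

universe u

theorem finrank_range_add_ker {R : Type u} [CommRing R] [IsDomain R] {M N : Type u}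
    [AddCommGroup M] [Module R M] [AddCommGroup N] [Module R N] [Module.Finite R M]
    (g : M →ₗ[R] N) :
    finrank R (LinearMap.range g) + finrank R (LinearMap.ker g) = finrank R M := by
  have h := Submodule.finrank_quotient_add_finrank (LinearMap.ker g)
  rwa [(LinearMap.quotKerEquivRange g).finrank_eq] at h

theorem finrank_of_resolution {R : Type u} [CommRing R] [IsDomain R] {F1 F2 F3 : Type u}
    [AddCommGroup F1] [Module R F1] [AddCommGroup F2] [Module R F2] [AddCommGroup F3] [Module R F3]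
    [Module.Free R F1] [Module.Free R F2] [Module.Free R F3]
    [Module.Finite R F1] [Module.Finite R F2] [Module.Finite R F3]
    {f : F1 →ₗ[R] R} {e2 : F2 →ₗ[R] F1} {e3 : F3 →ₗ[R] F2} {e4 : R →ₗ[R] F3}
    (h1 : Function.Exact e2 f) (h2 : Function.Exact e3 e2)
    (h3 : Function.Exact e4 e3) (h4 : Function.Injective e4) (hf : f ≠ 0) :
    finrank R F2 + 2 = finrank R F3 + finrank R F1 := by
  have a1 := finrank_range_add_ker f
  have a2 := finrank_range_add_ker e2
  have a3 := finrank_range_add_ker e3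
  have b1 : finrank R (LinearMap.range f) = 1 := by
    obtain ⟨x, hx⟩ : ∃ x, f x ≠ 0 := by
      by_contra h
      push Not at h
      exact hf (LinearMap.ext h)
    apply le_antisymm
    · have := Submodule.finrank_le (LinearMap.range f)
      rwa [finrank_self] at this
    · have hi : Function.Injective
          (LinearMap.toSpanSingleton R (LinearMap.range f) ⟨f x, ⟨x, rfl⟩⟩) := by
        rw [injective_iff_map_eq_zero]
        intro c hc
        have hc' : c * f x = 0 := congrArg Subtype.val hc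
        exact (mul_eq_zero.1 hc').resolve_right hx
      have := LinearMap.finrank_le_finrank_of_injective hi
      rwa [finrank_self] at this
  have c1 : LinearMap.ker f = LinearMap.range e2 := LinearMap.exact_iff.1 h1
  have c2 : LinearMap.ker e2 = LinearMap.range e3 := LinearMap.exact_iff.1 h2
  have c3 : LinearMap.ker e3 = LinearMap.range e4 := LinearMap.exact_iff.1 h3
  have c4 : finrank R (LinearMap.range e4) = 1 := by
    rw [LinearMap.finrank_range_of_inj h4, finrank_self]
  rw [c1] at a1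
  rw [c2] at a2
  rw [c3, c4] at a3
  omega

end Pool.Agent.Licci

end

section

/-!
# LICCI, codimension 4: the final assembly
-/

namespace Pool.Agent.Licci

open scoped BigOperators
open U (Sup)
open Module RingTheory.Sequence IsLocalRing

universe u

theorem om_eq_sum {A : Type*} [CommRing A] (Y : E8 A) (x y : Vec A) :
    om Y x y = ∑ a, ∑ b, w2 Y a b * (x a * y b) := rfl

/-- `Θ` from the Gram relation in coordinates -/
theorem Th_of_gram {R : Type*} [CommRing R] {γ γ' : E8 R} {v v' : Vec R} {w w' : Fin 8 → Fin 8 → R}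
    (h1 : p3 γ = v) (h1' : p3 γ' = v') (h2 : ∀ a b, w2 γ a b = w a b)
    (h2' : ∀ a b, w2 γ' a b = w' a b) {c : R} {F : Vec R}
    (hM : ∀ a, ∑ m, (w' m a * v m + w m a * v' m) = c * F a) (u : Vec R) :
    Th γ γ' u = c * ∑ m, F m * u m := by
  have e : ∀ (w : Fin 8 → Fin 8 → R) (v : Vec R), ∑ a, ∑ b, w a b * (v a * u b) =
      ∑ b, (∑ a, w a b * v a) * u b := by
    intro w v
    rw [Finset.sum_comm]
    refine Finset.sum_congr rfl fun b _ => ?_
    rw [Finset.sum_mul]
    refine Finset.sum_congr rfl fun a _ => ?_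
    ring
  unfold Th
  simp only [om_eq_sum, h1, h1', h2, h2']
  rw [e, e, ← Finset.sum_add_distrib, Finset.mul_sum]
  refine Finset.sum_congr rfl fun b _ => ?_
  rw [← mul_assoc, ← hM b, ← add_mul, ← Finset.sum_add_distrib]

/-- a cycle of the arguments of a four-form -/
theorem four_cycle {R : Type*} [CommRing R] {P : Type*} [AddCommGroup P] [Module R P]
    (ν : P [⋀^Fin 4]→ₗ[R] R) (x y z v : P) : ν ![x, y, z, v] = - ν ![v, x, y, z] := by
  have h1 : ν ![x, y, z, v] = - ν ![x, y, v, z] := by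
    have := ν.map_swap ![x, y, v, z] (i := 2) (j := 3) (by decide)
    rw [← this]
    congr 1
    funext i
    fin_cases i <;> rfl
  have h2 : ν ![x, y, v, z] = - ν ![x, v, y, z] := by
    have := ν.map_swap ![x, v, y, z] (i := 1) (j := 2) (by decide)
    rw [← this]
    congr 1
    funext i
    fin_cases i <;> rfl
  have h3 : ν ![x, v, y, z] = - ν ![v, x, y, z] := by
    have := ν.map_swap ![v, x, y, z] (i := 0) (j := 1) (by decide)
    rw [← this]
    congr 1
    funext i
    fin_cases i <;> rfl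
  rw [h1, h2, h3, neg_neg]

theorem main8 (R : Type u) [CommRing R] [IsRegularLocalRing R] [Infinite (ResidueField R)]
    [Algebra ℚ R] : LicciCodimFour.MainStatement2 R 8 := by
  intro F3 G _ _ _ _ _ _ _ _ d4 d3 d2 f0 hinj h43 h32 h21 hI0 hgr
  have hdom : IsDomain R := LicciCodimFour.isDomain_of_isRegularLocalRing R
  obtain ⟨φ, hφ⟩ := exists_pos f0 hI0 hgr
  -- the new basis of `R ^ 8`
  let f : Vec R →ₗ[R] R := f0 ∘ₗ φ.toLinearMap
  let e2 : G →ₗ[R] Vec R := φ.symm.toLinearMap ∘ₗ d2
  have hrange : LinearMap.range f = LinearMap.range f0 := by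
    apply LinearMap.range_comp_of_range_eq_top
    exact LinearEquiv.range φ
  have hI : ∀ v, f v ∈ maximalIdeal R := fun v => hI0 (φ v)
  have h1 : Function.Exact e2 f := by
    intro x
    constructor
    · intro hx
      obtain ⟨y, hy⟩ := (h21 (φ x)).1 hx
      exact ⟨y, by show φ.symm (d2 y) = x; rw [hy, LinearEquiv.symm_apply_apply]⟩
    · rintro ⟨y, rfl⟩
      show f0 (φ (φ.symm (d2 y))) = 0
      rw [LinearEquiv.apply_symm_apply, h21.apply_apply_eq_zero]
  have h2 : Function.Exact d3 e2 := by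
    intro x
    constructor
    · intro hx
      apply (h32 x).1
      have : φ.symm (d2 x) = 0 := hx
      exact (LinearEquiv.map_eq_zero_iff φ.symm).1 this
    · rintro ⟨y, rfl⟩
      show φ.symm (d2 (d3 y)) = 0
      rw [h32.apply_apply_eq_zero, map_zero]
  rw [← hrange]
  obtain ⟨ν, hν, hfree, hfin, hrk, hgood⟩ := good_of_exact h1 h2 h43 hinj hI
    (Pi.single 0 1) (Pi.single 1 1) (Pi.single 2 1) (Pi.single 3 1) hφ
  have hreg3 : IsWeaklyRegular R [f (Pi.single 0 1), f (Pi.single 1 1), f (Pi.single 2 1)] := by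
    have h := hφ
    rw [show [f0 (φ (Pi.single 0 1)), f0 (φ (Pi.single 1 1)), f0 (φ (Pi.single 2 1)),
      f0 (φ (Pi.single 3 1))] = [f0 (φ (Pi.single 0 1)), f0 (φ (Pi.single 1 1)),
      f0 (φ (Pi.single 2 1))] ++ [f0 (φ (Pi.single 3 1))] from rfl,
      isWeaklyRegular_append_iff] at h
    exact h.1
  obtain ⟨hz0, hz1, hz2⟩ := U.isSMulRegular_of_isWeaklyRegular_three (hI _) (hI _) (hI _) hreg3
  have hf0 : f ≠ 0 := by
    intro h
    apply hz0
    rw [h]
    rfl
  have hreg : HasReg f 4 := by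
    refine ⟨_, rfl, hφ, ?_⟩
    intro r hr
    simp only [List.mem_cons, List.not_mem_nil, or_false] at hr
    rcases hr with rfl | rfl | rfl | rfl <;> exact ⟨_, rfl⟩
  have hrk14 : finrank R (PP f ν) = 14 := by
    have h := finrank_of_resolution h1 h2 h43 hinj hf0
    have h8 : finrank R (Vec R) = 8 := by
      rw [finrank_fintype_fun_eq_card]
      rfl
    omega
  obtain ⟨D, v, w, M, hDf, hDn, hP, hPP, hMs, hMu, hM, hspan⟩ := exists_dat f ν hν hreg hrk14
  have hDf' : ∀ a, D.f a = f (Pi.single a 1) := by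
    intro a
    rw [hDf]
    simp [Pi.single_apply]
  -- the ring of the charts
  set a : R := D.f 0 * D.f 1 * D.f 2 with ha
  have ha0 : a ≠ 0 := by
    rw [ha, hDf', hDf', hDf']
    exact mul_ne_zero (mul_ne_zero hz0 hz1) hz2
  let T : Type u := Localization.Away a
  have hpow : Submonoid.powers a ≤ nonZeroDivisors R :=
    powers_le_nonZeroDivisors_of_noZeroDivisors ha0
  have hTinj : Function.Injective (algebraMap R T) := IsLocalization.injective T hpow
  have hunita : IsUnit (algebraMap R T a) := IsLocalization.Away.algebraMap_isUnit a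
  let C : U.Cov R T :=
    { f := fun i => D.f (Fin.castLE (by norm_num) i)
      inj := hTinj
      unit := by
        intro i
        refine isUnit_of_dvd_unit (map_dvd _ ?_) hunita
        rw [ha]
        fin_cases i
        · exact ⟨D.f 1 * D.f 2, by simp [mul_assoc]⟩
        · exact ⟨D.f 0 * D.f 2, by simp; ring⟩
        · exact ⟨D.f 0 * D.f 1, by simp; ring⟩ }
  have hCf0 : C.f 0 = D.f 0 := rfl
  have hCf1 : C.f 1 = D.f 1 := rfl
  have hCf2 : C.f 2 = D.f 2 := rfl
  have hCm : ∀ i, C.f i ∈ maximalIdeal R := by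
    intro i
    show D.f (Fin.castLE _ i) ∈ _
    rw [hDf']
    exact hI _
  have hCreg : IsWeaklyRegular R [C.f 0, C.f 1, C.f 2] := by
    rw [hCf0, hCf1, hCf2, hDf', hDf', hDf']
    exact hreg3
  obtain ⟨W, hWM, hW3, hW2⟩ := exists_udata C hCm hCreg D (fun _ => rfl) v w hP M hMs hMu hM
  have hT : ∀ x : T, ∃ N : ℕ, ∃ r : R,
      algebraMap R T (C.f 0 * C.f 1 * C.f 2) ^ N * x = algebraMap R T r := by
    intro x
    obtain ⟨N, r, h⟩ := IsLocalization.Away.surj a x
    exact ⟨N, r, by rw [← h, mul_comm]; rfl⟩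
  have hind : ∀ c : Fin 14 → R, (∀ b, ∑ l, c l * W.γ l b ∈ maximalIdeal R) →
      ∀ l, c l ∈ maximalIdeal R := fun c hc l =>
    U.unimod C hCm hCreg hT xtab xtab_good W c hc l
  -- the first state
  let K : Type u := FractionRing R
  let ψ : T →+* K := IsLocalization.Away.lift a (g := algebraMap R K) (by
    rw [isUnit_iff_ne_zero]
    intro h
    exact ha0 ((IsFractionRing.injective R K) (by rw [h, map_zero])))
  let : Algebra T K := ψ.toAlgebra
  have : IsScalarTower R T K := IsScalarTower.of_algebraMap_eq fun r =>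
    (IsLocalization.Away.lift_eq a _ r).symm
  have hth : ∀ l m u, Th (W.γ l) (W.γ m) u = W.M l m * f u := by
    intro l m u
    rw [hWM, hDf]
    exact Th_of_gram (hW3 l) (hW3 m) (hW2 l) (hW2 m) (hM l m) u
  obtain ⟨s, hsγ, hsf⟩ := RState.of_udata (K := K) C W f hf0 hth
  obtain ⟨ν', hν'1, hν'2, hν'3⟩ := RState.exists_nu (by rw [hWM]; exact hMu) s
  have hνν : ν' = ν := by
    refine RState.nu_eq s ν' ν hν'3 ?_ ?_
    · intro l x y z
      obtain ⟨p, hp, hp1, hp2⟩ := hPP l
      have h := PP_three (⟨p, hp⟩ : PP f ν) x y z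
      rw [four_cycle, hsγ, hW3 l, hsf]
      have e : ∀ x y : Vec R, om (W.γ l) x y = p.2 ![x, y] := by
        intro x y
        rw [om_eq_sum, hp2]
        simp only [hW2]
      rw [e, e, e, ← hp1, neg_inj]
      exact h.symm
    · intro x hx
      rw [hsf] at hx
      obtain ⟨c, hc⟩ := hspan x hx
      refine ⟨c, ?_⟩
      rw [hc]
      refine Finset.sum_congr rfl fun l _ => ?_
      rw [hsγ, hW3]
  subst hνν
  rw [← hsf]
  refine licci_of_rstate (by rw [hWM]; exact hMu) s (by rw [hsγ]; exact hind) ν' hν'1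
    (by rw [hsf]; exact hI) (Pi.single 0 1) (Pi.single 1 1) (Pi.single 2 1) (Pi.single 3 1) ?_ ?_
  · rw [hsf]
    exact hφ
  · rw [hsf]
    exact hgood

end Pool.Agent.Licci

end

section

/-!
# Almost complete intersections are not Gorenstein (Kunz)

`D = f ∧ + ι_z` on the module of all forms.
-/

namespace Pool.Agent.Licci.Kunz

open RingTheory.Sequence Pointwise IsLocalRing

universe u v w

variable {R : Type u} [CommRing R]

/-- An exact square-zero operator with values in `(rs) Ω`, `rs` regular on `Ω`, lives on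
`Ω = (rs) Ω`. -/
theorem no_exact (rs : List R) : ∀ (Ω : Type v) [AddCommGroup Ω] [Module R Ω] (D : Ω →ₗ[R] Ω),
    IsWeaklyRegular Ω rs → (∀ x, D (D x) = 0) → (∀ x, D x = 0 → ∃ y, D y = x) →
    (∀ x, D x ∈ Ideal.ofList rs • (⊤ : Submodule R Ω)) →
    ∀ x : Ω, x ∈ Ideal.ofList rs • (⊤ : Submodule R Ω) := by
  induction rs with
  | nil =>
    intro Ω _ _ D _ _ hex hm x
    have h0 : Ideal.ofList ([] : List R) • (⊤ : Submodule R Ω) = ⊥ := by
      rw [Ideal.ofList_nil, Submodule.bot_smul]
    rw [h0] at hm ⊢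
    obtain ⟨y, rfl⟩ := hex x ((Submodule.mem_bot R).1 (hm x))
    exact hm y
  | cons a rs ih =>
    intro Ω _ _ D hreg hDD hex hm x
    rw [isWeaklyRegular_cons_iff] at hreg
    obtain ⟨ha, hreg⟩ := hreg
    have hsup : Ideal.ofList (a :: rs) • (⊤ : Submodule R Ω) =
        (Ideal.ofList rs • (⊤ : Submodule R Ω)) ⊔ (a • (⊤ : Submodule R Ω)) := by
      rw [Ideal.ofList_cons, Submodule.sup_smul, Submodule.ideal_span_singleton_smul, sup_comm]
    have hmap : (Ideal.ofList rs • (⊤ : Submodule R Ω)).map (a • (⊤ : Submodule R Ω)).mkQ =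
        Ideal.ofList rs • (⊤ : Submodule R (QuotSMulTop a Ω)) := by
      rw [Submodule.map_smul'', Submodule.map_top, Submodule.range_mkQ]
    have hiff : ∀ y : Ω, y ∈ Ideal.ofList (a :: rs) • (⊤ : Submodule R Ω) ↔
        (Submodule.Quotient.mk y : QuotSMulTop a Ω) ∈
          Ideal.ofList rs • (⊤ : Submodule R (QuotSMulTop a Ω)) := by
      intro y
      rw [hsup, ← hmap, ← Submodule.mkQ_apply, ← Submodule.mem_comap, Submodule.comap_map_eq,
        Submodule.ker_mkQ]
    have hmk0 : ∀ z : Ω, (Submodule.Quotient.mk z : QuotSMulTop a Ω) = 0 → ∃ y, z = a • y := by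
      intro z hz
      rw [Submodule.Quotient.mk_eq_zero] at hz
      obtain ⟨y, -, hy⟩ := (Submodule.mem_smul_pointwise_iff_exists _ _ _).1 hz
      exact ⟨y, hy.symm⟩
    rw [hiff]
    refine ih (QuotSMulTop a Ω) (QuotSMulTop.map a D) hreg ?_ ?_ ?_ _
    · intro x
      obtain ⟨x, rfl⟩ := Submodule.Quotient.mk_surjective _ x
      rw [QuotSMulTop.map_apply_mk, QuotSMulTop.map_apply_mk, hDD]
      rfl
    · intro x hx
      obtain ⟨x, rfl⟩ := Submodule.Quotient.mk_surjective _ x
      rw [QuotSMulTop.map_apply_mk] at hx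
      obtain ⟨u, hu⟩ := hmk0 _ hx
      have hDu : D u = 0 := by
        apply ha
        show a • D u = a • 0
        rw [← map_smul, ← hu, hDD, smul_zero]
      obtain ⟨v, rfl⟩ := hex u hDu
      obtain ⟨y, hy⟩ := hex (x - a • v) (by rw [map_sub, hu, map_smul, sub_self])
      refine ⟨Submodule.Quotient.mk y, ?_⟩
      rw [QuotSMulTop.map_apply_mk, hy, Submodule.Quotient.mk_sub]
      have : (Submodule.Quotient.mk (a • v) : QuotSMulTop a Ω) = 0 := by
        rw [Submodule.Quotient.mk_eq_zero]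
        exact (Submodule.mem_smul_pointwise_iff_exists _ _ _).2 ⟨v, trivial, rfl⟩
      rw [this, sub_zero]
    · intro x
      obtain ⟨x, rfl⟩ := Submodule.Quotient.mk_surjective _ x
      rw [QuotSMulTop.map_apply_mk, ← hiff]
      exact hm x

section forms

variable {M : Type w} [AddCommGroup M] [Module R M]

/-- all forms on `M` -/
abbrev Forms (R : Type u) [CommRing R] (M : Type w) [AddCommGroup M] [Module R M] :=
  ∀ k : ℕ, M [⋀^Fin k]→ₗ[R] R

/-- `ω ↦ g ∧ ω + ι_z ω` -/
def D (g : M →ₗ[R] R) (z : M) : Forms R M →ₗ[R] Forms R M where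
  toFun ω k := match k with
    | 0 => contr z 0 (ω 1)
    | k + 1 => wedge g k (ω k) + contr z (k + 1) (ω (k + 2))
  map_add' ω η := by
    funext k
    cases k with
    | zero => simp
    | succ k =>
      simp only [Pi.add_apply, map_add]
      abel
  map_smul' c ω := by
    funext k
    cases k with
    | zero => simp
    | succ k => simp [smul_add]

theorem D_zero (g : M →ₗ[R] R) (z : M) (ω : Forms R M) : D g z ω 0 = contr z 0 (ω 1) := rfl

theorem D_succ (g : M →ₗ[R] R) (z : M) (ω : Forms R M) (k : ℕ) :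
    D g z ω (k + 1) = wedge g k (ω k) + contr z (k + 1) (ω (k + 2)) := rfl

theorem D_D (g : M →ₗ[R] R) (z : M) (hz : g z = 0) (ω : Forms R M) : D g z (D g z ω) = 0 := by
  funext k
  match k with
  | 0 =>
    rw [D_zero, D_succ, map_add, contr_contr_self, contr_wedge_zero, hz, zero_smul, add_zero]
    rfl
  | 1 =>
    rw [D_succ, D_zero, D_succ, map_add, contr_contr_self, contr_wedge, hz, zero_smul, zero_sub,
      add_zero, add_neg_cancel]
    rfl
  | k + 2 =>
    rw [D_succ, D_succ, D_succ, map_add, map_add, wedge_wedge_self, contr_contr_self, contr_wedge,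
      hz, zero_smul, zero_sub, zero_add, add_zero, add_neg_cancel]
    rfl

theorem D_add (g g' : M →ₗ[R] R) (z z' : M) (ω : Forms R M) :
    D (g + g') (z + z') ω = D g z ω + D g' z' ω := by
  funext k
  cases k with
  | zero => rw [Pi.add_apply, D_zero, D_zero, D_zero, contr_add_left]
  | succ k =>
    rw [Pi.add_apply, D_succ, D_succ, D_succ, contr_add_left, wedge_add_left]
    abel

theorem D_smul (c : R) (g : M →ₗ[R] R) (z : M) (ω : Forms R M) :
    D (c • g) (c • z) ω = c • D g z ω := by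
  funext k
  cases k with
  | zero => rw [Pi.smul_apply, D_zero, D_zero, contr_smul_left]
  | succ k => rw [Pi.smul_apply, D_succ, D_succ, contr_smul_left, wedge_smul_left, smul_add]

end forms

section free

variable {n : ℕ}

theorem alt_subsingleton {k : ℕ} (hk : n < k) (ω : (Fin n → R) [⋀^Fin k]→ₗ[R] R) : ω = 0 := by
  refine Module.Basis.ext_alternating (Pi.basisFun R (Fin n)) ?_
  intro v hv
  have := Fintype.card_le_of_injective v hv
  simp at this
  omega

/-- `Forms` as a finite product. -/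
def formsEquiv (n : ℕ) : Forms R (Fin n → R) ≃ₗ[R]
    (∀ k : Fin (n + 1), (Fin n → R) [⋀^Fin (k : ℕ)]→ₗ[R] R) where
  toFun ω k := ω k
  invFun ω k := if h : k < n + 1 then ω ⟨k, h⟩ else 0
  left_inv ω := by
    funext k
    by_cases h : k < n + 1
    · simp [h]
    · simp only [h, dite_false]
      exact (alt_subsingleton (by omega) _).symm
  right_inv ω := by
    funext k
    have := k.2
    simp only [this, dite_true]
  map_add' _ _ := rfl
  map_smul' _ _ := rfl

instance : Module.Free R (Forms R (Fin n → R)) := by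
  have h : ∀ k : Fin (n + 1), Module.Free R ((Fin n → R) [⋀^Fin (k : ℕ)]→ₗ[R] R) := by
    intro k
    obtain ⟨m, ⟨e⟩⟩ := exists_altEquiv (R := R) (Fin n → R) k R
    exact Module.Free.of_equiv e.symm
  exact Module.Free.of_equiv (formsEquiv n).symm

instance : Module.Finite R (Forms R (Fin n → R)) := by
  have h : ∀ k : Fin (n + 1), Module.Finite R ((Fin n → R) [⋀^Fin (k : ℕ)]→ₗ[R] R) := by
    intro k
    obtain ⟨m, ⟨e⟩⟩ := exists_altEquiv (R := R) (Fin n → R) k R
    exact Module.Finite.equiv e.symm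
  exact Module.Finite.equiv (formsEquiv n).symm

/-- the volume form -/
noncomputable def vol (n : ℕ) : (Fin n → R) [⋀^Fin n]→ₗ[R] R := (Pi.basisFun R (Fin n)).det

theorem eq_smul_vol (ω : (Fin n → R) [⋀^Fin n]→ₗ[R] R) : ∃ r : R, ω = r • vol n :=
  ⟨_, ω.eq_smul_basis_det (Pi.basisFun R (Fin n))⟩

/-- Euler's identity -/
theorem euler {k : ℕ} (ω : (Fin n → R) [⋀^Fin (k + 1)]→ₗ[R] R) :
    ∑ j, wedge (LinearMap.proj j : (Fin n → R) →ₗ[R] R) k (contr (Pi.single j 1) k ω) =
      (k + 1) • ω := by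
  rw [← AlternatingMap.alternatizeUncurryFin_curryLeft]
  have h : ω.curryLeft = ∑ j, (LinearMap.proj j : (Fin n → R) →ₗ[R] R).smulRight
      (ω.curryLeft (Pi.single j 1)) := by
    refine (Pi.basisFun R (Fin n)).ext fun i => ?_
    rw [LinearMap.sum_apply]
    simp [Pi.single_apply]
  conv_rhs => rw [h]
  rw [← AlternatingMap.alternatizeUncurryFinLM_apply, map_sum]
  rfl

/-- every form of degree `n - 1` is a contraction of the volume form -/
theorem exists_contr {n : ℕ} (ν : (Fin (n + 1) → R) [⋀^Fin n]→ₗ[R] R) :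
    ∃ z : Fin (n + 1) → R, ν = contr z n (vol (n + 1)) := by
  have h : ∀ j : Fin (n + 1), ∃ r : R,
      wedge (LinearMap.proj j : (Fin (n + 1) → R) →ₗ[R] R) n ν = r • vol (n + 1) :=
    fun j => eq_smul_vol _
  choose z hz using h
  refine ⟨z, ?_⟩
  have hz2 : contr z n (vol (n + 1) : (Fin (n + 1) → R) [⋀^Fin (n + 1)]→ₗ[R] R) =
      ∑ j, contr (Pi.single j (1 : R)) n (z j • vol (n + 1)) := by
    have h3 : z = ∑ j, z j • (Pi.single j (1 : R) : Fin (n + 1) → R) := by
      funext l
      simp [Finset.sum_apply, Pi.single_apply]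
    have h4 : ∀ u : Fin (n + 1) → R, contr u n (vol (n + 1) :
        (Fin (n + 1) → R) [⋀^Fin (n + 1)]→ₗ[R] R) = (vol (n + 1)).curryLeft u := fun _ => rfl
    conv_lhs => rw [h3, h4, map_sum]
    refine Finset.sum_congr rfl fun j _ => ?_
    rw [map_smul, map_smul, h4]
  rw [hz2]
  simp only [← hz]
  cases n with
  | zero =>
    simp only [contr_wedge_zero]
    simp
  | succ n =>
    simp only [contr_wedge, Finset.sum_sub_distrib, euler]
    simp only [LinearMap.proj_apply, Pi.single_eq_same, one_smul, Finset.sum_const,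
      Finset.card_univ, Fintype.card_fin]
    rw [succ_nsmul ν (n + 1), add_sub_cancel_left]

end free

section exact

theorem closed_mem {M : Type w} [AddCommGroup M] [Module R M] (f : M →ₗ[R] R) {k : ℕ}
    (ω : M [⋀^Fin k]→ₗ[R] R) (hω : wedge f k ω = 0) (e : Fin k → M) (v : M) :
    f v * ω e ∈ Ideal.span (Set.range fun i => f (e i)) := by
  have h := DFunLike.congr_fun hω (Fin.cons v e : Fin (k + 1) → M)
  rw [wedge_apply, Fin.sum_univ_succ] at h
  have h2 : f v * ω e = - ∑ i : Fin k, (-1 : ℤ) ^ ((i.succ : Fin (k + 1)) : ℕ) •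
      f ((Fin.cons v e : Fin (k + 1) → M) i.succ) •
        ω (i.succ.removeNth (Fin.cons v e : Fin (k + 1) → M)) := by
    rw [eq_neg_iff_add_eq_zero]
    rw [AlternatingMap.zero_apply] at h
    rw [← h]
    congr 1
    simp
  rw [h2]
  refine neg_mem (Ideal.sum_mem _ fun i _ => ?_)
  refine Submodule.smul_of_tower_mem _ _ ?_
  rw [smul_eq_mul, Fin.cons_succ]
  exact Ideal.mul_mem_right _ _ (Ideal.subset_span ⟨i, rfl⟩)

theorem cob_mem {M : Type w} [AddCommGroup M] [Module R M] (f : M →ₗ[R] R) {k : ℕ}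
    (ω : M [⋀^Fin k]→ₗ[R] R) (hω : IsCob f k ω) (e : Fin k → M) :
    ω e ∈ Ideal.span (Set.range fun i => f (e i)) := by
  cases k with
  | zero =>
    have : ω = 0 := hω
    rw [this]
    exact zero_mem _
  | succ k =>
    obtain ⟨η, rfl⟩ := hω
    have := wedge_apply_mem f k η e
    rwa [smul_eq_mul, Ideal.mul_top] at this

theorem exists_of_isCob {M : Type w} [AddCommGroup M] [Module R M] (f : M →ₗ[R] R) (z : M) {j : ℕ}
    (ω : M [⋀^Fin j]→ₗ[R] R) (hω : IsCob f j ω) :
    ∃ η : Forms R M, D f z η j = ω ∧ ∀ i, j < i → D f z η i = 0 := by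
  cases j with
  | zero =>
    refine ⟨0, ?_, fun i _ => ?_⟩
    · rw [map_zero]
      exact (show ω = 0 from hω).symm
    · rw [map_zero]
      rfl
  | succ j =>
    obtain ⟨η, rfl⟩ := hω
    refine ⟨Pi.single j η, ?_, fun i hi => ?_⟩
    · rw [D_succ, Pi.single_eq_same, Pi.single_eq_of_ne (by omega), map_zero, add_zero]
    · obtain ⟨i, rfl⟩ : ∃ i', i = i' + 1 := ⟨i - 1, by omega⟩
      rw [D_succ, Pi.single_eq_of_ne (by omega), Pi.single_eq_of_ne (by omega), map_zero,
        map_zero, add_zero]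

variable {c : ℕ}

/-- exactness of `D` -/
theorem exact_D (f : (Fin (c + 1) → R) →ₗ[R] R) (z : Fin (c + 1) → R)
    (e : Fin c → Fin (c + 1) → R)
    (hreg : IsWeaklyRegular R (List.ofFn fun i => f (e i))) (w : R)
    (h1 : ∀ y, (∀ v, y * f v ∈ Ideal.span (Set.range fun i => f (e i))) →
      y ∈ Ideal.span (Set.range fun i => f (e i)) ⊔ Ideal.span {w})
    (h2 : ∀ y, y * w ∈ Ideal.span (Set.range fun i => f (e i)) → ∃ m, f m = y)
    (hν : wedge f c (contr z c (vol (c + 1))) = 0)
    (hw : contr z c (vol (c + 1)) e - w ∈ Ideal.span (Set.range fun i => f (e i))) (j : ℕ) :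
    ∀ ω : Forms R (Fin (c + 1) → R), D f z ω = 0 → (∀ i, j ≤ i → ω i = 0) →
      ∃ η, D f z η = ω := by
  induction j with
  | zero =>
    intro ω _ h
    exact ⟨0, by rw [map_zero]; funext i; exact (h i (Nat.zero_le _)).symm⟩
  | succ j ih =>
    intro ω hω h
    have hfz : f z = 0 := by
      have h3 := contr_wedge f z c (vol (c + 1))
      rw [hν, sub_zero, alt_subsingleton (by omega) (wedge f (c + 1) (vol (c + 1))), map_zero] at h3
      have h4 := DFunLike.congr_fun h3 (fun i => Pi.basisFun R (Fin (c + 1)) i)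
      rw [AlternatingMap.smul_apply, vol, Module.Basis.det_self] at h4
      simpa using h4.symm
    -- it suffices to kill the top component
    suffices hs : ∃ η : Forms R (Fin (c + 1) → R), D f z η j = ω j ∧ ∀ i, j < i → D f z η i = 0 by
      obtain ⟨η, hη, hη'⟩ := hs
      obtain ⟨η', hη''⟩ := ih (ω - D f z η) (by rw [map_sub, hω, D_D f z hfz, sub_zero]) (by
        intro i hi
        rw [Pi.sub_apply]
        rcases Nat.lt_or_ge j i with h3 | h3
        · rw [h i h3, hη' i h3, sub_zero]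
        · have : i = j := le_antisymm h3 hi
          subst this
          rw [hη, sub_self])
      exact ⟨η' + η, by rw [map_add, hη'']; abel⟩
    have hcl : wedge f j (ω j) = 0 := by
      have h3 := congrFun hω (j + 1)
      rw [D_succ, h (j + 2) (by omega), map_zero, add_zero] at h3
      exact h3
    rcases lt_trichotomy j c with hjc | rfl | hjc
    · exact exists_of_isCob f z _ (isCob_of_lt f c e hreg j hjc _ hcl)
    · -- degree `c`
      have h3 := h1 (ω j e) (fun v => by rw [mul_comm]; exact closed_mem f _ hcl e v)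
      obtain ⟨a, ha, b, hb, hab⟩ := Submodule.mem_sup.1 h3
      obtain ⟨r, rfl⟩ := Ideal.mem_span_singleton'.1 hb
      have h4 : IsCob f j (ω j - r • contr z j (vol (j + 1))) := by
        refine isCob_of_apply_mem f j e hreg _ (by rw [map_sub, map_smul, hcl, hν, smul_zero,
          sub_zero]) ?_
        rw [AlternatingMap.sub_apply, AlternatingMap.smul_apply, smul_eq_mul]
        have h5 : ω j e - r * contr z j (vol (j + 1)) e =
            a - r * (contr z j (vol (j + 1)) e - w) := by
          rw [← hab]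
          ring
        rw [h5]
        exact sub_mem ha (Ideal.mul_mem_left _ _ hw)
      obtain ⟨η, hη, hη'⟩ := exists_of_isCob f z _ h4
      refine ⟨η + Pi.single (j + 1) (r • vol (j + 1)), ?_, ?_⟩
      · rw [map_add, Pi.add_apply, hη]
        cases j with
        | zero =>
          rw [D_zero, Pi.single_eq_same, map_smul, sub_add_cancel]
        | succ j =>
          rw [D_succ, Pi.single_eq_same, Pi.single_eq_of_ne (by omega), map_zero, zero_add,
            map_smul, sub_add_cancel]
      · intro i hi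
        rw [map_add, Pi.add_apply, hη' i hi, zero_add]
        obtain ⟨i, rfl⟩ : ∃ i', i = i' + 1 := ⟨i - 1, by omega⟩
        rw [D_succ, Pi.single_eq_of_ne (show i + 2 ≠ j + 1 by omega), map_zero, add_zero]
        rcases Nat.lt_or_ge j i with h5 | h5
        · exact alt_subsingleton (by omega) _
        · have : i = j := by omega
          subst this
          rw [Pi.single_eq_of_ne (by omega), map_zero]
    · rcases Nat.lt_or_ge (c + 1) j with hj | hj
      · rw [alt_subsingleton hj (ω j)]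
        exact ⟨0, by rw [map_zero]; rfl, fun i _ => by rw [map_zero]; rfl⟩
      · have : j = c + 1 := by omega
        subst this
        obtain ⟨r, hr⟩ := eq_smul_vol (ω (c + 1))
        have h3 : IsCob f c (r • contr z c (vol (c + 1))) := by
          cases c with
          | zero =>
            have h4 := congrFun hω 0
            rw [D_zero, hr, map_smul] at h4
            exact h4
          | succ c =>
            have h4 := congrFun hω (c + 1)
            rw [D_succ, hr, map_smul] at h4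
            refine ⟨- ω c, ?_⟩
            rw [map_neg]
            exact (neg_eq_of_add_eq_zero_right h4)
        have h4 := cob_mem f _ h3 e
        rw [AlternatingMap.smul_apply, smul_eq_mul] at h4
        obtain ⟨m, hm⟩ := h2 r (by
          have h5 : r * w = r * contr z c (vol (c + 1)) e -
            r * (contr z c (vol (c + 1)) e - w) := by ring
          rw [h5]
          exact sub_mem h4 (Ideal.mul_mem_left _ _ hw))
        refine ⟨Pi.single c (contr m c (vol (c + 1))), ?_, ?_⟩
        · rw [D_succ, Pi.single_eq_same, Pi.single_eq_of_ne (by omega), map_zero, add_zero, hr]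
          have h5 := contr_wedge f m c (vol (c + 1))
          rw [alt_subsingleton (by omega) (wedge f (c + 1) (vol (c + 1))), map_zero, hm] at h5
          exact (sub_eq_zero.1 h5.symm).symm
        · intro i hi
          exact alt_subsingleton (by omega) _

end exact

section nakayama

/-- `D` as a function of `(g, z)` -/
def DL (R : Type u) [CommRing R] (M : Type w) [AddCommGroup M] [Module R M] (ω : Forms R M) :
    ((M →ₗ[R] R) × M) →ₗ[R] Forms R M where
  toFun p := D p.1 p.2 ω
  map_add' _ _ := D_add _ _ _ _ _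
  map_smul' _ _ := D_smul _ _ _ _

theorem D_mem (J : Ideal R) {n : ℕ} (f : (Fin n → R) →ₗ[R] R) (z : Fin n → R)
    (hf : ∀ v, f v ∈ J) (hz : ∀ i, z i ∈ J) (ω : Forms R (Fin n → R)) :
    D f z ω ∈ J • (⊤ : Submodule R (Forms R (Fin n → R))) := by
  have h1 : ((f, z) : ((Fin n → R) →ₗ[R] R) × (Fin n → R)) =
      ∑ j, f (Pi.single j 1) • ((LinearMap.proj j : (Fin n → R) →ₗ[R] R), (0 : Fin n → R)) +
      ∑ j, z j • ((0 : (Fin n → R) →ₗ[R] R), (Pi.single j 1 : Fin n → R)) := by
    refine Prod.ext ?_ ?_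
    · rw [Prod.fst_add, Prod.fst_sum, Prod.fst_sum]
      simp only [Prod.smul_fst, smul_zero, Finset.sum_const_zero, add_zero]
      refine (Pi.basisFun R (Fin n)).ext fun i => ?_
      simp [LinearMap.sum_apply, Pi.single_apply]
    · rw [Prod.snd_add, Prod.snd_sum, Prod.snd_sum]
      simp only [Prod.smul_snd, smul_zero, Finset.sum_const_zero, zero_add]
      funext l
      simp [Finset.sum_apply, Pi.single_apply]
  have h2 : D f z ω = DL R (Fin n → R) ω (f, z) := rfl
  rw [h2, h1, map_add, map_sum, map_sum]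
  refine add_mem (Submodule.sum_mem _ fun j _ => ?_) (Submodule.sum_mem _ fun j _ => ?_)
  · rw [map_smul]
    exact Submodule.smul_mem_smul (hf _) trivial
  · rw [map_smul]
    exact Submodule.smul_mem_smul (hz _) trivial

/-- An almost complete intersection is not Gorenstein. -/
theorem kunz [IsLocalRing R] [IsNoetherianRing R] (rs : List R) (hrs : IsWeaklyRegular R rs)
    (hm : Ideal.ofList rs = maximalIdeal R) {c : ℕ} (f : (Fin (c + 1) → R) →ₗ[R] R)
    (hf : ∀ v, f v ∈ maximalIdeal R) (hker : ∀ v, f v = 0 → ∀ i, v i ∈ maximalIdeal R)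
    (e : Fin c → Fin (c + 1) → R)
    (hreg : IsWeaklyRegular R (List.ofFn fun i => f (e i))) (w : R)
    (h1 : ∀ y, (∀ v, y * f v ∈ Ideal.span (Set.range fun i => f (e i))) →
      y ∈ Ideal.span (Set.range fun i => f (e i)) ⊔ Ideal.span {w})
    (h2 : ∀ y, y * w ∈ Ideal.span (Set.range fun i => f (e i)) → ∃ m, f m = y)
    (h3 : ∀ v, w * f v ∈ Ideal.span (Set.range fun i => f (e i))) : False := by
  obtain ⟨ν, hν, hνw⟩ := exists_wedge_class f c e hreg w h3
  obtain ⟨z, rfl⟩ := exists_contr ν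
  have hfz : f z = 0 := by
    have h3 := contr_wedge f z c (vol (c + 1))
    rw [hν, sub_zero, alt_subsingleton (by omega) (wedge f (c + 1) (vol (c + 1))), map_zero] at h3
    have h4 := DFunLike.congr_fun h3 (fun i => Pi.basisFun R (Fin (c + 1)) i)
    rw [AlternatingMap.smul_apply, vol, Module.Basis.det_self] at h4
    simpa using h4.symm
  have hex : ∀ ω, D f z ω = 0 → ∃ η, D f z η = ω := fun ω hω =>
    exact_D f z e hreg w h1 h2 hν hνw (c + 2) ω hω fun i hi => alt_subsingleton (by omega) _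
  have hall := no_exact rs (Forms R (Fin (c + 1) → R)) (D f z) (isWeaklyRegular_free hrs)
    (fun ω => D_D f z hfz ω) hex (fun ω => by
      rw [hm]
      exact D_mem _ f z hf (hker z hfz) ω)
  rw [hm] at hall
  have htop : (⊤ : Submodule R (Forms R (Fin (c + 1) → R))) ≤
      maximalIdeal R • (⊤ : Submodule R (Forms R (Fin (c + 1) → R))) := fun x _ => hall x
  have hbot := Submodule.eq_bot_of_le_smul_of_le_jacobson_bot _ _ (Module.Finite.fg_top) htop
    (IsLocalRing.maximalIdeal_le_jacobson _)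
  have h5 : (Pi.single 0 (AlternatingMap.constOfIsEmpty R (Fin (c + 1) → R) (Fin 0) (1 : R)) :
      Forms R (Fin (c + 1) → R)) ∈ (⊥ : Submodule R (Forms R (Fin (c + 1) → R))) := by
    rw [← hbot]; trivial
  rw [Submodule.mem_bot] at h5
  have h6 := DFunLike.congr_fun (congrFun h5 0) (fun i => i.elim0)
  rw [Pi.single_eq_same] at h6
  exact one_ne_zero h6

end nakayama

end Pool.Agent.Licci.Kunz

end

section

/-!
MP_a98e4e_ag (licci), the format `(c, 1, 1)` is empty (helper75).
-/

set_option autoImplicit false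

namespace Pool.Agent.Licci.D

open IsLocalRing RingTheory.Sequence LicciCodimFour

universe u

variable {R : Type u} [CommRing R]

/-- No perfect ideal with `c + 1` generators and `A : I = A + (w)`. -/
theorem kunz_of_link [IsRegularLocalRing R] {I : Ideal R} {b : ℕ → ℕ}
    (F : MinimalFreeResolution I b) {c : ℕ} (hb1 : b 1 = c + 1) (a : Fin c → R)
    (ha : IsWeaklyRegular R (List.ofFn a)) (haI : ∀ i, a i ∈ I) (w : R)
    (h1 : (Ideal.span (Set.range a)).colon (I : Set R) =
      Ideal.span (Set.range a) ⊔ Ideal.span {w})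
    (h2 : (Ideal.span (Set.range a)).colon
      ((Ideal.span (Set.range a)).colon (I : Set R) : Set R) = I) : False := by
  obtain ⟨rs, -, hm, hrs⟩ := exists_regular_generators R
  let E : (Fin (c + 1) → R) ≃ₗ[R] (Fin (b 1) → R) := LinearEquiv.funCongrLeft R R (finCongr hb1)
  let f : (Fin (c + 1) → R) →ₗ[R] R := F.aug ∘ₗ E.toLinearMap
  have hrange : LinearMap.range f = I := by
    rw [← F.range_aug]
    exact LinearMap.range_comp_of_range_eq_top _ (LinearEquiv.range E)
  have hex : ∀ i, ∃ v, f v = a i := fun i => by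
    have : a i ∈ LinearMap.range f := by rw [hrange]; exact haI i
    exact this
  choose e he using hex
  have hfa : (fun i => f (e i)) = a := funext he
  refine Kunz.kunz rs hrs.toIsWeaklyRegular hm f (fun v => F.minimal_aug _) ?_ e
    (by rw [hfa]; exact ha) w ?_ ?_ ?_
  · intro v hv i
    obtain ⟨y, hy⟩ := (F.exact_aug (E v)).1 hv
    have h3 : v i = E v (finCongr hb1.symm i) := by
      change v i = v (finCongr hb1 (finCongr hb1.symm i))
      simp
    rw [h3, ← hy]
    exact F.minimal_d 0 y _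
  · intro y hy
    rw [hfa] at hy ⊢
    rw [← h1, mem_colon_iff']
    intro x hx
    rw [← hrange] at hx
    obtain ⟨v, rfl⟩ := hx
    exact hy v
  · intro y hy
    rw [hfa] at hy
    have : y ∈ LinearMap.range f := by
      rw [hrange, ← h2, mem_colon_iff']
      intro x hx
      rw [h1] at hx
      obtain ⟨s, hs, t, ht, rfl⟩ := Submodule.mem_sup.1 hx
      obtain ⟨r, rfl⟩ := Ideal.mem_span_singleton'.1 ht
      have e1 : y * (s + r * w) = y * s + r * (y * w) := by ring
      rw [e1]
      exact add_mem (Ideal.mul_mem_left _ _ hs) (Ideal.mul_mem_left _ _ hy)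
    exact this
  · intro v
    rw [hfa]
    have h3 : w ∈ (Ideal.span (Set.range a)).colon (I : Set R) := by
      rw [h1]
      exact Ideal.mem_sup_right (Ideal.mem_span_singleton_self _)
    rw [mem_colon_iff'] at h3
    exact h3 _ (by rw [← hrange]; exact ⟨v, rfl⟩)

/-- The format `(c, 1, 1)` is empty, given the bridge. -/
theorem not_isPerfectWith_one_one_of_bridge [IsRegularLocalRing R]
    (bridge : ∀ {c : ℕ} (_ : 1 ≤ c) {I : Ideal R} {b : ℕ → ℕ}
      (_ : MinimalFreeResolution I b) (_ : ∀ i, c < i → b i = 0) (a : Fin c → R)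
      (_ : IsWeaklyRegular R (List.ofFn a)) (_ : ∀ i, a i ∈ I),
      ∃ u : Fin (b c) → R,
        (Ideal.span (Set.range a)).colon (I : Set R) =
          Ideal.span (Set.range a) ⊔ Ideal.span (Set.range u) ∧
        (Ideal.span (Set.range a)).colon
          ((Ideal.span (Set.range a)).colon (I : Set R) : Set R) = I)
    (I : Ideal R) (c : ℕ) : ¬ IsPerfectWith I c 1 1 := by
  rintro ⟨⟨rs, hlen, hrs, hrsI⟩, b, hb1, hbc, hb, ⟨F⟩⟩
  have hc : 1 ≤ c := by
    by_contra hc
    have : c = 0 := by omega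
    subst this
    have := hb 1 (by omega)
    omega
  let a0 : Fin c → R := fun i => rs.get (i.cast hlen.symm)
  have ha0 : List.ofFn a0 = rs := by
    apply List.ext_getElem
    · simp [hlen]
    · intro i h1 h2
      simp [a0]
  have ha0I : ∀ i, a0 i ∈ I := fun i => hrsI _ (List.get_mem _ _)
  have hreg0 : IsWeaklyRegular R (List.ofFn a0) := by
    rw [ha0]
    exact hrs.toIsWeaklyRegular
  obtain ⟨u, hu1, hu2⟩ := bridge hc F hb a0 hreg0 ha0I
  have hspan : Ideal.span (Set.range u) = Ideal.span {u (Fin.cast hbc.symm 0)} := by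
    congr 1
    ext x
    constructor
    · rintro ⟨i, rfl⟩
      have : i = Fin.cast hbc.symm 0 := by
        apply Fin.ext
        have := i.2
        simp only [Fin.val_cast, Fin.val_zero]
        omega
      rw [this]
      rfl
    · rintro rfl
      exact ⟨_, rfl⟩
  rw [hspan] at hu1
  exact kunz_of_link F hb1 a0 hreg0 ha0I _ hu1 hu2

/-- The format `(c, 1, 1)` is empty. -/
theorem kunz [IsRegularLocalRing R] (c : ℕ) (I : Ideal R) : ¬ IsPerfectWith I c 1 1 :=
  not_isPerfectWith_one_one_of_bridge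
    (fun hc _ _ F hb a ha haI => bridge_c F _ hc hb a ha haI) I c

end Pool.Agent.Licci.D

end

section

/-!
MP_a98e4e_ag (licci), module DS0 (helper62): the final theorem in all codimensions at least four
from the two core statements `MainG R 5` and `MainG R 6`.
-/

set_option autoImplicit false

namespace Pool.Agent.Licci.D

open IsLocalRing RingTheory.Sequence LicciCodimFour

universe u

/-- The theorem of Kunz: there is no perfect ideal of deviation one and type one. -/
theorem not_isPerfectWith_one_one {R : Type u} [CommRing R] [IsRegularLocalRing R]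
    (I : Ideal R) (c : ℕ) : ¬ IsPerfectWith I c 1 1 :=
  not_isPerfectWith_one_one_of_bridge
    (fun {c} hc _ _ F hb a ha haI => bridge_c F c hc hb a ha haI) I c

/-- Positive integers are units in a local ring with residue field of characteristic zero. -/
theorem natCast_isUnit {R : Type u} [CommRing R] [IsLocalRing R] [CharZero (ResidueField R)]
    {n : ℕ} (hn : n ≠ 0) : IsUnit (n : R) := by
  by_contra h
  have h1 : residue R (n : R) = 0 := (residue_eq_zero_iff _).2 ((mem_maximalIdeal _).2 h)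
  rw [map_natCast] at h1
  exact hn (Nat.cast_eq_zero.1 h1)

/-- A local ring with residue field of characteristic zero is a `ℚ`-algebra. -/
theorem exists_algebra_rat (R : Type u) [CommRing R] [IsLocalRing R]
    [CharZero (ResidueField R)] : Nonempty (Algebra ℚ R) := by
  have hu : ∀ x : nonZeroDivisors ℤ, IsUnit (algebraMap ℤ R (x : ℤ)) := by
    intro x
    have hx : (x : ℤ) ≠ 0 := nonZeroDivisors.coe_ne_zero x
    rw [algebraMap_int_eq, eq_intCast]
    rcases Int.natAbs_eq (x : ℤ) with h | h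
    · rw [h, Int.cast_natCast]
      exact natCast_isUnit (Int.natAbs_ne_zero.2 hx)
    · rw [h, Int.cast_neg, Int.cast_natCast]
      exact (natCast_isUnit (Int.natAbs_ne_zero.2 hx)).neg
  exact ⟨(IsLocalization.lift (M := nonZeroDivisors ℤ) (g := algebraMap ℤ R) hu :
    ℚ →+* R).toAlgebra⟩

/-- All Dynkin cases in codimension at least four from the core statements in codimension five
and six. -/
theorem licci_of_mainG (R : Type u) [CommRing R] [IsRegularLocalRing R]
    [CharZero (ResidueField R)] (main5 : MainG R 5) (main6 : MainG R 6)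
    (I : Ideal R) (c d t : ℕ) (hc : 4 ≤ c) (hd : 1 ≤ d) (ht : 1 ≤ t)
    (hdyn : IsDynkinT (c - 1) (d + 1) (t + 1)) (hI : IsPerfectOfInvariants I c d t) :
    IsLicci I := by
  have : Infinite (ResidueField R) :=
    Infinite.of_injective _ (Nat.cast_injective (R := ResidueField R))
  rcases Nat.lt_or_ge 4 c with h | h
  · exact codim_ge_five main5 main6 (fun c I _ => not_isPerfectWith_one_one I c) I c d t h hd ht
      hdyn hI
  · obtain rfl : c = 4 := le_antisymm h hc
    obtain ⟨_⟩ := exists_algebra_rat R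
    exact codim_four (Pool.Agent.Licci.main8 R) I d t hd ht hdyn hI

end Pool.Agent.Licci.D

end

section

/-!
# LICCI: all codimensions at least four from the core `CoreUnit` (helper62)
-/

set_option autoImplicit false

namespace Pool.Agent.Licci.Fin6

open IsLocalRing RingTheory.Sequence LicciCodimFour D

universe u

theorem pointCone (R : Type u) [CommRing R] [IsDomain R] [Algebra ℚ R] : PointCone R :=
  fun f hreg z h0 h1 hz => P.exists_cone f hreg z h0 h1 hz

theorem hodge6 (R : Type u) [CommRing R] [Algebra ℚ R] : Hodge6 R :=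
  fun f ν h => exists_zeta f ν h

theorem hodge5 (R : Type u) [CommRing R] [Algebra ℚ R] : Hodge5 R :=
  fun f ν h => exists_zeta5 f ν h

/-- All Dynkin cases in codimension at least four, from the core. -/
theorem licci_of_coreUnit
    (core : ∀ (S : Type u) [CommRing S] [IsRegularLocalRing S] [Algebra ℚ S], CoreUnit S)
    (R : Type u) [CommRing R] [IsRegularLocalRing R] [CharZero (ResidueField R)]
    (I : Ideal R) (c d t : ℕ) (hc : 4 ≤ c) (hd : 1 ≤ d) (ht : 1 ≤ t)
    (hdyn : IsDynkinT (c - 1) (d + 1) (t + 1)) (hI : IsPerfectOfInvariants I c d t) :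
    IsLicci I := by
  obtain ⟨_⟩ := exists_algebra_rat R
  have : IsDomain R := isDomain_of_isRegularLocalRing R
  exact licci_of_mainG R (mainG_five R (pointCone _) (hodge5 R) core)
    (mainG_six R (pointCone _) (hodge6 R) core) I c d t hc hd ht hdyn hI

end Pool.Agent.Licci.Fin6

end
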