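import Pool.Agent.Work.MP_a98e4e_ag.Fu.L.ChkDef

/-! Kernel checks for the Jacobi identity. -/

namespace Pool.Agent.Licci

set_option maxRecDepth 100000

theorem chk_92 : chk 92 = true :=
  chk_of 92 (by decide +kernel) (by decide +kernel) (by decide +kernel) (by decide +kernel) (by decide +kernel) (by decide +kernel)
    (by decide +kernel) (by decide +kernel) (by decide +kernel) (by decide +kernel) (by decide +kernel) (by decide +kernel)

theorem chk_100 : chk 100 = true :=
  chk_of 100 (by decide +kernel) (by decide +kernel) (by decide +kernel) (by decide +kernel) (by decide +kernel) (by decide +kernel)
    (by decide +kernel) (by decide +kernel) (by decide +kernel) (by decide +kernel) (by decide +kernel) (by decide +kernel)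

theorem chk_108 : chk 108 = true :=
  chk_of 108 (by decide +kernel) (by decide +kernel) (by decide +kernel) (by decide +kernel) (by decide +kernel) (by decide +kernel)
    (by decide +kernel) (by decide +kernel) (by decide +kernel) (by decide +kernel) (by decide +kernel) (by decide +kernel)

end Pool.Agent.Licci
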