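import Pool.Agent.Work.MP_a98e4e_ag.Fu.L.Grad
import Pool.Agent.Work.MP_a98e4e_ag.Fu.L.Jac
import Pool.Agent.Work.MP_a98e4e_ag.Fu.L.FormA2
import Pool.Agent.Work.MP_a98e4e_ag.Fu.L.ThRel

section

/-!
# LICCI, codimension 4, module L8a: the linear form and the `4`-form of a state over a field
-/

namespace Pool.Agent.Licci

open scoped BigOperators
open U (Sup)

/-! ### functions of `t` which are polynomials, with their first two coefficients -/

section Dl

variable {K : Type*} [Field K]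

/-- `F` is polynomial in `t` with the coefficients `a` (of `1`) and `b` (of `t`). -/
def Dl (F : K → K) (a b : K) : Prop :=
  ∃ P : Polynomial K, (∀ t, F t = P.eval t) ∧ P.coeff 0 = a ∧ P.coeff 1 = b

theorem Dl.const (c : K) : Dl (fun _ => c) c 0 :=
  ⟨Polynomial.C c, fun t => by simp, by simp, by simp⟩

theorem Dl.add {F G : K → K} {a b c d : K} (hF : Dl F a b) (hG : Dl G c d) :
    Dl (fun t => F t + G t) (a + c) (b + d) := by
  obtain ⟨P, h1, h2, h3⟩ := hF
  obtain ⟨Q, k1, k2, k3⟩ := hG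
  exact ⟨P + Q, fun t => by simp [h1, k1], by simp [h2, k2], by simp [h3, k3]⟩

theorem Dl.mul {F G : K → K} {a b c d : K} (hF : Dl F a b) (hG : Dl G c d) :
    Dl (fun t => F t * G t) (a * c) (a * d + b * c) := by
  obtain ⟨P, h1, h2, h3⟩ := hF
  obtain ⟨Q, k1, k2, k3⟩ := hG
  refine ⟨P * Q, fun t => by simp [h1, k1], ?_, ?_⟩
  · rw [Polynomial.mul_coeff_zero, h2, k2]
  · rw [Polynomial.mul_coeff_one, h2, h3, k2, k3]

theorem Dl.const_mul (e : K) {F : K → K} {a b : K} (hF : Dl F a b) :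
    Dl (fun t => e * F t) (e * a) (e * b) := by
  have := (Dl.const e).mul hF
  simpa using this

theorem Dl.neg {F : K → K} {a b : K} (hF : Dl F a b) : Dl (fun t => - F t) (-a) (-b) := by
  have := hF.const_mul (-1)
  simpa using this

theorem Dl.sum {κ : Type*} (s : Finset κ) {F : κ → K → K} {a b : κ → K}
    (h : ∀ i ∈ s, Dl (F i) (a i) (b i)) : Dl (fun t => ∑ i ∈ s, F i t) (∑ i ∈ s, a i)
      (∑ i ∈ s, b i) := by
  classical
  induction s using Finset.induction_on with
  | empty => simpa using Dl.const (0 : K)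
  | insert j s hj ih =>
    have h1 := (h j (Finset.mem_insert_self j s)).add
      (ih fun i hi => h i (Finset.mem_insert_of_mem hi))
    simpa [Finset.sum_insert hj] using h1

theorem Dl.pow (n : ℕ) : Dl (fun t : K => t ^ n) (if n = 0 then 1 else 0)
    (if n = 1 then 1 else 0) := by
  refine ⟨Polynomial.X ^ n, fun t => by simp, ?_, ?_⟩
  · rw [Polynomial.coeff_X_pow]
    simp [eq_comm]
  · rw [Polynomial.coeff_X_pow]
    simp [eq_comm]

theorem Dl.eq_zero [Infinite K] {F : K → K} {a b : K} (hF : Dl F a b) (h : ∀ t, F t = 0) :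
    a = 0 ∧ b = 0 := by
  obtain ⟨P, h1, rfl, rfl⟩ := hF
  have : P = 0 := Polynomial.funext fun t => by rw [← h1, h, Polynomial.eval_zero]
  rw [this]
  simp

end Dl

section vec

variable {K : Type*} [Field K]

theorem Dl.om {Y : K → E8 K} {Y0 Y1 : E8 K} (hY : ∀ m, Dl (fun t => Y t m) (Y0 m) (Y1 m))
    {a b : K → Vec K} {a0 a1 b0 b1 : Vec K} (ha : ∀ i, Dl (fun t => a t i) (a0 i) (a1 i))
    (hb : ∀ i, Dl (fun t => b t i) (b0 i) (b1 i)) :
    Dl (fun t => Licci.om (Y t) (a t) (b t)) (Licci.om Y0 a0 b0)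
      (Licci.om Y1 a0 b0 + Licci.om Y0 a1 b0 + Licci.om Y0 a0 b1) := by
  have h : Dl (fun t => Licci.om (Y t) (a t) (b t)) (Licci.om Y0 a0 b0)
      (∑ i, ∑ j, (w2 Y0 i j * (a0 i * b1 j + a1 i * b0 j) + w2 Y1 i j * (a0 i * b0 j))) := by
    simp only [Licci.om]
    refine Dl.sum _ fun i _ => Dl.sum _ fun j _ => ?_
    have h1 : Dl (fun t => w2 (Y t) i j) (w2 Y0 i j) (w2 Y1 i j) := (hY _).const_mul _
    exact h1.mul ((ha i).mul (hb j))
  have e : (∑ i, ∑ j, (w2 Y0 i j * (a0 i * b1 j + a1 i * b0 j) + w2 Y1 i j * (a0 i * b0 j))) =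
      Licci.om Y1 a0 b0 + Licci.om Y0 a1 b0 + Licci.om Y0 a0 b1 := by
    simp only [Licci.om, ← Finset.sum_add_distrib]
    refine Finset.sum_congr rfl fun i _ => Finset.sum_congr rfl fun j _ => ?_
    ring
  rw [e] at h
  exact h

theorem Dl.Th {Y Z : K → E8 K} {Y0 Y1 Z0 Z1 : E8 K}
    (hY : ∀ m, Dl (fun t => Y t m) (Y0 m) (Y1 m)) (hZ : ∀ m, Dl (fun t => Z t m) (Z0 m) (Z1 m))
    {u : K → Vec K} {u0 u1 : Vec K} (hu : ∀ i, Dl (fun t => u t i) (u0 i) (u1 i)) :
    Dl (fun t => Licci.Th (Y t) (Z t) (u t)) (Licci.Th Y0 Z0 u0)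
      (Licci.Th Y1 Z0 u0 + Licci.Th Y0 Z1 u0 + Licci.Th Y0 Z0 u1) := by
  have h1 := Dl.om hZ (a := fun t => p3 (Y t)) (a0 := p3 Y0) (a1 := p3 Y1) (fun i => hY _) hu
  have h2 := Dl.om hY (a := fun t => p3 (Z t)) (a0 := p3 Z0) (a1 := p3 Z1) (fun i => hZ _) hu
  have h3 := h1.add h2
  have e : Licci.om Z1 (p3 Y0) u0 + Licci.om Z0 (p3 Y1) u0 + Licci.om Z0 (p3 Y0) u1 +
      (Licci.om Y1 (p3 Z0) u0 + Licci.om Y0 (p3 Z1) u0 + Licci.om Y0 (p3 Z0) u1) =
      Licci.Th Y1 Z0 u0 + Licci.Th Y0 Z1 u0 + Licci.Th Y0 Z0 u1 := by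
    simp only [Licci.Th]
    ring
  rw [e] at h3
  exact h3

theorem Dl.ex [Algebra ℚ K] (E Y : E8 K) (m : Fin 248) :
    Dl (fun t => Licci.ex (t • E) Y m) (Y m) (br E Y m) := by
  have h1 : (fun t : K => Licci.ex (t • E) Y m) = fun t => ∑ n ∈ Finset.range 7,
      (algebraMap ℚ K ((n.factorial : ℚ)⁻¹) * ((brL E) ^ n) Y m) * t ^ n := by
    funext t
    rw [ex_apply, Finset.sum_apply]
    refine Finset.sum_congr rfl fun n _ => ?_
    rw [map_smul, smul_pow]
    simp only [Pi.smul_apply, LinearMap.smul_apply, smul_eq_mul]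
    ring
  rw [h1]
  have h2 := Dl.sum (Finset.range 7) (fun n _ => (Dl.pow (K := K) n).const_mul
    (algebraMap ℚ K ((n.factorial : ℚ)⁻¹) * ((brL E) ^ n) Y m))
  refine (congrArg₂ (Dl _) ?_ ?_).mp h2
  · simp
  · simp

end vec

/-! ### the pairs `(1, 8)`, `(2, 9)` of basis vectors of `x`-degree `2` -/

section basis

variable {A : Type*} [CommRing A]

theorem sup_eb {i : Fin 248} (h : xdg i = 2) : Sup xdg 2 (eb i : E8 A) := by
  intro b hb
  rw [eb_apply, if_neg]
  rintro rfl
  exact hb h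

theorem xdg_1 : xdg (ix 1) = 2 := by decide +kernel
theorem xdg_8 : xdg (ix 8) = 2 := by decide +kernel
theorem xdg_2 : xdg (ix 2) = 2 := by decide +kernel
theorem xdg_9 : xdg (ix 9) = 2 := by decide +kernel

theorem B0_symm (g h : E8 A) : B0 g h = B0 h g := by
  simp only [B0]
  congr 1
  refine Finset.sum_congr rfl fun q _ => ?_
  ring

theorem ix_ne {i j : ℕ} (hi : i < 248) (hj : j < 248) (h : i ≠ j) : ix i ≠ ix j := by
  intro h1
  have h2 := congrArg Fin.val h1
  simp only [ix, Fin.ofNat, Nat.mod_eq_of_lt hi, Nat.mod_eq_of_lt hj] at h2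
  exact h h2

theorem B0_1_8 : B0 (eb (ix 1) : E8 A) (eb (ix 8)) = -1 := by
  simp [B0, eb_apply, Fin.sum_univ_succ, ix, Fin.ext_iff]

theorem B0_2_9 : B0 (eb (ix 2) : E8 A) (eb (ix 9)) = -1 := by
  simp [B0, eb_apply, Fin.sum_univ_succ, ix, Fin.ext_iff]

theorem B0_1_9 : B0 (eb (ix 1) : E8 A) (eb (ix 9)) = 0 := by
  simp [B0, eb_apply, Fin.sum_univ_succ, ix, Fin.ext_iff]

theorem B0_1_2 : B0 (eb (ix 1) : E8 A) (eb (ix 2)) = 0 := by
  simp [B0, eb_apply, Fin.sum_univ_succ, ix, Fin.ext_iff]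

theorem B0_8_9 : B0 (eb (ix 8) : E8 A) (eb (ix 9)) = 0 := by
  simp [B0, eb_apply, Fin.sum_univ_succ, ix, Fin.ext_iff]

theorem B0_8_2 : B0 (eb (ix 8) : E8 A) (eb (ix 2)) = 0 := by
  simp [B0, eb_apply, Fin.sum_univ_succ, ix, Fin.ext_iff]

theorem om_add_left (Y : E8 A) (x x' y : Vec A) : om Y (x + x') y = om Y x y + om Y x' y := by
  simp only [om, ← Finset.sum_add_distrib]
  refine Finset.sum_congr rfl fun i _ => Finset.sum_congr rfl fun j _ => ?_
  simp only [Pi.add_apply]; ring

theorem om_smul_left (Y : E8 A) (c : A) (x y : Vec A) : om Y (c • x) y = c * om Y x y := by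
  simp only [om, Finset.mul_sum]
  refine Finset.sum_congr rfl fun i _ => Finset.sum_congr rfl fun j _ => ?_
  simp only [Pi.smul_apply, smul_eq_mul]; ring

theorem om_sub_left (Y : E8 A) (x x' y : Vec A) : om Y (x - x') y = om Y x y - om Y x' y := by
  rw [sub_eq_add_neg, om_add_left, ← neg_one_smul A x', om_smul_left]; ring

end basis

section L8

variable {K : Type*} [Field K]

/-- the cyclic identity -/
theorem FormOf.cyclic {k : E8 K →ₗ[K] E8 K} {f : Vec K →ₗ[K] K} (hf : FormOf k f) {g h e : E8 K}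
    (hg : Sup xdg 2 g) (hh : Sup xdg 2 h) (he : Sup xdg 2 e) :
    B0 g h * f (p3 (k e)) + B0 h e * f (p3 (k g)) + B0 e g * f (p3 (k h)) = 0 := by
  rw [← hf g h hg hh, ← hf h e hh he, ← hf e g he hg]
  simp only [Th]
  rw [om_swap (k h) (p3 (k g)), om_swap (k g) (p3 (k h)), om_swap (k e) (p3 (k h))]
  ring

/-- `f ∘ d = 0` -/
theorem FormOf.comp {k : E8 K →ₗ[K] E8 K} {f : Vec K →ₗ[K] K} (hf : FormOf k f) {g : E8 K}
    (hg : Sup xdg 2 g) : f (p3 (k g)) = 0 := by
  have s1 : Sup xdg 2 (eb (ix 1) : E8 K) := sup_eb xdg_1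
  have s8 : Sup xdg 2 (eb (ix 8) : E8 K) := sup_eb xdg_8
  have s2 : Sup xdg 2 (eb (ix 2) : E8 K) := sup_eb xdg_2
  have s9 : Sup xdg 2 (eb (ix 9) : E8 K) := sup_eb xdg_9
  have h1 : f (p3 (k (eb (ix 1)))) = 0 := by
    have := hf.cyclic s2 s9 s1
    rw [B0_2_9, B0_symm (eb (ix 9)) (eb (ix 1)), B0_1_9, B0_1_2] at this
    simpa using this
  have h8 : f (p3 (k (eb (ix 8)))) = 0 := by
    have := hf.cyclic s2 s9 s8
    rw [B0_2_9, B0_symm (eb (ix 9)) (eb (ix 8)), B0_8_9, B0_8_2] at this
    simpa using this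
  have := hf.cyclic s1 s8 hg
  rw [B0_1_8, h1, h8] at this
  simpa using this

/-- `ν` is alternating -/
theorem nuOf_self (k : E8 K →ₗ[K] E8 K) (x y z : Vec K) : nuOf k x y z x = 0 := by
  have key : ∀ Y Z : E8 K, Th (br (tri x y z) Y) Z x + Th Y (br (tri x y z) Z) x = 0 := by
    intro Y Z
    simp only [Th]
    rw [p3_tri, p3_tri, om_swap (br (tri x y z) Y) (p3 Z) x, om_tri,
      om_swap (br (tri x y z) Z) (p3 Y) x, om_tri]
    simp only [om_add_left, om_sub_left, om_smul_left, om_self]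
    rw [om_swap Z y x, om_swap Z z x, om_swap Y y x, om_swap Y z x]
    ring
  rw [nuOf, key, neg_zero]

variable [Algebra ℚ K]

omit [Algebra ℚ K] in
theorem IsAut.comp' {k k' : E8 K →ₗ[K] E8 K} (hk : IsAut k) (hk' : IsAut k') :
    IsAut (k' ∘ₗ k) :=
  ⟨hk'.bij.comp hk.bij, fun x y => by simp [hk.map_br, hk'.map_br]⟩

theorem isAut_ex_tri (t : K) (x y z : Vec K) : IsAut (ex (t • tri x y z)) := by
  apply ex_isAut
  apply ad_nil_pos
  intro m hm
  have := tri_sup x y z m (by omega)
  simp [this]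

theorem infinite_of_rat : Infinite K := by
  have : CharZero K := algebraRat.charZero K
  infer_instance

/-- the first order term does not depend on the pair -/
theorem nuOf_spec {k : E8 K →ₗ[K] E8 K} (hk : IsAut k) {f : Vec K →ₗ[K] K} (hf : FormOf k f)
    {g h : E8 K} (hg : Sup xdg 2 g) (hh : Sup xdg 2 h) (x y z u : Vec K) :
    Th (br (tri x y z) (k g)) (k h) u + Th (k g) (br (tri x y z) (k h)) u =
      B0 g h * nuOf k x y z u := by
  have : Infinite K := infinite_of_rat
  set E := tri x y z with hE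
  have s1 : Sup xdg 2 (eb (ix 1) : E8 K) := sup_eb xdg_1
  have s8 : Sup xdg 2 (eb (ix 8) : E8 K) := sup_eb xdg_8
  have hu : ∀ i, Dl (fun _ : K => u i) (u i) ((0 : Vec K) i) := fun i => Dl.const (u i)
  have d1 := Dl.Th (Dl.ex E (k g)) (Dl.ex E (k h)) hu
  have d2 := Dl.Th (Dl.ex E (k (eb (ix 1)))) (Dl.ex E (k (eb (ix 8)))) hu
  have d3 := d1.add (d2.const_mul (B0 g h))
  have hz : ∀ t : K, Th (ex (t • E) (k g)) (ex (t • E) (k h)) u +
      B0 g h * Th (ex (t • E) (k (eb (ix 1)))) (ex (t • E) (k (eb (ix 8)))) u = 0 := by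
    intro t
    obtain ⟨ft, hft⟩ := exists_form (hk.comp' (isAut_ex_tri t x y z))
    have e1 := hft g h hg hh u
    have e2 := hft _ _ s1 s8 u
    simp only [LinearMap.comp_apply] at e1 e2
    rw [e1, e2, B0_1_8]
    ring
  have hTh0 : ∀ Y Z : E8 K, Th Y Z (0 : Vec K) = 0 := by
    intro Y Z
    simp [Th, om]
  have h4 := (d3.eq_zero hz).2
  rw [hTh0, hTh0] at h4
  rw [nuOf, ← hE]
  linear_combination h4

/-- `f ∧ ω_g = ι_{d g} ν` -/
theorem nuOf_d {k : E8 K →ₗ[K] E8 K} (hk : IsAut k) {f : Vec K →ₗ[K] K} (hf : FormOf k f)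
    {g : E8 K} (hg : Sup xdg 2 g) (x y z : Vec K) :
    nuOf k x y z (p3 (k g)) =
      -(f x * om (k g) y z - f y * om (k g) x z + f z * om (k g) x y) := by
  have : Infinite K := infinite_of_rat
  set E := tri x y z with hE
  have s1 : Sup xdg 2 (eb (ix 1) : E8 K) := sup_eb xdg_1
  have s8 : Sup xdg 2 (eb (ix 8) : E8 K) := sup_eb xdg_8
  have hu : ∀ i, Dl (fun t : K => p3 (ex (t • E) (k g)) i) (p3 (k g) i) (p3 (br E (k g)) i) :=
    fun i => Dl.ex E (k g) _
  have d2 := Dl.Th (Dl.ex E (k (eb (ix 1)))) (Dl.ex E (k (eb (ix 8)))) hu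
  have hz : ∀ t : K, Th (ex (t • E) (k (eb (ix 1)))) (ex (t • E) (k (eb (ix 8))))
      (p3 (ex (t • E) (k g))) = 0 := by
    intro t
    obtain ⟨ft, hft⟩ := exists_form (hk.comp' (isAut_ex_tri t x y z))
    have e2 := hft _ _ s1 s8 (p3 (ex (t • E) (k g)))
    simp only [LinearMap.comp_apply] at e2
    have e3 : ft (p3 ((ex (t • E) ∘ₗ k) g)) = 0 := FormOf.comp (k := ex (t • E) ∘ₗ k) hft hg
    simp only [LinearMap.comp_apply] at e3
    rw [e2, e3, mul_zero]
  have h4 := (d2.eq_zero hz).2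
  have h5 : Th (k (eb (ix 1))) (k (eb (ix 8))) (p3 (br E (k g))) = - f (p3 (br E (k g))) := by
    rw [hf _ _ s1 s8, B0_1_8]
    ring
  rw [h5, hE, p3_tri, ← hE] at h4
  simp only [map_add, map_sub, map_smul, smul_eq_mul] at h4
  rw [nuOf, ← hE]
  linear_combination -h4

end L8

end Pool.Agent.Licci

end

section

/-!
# LICCI, codimension 4: one state over a field, second part

`im d = ker f`, `f ∧ ν = 0` and the effect of a move on `f`.
-/

namespace Pool.Agent.Licci

open scoped BigOperators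
open U (Sup)

section L8

variable {K : Type*} [Field K] [Algebra ℚ K]

namespace St2

/-! ### linearity -/

section lin

variable {A : Type*} [CommRing A]

theorem p3_add' (Y Z : E8 A) : p3 (Y + Z) = p3 Y + p3 Z := rfl
theorem p3_smul' (c : A) (Y : E8 A) : p3 (c • Y) = c • p3 Y := rfl

theorem w2_add' (Y Z : E8 A) (i j : Fin 8) : w2 (Y + Z) i j = w2 Y i j + w2 Z i j := by
  simp only [w2, Pi.add_apply, mul_add]

theorem w2_smul' (c : A) (Y : E8 A) (i j : Fin 8) : w2 (c • Y) i j = c * w2 Y i j := by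
  simp only [w2, Pi.smul_apply, smul_eq_mul]
  ring

theorem om_add_fst (Y Z : E8 A) (x y : Vec A) : om (Y + Z) x y = om Y x y + om Z x y := by
  simp only [om, w2_add', add_mul, Finset.sum_add_distrib]

theorem om_smul_fst (c : A) (Y : E8 A) (x y : Vec A) : om (c • Y) x y = c * om Y x y := by
  simp only [om, w2_smul', Finset.mul_sum]
  exact Finset.sum_congr rfl fun i _ => Finset.sum_congr rfl fun j _ => by ring

theorem om_add_left (Y : E8 A) (x x' y : Vec A) : om Y (x + x') y = om Y x y + om Y x' y := by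
  simp only [om, Pi.add_apply, ← Finset.sum_add_distrib]
  exact Finset.sum_congr rfl fun i _ => Finset.sum_congr rfl fun j _ => by ring

theorem om_smul_left (Y : E8 A) (c : A) (x y : Vec A) : om Y (c • x) y = c * om Y x y := by
  simp only [om, Pi.smul_apply, smul_eq_mul, Finset.mul_sum]
  exact Finset.sum_congr rfl fun i _ => Finset.sum_congr rfl fun j _ => by ring

theorem om_add_right (Y : E8 A) (x y y' : Vec A) : om Y x (y + y') = om Y x y + om Y x y' := by
  simp only [om, Pi.add_apply, ← Finset.sum_add_distrib]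
  exact Finset.sum_congr rfl fun i _ => Finset.sum_congr rfl fun j _ => by ring

theorem om_smul_right (Y : E8 A) (c : A) (x y : Vec A) : om Y x (c • y) = c * om Y x y := by
  simp only [om, Pi.smul_apply, smul_eq_mul, Finset.mul_sum]
  exact Finset.sum_congr rfl fun i _ => Finset.sum_congr rfl fun j _ => by ring

/-- `om` as a linear map in the first vector and the element of `e_8` -/
def omL (x y : Vec A) : E8 A →ₗ[A] A where
  toFun Y := om Y x y
  map_add' Y Z := om_add_fst Y Z x y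
  map_smul' c Y := om_smul_fst c Y x y

theorem omL_apply (x y : Vec A) (Y : E8 A) : omL x y Y = om Y x y := rfl

/-- `p3` as a linear map -/
def p3L : E8 A →ₗ[A] Vec A where
  toFun Y := p3 Y
  map_add' Y Z := rfl
  map_smul' c Y := rfl

theorem p3L_apply (Y : E8 A) : p3L Y = p3 Y := rfl

theorem Th_smul (Y Z : E8 A) (c : A) (u : Vec A) : Th Y Z (c • u) = c * Th Y Z u := by
  simp only [Th, om_smul_right]
  ring

theorem Th_add (Y Z : E8 A) (u u' : Vec A) : Th Y Z (u + u') = Th Y Z u + Th Y Z u' := by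
  simp only [Th, om_add_right]
  ring

theorem Th_add_fst (Y Y' Z : E8 A) (u : Vec A) : Th (Y + Y') Z u = Th Y Z u + Th Y' Z u := by
  simp only [Th, p3_add', om_add_left, om_add_fst]
  ring

theorem Th_smul_fst (c : A) (Y Z : E8 A) (u : Vec A) : Th (c • Y) Z u = c * Th Y Z u := by
  simp only [Th, p3_smul', om_smul_left, om_smul_fst]
  ring

theorem Th_add_snd (Y Z Z' : E8 A) (u : Vec A) : Th Y (Z + Z') u = Th Y Z u + Th Y Z' u := by
  simp only [Th, p3_add', om_add_left, om_add_fst]
  ring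

theorem Th_smul_snd (c : A) (Y Z : E8 A) (u : Vec A) : Th Y (c • Z) u = c * Th Y Z u := by
  simp only [Th, p3_smul', om_smul_left, om_smul_fst]
  ring

theorem tri_add_left (x x' y z : Vec A) : tri (x + x') y z = tri x y z + tri x' y z := by
  simp only [tri, Pi.add_apply, ← Finset.sum_add_distrib, ← add_smul]
  exact Finset.sum_congr rfl fun i _ => Finset.sum_congr rfl fun j _ =>
    Finset.sum_congr rfl fun k _ => by ring_nf

theorem tri_smul_left (c : A) (x y z : Vec A) : tri (c • x) y z = c • tri x y z := by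
  simp only [tri, Pi.smul_apply, smul_eq_mul, Finset.smul_sum, smul_smul]
  exact Finset.sum_congr rfl fun i _ => Finset.sum_congr rfl fun j _ =>
    Finset.sum_congr rfl fun k _ => by ring_nf

theorem nuOf_add_right (k : E8 A →ₗ[A] E8 A) (x y z u u' : Vec A) :
    nuOf k x y z (u + u') = nuOf k x y z u + nuOf k x y z u' := by
  simp only [nuOf, Th_add]
  ring

theorem nuOf_smul_right (k : E8 A →ₗ[A] E8 A) (x y z : Vec A) (c : A) (u : Vec A) :
    nuOf k x y z (c • u) = c * nuOf k x y z u := by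
  simp only [nuOf, Th_smul]
  ring

theorem nuOf_add_left (k : E8 A →ₗ[A] E8 A) (x x' y z u : Vec A) :
    nuOf k (x + x') y z u = nuOf k x y z u + nuOf k x' y z u := by
  simp only [nuOf, tri_add_left, br_add_left, Th_add_fst, Th_add_snd]
  ring

theorem nuOf_smul_left (k : E8 A →ₗ[A] E8 A) (c : A) (x y z u : Vec A) :
    nuOf k (c • x) y z u = c * nuOf k x y z u := by
  simp only [nuOf, tri_smul_left, br_smul_left, Th_smul_fst, Th_smul_snd]
  ring

theorem nuOf_zero_right (k : E8 A →ₗ[A] E8 A) (x y z : Vec A) : nuOf k x y z 0 = 0 := by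
  have := nuOf_smul_right k x y z 0 0
  rwa [zero_smul, zero_mul] at this

theorem nuOf_swap_left (k : E8 A →ₗ[A] E8 A) (x y z u : Vec A) :
    nuOf k x y z u = - nuOf k y x z u := by
  simp only [nuOf, tri_swap_left x y z, br_neg_left]
  rw [← neg_one_smul A (br (tri y x z) (k (eb (ix 1)))), ← neg_one_smul A (br (tri y x z)
    (k (eb (ix 8)))), Th_smul_fst, Th_smul_snd]
  ring

theorem nuOf_swap_right (k : E8 A →ₗ[A] E8 A) (x y z u : Vec A) :
    nuOf k x y z u = - nuOf k x z y u := by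
  simp only [nuOf, tri_swap_right x y z, br_neg_left]
  rw [← neg_one_smul A (br (tri x z y) (k (eb (ix 1)))), ← neg_one_smul A (br (tri x z y)
    (k (eb (ix 8)))), Th_smul_fst, Th_smul_snd]
  ring

end lin

theorem nuOf_swap_out (k : E8 K →ₗ[K] E8 K) (x y z u : Vec K) :
    nuOf k x y z u = - nuOf k u y z x := by
  have h := nuOf_self k (x + u) y z
  rw [nuOf_add_left, nuOf_add_right, nuOf_add_right, nuOf_self, nuOf_self, zero_add, add_zero] at h
  exact eq_neg_of_add_eq_zero_left h

/-! ### the vectors of `x`-degree `2` -/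

/-- the indices of `x`-degree `2` -/
def jx (q : Fin 14) : Fin 248 := ix (q + 1)

set_option maxRecDepth 100000 in
theorem xdg_two : ∀ m : Fin 248, xdg m = 2 → ∃ q : Fin 14, m = jx q := by decide +kernel

set_option maxRecDepth 100000 in
theorem xdg_jx : ∀ q : Fin 14, xdg (jx q) = 2 := by decide +kernel

theorem jx_inj {q q' : Fin 14} (h : jx q = jx q') : q = q' := by
  unfold jx ix at h
  simp only [Fin.ofNat, Fin.mk.injEq] at h
  omega

/-- the space of `x`-degree `2` -/
def emb : (Fin 14 → K) →ₗ[K] E8 K where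
  toFun c := ∑ q, c q • eb (jx q)
  map_add' c c' := by simp only [Pi.add_apply, add_smul, Finset.sum_add_distrib]
  map_smul' a c := by simp only [Pi.smul_apply, smul_eq_mul, mul_smul, Finset.smul_sum,
    RingHom.id_apply]

theorem emb_apply_jx (c : Fin 14 → K) (q : Fin 14) : emb c (jx q) = c q := by
  show (∑ q', c q' • (eb (jx q') : E8 K)) (jx q) = c q
  rw [Finset.sum_apply, Finset.sum_eq_single q]
  · simp [eb_apply]
  · intro q' _ h
    rw [Pi.smul_apply, eb_apply, if_neg (fun h' => h (jx_inj h').symm), smul_zero]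
  · intro h
    exact absurd (Finset.mem_univ q) h

theorem emb_sup (c : Fin 14 → K) : Sup xdg 2 (emb c) := by
  intro m hm
  show (∑ q', c q' • (eb (jx q') : E8 K)) m = 0
  rw [Finset.sum_apply]
  refine Finset.sum_eq_zero fun q _ => ?_
  rw [Pi.smul_apply, eb_apply, if_neg, smul_zero]
  rintro rfl
  exact hm (xdg_jx q)

theorem exists_emb {g : E8 K} (hg : Sup xdg 2 g) : g = emb (fun q => g (jx q)) := by
  ext m
  by_cases h : xdg m = 2
  · obtain ⟨q, rfl⟩ := xdg_two m h
    rw [emb_apply_jx]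
  · rw [hg m h, emb_sup _ m h]

/-- partner index -/
theorem B0_nondeg (c : Fin 14 → K) (h : ∀ c', B0 (emb c) (emb c') = 0) : c = 0 := by
  have h1 : ∀ c' : Fin 14 → K, ∑ q : Fin 7, (c (Fin.castAdd 7 q) * c' (Fin.natAdd 7 q) +
      c (Fin.natAdd 7 q) * c' (Fin.castAdd 7 q)) = 0 := by
    intro c'
    have h2 := h c'
    unfold B0 at h2
    rw [neg_eq_zero] at h2
    rw [← h2]
    refine Finset.sum_congr rfl fun q _ => ?_
    have e1 : ix ((q : ℕ) + 1) = jx (Fin.castAdd 7 q) := rfl
    have e2 : ix ((q : ℕ) + 8) = jx (Fin.natAdd 7 q) := by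
      unfold jx
      congr 1
      simp only [Fin.val_natAdd]
      omega
    rw [e1, e2, emb_apply_jx, emb_apply_jx, emb_apply_jx, emb_apply_jx]
  funext m
  refine Fin.addCases (m := 7) (n := 7) (motive := fun m => c m = (0 : Fin 14 → K) m)
    (fun q => ?_) (fun q => ?_) m
  · have h2 := h1 (Pi.single (Fin.natAdd 7 q) 1)
    rw [Finset.sum_eq_single q] at h2
    · simpa [Pi.single_apply, Fin.ext_iff] using h2
    · intro q' _ hq
      have h3 : (Pi.single (Fin.natAdd 7 q) 1 : Fin 14 → K) (Fin.natAdd 7 q') = 0 := by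
        rw [Pi.single_apply, if_neg]
        intro h'
        apply hq
        ext
        have := congrArg Fin.val h'
        simpa using this
      have h4 : (Pi.single (Fin.natAdd 7 q) 1 : Fin 14 → K) (Fin.castAdd 7 q') = 0 := by
        rw [Pi.single_apply, if_neg]
        intro h'
        have := congrArg Fin.val h'
        simp only [Fin.val_castAdd, Fin.val_natAdd] at this
        omega
      rw [h3, h4]
      ring
    · intro h'
      exact absurd (Finset.mem_univ q) h'
  · have h2 := h1 (Pi.single (Fin.castAdd 7 q) 1)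
    rw [Finset.sum_eq_single q] at h2
    · have h4 : (Pi.single (Fin.castAdd 7 q) 1 : Fin 14 → K) (Fin.natAdd 7 q) = 0 := by
        rw [Pi.single_apply, if_neg]
        intro h'
        have := congrArg Fin.val h'
        simp only [Fin.val_castAdd, Fin.val_natAdd] at this
        omega
      rw [h4, mul_zero, zero_add, Pi.single_eq_same, mul_one] at h2
      simpa using h2
    · intro q' _ hq
      have h3 : (Pi.single (Fin.castAdd 7 q) 1 : Fin 14 → K) (Fin.castAdd 7 q') = 0 := by
        rw [Pi.single_apply, if_neg]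
        intro h'
        apply hq
        ext
        have := congrArg Fin.val h'
        simpa using this
      have h4 : (Pi.single (Fin.castAdd 7 q) 1 : Fin 14 → K) (Fin.natAdd 7 q') = 0 := by
        rw [Pi.single_apply, if_neg]
        intro h'
        have := congrArg Fin.val h'
        simp only [Fin.val_castAdd, Fin.val_natAdd] at this
        omega
      rw [h3, h4]
      ring
    · intro h'
      exact absurd (Finset.mem_univ q) h'

end St2

open St2

/-- `im d = ker f` -/
theorem range_d {k : E8 K →ₗ[K] E8 K} (hk : IsAut k) {f : Vec K →ₗ[K] K} (hf : FormOf k f)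
    (hf0 : f ≠ 0) (v : Vec K) (hv : f v = 0) : ∃ g : E8 K, Sup xdg 2 g ∧ p3 (k g) = v := by
  obtain ⟨e, he⟩ : ∃ e, f e = 1 := by
    obtain ⟨e0, he0⟩ : ∃ e0, f e0 ≠ 0 := by
      by_contra hc
      push Not at hc
      exact hf0 (LinearMap.ext hc)
    exact ⟨(f e0)⁻¹ • e0, by rw [map_smul, smul_eq_mul, inv_mul_cancel₀ he0]⟩
  -- the map `d`
  let d : (Fin 14 → K) →ₗ[K] Vec K := p3L ∘ₗ k ∘ₗ emb
  have hd : ∀ c, d c = p3 (k (emb c)) := fun c => rfl
  have hfd : ∀ c, f (d c) = 0 := fun c => hf.comp (emb_sup c)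
  -- the map `l` on the kernel
  let l : (Fin 14 → K) →ₗ[K] (Vec K →ₗ[K] K) :=
    { toFun := fun c =>
        { toFun := fun y => om (k (emb c)) e y
          map_add' := fun y y' => om_add_right _ _ _ _
          map_smul' := fun a y => om_smul_right _ _ _ _ }
      map_add' := fun c c' => by
        ext y
        simp only [map_add, LinearMap.comp_apply, LinearMap.coe_mk, AddHom.coe_mk,
          LinearMap.add_apply, om_add_fst]
      map_smul' := fun a c => by
        ext y
        simp only [map_smul, LinearMap.comp_apply, LinearMap.coe_mk, AddHom.coe_mk,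
          LinearMap.smul_apply, om_smul_fst, RingHom.id_apply, smul_eq_mul] }
  have hl : ∀ c y, l c y = om (k (emb c)) e y := fun c y => rfl
  have hker : ∀ c, d c = 0 → l c = 0 → c = 0 := by
    intro c hc hlc
    apply B0_nondeg c
    intro c'
    have h1 := hf (emb c) (emb c') (emb_sup c) (emb_sup c') e
    rw [he, mul_one] at h1
    rw [← h1]
    unfold Th
    rw [← hd c, hc]
    have h2 := nuOf_d hk hf (emb_sup c) e (d c') e
    rw [← hd c, hc, nuOf_zero_right, he, hfd] at h2
    have h3 := LinearMap.congr_fun hlc (d c')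
    rw [hl, LinearMap.zero_apply] at h3
    have h4 : om (k (emb c)) (d c') e = 0 := by rw [om_swap, h3, neg_zero]
    rw [← hd c', h4, add_zero]
    have := om_smul_left (k (emb c')) 0 0 e
    rwa [zero_smul, zero_mul] at this
  have hle : ∀ c, l c e = 0 := fun c => by rw [hl, om_self]
  -- dimension count
  have h14 : Module.finrank K (LinearMap.range d) + Module.finrank K (LinearMap.ker d) = 14 := by
    rw [LinearMap.finrank_range_add_finrank_ker, Module.finrank_fin_fun]
  have hK : Module.finrank K (LinearMap.ker d) ≤ 7 := by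
    -- inject the kernel into the functionals killing `e`
    let ev : (Vec K →ₗ[K] K) →ₗ[K] K := LinearMap.applyₗ e
    have hev : Module.finrank K (LinearMap.ker ev) = 7 := by
      have h1 := LinearMap.finrank_range_add_finrank_ker ev
      have h2 : LinearMap.range ev = ⊤ := by
        rw [LinearMap.range_eq_top]
        intro a
        refine ⟨a • f, ?_⟩
        show (a • f) e = a
        rw [LinearMap.smul_apply, he, smul_eq_mul, mul_one]
      rw [h2, finrank_top, Module.finrank_self] at h1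
      have h3 : Module.finrank K (Vec K →ₗ[K] K) = 8 := by
        have := Subspace.dual_finrank_eq (K := K) (V := Vec K)
        rw [Module.finrank_fin_fun] at this
        exact this
      omega
    let j : LinearMap.ker d →ₗ[K] LinearMap.ker ev :=
      (l ∘ₗ (LinearMap.ker d).subtype).codRestrict (LinearMap.ker ev) (fun c => hle c)
    have hj : Function.Injective j := by
      rw [injective_iff_map_eq_zero]
      intro c hc
      have h1 : l c = 0 := congrArg Subtype.val hc
      exact Subtype.ext (hker c c.2 h1)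
    rw [← hev]
    exact LinearMap.finrank_le_finrank_of_injective hj
  have hkf : Module.finrank K (LinearMap.ker f) = 7 := by
    have h1 := LinearMap.finrank_range_add_finrank_ker f
    have h2 : LinearMap.range f = ⊤ := by
      rw [LinearMap.range_eq_top]
      intro a
      exact ⟨a • e, by rw [map_smul, he, smul_eq_mul, mul_one]⟩
    rw [h2, finrank_top, Module.finrank_self, Module.finrank_fin_fun] at h1
    omega
  have hle2 : LinearMap.range d ≤ LinearMap.ker f := by
    rintro _ ⟨c, rfl⟩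
    exact hfd c
  have heq : LinearMap.range d = LinearMap.ker f := by
    apply Submodule.eq_of_le_of_finrank_le hle2
    omega
  have hv' : v ∈ LinearMap.range d := by rw [heq]; exact hv
  obtain ⟨c, hc⟩ := hv'
  exact ⟨emb c, emb_sup c, hc⟩

/-- `f ∧ ν = 0` -/
theorem nuOf_cyc {k : E8 K →ₗ[K] E8 K} (hk : IsAut k) {f : Vec K →ₗ[K] K} (hf : FormOf k f)
    (hf0 : f ≠ 0) (a0 a1 a2 a3 u : Vec K) :
    f u * nuOf k a0 a1 a2 a3 = f a0 * nuOf k u a1 a2 a3 + f a1 * nuOf k a0 u a2 a3 +
      f a2 * nuOf k a0 a1 u a3 + f a3 * nuOf k a0 a1 a2 u := by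
  obtain ⟨e, he⟩ : ∃ e, f e = 1 := by
    obtain ⟨e0, he0⟩ : ∃ e0, f e0 ≠ 0 := by
      by_contra hc
      push Not at hc
      exact hf0 (LinearMap.ext hc)
    exact ⟨(f e0)⁻¹ • e0, by rw [map_smul, smul_eq_mul, inv_mul_cancel₀ he0]⟩
  -- `ν (v, x, y, z) = (f ∧ ω) (x, y, z)` for `v ∈ ker f`
  have hv : ∀ v, f v = 0 → ∃ w : Vec K → Vec K → K, (∀ x y, w x y = - w y x) ∧
      ∀ x y z, nuOf k v x y z = f x * w y z - f y * w x z + f z * w x y := by
    intro v hfv
    obtain ⟨g, hg, rfl⟩ := range_d hk hf hf0 v hfv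
    refine ⟨fun x y => om (k g) x y, fun x y => om_swap _ _ _, fun x y z => ?_⟩
    have h1 := nuOf_d hk hf hg z x y
    rw [nuOf_swap_out, h1, om_swap (k g) z y, om_swap (k g) z x]
    ring
  have hcyc0 : ∀ v a1 a2 a3 u, f v = 0 →
      f u * nuOf k v a1 a2 a3 = f v * nuOf k u a1 a2 a3 + f a1 * nuOf k v u a2 a3 +
      f a2 * nuOf k v a1 u a3 + f a3 * nuOf k v a1 a2 u := by
    intro v a1 a2 a3 u hfv
    obtain ⟨w, hw, h⟩ := hv v hfv
    rw [h, h, h, h, hfv, hw a2 u]
    ring
  have hcyc1 : ∀ a0 v a2 a3 u, f v = 0 →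
      f u * nuOf k a0 v a2 a3 = f a0 * nuOf k u v a2 a3 + f v * nuOf k a0 u a2 a3 +
      f a2 * nuOf k a0 v u a3 + f a3 * nuOf k a0 v a2 u := by
    intro a0 v a2 a3 u hfv
    have h := hcyc0 v a0 a2 a3 u hfv
    rw [nuOf_swap_left k a0 v a2 a3, nuOf_swap_left k u v a2 a3, nuOf_swap_left k a0 v u a3,
      nuOf_swap_left k a0 v a2 u, hfv]
    rw [hfv] at h
    linear_combination -h
  have hee : ∀ a b c, nuOf k a a b c = 0 := by
    intro a b c
    have h1 := nuOf_swap_left k a a b c
    have h2 : (2 : K) * nuOf k a a b c = 0 := by linear_combination h1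
    have h3 : (2 : K) ≠ 0 := by
      have h4 : (algebraMap ℚ K) 2 ≠ 0 := by
        rw [map_ne_zero]
        norm_num
      simpa using h4
    exact (mul_eq_zero.1 h2).resolve_left h3
  -- reduction to the kernel
  have hdec : ∀ a : Vec K, ∃ v, f v = 0 ∧ a = v + f a • e := by
    intro a
    refine ⟨a - f a • e, ?_, by rw [sub_add_cancel]⟩
    rw [map_sub, map_smul, he, smul_eq_mul, mul_one, sub_self]
  obtain ⟨v0, hv0, h0⟩ := hdec a0
  obtain ⟨v1, hv1, h1⟩ := hdec a1
  have key0 := hcyc0 v0 a1 a2 a3 u hv0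
  have key1 := hcyc1 e v1 a2 a3 u hv1
  have hadd : ∀ x x' y z t, nuOf k y (x + x') z t = nuOf k y x z t + nuOf k y x' z t := by
    intro x x' y z t
    rw [nuOf_swap_left k y (x + x'), nuOf_add_left, nuOf_swap_left k y x, nuOf_swap_left k y x']
    ring
  have hsm : ∀ c x y z t, nuOf k y (c • x) z t = c * nuOf k y x z t := by
    intro c x y z t
    rw [nuOf_swap_left k y (c • x), nuOf_smul_left, nuOf_swap_left k y x]
    ring
  have key1' : f u * nuOf k e a1 a2 a3 = f e * nuOf k u a1 a2 a3 + f a1 * nuOf k e u a2 a3 +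
      f a2 * nuOf k e a1 u a3 + f a3 * nuOf k e a1 a2 u := by
    have e1 : ∀ y z t, nuOf k y a1 z t = nuOf k y v1 z t + f a1 * nuOf k y e z t := by
      intro y z t
      conv_lhs => rw [h1]
      rw [hadd, hsm]
    rw [e1 e a2 a3, e1 u a2 a3, e1 e u a3, e1 e a2 u, hee, hee, hee, nuOf_swap_left k u e a2 a3, he]
    rw [hv1, he] at key1
    linear_combination key1
  have e0 : ∀ y z t, nuOf k a0 y z t = nuOf k v0 y z t + f a0 * nuOf k e y z t := by
    intro y z t
    conv_lhs => rw [h0]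
    rw [nuOf_add_left, nuOf_smul_left]
  rw [e0 a1 a2 a3, e0 u a2 a3, e0 a1 u a3, e0 a1 a2 u]
  rw [he, one_mul] at key1'
  rw [hv0, zero_mul, zero_add] at key0
  linear_combination key0 + f a0 * key1'

namespace St2

theorem br_tri_om (x y z : Vec K) (Y : E8 K) (u : Vec K) :
    om (br (tri x y z) Y) x u = 0 ∧ om (br (tri x y z) Y) y u = 0 ∧
      om (br (tri x y z) Y) z u = 0 := by
  refine ⟨om_tri x y z Y u, ?_, ?_⟩
  · rw [tri_swap_left, br_neg_left, ← neg_one_smul K (br (tri y x z) Y), om_smul_fst, om_tri,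
      mul_zero]
  · rw [tri_swap_right, br_neg_left, ← neg_one_smul K (br (tri x z y) Y), om_smul_fst,
      tri_swap_left, br_neg_left, ← neg_one_smul K (br (tri z x y) Y), om_smul_fst, om_tri,
      mul_zero, mul_zero]

theorem p3_br_br (x y z : Vec K) (Y : E8 K) : p3 (br (tri x y z) (br (tri x y z) Y)) = 0 := by
  rw [p3_tri]
  obtain ⟨h1, h2, h3⟩ := br_tri_om x y z Y z
  obtain ⟨h4, h5, h6⟩ := br_tri_om x y z Y y
  rw [h2, h1, h4, zero_smul, zero_smul, zero_smul]
  simp

theorem p3_pow (x y z : Vec K) (Y : E8 K) (n : ℕ) :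
    p3 (((brL (tri x y z)) ^ (n + 2)) Y) = 0 := by
  have h : ((brL (tri x y z)) ^ (n + 2)) Y =
      br (tri x y z) (br (tri x y z) (((brL (tri x y z)) ^ n) Y)) := by
    rw [pow_succ', pow_succ']
    rfl
  rw [h, p3_br_br]

theorem om_pow (x y z : Vec K) (Y u : _) (n : ℕ) :
    om (((brL (tri x y z)) ^ (n + 1)) Y) u x = 0 := by
  have h : ((brL (tri x y z)) ^ (n + 1)) Y =
      br (tri x y z) (((brL (tri x y z)) ^ n) Y) := by
    rw [pow_succ']
    rfl
  rw [h, om_swap, om_tri, neg_zero]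

theorem p3_ex_tri (x y z : Vec K) (Y : E8 K) :
    p3 (ex (tri x y z) Y) = p3 Y + p3 (br (tri x y z) Y) := by
  rw [ex_apply, ← p3L_apply, map_sum, Finset.sum_range_succ', Finset.sum_range_succ']
  have h1 : ∀ n ∈ Finset.range 5, p3L (algebraMap ℚ K ((((n + 1 + 1).factorial : ℕ) : ℚ)⁻¹) •
      ((brL (tri x y z)) ^ (n + 1 + 1)) Y) = 0 := by
    intro n _
    rw [map_smul, p3L_apply, p3_pow, smul_zero]
  rw [Finset.sum_eq_zero h1, zero_add]
  simp only [zero_add, Nat.factorial_one, Nat.factorial_zero, Nat.cast_one, inv_one, map_one,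
    one_smul, pow_one, pow_zero, brL_apply, p3L_apply, Module.End.one_apply]
  rw [add_comm]

theorem om_ex_tri (x y z : Vec K) (Y : E8 K) (u : Vec K) :
    om (ex (tri x y z) Y) u x = om Y u x := by
  rw [ex_apply, ← omL_apply, map_sum, Finset.sum_range_succ']
  have h1 : ∀ n ∈ Finset.range 6, omL u x (algebraMap ℚ K ((((n + 1).factorial : ℕ) : ℚ)⁻¹) •
      ((brL (tri x y z)) ^ (n + 1)) Y) = 0 := by
    intro n _
    rw [map_smul, omL_apply, om_pow, smul_zero]
  rw [Finset.sum_eq_zero h1, zero_add]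
  simp only [Nat.factorial_zero, Nat.cast_one, inv_one, map_one, one_smul, pow_zero,
    Module.End.one_apply, omL_apply]

theorem tri_nil (x y z : Vec K) : (brL (tri x y z)) ^ 7 = 0 := by
  apply ad_nil_pos
  intro m hm
  exact tri_sup x y z m (by omega)

theorem form_eq {k : E8 K →ₗ[K] E8 K} {f : Vec K →ₗ[K] K} (hf : FormOf k f) (u : Vec K) :
    f u = - Th (k (eb (ix 1))) (k (eb (ix 8))) u := by
  have h1 : Sup xdg 2 (eb (ix 1) : E8 K) := by
    intro m hm
    rw [eb_apply, if_neg]
    rintro rfl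
    exact hm (xdg_jx 0)
  have h8 : Sup xdg 2 (eb (ix 8) : E8 K) := by
    intro m hm
    rw [eb_apply, if_neg]
    rintro rfl
    exact hm (xdg_jx 7)
  rw [hf _ _ h1 h8]
  have hB : B0 (eb (ix 1) : E8 K) (eb (ix 8)) = -1 := by
    unfold B0
    congr 1
    rw [Finset.sum_eq_single 0]
    · simp [eb_apply, ix, Fin.ext_iff]
    · intro q _ hq
      have hq' : (q : ℕ) ≠ 0 := fun h => hq (Fin.ext h)
      have hq2 : (q : ℕ) < 7 := q.2
      have e1 : (eb (ix 1) : E8 K) (ix ((q : ℕ) + 1)) = 0 := by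
        rw [eb_apply, if_neg]
        intro h
        have := congrArg Fin.val h
        simp only [ix, Fin.ofNat] at this
        omega
      have e2 : (eb (ix 1) : E8 K) (ix ((q : ℕ) + 8)) = 0 := by
        rw [eb_apply, if_neg]
        intro h
        have := congrArg Fin.val h
        simp only [ix, Fin.ofNat] at this
        omega
      rw [e1, e2]
      ring
    · intro h
      exact absurd (Finset.mem_univ _) h
  rw [hB]
  ring

end St2

/-- the move -/
theorem FormOf.move {k : E8 K →ₗ[K] E8 K} (hk : IsAut k) {f : Vec K →ₗ[K] K} (hf : FormOf k f)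
    (x y z : Vec K) (hx : f x ≠ 0) {f' : Vec K →ₗ[K] K} (hf' : FormOf (ex (tri x y z) ∘ₗ k) f')
    (u : Vec K) : f' u = f u + nuOf k x y z u := by
  have haut : IsAut (ex (tri x y z) ∘ₗ k) := by
    have h1 := ex_isAut (tri_nil x y z)
    exact ⟨h1.bij.comp hk.bij, fun a b => by
      rw [LinearMap.comp_apply, hk.map_br, h1.map_br]; rfl⟩
  have hfx : f' x = f x := by
    rw [form_eq hf', form_eq hf]
    have h0 := nuOf_self k x y z
    unfold nuOf at h0
    rw [neg_eq_zero] at h0
    simp only [LinearMap.comp_apply]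
    unfold Th at h0 ⊢
    simp only [om_ex_tri, p3_ex_tri, om_add_left]
    have h2 : ∀ Y v, om (br (tri x y z) Y) v x = 0 := by
      intro Y v
      rw [om_swap, om_tri, neg_zero]
    rw [h2, h2] at h0
    linear_combination -h0
  have hf'0 : f' ≠ 0 := by
    intro h
    rw [h, LinearMap.zero_apply] at hfx
    exact hx hfx.symm
  -- `φ = f + ν (x, y, z, ·)`
  let φ : Vec K →ₗ[K] K :=
    { toFun := fun u => f u + nuOf k x y z u
      map_add' := fun u u' => by rw [map_add, nuOf_add_right]; ring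
      map_smul' := fun c u => by
        rw [map_smul, nuOf_smul_right, smul_eq_mul, RingHom.id_apply, smul_eq_mul]; ring }
  have hφ : ∀ u, φ u = f u + nuOf k x y z u := fun _ => rfl
  have hνx : nuOf k x y z x = 0 := nuOf_self k x y z
  have hνy : nuOf k x y z y = 0 := by
    rw [nuOf_swap_left, nuOf_self, neg_zero]
  have hνz : nuOf k x y z z = 0 := by
    rw [nuOf_swap_right, nuOf_swap_left, nuOf_self, neg_zero, neg_zero]
  have hker : ∀ v, f' v = 0 → φ v = 0 := by
    intro v hv
    obtain ⟨g, hg, rfl⟩ := range_d haut hf' hf'0 v hv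
    rw [LinearMap.comp_apply, p3_ex_tri, hφ, map_add, nuOf_add_right, hf.comp hg, p3_tri]
    have h1 := nuOf_d hk hf hg x y z
    have h2 : ∀ a b c : K, nuOf k x y z (a • x - b • y + c • z) = 0 := by
      intro a b c
      rw [sub_eq_add_neg, ← neg_smul, nuOf_add_right, nuOf_add_right, nuOf_smul_right,
        nuOf_smul_right, nuOf_smul_right, hνx, hνy, hνz]
      ring
    rw [h2, h1, map_add, map_sub, map_smul, map_smul, map_smul]
    simp only [smul_eq_mul]
    ring
  have h3 : φ (f' x • u - f' u • x) = 0 := by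
    apply hker
    rw [map_sub, map_smul, map_smul, smul_eq_mul, smul_eq_mul]
    ring
  rw [map_sub, map_smul, map_smul, hφ u, hφ x, hνx, add_zero, hfx] at h3
  simp only [smul_eq_mul] at h3
  have h4 : f x * (f u + nuOf k x y z u - f' u) = 0 := by linear_combination h3
  have h5 := (mul_eq_zero.1 h4).resolve_left hx
  linear_combination -h5

end L8

end Pool.Agent.Licci

end
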