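import Mathlib

section

/-!
# LICCI: the Lie algebra `e_8` as an explicit table

Basis indices `0 .. 247`.  `0..239` are the 240 roots, written as vectors `b = (b_0,..,b_7)` of integers
with `∑ b_q = 3 a`, `∑ b_q ^ 2 - a ^ 2 = 2` (`a` is the `z`-degree); `240 + q` is the simple coroot
`h_q`, which acts on the root vector of `b` by `b_q - b_(q+1)` (`q < 7`), `b_5 + b_6 + b_7 - a` (`q = 7`).
All structure constants are integers.

* `0..7`     degree `3`  : `b = (1,..,2_i,..,1)`           (`F`)
* `8..35`    degree `2`  : `b = 1` except `0` at `i < j`   (`Λ² F^*`)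
* `36..91`   degree `1`  : `b = 1` at `i < j < k` else `0` (`Λ³ F`)
* `92..147`  degree `0`  : `b_i = 1, b_j = -1`             (`gl(F)`)
* `148..203` degree `-1`, `204..231` degree `-2`, `232..239` degree `-3`: negatives, same order.
-/

namespace Pool.Agent.Licci

/-- codes `∑ (b_q + 2) * 16 ^ q`, 32 bits each, of the basis vectors (Cartan: `b = 0`) -/
def C16 : ℕ := 0x2222222222222222222222222222222222222222222222222222222222222222011111111011111111011111111011111111011111111011111111011111111022111111212111111221111121121111121211111122111121112111121121111121211111122111211112111211121111211211111212111111221121111121121111211121112111121121111121211111122121111112121111121121111211121112111121121111121211111122111222221121222212112222211122221122122212121222211212221221122221211222221112221122212212122122211221221221212221212122221121221222112221221122221211222221112211222212121222122112221212212212212122122211221212221212212212122212121222211212122221122122211222122112222121122222111211222221121222212112222112212221212122212211222112221221212212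212212122122211221122221212122212122122121222121212222112112222211212222112212221122212211222212112222211131222222321222223221222232221222322221223222221232222221132222222312222223212222232212222322212223222212232222211232222221322222223122222232122222322122223222122232222112232222212322222213222222231222222321222223221222232221122232222122322222123222222132222222312222223212222232211222232221222322221223222221232222221322222223122222232112222232212222322212223222212232222212322222213222222231122222232122222322122223222122232222122322222123222222133332222233232222323322222333222233223222323232222332322232233222232332222233322233222322323223222332232232232322232323222233232232223322232233222232332222233322332222323232223223322232322322322323223222332232322232322322323222323232222332323222233223222332223223322223233222223332332222233232222323322223322322232323222322332223322232232322322322323223222332233222232323222323223223232223232322223323322222332322223322322233222322332222323322222333223333332323333332233333233233333232333333223333233323333233233333232333333223332333323332333233332332333332323333332233233333233233332333233323333233233333232333333223233333323233333233233332333233323333233233333232333333224333333334333333334333333334333333334333333334333333334333333334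

/-- hash table: index of the root whose code `+ off` is `s`, 8 bits at position `s % 763` -/
def HT : ℕ := 0x3affffffffffffffffffffffffffa62bffffffffffff69ffffffffffffb5ff018bffffffd462ffffffff42e34a4100ffffffffce5affff999d33ffff32d3ffff08ffffffffff3dacffff88ffcdffffffffa1ffffff2e55ffffffffff66ffffffb0ffff89ffffffd6ffffff5fff22ff4f46e7ffffffffd0ff7effff75ff96ff37ff04ffffffffdeffffffffffffffff54ffffffff6effff19ffffffffffffffdaffffffffff73ffff4effc9ffffffff631dffb91effefffffffffffffffffffffffffffffffffff07ffe249ffe15cffffffff59ffbeffff6cffffffffff16ffffffffffffffddffff81ffffffffc4ffffffffffffffff1affffffffecffa7ff26ff82ffff91ff0cffffffff23b6bfffe6ff78ffffff12ffffff76ffff40ffffff79ffffffffffc59effffff31ffffffff09ff6fffff3cadffffffffffccffff0fa2ffffa32d29ffffca0affffffffe8b1ba1fb2ffffffff8d10ffffff84e9ff45ffffffffffff8effffffffffff9b36ffffffffffffffffffffffffffaaff53ffffffffff67ff9fffffffffffffffffd539ffff60ffaeff4d44ffffa8ffffcf2affffffff0d97ff35ffffb7ffff8c64ffffffff13ffff06ffffff3fe0ff5dffffff58ffff57ffff65ff30ffffffffff94ffffff3bdcd85effffffffffff51f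fffffa42cffd2ff7cff95ffffffffffffffb3ff488affffffffffffffffc0ffe5ffffffffffff17ff5b77ffffffffffffff7a03ffffffc6ffffffffffff52ff1bffff7068edffffffffff7b02ff92ffffd9ff61ffff284cffe44bffffffffffffbb20ffbc98ffff86ff15ffff85ffea74ffffffffff05878fffffdfffc2ffffffffffff56ffffffeb6dffffffffffffff90cbffdbffffffffffff21ff50ffffffffffffffff7db8ff43ffffffffffffff25ff83ff0eff9c34ffffffc1ffffffffffff711418abffffff24ffffffffffa0ff72ffffc7ffffc8ffffff6aff1cafffffffeeffffd7ffffffff6b93ffff47ffffa5ff27d1ffffffff9a0bffff38ffffb4bdff3eff7fffffa911ffffffffffffffff2fff80ffffffffffc3ff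

/-- parity masks of the roots, 8 bits each -/
def BM : ℕ := 0x7fbfdfeff7fbfdfe3f5f9f6fafcf77b7d7e77bbbdbebf37dbdddedf5f97ebedeeef6fafce0d0b070c8a868985838c4a4649454348c4c2c1cc2a2629252328a4a2a1a864626160ec1a16191513189492919854525150d834323130b07c0a09088848281c0605048444241a060302824222190503018141211884828180c0a09844424140c0605824222120a060381412111090503e0d0b070c8a868985838c4a4649454348c4c2c1cc2a2629252328a4a2a1a864626160ec1a16191513189492919854525150d834323130b073f5f9f6fafcf77b7d7e77bbbdbebf37dbdddedf5f97ebedeeef6fafc7fbfdfeff7fbfdfe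

/-- prefix-parity masks of the roots, 8 bits each -/
def PM : ℕ := 0xaa2a6a4a5a5256542a6aea4aca8a5ada9aba52d292b2a256d696b6a6ae54d494b4a4aca8406020a07030b01090d07838b81898d80888c8e87c3cbc1c9cdc0c8cccec0484c4e4f47e3ebe1e9ede0e8eceee0686c6e6f60282c2e2f2fa80c0e0f0f8fcfe80406070787c7ec0402030383c3ee0602010181c1ef0703010080c0ef8783818080406fc7c3c1c0c0402fe7e3e1e0e0602406020a07030b01090d07838b81898d80888c8e87c3cbc1c9cdc0c8cccec0484c4e4f47e3ebe1e9ede0e8eceee0686c6e6f60282c2e2f2fa2a6aea4aca8a5ada9aba52d292b2a256d696b6a6ae54d494b4a4aca8aa2a6a4a5a525654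

/-- parities of `0..255` -/
def PAR : ℕ := 0x6996966996696996966969966996966996696996699696696996966996696996

/-- code of the zero vector -/
def off : ℕ := 0x22222222

/-- code of the `i`-th basis vector -/
def cd (i : ℕ) : ℕ := Nat.mod (Nat.shiftRight C16 (Nat.mul 32 i)) 4294967296

/-- `k < 240` with `cd k + off = s` if there is one, else `255` -/
def fnd (s : ℕ) : ℕ :=
  let k := Nat.mod (Nat.shiftRight HT (Nat.mul 8 (Nat.mod s 763))) 256
  bif Nat.blt k 240 then (bif Nat.beq (Nat.add (cd k) off) s then k else 255) else 255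

/-- `b_q + 2` -/
def dg (i q : ℕ) : ℕ := Nat.mod (Nat.shiftRight (cd i) (Nat.mul 4 q)) 16

/-- `b_q` of the `i`-th basis vector -/
def wtN (i q : ℕ) : ℤ := (dg i q : ℤ) - 2

/-- `z`-degree -/
def zdN (i : ℕ) : ℤ :=
  (((dg i 0 + dg i 1 + dg i 2 + dg i 3 + dg i 4 + dg i 5 + dg i 6 + dg i 7 : ℕ) : ℤ) - 16) / 3

/-- sign `(-1)^(∑_(p>q) b_p c_q)`, as a parity -/
def sgB (i j : ℕ) : Bool :=
  Nat.beq (Nat.mod (Nat.shiftRight PAR
    (Nat.land (Nat.mod (Nat.shiftRight BM (Nat.mul 8 i)) 256)
      (Nat.mod (Nat.shiftRight PM (Nat.mul 8 j)) 256))) 2) 1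

/-- eigenvalue of the simple coroot `h_q` on the `i`-th basis vector -/
def prN (i q : ℕ) : ℤ :=
  bif Nat.blt q 7 then wtN i q - wtN i (q + 1) else wtN i 5 + wtN i 6 + wtN i 7 - zdN i

/-- coefficient of the `q`-th simple root in the `i`-th root -/
def coN (i q : ℕ) : ℤ :=
  match q with
  | 0 => wtN i 0
  | 1 => wtN i 0 + wtN i 1
  | 2 => wtN i 0 + wtN i 1 + wtN i 2
  | 3 => wtN i 0 + wtN i 1 + wtN i 2 + wtN i 3
  | 4 => wtN i 0 + wtN i 1 + wtN i 2 + wtN i 3 + wtN i 4
  | 5 => wtN i 0 + wtN i 1 + wtN i 2 + wtN i 3 + wtN i 4 + wtN i 5 - zdN i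
  | 6 => wtN i 0 + wtN i 1 + wtN i 2 + wtN i 3 + wtN i 4 + wtN i 5 + wtN i 6 - 2 * zdN i
  | _ => zdN i

/-- `[e_i, e_j]` as a sparse vector -/
def sp (i j : ℕ) : List (ℕ × ℤ) :=
  bif Nat.blt i 240 then
    bif Nat.blt j 240 then
      let s := Nat.add (cd i) (cd j)
      let k := fnd s
      bif Nat.blt k 240 then (bif sgB i j then [(k, -1)] else [(k, 1)])
      else bif Nat.beq s 1145324612 then
        [(240, -coN i 0), (241, -coN i 1), (242, -coN i 2), (243, -coN i 3),
         (244, -coN i 4), (245, -coN i 5), (246, -coN i 6), (247, -coN i 7)]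
      else []
    else [(i, -prN i (j - 240))]
  else
    bif Nat.blt j 240 then [(j, prN j (i - 240))]
    else []

/-- coefficient of `k` in a sparse vector -/
def cf (L : List (ℕ × ℤ)) (k : ℕ) : ℤ :=
  L.foldr (fun p s => bif Nat.beq p.1 k then p.2 + s else s) 0

/-- structure constants -/
def scN (i j k : ℕ) : ℤ := cf (sp i j) k

/-- the integer is zero -/
def isz (n : ℤ) : Bool := match n with
  | Int.ofNat m => Nat.beq m 0
  | Int.negSucc _ => false

/-- all coefficients vanish -/
def zr (L : List (ℕ × ℤ)) : Bool := L.all (fun p => isz (cf L p.1))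

/-- left multiplication by `g` of a sparse vector -/
def lm (g : ℕ) (L : List (ℕ × ℤ)) : List (ℕ × ℤ) :=
  L.flatMap (fun p => (sp g p.1).map (fun q => (q.1, p.2 * q.2)))

/-- right multiplication -/
def rm (L : List (ℕ × ℤ)) (g : ℕ) : List (ℕ × ℤ) :=
  L.flatMap (fun p => (sp p.1 g).map (fun q => (q.1, p.2 * q.2)))

/-- negation of a sparse vector -/
def ng (L : List (ℕ × ℤ)) : List (ℕ × ℤ) := L.map (fun p => (p.1, -p.2))

/-- `ad g` is a derivation on the pair `j, k` -/
def dv (g j k : ℕ) : Bool := zr (lm g (sp j k) ++ ng (rm (sp g j) k) ++ ng (lm j (sp g k)))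

end Pool.Agent.Licci

end

section

/-! The bracket of `e_8` over a commutative ring, before the Jacobi identity. -/

set_option linter.unusedSectionVars false

namespace Pool.Agent.Licci

open scoped BigOperators

theorem cf_nil (k : ℕ) : cf [] k = 0 := rfl

theorem cf_cons (p : ℕ × ℤ) (L : List (ℕ × ℤ)) (k : ℕ) :
    cf (p :: L) k = (if p.1 = k then p.2 else 0) + cf L k := by
  simp only [cf, List.foldr]
  split_ifs with h
  · rw [show Nat.beq p.1 k = true from by simpa using h, cond_true]
  · rw [show Nat.beq p.1 k = false from by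
      rw [Bool.eq_false_iff]; simpa using h, cond_false, zero_add]

theorem isz_iff (n : ℤ) : isz n = true ↔ n = 0 := by
  cases n with
  | ofNat m => simp [isz]
  | negSucc m => simp [isz]

theorem cf_append (L L' : List (ℕ × ℤ)) (k : ℕ) : cf (L ++ L') k = cf L k + cf L' k := by
  induction L with
  | nil => simp [cf_nil]
  | cons p L ih => rw [List.cons_append, cf_cons, cf_cons, ih, add_assoc]

theorem cf_ng (L : List (ℕ × ℤ)) (k : ℕ) : cf (ng L) k = - cf L k := by
  induction L with
  | nil => simp [cf_nil, ng]
  | cons p L ih =>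
    rw [ng, List.map_cons, cf_cons, cf_cons]
    rw [ng] at ih
    rw [ih]
    split_ifs <;> simp_all
    ring

theorem cf_eq_zero_of_notMem (L : List (ℕ × ℤ)) (k : ℕ) (h : ∀ p ∈ L, p.1 ≠ k) : cf L k = 0 := by
  induction L with
  | nil => rfl
  | cons p L ih =>
    rw [cf_cons, ih (fun q hq => h q (List.mem_cons_of_mem _ hq)), if_neg (h p List.mem_cons_self)]
    rfl

theorem zr_spec {L : List (ℕ × ℤ)} (h : zr L = true) (k : ℕ) : cf L k = 0 := by
  by_cases hk : ∃ p ∈ L, p.1 = k
  · obtain ⟨p, hp, rfl⟩ := hk
    rw [zr, List.all_eq_true] at h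
    exact (isz_iff _).1 (h p hp)
  · exact cf_eq_zero_of_notMem L k (fun p hp h' => hk ⟨p, hp, h'⟩)

/-- `e_8` over `A`, as a module.  The bracket is `br` (no `LieRing` instance is used: the one which
Mathlib finds on this function space is the zero bracket). -/
abbrev E8 (A : Type*) := Fin 248 → A

variable {A : Type*} [CommRing A]

/-- basis vectors -/
def eb (i : Fin 248) : E8 A := Pi.single i 1

theorem eb_apply (i j : Fin 248) : (eb i : E8 A) j = if j = i then 1 else 0 := by
  simp [eb, Pi.single_apply]

theorem E8.eq_sum (x : E8 A) : x = ∑ i, x i • (eb i : E8 A) := by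
  ext j
  simp [eb_apply]

/-- structure constants -/
def sc (i j k : Fin 248) : ℤ := scN i j k

/-- the bracket -/
def br (x y : E8 A) : E8 A := fun k => ∑ i, ∑ j, (sc i j k : A) * (x i * y j)

theorem br_apply (x y : E8 A) (k : Fin 248) :
    (br x y) k = ∑ i, ∑ j, (sc i j k : A) * (x i * y j) := rfl

theorem br_add_left (x x' y : E8 A) : br (x + x') y = br x y + br x' y := by
  ext k
  simp only [br_apply, Pi.add_apply, add_mul, mul_add, Finset.sum_add_distrib]

theorem br_add_right (x y y' : E8 A) : br x (y + y') = br x y + br x y' := by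
  ext k
  simp only [br_apply, Pi.add_apply, mul_add, Finset.sum_add_distrib]

theorem br_smul_left (c : A) (x y : E8 A) : br (c • x) y = c • br x y := by
  ext k
  simp only [br_apply, Pi.smul_apply, smul_eq_mul, Finset.mul_sum]
  refine Finset.sum_congr rfl fun i _ => Finset.sum_congr rfl fun j _ => ?_
  ring

theorem br_smul_right (c : A) (x y : E8 A) : br x (c • y) = c • br x y := by
  ext k
  simp only [br_apply, Pi.smul_apply, smul_eq_mul, Finset.mul_sum]
  refine Finset.sum_congr rfl fun i _ => Finset.sum_congr rfl fun j _ => ?_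
  ring

/-- the bracket as a bilinear map -/
def brL : E8 A →ₗ[A] E8 A →ₗ[A] E8 A :=
  LinearMap.mk₂ A br br_add_left br_smul_left br_add_right br_smul_right

@[simp] theorem brL_apply (x y : E8 A) : brL x y = br x y := rfl

@[simp] theorem br_zero_left (y : E8 A) : br 0 y = 0 := by
  simpa using br_smul_left (0 : A) 0 y

@[simp] theorem br_zero_right (x : E8 A) : br x 0 = 0 := by
  simpa using br_smul_right (0 : A) x 0

theorem br_neg_left (x y : E8 A) : br (-x) y = - br x y := by
  simpa using br_smul_left (-1 : A) x y

theorem br_neg_right (x y : E8 A) : br x (-y) = - br x y := by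
  simpa using br_smul_right (-1 : A) x y

theorem br_sub_left (x x' y : E8 A) : br (x - x') y = br x y - br x' y := by
  rw [sub_eq_add_neg, br_add_left, br_neg_left, sub_eq_add_neg]

theorem br_sub_right (x y y' : E8 A) : br x (y - y') = br x y - br x y' := by
  rw [sub_eq_add_neg, br_add_right, br_neg_right, sub_eq_add_neg]

theorem br_eb_eb (i j : Fin 248) (k : Fin 248) :
    (br (eb i : E8 A) (eb j)) k = (sc i j k : A) := by
  simp [br_apply, eb_apply]

theorem br_sum_left {ι : Type*} (s : Finset ι) (x : ι → E8 A) (y : E8 A) :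
    br (∑ i ∈ s, x i) y = ∑ i ∈ s, br (x i) y := by
  have h := congrArg (fun f => f y) (map_sum (brL (A := A)) x s)
  rw [LinearMap.sum_apply] at h
  exact h

theorem br_sum_right {ι : Type*} (s : Finset ι) (x : E8 A) (y : ι → E8 A) :
    br x (∑ i ∈ s, y i) = ∑ i ∈ s, br x (y i) :=
  map_sum (brL (A := A) x) y s

/-- two linear maps out of `E8 A` agree if they agree on the basis -/
theorem E8.hom_ext {M : Type*} [AddCommMonoid M] [Module A M] {f g : E8 A →ₗ[A] M}
    (h : ∀ i, f (eb i) = g (eb i)) : f = g := by
  refine LinearMap.ext fun x => ?_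
  rw [E8.eq_sum x, map_sum, map_sum]
  refine Finset.sum_congr rfl fun i _ => ?_
  rw [map_smul, map_smul, h]

end Pool.Agent.Licci

end
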